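import Pool.Agent.H91.QU.Pos

/-!
[H91 QU CHA]  (MP_bcc40c_pr, Q2, part (U))  Many contacts give a long chain of nested chords.

Positions `pos z = pos τ o z`; `pos o = 0`, let `m = pos τ o d2 > 0` (`d2 ≠ o` as `¬ R o d2`).  By cell1 (`p = o`, `q = d2`): for `s, t ∈ Z`: `¬ (τ * swap o d2).SameCycle s t` iff exactly one of `s, t` has `0 < pos ≤ m`.
PROOF.  Contacts `(s, t)` with `s` in the class of `o` or `d2`: then `t` also (if `R s t` or by the second alternative), at most `(2 M)^2 = 4 M^2` pairs.  The other contacts satisfy `R s t` and are in classes different from those of `o` and `d2`.  Let `W ⊆ Z` be a set of representatives of the classes (different from the classes of `o`, `d2`) which contain a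
contact, `K = #W`: at most `K M^2` contacts of the second kind (the pair is in (class)^2).  For each `w ∈ W` choose a contact `(s_w, t_w)` in its class with `0 < pos s_w ≤ m` and `¬ (0 < pos t_w ≤ m)` (exchange `s` and `t` if necessary); as they are not in the classes of `o`, `d2`: `0 < pos s_w < m < pos t_w`.
Nested: for `w ≠ w'` use `hnc` with `p = s_w`, `q = t_w`, `s = s_w'`, `t = t_w'` (`R s_w t_w`, `R s_w' t_w'`, `¬ R s_w' s_w`): `(τ * swap s_w t_w).SameCycle s_w' t_w'`, by cell1: `(pos s_w < pos s_w' ∧ pos s_w' ≤ pos t_w) ↔ (pos s_w < pos t_w' ∧ pos t_w' ≤ pos t_w)`; as `pos s_w' < m < pos t_w` and `pos s_w < m < pos t_w'`: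
`pos s_w < pos s_w' ↔ pos t_w' ≤ pos t_w`, and the positions of different darts are different (pos_inj).
Sort `W` by `pos s_w` (e.g. `Finset.orderEmbOfFin` of the image of `W` in ℕ, and the inverse map) to get the sequences `s, t : ℕ → D` (anything for `i ≥ K`).
-/

set_option autoImplicit false

namespace QU91

open Equiv HG39 QD39 QL40

variable {D : Type} [Fintype D] [DecidableEq D]

open Classical in
theorem chain {τ : Perm D} {R : D → D → Prop} (hR : Equivalence R) (Z : Finset D) {o d2 : D}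
    (ho : o ∈ Z) (hd2 : d2 ∈ Z) (hτ : ∀ z ∈ Z, τ.SameCycle o z) (hn : ¬ R o d2) (M : ℕ)
    (hM : ∀ z ∈ Z, (Z.filter fun w => R z w).card ≤ M)
    (hnc : ∀ p ∈ Z, ∀ q ∈ Z, ∀ s ∈ Z, ∀ t ∈ Z, p ≠ q → R p q → R s t → ¬ R s p →
      (τ * swap p q).SameCycle s t) :
    ∃ (K : ℕ) (s t : ℕ → D),
      {c : D × D | c.1 ∈ Z ∧ c.2 ∈ Z ∧
        (R c.1 c.2 ∨ ((R c.1 o ∨ R c.1 d2) ∧ (R c.2 o ∨ R c.2 d2))) ∧
        ¬ (τ * swap o d2).SameCycle c.1 c.2}.ncard ≤ (K + 4) * M ^ 2 ∧
      (∀ i < K, s i ∈ Z ∧ t i ∈ Z ∧ R (s i) (t i) ∧ pos τ o (s i) < pos τ o d2 ∧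
        pos τ o d2 < pos τ o (t i)) ∧
      (∀ i j, i < j → j < K → pos τ o (s i) < pos τ o (s j) ∧ pos τ o (t j) < pos τ o (t i) ∧
        ¬ R (s j) (s i)) := by
  set m := pos τ o d2 with hm
  have hpo : pos τ o o = 0 := pos_self
  have hod2 : o ≠ d2 := fun h => hn (h ▸ hR.refl o)
  have hm0 : 0 < m := by
    rcases Nat.eq_zero_or_pos m with h | h
    · exact absurd (pos_inj (Perm.SameCycle.refl τ o) (hτ d2 hd2) (by rw [hpo, ← hm, h])) hod2
    · exact h
  have hcell : ∀ s ∈ Z, ∀ t ∈ Z, (τ * swap o d2).SameCycle s t ↔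
      ((0 < pos τ o s ∧ pos τ o s ≤ m) ↔ (0 < pos τ o t ∧ pos τ o t ≤ m)) := by
    intro s hs t ht
    have h := cell1 (τ := τ) (o := o) (p := o) (q := d2) (s := s) (t := t)
      (Perm.SameCycle.refl τ o) (hτ d2 hd2) (hτ s hs) (hτ t ht) (by rw [hpo]; exact hm0)
    rw [hpo] at h
    exact h
  set In : D → Prop := fun z => 0 < pos τ o z ∧ pos τ o z ≤ m with hIn
  let cl : D → Finset D := fun z => Z.filter fun w => R z w
  have hcl : ∀ z ∈ Z, (cl z).card ≤ M := hM
  let S1 : Finset D := Z.filter fun z => In z ∧ ¬ (R z o ∨ R z d2) ∧ ∃ t ∈ Z, R z t ∧ ¬ In t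
  obtain ⟨T, hTS, hTinj, hTim⟩ := (Set.surjOn_image cl (S1 : Set D)).exists_subset_injOn_image_eq
  have hTfin : T.Finite := (Finset.finite_toSet S1).subset hTS
  have hTm : ∀ w ∈ T, w ∈ Z ∧ In w ∧ ¬ (R w o ∨ R w d2) ∧ ∃ t ∈ Z, R w t ∧ ¬ In t := by
    intro w hw
    have := hTS hw
    simpa [S1] using this
  let U : Finset ℕ := hTfin.toFinset.image (pos τ o)
  have hUc : U.card = hTfin.toFinset.card := by
    apply Finset.card_image_of_injOn
    intro a ha b hb hab
    have ha' : a ∈ T := hTfin.mem_toFinset.1 (Finset.mem_coe.1 ha)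
    have hb' : b ∈ T := hTfin.mem_toFinset.1 (Finset.mem_coe.1 hb)
    exact pos_inj (hτ a (hTm a ha').1) (hτ b (hTm b hb').1) hab
  have hex : ∀ i : Fin U.card, ∃ w ∈ T, pos τ o w = U.orderEmbOfFin rfl i := by
    intro i
    have h := U.orderEmbOfFin_mem rfl i
    obtain ⟨w, hw, he⟩ := Finset.mem_image.1 h
    exact ⟨w, hTfin.mem_toFinset.1 hw, he⟩
  choose g hgT hgp using hex
  have hext : ∀ i : Fin U.card, ∃ t ∈ Z, R (g i) t ∧ ¬ In t := fun i => (hTm _ (hgT i)).2.2.2
  choose g' hg'Z hg'R hg'I using hext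
  have hgZ : ∀ i, g i ∈ Z := fun i => (hTm _ (hgT i)).1
  have hglt : ∀ i, pos τ o (g i) < m := by
    intro i
    have h1 := (hTm _ (hgT i)).2.1.2
    rcases Nat.lt_or_ge (pos τ o (g i)) m with h | h
    · exact h
    · exfalso
      have h2 : g i = d2 := pos_inj (hτ _ (hgZ i)) (hτ d2 hd2) (le_antisymm h1 h)
      exact (hTm _ (hgT i)).2.2.1 (Or.inr (h2 ▸ hR.refl _))
  have hg'gt : ∀ i, m < pos τ o (g' i) := by
    intro i
    by_contra h
    apply hg'I i
    refine ⟨?_, not_lt.1 h⟩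
    rcases Nat.eq_zero_or_pos (pos τ o (g' i)) with h0 | h0
    · exfalso
      have h2 : g' i = o := pos_inj (hτ _ (hg'Z i)) (hτ o ho) (by rw [h0, hpo])
      apply (hTm _ (hgT i)).2.2.1
      left
      rw [← h2]
      exact hg'R i
    · exact h0
  have hgmono : ∀ i j : Fin U.card, i < j → pos τ o (g i) < pos τ o (g j) := by
    intro i j hij
    rw [hgp, hgp]
    exact (U.orderEmbOfFin rfl).strictMono hij
  have hgnR : ∀ i j : Fin U.card, i < j → ¬ R (g j) (g i) := by
    intro i j hij hRR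
    have he : cl (g j) = cl (g i) := by
      apply Finset.filter_congr
      intro w _
      exact ⟨fun h => hR.trans (hR.symm hRR) h, fun h => hR.trans hRR h⟩
    have h1 := hTinj (hgT j) (hgT i) he
    have h2 := hgmono i j hij
    rw [h1] at h2
    exact lt_irrefl _ h2
  have hgnest : ∀ i j : Fin U.card, i < j → pos τ o (g' j) < pos τ o (g' i) := by
    intro i j hij
    have hne : g i ≠ g' i := by
      intro h
      have h1 := hglt i
      have h2 := hg'gt i
      rw [← h] at h2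
      omega
    have h1 := hnc (g i) (hgZ i) (g' i) (hg'Z i) (g j) (hgZ j) (g' j) (hg'Z j) hne (hg'R i)
      (hg'R j) (hgnR i j hij)
    have h2 := (cell1 (hτ _ (hgZ i)) (hτ _ (hg'Z i)) (hτ _ (hgZ j)) (hτ _ (hg'Z j))
      ((hglt i).trans (hg'gt i))).1 h1
    have h3 := (h2.1 ⟨hgmono i j hij, ((hglt j).trans (hg'gt i)).le⟩).2
    rcases lt_or_eq_of_le h3 with h | h
    · exact h
    · exfalso
      have h4 : g' j = g' i := pos_inj (hτ _ (hg'Z j)) (hτ _ (hg'Z i)) h
      apply hgnR i j hij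
      have h5 := hg'R j
      rw [h4] at h5
      exact hR.trans h5 (hR.symm (hg'R i))
  refine ⟨U.card, fun i => if h : i < U.card then g ⟨i, h⟩ else o,
    fun i => if h : i < U.card then g' ⟨i, h⟩ else o, ?_, ?_, ?_⟩
  · -- counting
    let A0 : Finset D := Z.filter fun z => R z o ∨ R z d2
    have hA0 : A0.card ≤ 2 * M := by
      have h1 : A0 ⊆ cl o ∪ cl d2 := by
        intro z hz
        have hz' := Finset.mem_filter.1 hz
        rcases hz'.2 with h | h
        · exact Finset.mem_union_left _ (Finset.mem_filter.2 ⟨hz'.1, hR.symm h⟩)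
        · exact Finset.mem_union_right _ (Finset.mem_filter.2 ⟨hz'.1, hR.symm h⟩)
      have h2 := Finset.card_le_card h1
      have h3 := Finset.card_union_le (cl o) (cl d2)
      have h4 := hcl o ho
      have h5 := hcl d2 hd2
      omega
    let B0 : Finset (D × D) := hTfin.toFinset.biUnion fun w => cl w ×ˢ cl w
    have hB0 : B0.card ≤ U.card * M ^ 2 := by
      rw [hUc]
      apply Finset.card_biUnion_le_card_mul
      intro w hw
      have hw' : w ∈ T := hTfin.mem_toFinset.1 hw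
      rw [Finset.card_product, pow_two]
      exact Nat.mul_le_mul (hcl w (hTm w hw').1) (hcl w (hTm w hw').1)
    have hrep : ∀ z ∈ S1, ∃ w ∈ T, R w z := by
      intro z hz
      have h1 : cl z ∈ cl '' (S1 : Set D) := ⟨z, hz, rfl⟩
      rw [← hTim] at h1
      obtain ⟨w, hw, he⟩ := h1
      refine ⟨w, hw, ?_⟩
      have h2 : z ∈ cl z := Finset.mem_filter.2 ⟨(Finset.mem_filter.1 hz).1, hR.refl z⟩
      rw [← he] at h2
      exact (Finset.mem_filter.1 h2).2
    have hsub : {c : D × D | c.1 ∈ Z ∧ c.2 ∈ Z ∧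
        (R c.1 c.2 ∨ ((R c.1 o ∨ R c.1 d2) ∧ (R c.2 o ∨ R c.2 d2))) ∧
        ¬ (τ * swap o d2).SameCycle c.1 c.2} ⊆ ((A0 ×ˢ A0 ∪ B0 : Finset (D × D)) : Set (D × D)) := by
      rintro ⟨s, t⟩ ⟨hs, ht, hc, hnS⟩
      simp only at hs ht hc hnS
      rw [Finset.mem_coe, Finset.mem_union]
      by_cases h0 : R s o ∨ R s d2
      · left
        rw [Finset.mem_product]
        refine ⟨Finset.mem_filter.2 ⟨hs, h0⟩, Finset.mem_filter.2 ⟨ht, ?_⟩⟩
        rcases hc with hc | hc
        · rcases h0 with h0 | h0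
          · exact Or.inl (hR.trans (hR.symm hc) h0)
          · exact Or.inr (hR.trans (hR.symm hc) h0)
        · exact hc.2
      · right
        have hRst : R s t := by
          rcases hc with hc | hc
          · exact hc
          · exact absurd hc.1 h0
        have h0t : ¬ (R t o ∨ R t d2) := by
          rintro (h | h)
          · exact h0 (Or.inl (hR.trans hRst h))
          · exact h0 (Or.inr (hR.trans hRst h))
        have hx : ¬ (In s ↔ In t) := fun h => hnS ((hcell s hs t ht).2 h)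
        have key : ∃ w ∈ T, R w s := by
          by_cases hIs : In s
          · have hIt : ¬ In t := fun h => hx ⟨fun _ => h, fun _ => hIs⟩
            exact hrep s (Finset.mem_filter.2 ⟨hs, hIs, h0, t, ht, hRst, hIt⟩)
          · have hIt : In t := by
              by_contra h
              exact hx ⟨fun h' => absurd h' hIs, fun h' => absurd h' h⟩
            obtain ⟨w, hw, hwt⟩ := hrep t
              (Finset.mem_filter.2 ⟨ht, hIt, h0t, s, hs, hR.symm hRst, hIs⟩)
            exact ⟨w, hw, hR.trans hwt (hR.symm hRst)⟩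
        obtain ⟨w, hw, hws⟩ := key
        refine Finset.mem_biUnion.2 ⟨w, hTfin.mem_toFinset.2 hw, Finset.mem_product.2 ⟨?_, ?_⟩⟩
        · exact Finset.mem_filter.2 ⟨hs, hws⟩
        · exact Finset.mem_filter.2 ⟨ht, hR.trans hws hRst⟩
    have h1 := Set.ncard_le_ncard hsub (Finset.finite_toSet _)
    rw [Set.ncard_coe_finset] at h1
    have h2 := Finset.card_union_le (A0 ×ˢ A0) B0
    rw [Finset.card_product] at h2
    have h3 := Nat.mul_le_mul hA0 hA0
    calc _ ≤ _ := h1
      _ ≤ _ := h2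
      _ ≤ 2 * M * (2 * M) + U.card * M ^ 2 := Nat.add_le_add h3 hB0
      _ = (U.card + 4) * M ^ 2 := by ring
  · intro i hi
    simp only [dif_pos hi]
    exact ⟨hgZ _, hg'Z _, hg'R _, hglt _, hg'gt _⟩
  · intro i j hij hj
    have hi : i < U.card := hij.trans hj
    simp only [dif_pos hi, dif_pos hj]
    have hlt : (⟨i, hi⟩ : Fin U.card) < ⟨j, hj⟩ := hij
    exact ⟨hgmono _ _ hlt, hgnest _ _ hlt, hgnR _ _ hlt⟩

end QU91
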