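import Mathlib

/-!
[H91 QU CHD]  (MP_bcc40c_pr, Q2, part (U))  Nested chords: many of the strips between the chords `i` and `i + L` are thin.

PROOF.  Let `mid i` be the number in the statement.  Each `z ∈ Z` is counted in `mid i` for at most `L` values of `i`: if `z ≤ m`: `z` can only be in the first part (`t (i+L) > m`): `s i < z ≤ s (i+L)`: if `i0` is the largest `i < K` with `s i < z` then `i ≤ i0` and `i + L > i0` (as `s (i+L) ≥ z`, `i + L < K`): at most `L` values;
if `z > m`: only `t (i+L) < z ≤ t i` is possible, in the same way.  (The sets: use only `i` with `i + L < K`.)  So `Σ_{L ≤ i, i + 2L < K} mid i ≤ L #Z`.  Let `b` be the number of `i` in this range (there are `K - 3L` of them) with `K * mid i > 4 L #Z`: `b * 4 L #Z < K L #Z` if `b > 0` (then `#Z > 0`, as `mid i > 0`), so `4 b < K`.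
So at least `K - 3 L - b` good ones, `4 (K - 3L - b) > 4K - 12 L - K ≥ K` as `12 L ≤ 2 K`.
-/

set_option autoImplicit false

namespace QU91

/-- a set of numbers of diameter less than `L` -/
private theorem chd_card (L : ℕ) (A : Finset ℕ) (h : ∀ i ∈ A, ∀ j ∈ A, i ≤ j → j < i + L) :
    A.card ≤ L := by
  rcases A.eq_empty_or_nonempty with hA | hA
  · rw [hA, Finset.card_empty]
    exact Nat.zero_le L
  · have h1 : A ⊆ Finset.Ico (A.min' hA) (A.min' hA + L) := by
      intro j hj
      rw [Finset.mem_Ico]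
      exact ⟨A.min'_le j hj, h _ (A.min'_mem hA) j hj (A.min'_le j hj)⟩
    have h2 := Finset.card_le_card h1
    rw [Nat.card_Ico] at h2
    omega

theorem chd (K L m : ℕ) (s t : ℕ → ℕ) (Z : Finset ℕ) (hL : 1 ≤ L) (hK : 6 * L ≤ K)
    (hs : ∀ i j, i < j → j < K → s i < s j) (ht : ∀ i j, i < j → j < K → t j < t i)
    (hm : ∀ i < K, s i < m ∧ m < t i) :
    K ≤ 4 * ((Finset.range K).filter fun i => L ≤ i ∧ i + 2 * L < K ∧
      K * (Z.filter fun z => (s i < z ∧ z ≤ s (i + L)) ∨ (t (i + L) < z ∧ z ≤ t i)).card ≤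
        4 * L * Z.card).card := by
  classical
  obtain ⟨R, hR⟩ : ∃ R : Finset ℕ, R = Finset.Ico L (K - 2 * L) := ⟨_, rfl⟩
  obtain ⟨md, hmd⟩ : ∃ md : ℕ → ℕ, ∀ i, md i =
      (Z.filter fun z => (s i < z ∧ z ≤ s (i + L)) ∨ (t (i + L) < z ∧ z ≤ t i)).card :=
    ⟨_, fun _ => rfl⟩
  have hRm : ∀ i ∈ R, L ≤ i ∧ i + 2 * L < K := by
    intro i hi
    rw [hR, Finset.mem_Ico] at hi
    omega
  have hRc : R.card = K - 3 * L := by
    rw [hR, Nat.card_Ico]
    omega
  -- every point is counted at most `L` times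
  have hz : ∀ z : ℕ, (R.filter fun i => (s i < z ∧ z ≤ s (i + L)) ∨
      (t (i + L) < z ∧ z ≤ t i)).card ≤ L := by
    intro z
    refine chd_card L _ fun i hi j hj hij => ?_
    rw [Finset.mem_filter] at hi hj
    obtain ⟨hi1, hi2⟩ := hi
    obtain ⟨hj1, hj2⟩ := hj
    have a1 := hRm i hi1
    have a2 := hRm j hj1
    by_contra hlt
    push Not at hlt
    have b1 := hm i (by omega)
    have b2 := hm (i + L) (by omega)
    have b3 := hm j (by omega)
    have b4 := hm (j + L) (by omega)
    have c1 : s (i + L) ≤ s j := by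
      rcases hlt.eq_or_lt with h | h
      · rw [h]
      · exact (hs _ _ h (by omega)).le
    have c2 : t j ≤ t (i + L) := by
      rcases hlt.eq_or_lt with h | h
      · rw [h]
      · exact (ht _ _ h (by omega)).le
    omega
  have hsum : ∑ i ∈ R, md i ≤ L * Z.card := by
    have h1 : ∑ i ∈ R, md i = ∑ z ∈ Z, (R.filter fun i => (s i < z ∧ z ≤ s (i + L)) ∨
        (t (i + L) < z ∧ z ≤ t i)).card := by
      simp_rw [hmd, Finset.card_filter]
      exact Finset.sum_comm
    rw [h1]
    calc ∑ z ∈ Z, (R.filter fun i => (s i < z ∧ z ≤ s (i + L)) ∨ (t (i + L) < z ∧ z ≤ t i)).card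
        ≤ ∑ z ∈ Z, L := Finset.sum_le_sum fun z _ => hz z
      _ = L * Z.card := by rw [Finset.sum_const, smul_eq_mul, mul_comm]
  obtain ⟨G, hG⟩ : ∃ G : Finset ℕ, G = R.filter fun i => K * md i ≤ 4 * L * Z.card := ⟨_, rfl⟩
  obtain ⟨B, hB⟩ : ∃ B : Finset ℕ, B = R.filter fun i => ¬ (K * md i ≤ 4 * L * Z.card) := ⟨_, rfl⟩
  have hGB : G.card + B.card = R.card := by
    rw [hG, hB]
    exact Finset.card_filter_add_card_filter_not _
  have hGe : ((Finset.range K).filter fun i => L ≤ i ∧ i + 2 * L < K ∧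
      K * (Z.filter fun z => (s i < z ∧ z ≤ s (i + L)) ∨ (t (i + L) < z ∧ z ≤ t i)).card ≤
        4 * L * Z.card) = G := by
    ext i
    rw [hG, Finset.mem_filter, Finset.mem_filter, Finset.mem_range, hR, Finset.mem_Ico, hmd]
    constructor
    · rintro ⟨h1, h2, h3, h4⟩
      exact ⟨⟨h2, by omega⟩, h4⟩
    · rintro ⟨⟨h1, h2⟩, h3⟩
      exact ⟨by omega, h1, by omega, h3⟩
  rw [hGe]
  have hBs : B.card * (4 * L * Z.card + 1) ≤ K * (L * Z.card) := by
    calc B.card * (4 * L * Z.card + 1) = ∑ i ∈ B, (4 * L * Z.card + 1) := by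
          rw [Finset.sum_const, smul_eq_mul]
      _ ≤ ∑ i ∈ B, K * md i := by
          refine Finset.sum_le_sum fun i hi => ?_
          rw [hB, Finset.mem_filter] at hi
          omega
      _ ≤ ∑ i ∈ R, K * md i := by
          refine Finset.sum_le_sum_of_subset ?_
          rw [hB]
          exact Finset.filter_subset _ _
      _ = K * ∑ i ∈ R, md i := by rw [Finset.mul_sum]
      _ ≤ K * (L * Z.card) := Nat.mul_le_mul_left K hsum
  have hB4 : 4 * B.card ≤ K := by
    rcases Nat.eq_zero_or_pos Z.card with h | h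
    · rw [h, mul_zero, mul_zero, mul_zero, zero_add, mul_one] at hBs
      omega
    · have h1 : 0 < L * Z.card := Nat.mul_pos hL h
      have h2 : (4 * B.card) * (L * Z.card) ≤ K * (L * Z.card) := by
        calc (4 * B.card) * (L * Z.card) = B.card * (4 * L * Z.card) := by ring
          _ ≤ B.card * (4 * L * Z.card + 1) := Nat.mul_le_mul_left _ (Nat.le_succ _)
          _ ≤ _ := hBs
      exact Nat.le_of_mul_le_mul_right h2 h1
  omega

end QU91
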