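import Mathlib

/-!
[H91 QU CHE]  (MP_bcc40c_pr, Q2, part (U))  Random colourings: Chebyshev.

PROOF.  Let `M = m + 1`, `z = Z.card`, `X(c) = #{d ∈ Z : c d = 0}`, sum over all `c : D → Fin M`, `T = M^(card D)` of them.  `Σ_c 1[c d = 0] = T / M`, `Σ_c 1[c d = 0] 1[c e = 0] = T / M^2` for `d ≠ e` (fix the values: `Fintype.piFinset` / card of functions with prescribed values; or use that `c ↦ c` shifted at `d`: the sum over
the values of `c d`).  So `Σ_c X = T z / M`, `Σ_c X^2 = T (z/M + z (z-1)/M^2)`, `Σ_c (X - z/M)^2 = T z (1/M - 1/M^2) ≤ T z / M`.  If `X < N` or `X > 16 N` then, as `2 N ≤ z/M ≤ 8 N`, `|X - z/M| ≥ z/(2M)`: the number of such `c` is at most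
`T (z/M) / (z/(2M))^2 = 4 T M / z ≤ 4 T / (2N) ≤ T/2`.
-/

set_option autoImplicit false

namespace QU91

private theorem che_card {D : Type} [Fintype D] [DecidableEq D] (S : Finset D) (m : ℕ) :
    (m + 1) ^ S.card * (Finset.univ.filter fun c : D → Fin (m + 1) => ∀ x ∈ S, c x = 0).card =
      (m + 1) ^ Fintype.card D := by
  have h1 : (Finset.univ.filter fun c : D → Fin (m + 1) => ∀ x ∈ S, c x = 0) =
      Fintype.piFinset (fun x : D => if x ∈ S then ({0} : Finset (Fin (m + 1))) else Finset.univ) := by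
    ext c
    simp only [Finset.mem_filter, Finset.mem_univ, true_and, Fintype.mem_piFinset]
    constructor
    · intro h x
      by_cases hx : x ∈ S
      · simp [hx, h x hx]
      · simp [hx]
    · intro h x hx
      have := h x
      simpa [hx] using this
  rw [h1, Fintype.card_piFinset]
  have h2 : (m + 1) ^ S.card = ∏ x : D, (if x ∈ S then (m + 1) else 1) := by
    rw [Finset.prod_ite_mem]
    simp
  rw [h2, ← Finset.prod_mul_distrib]
  have h3 : ∀ x : D, ((if x ∈ S then (m + 1) else 1) *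
      (if x ∈ S then ({0} : Finset (Fin (m + 1))) else Finset.univ).card) = m + 1 := by
    intro x
    by_cases hx : x ∈ S <;> simp [hx]
  rw [Finset.prod_congr rfl (fun x _ => h3 x)]
  simp

private theorem che_one {D : Type} [Fintype D] [DecidableEq D] (m : ℕ) (d : D) :
    ((m : ℝ) + 1) * (∑ c : D → Fin (m + 1), if c d = 0 then (1 : ℝ) else 0) =
      ((m : ℝ) + 1) ^ Fintype.card D := by
  have h := che_card ({d} : Finset D) m
  rw [Finset.sum_boole]
  have h2 : (Finset.univ.filter fun c : D → Fin (m + 1) => ∀ x ∈ ({d} : Finset D), c x = 0) =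
      (Finset.univ.filter fun c : D → Fin (m + 1) => c d = 0) := by
    ext c; simp
  rw [h2] at h
  have h3 := congrArg (fun n : ℕ => (n : ℝ)) h
  simpa using h3

private theorem che_two {D : Type} [Fintype D] [DecidableEq D] (m : ℕ) (d e : D) (hde : d ≠ e) :
    ((m : ℝ) + 1) ^ 2 * (∑ c : D → Fin (m + 1),
      (if c d = 0 then (1 : ℝ) else 0) * (if c e = 0 then (1 : ℝ) else 0)) =
      ((m : ℝ) + 1) ^ Fintype.card D := by
  have h := che_card ({d, e} : Finset D) m
  have h1 : ∀ c : D → Fin (m + 1), (if c d = 0 then (1 : ℝ) else 0) * (if c e = 0 then (1 : ℝ) else 0) =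
      if (c d = 0 ∧ c e = 0) then (1 : ℝ) else 0 := by
    intro c
    by_cases h1 : c d = 0 <;> by_cases h2 : c e = 0 <;> simp [h1, h2]
  rw [Finset.sum_congr rfl (fun c _ => h1 c), Finset.sum_boole]
  have h2 : (Finset.univ.filter fun c : D → Fin (m + 1) => ∀ x ∈ ({d, e} : Finset D), c x = 0) =
      (Finset.univ.filter fun c : D → Fin (m + 1) => c d = 0 ∧ c e = 0) := by
    ext c; simp
  rw [h2, Finset.card_pair hde] at h
  have h3 := congrArg (fun n : ℕ => (n : ℝ)) h
  simpa using h3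

private theorem che_var {D : Type} [Fintype D] [DecidableEq D] (Z : Finset D) (m : ℕ) :
    (∑ c : D → Fin (m + 1), (((m : ℝ) + 1) * (∑ d ∈ Z, if c d = 0 then (1 : ℝ) else 0)
      - (Z.card : ℝ)) ^ 2) = (m : ℝ) * (Z.card : ℝ) * ((m : ℝ) + 1) ^ Fintype.card D := by
  set T : ℝ := ((m : ℝ) + 1) ^ Fintype.card D with hT
  set M : ℝ := (m : ℝ) + 1 with hM
  have hexp : ∀ c : D → Fin (m + 1),
      (M * (∑ d ∈ Z, if c d = 0 then (1 : ℝ) else 0) - (Z.card : ℝ)) ^ 2 =
        (∑ d ∈ Z, ∑ e ∈ Z, M ^ 2 * ((if c d = 0 then (1 : ℝ) else 0) * (if c e = 0 then (1 : ℝ) else 0)))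
        - 2 * (Z.card : ℝ) * (∑ d ∈ Z, M * (if c d = 0 then (1 : ℝ) else 0)) + (Z.card : ℝ) ^ 2 := by
    intro c
    have h1 : (∑ d ∈ Z, ∑ e ∈ Z, M ^ 2 * ((if c d = 0 then (1 : ℝ) else 0) *
        (if c e = 0 then (1 : ℝ) else 0))) =
        M ^ 2 * ((∑ d ∈ Z, if c d = 0 then (1 : ℝ) else 0) * (∑ d ∈ Z, if c d = 0 then (1 : ℝ) else 0)) := by
      rw [Finset.sum_mul_sum, Finset.mul_sum]
      refine Finset.sum_congr rfl (fun d _ => ?_)
      rw [Finset.mul_sum]
    rw [h1, ← Finset.mul_sum]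
    ring
  rw [Finset.sum_congr rfl (fun c _ => hexp c), Finset.sum_add_distrib, Finset.sum_sub_distrib]
  have hcst : (∑ _c : D → Fin (m + 1), (Z.card : ℝ) ^ 2) = T * (Z.card : ℝ) ^ 2 := by
    rw [Finset.sum_const, Finset.card_univ, Fintype.card_fun, Fintype.card_fin, nsmul_eq_mul]
    rw [hT, hM]
    push_cast
    ring
  have hlin : (∑ c : D → Fin (m + 1), 2 * (Z.card : ℝ) * (∑ d ∈ Z, M * (if c d = 0 then (1 : ℝ) else 0)))
      = 2 * (Z.card : ℝ) * ((Z.card : ℝ) * T) := by
    rw [← Finset.mul_sum, Finset.sum_comm]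
    congr 1
    have : ∀ d ∈ Z, (∑ c : D → Fin (m + 1), M * (if c d = 0 then (1 : ℝ) else 0)) = T := by
      intro d _
      rw [← Finset.mul_sum]
      exact che_one m d
    rw [Finset.sum_congr rfl this, Finset.sum_const, nsmul_eq_mul]
  have hquad : (∑ c : D → Fin (m + 1), ∑ d ∈ Z, ∑ e ∈ Z,
      M ^ 2 * ((if c d = 0 then (1 : ℝ) else 0) * (if c e = 0 then (1 : ℝ) else 0))) =
      (Z.card : ℝ) * ((Z.card : ℝ) * T + (M - 1) * T) := by
    rw [Finset.sum_comm]
    have h1 : ∀ d ∈ Z, (∑ c : D → Fin (m + 1), ∑ e ∈ Z,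
        M ^ 2 * ((if c d = 0 then (1 : ℝ) else 0) * (if c e = 0 then (1 : ℝ) else 0))) =
        (Z.card : ℝ) * T + (M - 1) * T := by
      intro d hd
      rw [Finset.sum_comm]
      have h2 : ∀ e ∈ Z, (∑ c : D → Fin (m + 1),
          M ^ 2 * ((if c d = 0 then (1 : ℝ) else 0) * (if c e = 0 then (1 : ℝ) else 0))) =
          T + (if e = d then (M - 1) * T else 0) := by
        intro e _
        rw [← Finset.mul_sum]
        by_cases hed : e = d
        · subst hed
          have h3 : ∀ c : D → Fin (m + 1), (if c e = 0 then (1 : ℝ) else 0) *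
              (if c e = 0 then (1 : ℝ) else 0) = (if c e = 0 then (1 : ℝ) else 0) := by
            intro c
            by_cases h : c e = 0 <;> simp [h]
          rw [Finset.sum_congr rfl (fun c _ => h3 c), if_pos rfl]
          have h4 := che_one m e
          rw [← hM, ← hT] at h4
          rw [pow_two, mul_assoc, h4]
          ring
        · rw [if_neg hed, add_zero]
          exact che_two m d e (fun h => hed h.symm)
      rw [Finset.sum_congr rfl h2, Finset.sum_add_distrib, Finset.sum_const, nsmul_eq_mul,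
        Finset.sum_ite_eq', if_pos hd]
    rw [Finset.sum_congr rfl h1, Finset.sum_const, nsmul_eq_mul]
  rw [hquad, hlin, hcst]
  have hm : (m : ℝ) = M - 1 := by rw [hM]; ring
  rw [hm]
  ring

theorem che {D : Type} [Fintype D] [DecidableEq D] (Z : Finset D) (m N : ℕ) (hN : 4 ≤ N)
    (h1 : 2 * N * (m + 1) ≤ Z.card) (h2 : Z.card ≤ 8 * N * (m + 1)) :
    (m + 1) ^ Fintype.card D ≤ 2 * (Finset.univ.filter fun c : D → Fin (m + 1) =>
      N ≤ (Z.filter fun d => c d = 0).card ∧ (Z.filter fun d => c d = 0).card ≤ 16 * N).card := by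
  classical
  set P : (D → Fin (m + 1)) → Prop := fun c =>
    N ≤ (Z.filter fun d => c d = 0).card ∧ (Z.filter fun d => c d = 0).card ≤ 16 * N with hP
  have hsplit := Finset.card_filter_add_card_filter_not (s := (Finset.univ : Finset (D → Fin (m + 1)))) P
  have hcard : (Finset.univ : Finset (D → Fin (m + 1))).card = (m + 1) ^ Fintype.card D := by
    rw [Finset.card_univ, Fintype.card_fun, Fintype.card_fin]
  rw [hcard] at hsplit
  set G := (Finset.univ.filter P).card with hG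
  set B := (Finset.univ.filter fun c => ¬ P c).card with hB
  have hvar := che_var Z m
  set T : ℝ := ((m : ℝ) + 1) ^ Fintype.card D with hT
  have hz1 : 2 * (N : ℝ) * ((m : ℝ) + 1) ≤ (Z.card : ℝ) := by exact_mod_cast h1
  have hz2 : (Z.card : ℝ) ≤ 8 * (N : ℝ) * ((m : ℝ) + 1) := by exact_mod_cast h2
  have hN4 : (4 : ℝ) ≤ (N : ℝ) := by exact_mod_cast hN
  have hm0 : (0 : ℝ) ≤ (m : ℝ) := Nat.cast_nonneg m
  have hzpos : (0 : ℝ) < (Z.card : ℝ) := by nlinarith
  have hTpos : (0 : ℝ) < T := by positivity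
  have hlow : (B : ℝ) * ((Z.card : ℝ) ^ 2 / 4) ≤ (m : ℝ) * (Z.card : ℝ) * T := by
    rw [← hvar]
    calc (B : ℝ) * ((Z.card : ℝ) ^ 2 / 4)
        = ∑ _c ∈ (Finset.univ.filter fun c => ¬ P c), ((Z.card : ℝ) ^ 2 / 4) := by
          rw [Finset.sum_const, nsmul_eq_mul]
      _ ≤ ∑ c ∈ (Finset.univ.filter fun c => ¬ P c),
          (((m : ℝ) + 1) * (∑ d ∈ Z, if c d = 0 then (1 : ℝ) else 0) - (Z.card : ℝ)) ^ 2 := by
          refine Finset.sum_le_sum (fun c hc => ?_)
          rw [Finset.mem_filter] at hc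
          have hnp := hc.2
          rw [Finset.sum_boole]
          set X : ℕ := (Z.filter fun d => c d = 0).card with hX
          have hor : X < N ∨ 16 * N < X := by
            by_contra hcon
            push Not at hcon
            exact hnp ⟨hcon.1, hcon.2⟩
          rcases hor with h | h
          · have hr : (X : ℝ) ≤ (N : ℝ) := by exact_mod_cast h.le
            have h5 : ((m : ℝ) + 1) * (X : ℝ) ≤ (Z.card : ℝ) / 2 := by nlinarith
            nlinarith
          · have hr : 16 * (N : ℝ) ≤ (X : ℝ) := by exact_mod_cast h.le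
            have h5 : 2 * (Z.card : ℝ) ≤ ((m : ℝ) + 1) * (X : ℝ) := by nlinarith
            nlinarith
      _ ≤ ∑ c : D → Fin (m + 1),
          (((m : ℝ) + 1) * (∑ d ∈ Z, if c d = 0 then (1 : ℝ) else 0) - (Z.card : ℝ)) ^ 2 := by
          refine Finset.sum_le_sum_of_subset_of_nonneg (Finset.filter_subset _ _) ?_
          intro c _ _
          positivity
  have hBz : (B : ℝ) * (Z.card : ℝ) ≤ 4 * (m : ℝ) * T := by
    have h6 : ((B : ℝ) * (Z.card : ℝ)) * (Z.card : ℝ) ≤ (4 * (m : ℝ) * T) * (Z.card : ℝ) := by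
      nlinarith
    exact le_of_mul_le_mul_right h6 hzpos
  have hB0 : (0 : ℝ) ≤ (B : ℝ) := Nat.cast_nonneg B
  have h8 : (B : ℝ) * (8 * ((m : ℝ) + 1)) ≤ 4 * ((m : ℝ) + 1) * T := by
    have h9 : 8 * ((m : ℝ) + 1) ≤ (Z.card : ℝ) := by nlinarith
    have h10 : (B : ℝ) * (8 * ((m : ℝ) + 1)) ≤ (B : ℝ) * (Z.card : ℝ) :=
      mul_le_mul_of_nonneg_left h9 hB0
    nlinarith
  have h11 : 2 * (B : ℝ) ≤ T := by
    have hpos : (0 : ℝ) < 4 * ((m : ℝ) + 1) := by positivity
    have h12 : (2 * (B : ℝ)) * (4 * ((m : ℝ) + 1)) ≤ T * (4 * ((m : ℝ) + 1)) := by nlinarith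
    exact le_of_mul_le_mul_right h12 hpos
  have h13 : 2 * B ≤ (m + 1) ^ Fintype.card D := by
    have : ((2 * B : ℕ) : ℝ) ≤ (((m + 1) ^ Fintype.card D : ℕ) : ℝ) := by
      push_cast
      exact h11
    exact_mod_cast this
  omega

end QU91
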