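import Pool.Agent.H91.QU.Frb
import Pool.Agent.H40.QL.Bas

/-!
[H91 QU YSC]  (MP_bcc40c_pr, Q2, part (U))  The number of labels with at most `m` roots.

PROOFS.  (Compare Pool/Agent/H40/QL/Luni.lean: lab_unique, yst_card, the case of two roots.)
lm_root: a dart `e` with minimal label is a root dart (a descending dart of its vertex would have an end with a smaller label).
lm_list: ncy_list for `g = f * α`, `S = Desc f ℓ` gives `e : Fin m → D` such that every root dart is in the vertex of some `e i`; replace the `e i` which are not root darts by a fixed root dart (lm_root); (if a root dart `d` is in the vertex of `e i` then `e i` is a root dart).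
lab_uniq: claim `ℓ' d ≤ ℓ d` by induction on `(ℓ d).toNat`: if `Root f α ℓ d` then `d` is in the vertex of some `e i`, so `ℓ d = ℓ (e i) = ℓ' (e i) = ℓ' d` (QL40.lb_same).  Otherwise there is a descending `δ` in the vertex of `d`: `ℓ (α δ) = ℓ (f δ) = ℓ d - 1`, by induction `ℓ' (α δ) ≤ ℓ d - 1`, and `ℓ' d = ℓ' δ ≤ ℓ' (f δ) + 1 = ℓ' (α δ) + 1 ≤ ℓ d`
(QL40.lb_low, ver).  By symmetry `ℓ = ℓ'`.
ys_card: for `(α, ℓ) ∈ Ys f A m R` choose `e` by lm_list, `0 ≤ ℓ (e i) ≤ R`; the map `(α, ℓ) ↦ (α, fun i => (e i, (ℓ (e i)).toNat))` into `A × (Fin m → D × Fin (R+1))` is injective by lab_uniq.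
-/

set_option autoImplicit false

namespace QU91

open Equiv HG39 QD39 QL40

variable {D : Type} [Fintype D] [DecidableEq D]

theorem lm_root [Nonempty D] {f α : Perm D} {ℓ : D → ℤ} (hl : Lb f α ℓ) :
    ∃ e, Root f α ℓ e := by
  obtain ⟨e, he⟩ := Finite.exists_min ℓ
  refine ⟨e, fun d hd hD => ?_⟩
  have h1 : ℓ (f d) = ℓ d - 1 := hD
  have h2 := lb_same hl hd
  have h3 := he (f d)
  omega

theorem lm_list [Nonempty D] {f α : Perm D} {ℓ : D → ℤ} {m : ℕ} {R : ℤ} (h : Lm f α ℓ m R) :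
    ∃ e : Fin m → D, (∀ i, Root f α ℓ (e i)) ∧
      ∀ d, Root f α ℓ d → ∃ i, (f * α).SameCycle d (e i) := by
  classical
  obtain ⟨e0, he0⟩ := lm_root h.lb
  obtain ⟨e, he⟩ := ncy_list (g := f * α) (S := Desc f ℓ) h.num
  refine ⟨fun i => if Root f α ℓ (e i) then e i else e0, ?_, ?_⟩
  · intro i
    by_cases hi : Root f α ℓ (e i)
    · simp only [if_pos hi]
      exact hi
    · simp only [if_neg hi]
      exact he0
  · intro d hd
    obtain ⟨i, hi⟩ := he d hd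
    refine ⟨i, ?_⟩
    have h1 : Root f α ℓ (e i) := fun d' hd' => hd d' (hi.trans hd')
    simp only [if_pos h1]
    exact hi

private theorem ys_le {f α : Perm D} {ℓ ℓ' : D → ℤ} (h : Lb f α ℓ) (h' : Lb f α ℓ')
    (nn : ∀ d, 0 ≤ ℓ d) {m : ℕ} (e : Fin m → D) (he : ∀ i, ℓ' (e i) ≤ ℓ (e i))
    (h1 : ∀ d, Root f α ℓ d → ∃ i, (f * α).SameCycle d (e i)) :
    ∀ n : ℕ, ∀ d, (ℓ d).toNat = n → ℓ' d ≤ ℓ d := by
  intro n
  induction n using Nat.strong_induction_on with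
  | _ n ih =>
    intro d hd
    by_cases hR : Root f α ℓ d
    · obtain ⟨i, hi⟩ := h1 d hR
      rw [lb_same h' hi, lb_same h hi]
      exact he i
    · unfold Root at hR
      push Not at hR
      obtain ⟨d', hs, hdd⟩ := hR
      have e1 : ℓ (f d') = ℓ d' - 1 := hdd
      have e2 : ℓ d = ℓ d' := lb_same h hs
      have e3 : 0 ≤ ℓ (f d') := nn _
      have e4 : ℓ' (f d') ≤ ℓ (f d') := ih (ℓ (f d')).toNat (by omega) (f d') rfl
      have e5 : ℓ' d' ≤ ℓ' (f d') + 1 := lb_low h' d'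
      have e6 : ℓ' d = ℓ' d' := lb_same h' hs
      omega

theorem lab_uniq {f α : Perm D} {ℓ ℓ' : D → ℤ} (h : Lb f α ℓ) (h' : Lb f α ℓ')
    (nn : ∀ d, 0 ≤ ℓ d) (nn' : ∀ d, 0 ≤ ℓ' d) {m : ℕ} (e : Fin m → D)
    (he : ∀ i, ℓ (e i) = ℓ' (e i)) (h1 : ∀ d, Root f α ℓ d → ∃ i, (f * α).SameCycle d (e i))
    (h2 : ∀ d, Root f α ℓ' d → ∃ i, (f * α).SameCycle d (e i)) : ℓ = ℓ' := by
  funext d
  exact le_antisymm (ys_le h' h nn' e (fun i => (he i).le) h2 _ d rfl)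
    (ys_le h h' nn e (fun i => (he i).ge) h1 _ d rfl)

theorem ys_card [Nonempty D] (f : Perm D) (A : Set (Perm D)) (m R : ℕ) :
    (Ys f A m R).Finite ∧
      (Ys f A m R).ncard ≤ A.ncard * (Fintype.card D * (R + 1)) ^ m := by
  classical
  have hch : ∀ p : Perm D × (D → ℤ), p ∈ Ys f A m R → ∃ t : Perm D × (Fin m → D × Fin (R + 1)),
      t ∈ A ×ˢ (Set.univ : Set (Fin m → D × Fin (R + 1))) ∧ t.1 = p.1 ∧
      (∀ i, p.2 (t.2 i).1 = (((t.2 i).2 : ℕ) : ℤ)) ∧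
      ∀ d, Root f p.1 p.2 d → ∃ i, (f * p.1).SameCycle d (t.2 i).1 := by
    rintro ⟨α, ℓ⟩ ⟨h1, h2⟩
    dsimp only at h1 h2
    obtain ⟨e, he, he'⟩ := lm_list h2
    have h3 : ∀ i, (ℓ (e i)).toNat < R + 1 := by
      intro i
      have h4 := h2.lev (e i) (he i)
      have h5 := h2.nn (e i)
      omega
    refine ⟨(α, fun i => (e i, ⟨(ℓ (e i)).toNat, h3 i⟩)), ⟨h1, Set.mem_univ _⟩, rfl, ?_, ?_⟩
    · intro i
      have h5 := h2.nn (e i)
      show ℓ (e i) = (((ℓ (e i)).toNat : ℕ) : ℤ)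
      omega
    · intro d hd
      exact he' d hd
  have hTf : (A ×ˢ (Set.univ : Set (Fin m → D × Fin (R + 1)))).Finite := Set.toFinite _
  have hTc : (A ×ˢ (Set.univ : Set (Fin m → D × Fin (R + 1)))).ncard =
      A.ncard * (Fintype.card D * (R + 1)) ^ m := by
    rw [Set.ncard_prod, Set.ncard_univ, Nat.card_eq_fintype_card, Fintype.card_fun,
      Fintype.card_prod, Fintype.card_fin, Fintype.card_fin]
  rcases (Ys f A m R).eq_empty_or_nonempty with he | ⟨p0, hp0⟩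
  · rw [he]
    exact ⟨Set.finite_empty, by simp⟩
  have : Nonempty (Perm D × (Fin m → D × Fin (R + 1))) := by
    obtain ⟨t, _⟩ := hch p0 hp0
    exact ⟨t⟩
  choose! F hF using hch
  have hmaps : ∀ p ∈ Ys f A m R, F p ∈ A ×ˢ (Set.univ : Set (Fin m → D × Fin (R + 1))) :=
    fun p hp => (hF p hp).1
  have hinj : Set.InjOn F (Ys f A m R) := by
    rintro ⟨α, ℓ⟩ hp ⟨α', ℓ'⟩ hp' he
    obtain ⟨_, a1, a2, a3⟩ := hF _ hp
    obtain ⟨_, b1, b2, b3⟩ := hF _ hp'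
    rw [he] at a1 a2 a3
    dsimp only at a1 a2 a3 b1 b2 b3
    have e : α = α' := a1.symm.trans b1
    subst e
    have e2 : ℓ = ℓ' := lab_uniq hp.2.lb hp'.2.lb hp.2.nn hp'.2.nn
      (fun i => ((F (α, ℓ')).2 i).1) (fun i => (a2 i).trans (b2 i).symm) a3 b3
    rw [e2]
  refine ⟨Set.Finite.of_injOn (f := F) hmaps hinj hTf, ?_⟩
  rw [← hTc]
  exact Set.ncard_le_ncard_of_injOn F hmaps hinj hTf

end QU91
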