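import Pool.Agent.H91.QU.Two
import Pool.Agent.H91.QU.Ysc

/-!
[H91 QU CRA]  (MP_bcc40c_pr, Q2, part (U))  The number of pairs (triangulation, vertex) in the exceptional sets.

PROOFS.  In all cases we map `(α, x)` (with the chosen darts) injectively to a labelled map `(α', ℓ)`, `ℓ = dlab f α x`, together with the chosen darts; `α` is recovered by sg_back (dc_back) and `x` by lab_inj.
inj_ax: if `(α, x), (α, x') ∈ Pv f v` and `dlab f α x = dlab f α x'` then `x = x'` (lab_inj).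
ra1_card: `(α, x) ↦ ((Sg f α ℓ p p', ℓ), (p, p')) ∈ Ys f (Dis f (v+2) L) 2 r × (D × D)` (cut1; ys_card).
ra2_card: `(α, x) ↦ ((S2 f α ℓ p p' s s', ℓ), (p, p', s, s'))`, dc_lm, dc_back.
tr_card: `(α, x) ↦ ((S2 f α ℓ p p' s p', ℓ), (p, p', s))`, the map is in `TS f (v+4)` (dc_cyc and `PT`), and `p, p', s ∈ ZB f ℓ r B`, which depends only on `ℓ` and has at most `Nz` elements: for each of the `#Ys` labelled maps at most `Nz^3` triples.
e2_card: the set `{((α, x), (p, q)) : (α, x) ∈ E2, (p, q) ∈ Dp f r B α x}` has at least `#E2 * m` elements (all the sets `Dp` are finite with at least `m` elements) and is mapped injectively by `((α, x), (p, q)) ↦ ((Sg f α ℓ p q, ℓ), (p, q))` into `{((α', ℓ), c) : (α', ℓ) ∈ Ys f (TS f v) 2 r, c ∈ Rb f α' ℓ r B, #(Rb f α' ℓ r B) ≤ u}` (cut0),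
which has at most `#Ys * u` elements.
e3_card: the same with `((α, x), (p, q, p2, q2))`, `(p, q, p2, q2) ∈ AQ f r B Z α x`; image `((S2.., ℓ), (p, q, p2, q2))` with `(S2.., ℓ) ∈ Ys f (TS f (v+4)) 3 r`, `p, q2 ∈ ZB f ℓ r B` (at most `Nz` elements), `q, p2 ∈ Mid f (S2..) ℓ r B p q2` (at most `Z` elements): at most `Nz^2 Z^2` quadruples for each labelled map.
-/

set_option autoImplicit false

namespace QU91

open Equiv HG39 QD39 QL40

variable {D : Type} [Fintype D] [DecidableEq D]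

private theorem cra_cnt {A ι β : Type} {Y : Set A} (hY : Y.Finite) (T : A → Finset ι) {K : ℕ}
    (hT : ∀ y, (T y).card ≤ K) (S : Set β) (F : β → A × ι)
    (hF : ∀ s ∈ S, (F s).1 ∈ Y ∧ (F s).2 ∈ T (F s).1) (hinj : Set.InjOn F S) :
    S.ncard ≤ Y.ncard * K := by
  classical
  have h1 : S.ncard ≤ ((hY.toFinset.sigma T : Finset (Σ _ : A, ι)) : Set (Σ _ : A, ι)).ncard := by
    refine Set.ncard_le_ncard_of_injOn (fun s => (⟨(F s).1, (F s).2⟩ : Σ _ : A, ι)) ?_ ?_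
      (Finset.finite_toSet _)
    · intro s hs
      obtain ⟨h2, h3⟩ := hF s hs
      exact Finset.mem_coe.2 (Finset.mem_sigma.2 ⟨hY.mem_toFinset.2 h2, h3⟩)
    · intro s hs s' hs' h
      apply hinj hs hs'
      have h2 : (F s).1 = (F s').1 := congrArg Sigma.fst h
      have h3 : (F s).2 = (F s').2 := eq_of_heq (Sigma.mk.inj h).2
      exact Prod.ext h2 h3
  refine h1.trans ?_
  rw [Set.ncard_coe_finset, Finset.card_sigma, Set.ncard_eq_toFinset_card Y hY]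
  refine (Finset.sum_le_card_nsmul _ _ K fun y _ => hT y).trans ?_
  rw [smul_eq_mul]

private theorem cra_inj {f : Perm D} (hf : TF f) {v : ℕ} {α : Perm D} {x x' : D}
    (h : (α, x) ∈ Pv f v) (h' : (α, x') ∈ Pv f v) (he : dlab f α x = dlab f α x') : x = x' :=
  lab_inj hf h.1.1 h.2 h'.2 he

theorem ra1_card [Nonempty D] {f : Perm D} (hf : TF f) (v r L : ℕ) :
    (RA1 f v r L).ncard ≤ (Dis f (v + 2) L).ncard * (Fintype.card D * (r + 1)) ^ 2 *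
      (Fintype.card D) ^ 2 := by
  classical
  have hch : ∀ s : Perm D × D, s ∈ RA1 f v r L → ∃ c : D × D,
      Tip f (dlab f s.1 s.2) r c.1 ∧ Tip f (dlab f s.1 s.2) r c.2 ∧ c.1 ≠ c.2 ∧
      (f * s.1).SameCycle c.1 c.2 ∧
      Sg f s.1 (dlab f s.1 s.2) c.1 c.2 ∈ Dis f (v + 2) L := by
    rintro s ⟨_, p, p', h1, h2, h3, h4, h5⟩
    exact ⟨(p, p'), h1, h2, h3, h4, h5⟩
  choose! c hc using hch
  obtain ⟨hfin, hcard⟩ := ys_card f (Dis f (v + 2) L) 2 r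
  refine (cra_cnt hfin (fun _ => (Finset.univ : Finset (D × D)))
    (K := (Fintype.card D) ^ 2) (fun _ => ?_) (RA1 f v r L)
    (fun s => ((Sg f s.1 (dlab f s.1 s.2) (c s).1 (c s).2, dlab f s.1 s.2), c s)) ?_ ?_).trans
    (Nat.mul_le_mul_right _ hcard)
  · rw [Finset.card_univ, Fintype.card_prod, sq]
  · intro s hs
    obtain ⟨h1, h2, h3, h4, h5⟩ := hc s hs
    exact ⟨⟨h5, (cut1 hf hs.1.1 h1 h2 h3 h4).2⟩, Finset.mem_univ _⟩
  · rintro ⟨α, x⟩ hs ⟨α', x'⟩ hs' h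
    obtain ⟨h1, h2, h3, h4, h5⟩ := hc _ hs
    obtain ⟨g1, g2, g3, g4, g5⟩ := hc _ hs'
    dsimp only at h h1 h2 h3 h4 h5 g1 g2 g3 g4 g5
    obtain ⟨e1, e2⟩ := Prod.mk.inj h
    obtain ⟨e3, e4⟩ := Prod.mk.inj e1
    have b1 := sg_back (lab_lb hf hs.1.1.1 x) (fun d => lab_nn x d) h1 h2 h3
    have b2 := sg_back (lab_lb hf hs'.1.1.1 x') (fun d => lab_nn x' d) g1 g2 g3
    dsimp only at b1 b2
    have e5 : α = α' := by
      rw [← b1, ← b2, e3, e4, e2]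
    subst e5
    rw [cra_inj hf hs.1 hs'.1 e4]

theorem ra2_card [Nonempty D] {f : Perm D} (hf : TF f) (v r L : ℕ) :
    (RA2 f v r L).ncard ≤ (Dis f (v + 4) L).ncard * (Fintype.card D * (r + 1)) ^ 3 *
      (Fintype.card D) ^ 4 := by
  classical
  have hch : ∀ s : Perm D × D, s ∈ RA2 f v r L → ∃ c : D × D × D × D,
      Dc f s.1 (dlab f s.1 s.2) r c.1 c.2.1 c.2.2.1 c.2.2.2 ∧
      S2 f s.1 (dlab f s.1 s.2) c.1 c.2.1 c.2.2.1 c.2.2.2 ∈ Dis f (v + 4) L := by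
    rintro s ⟨_, p, p', t, t', h1, h2⟩
    exact ⟨(p, p', t, t'), h1, h2⟩
  choose! c hc using hch
  obtain ⟨hfin, hcard⟩ := ys_card f (Dis f (v + 4) L) 3 r
  refine (cra_cnt hfin (fun _ => (Finset.univ : Finset (D × D × D × D)))
    (K := (Fintype.card D) ^ 4) (fun _ => ?_) (RA2 f v r L)
    (fun s => ((S2 f s.1 (dlab f s.1 s.2) (c s).1 (c s).2.1 (c s).2.2.1 (c s).2.2.2,
      dlab f s.1 s.2), c s)) ?_ ?_).trans (Nat.mul_le_mul_right _ hcard)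
  · rw [Finset.card_univ, Fintype.card_prod, Fintype.card_prod, Fintype.card_prod]
    exact le_of_eq (by ring)
  · intro s hs
    obtain ⟨h1, h2⟩ := hc s hs
    exact ⟨⟨h2, dc_lm hf hs.1.1 h1⟩, Finset.mem_univ _⟩
  · rintro ⟨α, x⟩ hs ⟨α', x'⟩ hs' h
    obtain ⟨h1, h2⟩ := hc _ hs
    obtain ⟨g1, g2⟩ := hc _ hs'
    dsimp only at h h1 h2 g1 g2
    obtain ⟨e1, e2⟩ := Prod.mk.inj h
    obtain ⟨e3, e4⟩ := Prod.mk.inj e1
    have b1 := dc_back hf hs.1.1 h1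
    have b2 := dc_back hf hs'.1.1 g1
    dsimp only at b1 b2
    have e5 : α = α' := by
      rw [← b1, ← b2, e3, e4, e2]
    subst e5
    rw [cra_inj hf hs.1 hs'.1 e4]

theorem tr_card [Nonempty D] {f : Perm D} (hf : TF f) (v r : ℕ) (B : Finset D) (Nz : ℕ) :
    (TR f v r B Nz).ncard ≤ (TS f (v + 4)).ncard * (Fintype.card D * (r + 1)) ^ 3 *
      Nz ^ 3 := by
  classical
  have hch : ∀ q : Perm D × D, q ∈ TR f v r B Nz → ∃ c : D × D × D,
      (c.1 ∈ B ∧ c.2.1 ∈ B ∧ c.2.2 ∈ B) ∧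
      Dc f q.1 (dlab f q.1 q.2) r c.1 c.2.1 c.2.2 c.2.1 ∧
      PT f (S2 f q.1 (dlab f q.1 q.2) c.1 c.2.1 c.2.2 c.2.1) [] := by
    rintro q ⟨_, _, p, hp, p', hp', s, hs, h1, h2⟩
    exact ⟨(p, p', s), ⟨hp, hp', hs⟩, h1, h2⟩
  choose! c hc using hch
  obtain ⟨hfin, hcard⟩ := ys_card f (TS f (v + 4)) 3 r
  refine (cra_cnt hfin (fun y => if (ZB f y.2 r B).card ≤ Nz then
      ZB f y.2 r B ×ˢ (ZB f y.2 r B ×ˢ ZB f y.2 r B) else (∅ : Finset (D × D × D)))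
    (K := Nz ^ 3) (fun y => ?_) (TR f v r B Nz)
    (fun s => ((S2 f s.1 (dlab f s.1 s.2) (c s).1 (c s).2.1 (c s).2.2 (c s).2.1,
      dlab f s.1 s.2), c s)) ?_ ?_).trans (Nat.mul_le_mul_right _ hcard)
  · split_ifs with h
    · rw [Finset.card_product, Finset.card_product]
      calc (ZB f y.2 r B).card * ((ZB f y.2 r B).card * (ZB f y.2 r B).card)
          ≤ Nz * (Nz * Nz) := Nat.mul_le_mul h (Nat.mul_le_mul h h)
        _ = Nz ^ 3 := by ring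
    · rw [Finset.card_empty]
      exact Nat.zero_le _
  · intro s hs
    obtain ⟨⟨h1, h2, h3⟩, h4, h5⟩ := hc s hs
    refine ⟨⟨⟨h5, dc_cyc hf hs.1.1 h4⟩, dc_lm hf hs.1.1 h4⟩, ?_⟩
    dsimp only
    rw [if_pos hs.2.1]
    refine Finset.mem_product.2 ⟨?_, Finset.mem_product.2 ⟨?_, ?_⟩⟩
    · exact Finset.mem_filter.2 ⟨h1, h4.tp⟩
    · exact Finset.mem_filter.2 ⟨h2, h4.tq⟩
    · exact Finset.mem_filter.2 ⟨h3, h4.tp2⟩
  · rintro ⟨α, x⟩ hs ⟨α', x'⟩ hs' h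
    obtain ⟨h0, h1, h2⟩ := hc _ hs
    obtain ⟨g0, g1, g2⟩ := hc _ hs'
    dsimp only at h h1 h2 g1 g2
    obtain ⟨e1, e2⟩ := Prod.mk.inj h
    obtain ⟨e3, e4⟩ := Prod.mk.inj e1
    have b1 := dc_back hf hs.1.1 h1
    have b2 := dc_back hf hs'.1.1 g1
    dsimp only at b1 b2
    have e5 : α = α' := by
      rw [← b1, ← b2, e3, e4, e2]
    subst e5
    rw [cra_inj hf hs.1 hs'.1 e4]

end QU91
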