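import Pool.Agent.H91.QU.Two
import Pool.Agent.H91.QU.Ysc

/-!
[H91 QU CRB]  (MP_bcc40c_pr, Q2, part (U))  Counting the surgeries: the sets `E2` and `E3`.

PROOFS.  In both cases we map `(α, x)` with the chosen darts injectively to a labelled map `(α', ℓ)`, `ℓ = dlab f α x`, together with the chosen darts; `α` is recovered by sg_back (dc_back) and `x` by lab_inj.
e2_card: the set `{((α, x), (p, q)) : (α, x) ∈ E2, (p, q) ∈ Dp f r B α x}` has at least `#E2 * m` elements (all the sets `Dp` are finite with at least `m` elements) and is mapped injectively by `((α, x), (p, q)) ↦ ((Sg f α ℓ p q, ℓ), (p, q))` into `{((α', ℓ), c) : (α', ℓ) ∈ Ys f (TS f v) 2 r, c ∈ Rb f α' ℓ r B, #(Rb f α' ℓ r B) ≤ u}` (cut0),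
which has at most `#Ys * u` elements (ys_card).
e3_card: the same with `((α, x), (p, q, p2, q2))`, `(p, q, p2, q2) ∈ AQ f r B Z α x`; image `((S2.., ℓ), (p, q, p2, q2))` with `(S2.., ℓ) ∈ Ys f (TS f (v+4)) 3 r` (dc_cyc, dc_lm, `PT`), `p, q2 ∈ ZB f ℓ r B` (at most `Nz` elements; it depends only on `ℓ`), `q, p2 ∈ Mid f (S2..) ℓ r B p q2` (at most `Z` elements; it depends
only on the image, `p` and `q2`): at most `Nz^2 Z^2` quadruples for each labelled map.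
-/

set_option autoImplicit false

namespace QU91

open Equiv HG39 QD39 QL40

variable {D : Type} [Fintype D] [DecidableEq D]

private theorem crb_cnt {A A' C : Type} [Finite A] [Finite C] {E : Set A} {F : A → Set C}
    {Y : Set A'} (hY : Y.Finite) {G : A' → Set C} {m u : ℕ} (φ : A → C → A')
    (hm : ∀ a ∈ E, m ≤ (F a).ncard)
    (h1 : ∀ a ∈ E, ∀ c ∈ F a, φ a c ∈ Y ∧ c ∈ G (φ a c) ∧ (G (φ a c)).ncard ≤ u)
    (h2 : ∀ a ∈ E, ∀ a' ∈ E, ∀ c ∈ F a, c ∈ F a' → φ a c = φ a' c → a = a') :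
    E.ncard * m ≤ Y.ncard * u := by
  classical
  have hE : E.Finite := Set.toFinite E
  have hF : ∀ a, (F a).Finite := fun a => Set.toFinite _
  have hG : ∀ y, (G y).Finite := fun y => Set.toFinite _
  let S : Finset (Σ _ : A, C) := hE.toFinset.sigma fun a => (hF a).toFinset
  let T : Finset (Σ _ : A', C) := hY.toFinset.sigma fun y =>
    if (G y).ncard ≤ u then (hG y).toFinset else ∅
  have hS : E.ncard * m ≤ S.card := by
    rw [Finset.card_sigma, Set.ncard_eq_toFinset_card E hE, ← smul_eq_mul]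
    refine Finset.card_nsmul_le_sum _ _ _ ?_
    intro a ha
    rw [← Set.ncard_eq_toFinset_card]
    exact hm a (hE.mem_toFinset.1 ha)
  have hT : T.card ≤ Y.ncard * u := by
    rw [Finset.card_sigma, Set.ncard_eq_toFinset_card Y hY, ← smul_eq_mul]
    refine Finset.sum_le_card_nsmul _ _ _ ?_
    intro y _
    by_cases h : (G y).ncard ≤ u
    · rw [if_pos h, ← Set.ncard_eq_toFinset_card]
      exact h
    · rw [if_neg h, Finset.card_empty]
      exact Nat.zero_le _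
  refine hS.trans (le_trans ?_ hT)
  refine Finset.card_le_card_of_injOn (fun s => (⟨φ s.1 s.2, s.2⟩ : Σ _ : A', C)) ?_ ?_
  · rintro ⟨a, c⟩ hs
    have hs' := Finset.mem_sigma.1 (Finset.mem_coe.1 hs)
    have ha : a ∈ E := hE.mem_toFinset.1 hs'.1
    have hc : c ∈ F a := (hF a).mem_toFinset.1 hs'.2
    obtain ⟨k1, k2, k3⟩ := h1 a ha c hc
    refine Finset.mem_coe.2 (Finset.mem_sigma.2 ⟨hY.mem_toFinset.2 k1, ?_⟩)
    show c ∈ (if (G (φ a c)).ncard ≤ u then (hG (φ a c)).toFinset else ∅)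
    rw [if_pos k3]
    exact (hG _).mem_toFinset.2 k2
  · rintro ⟨a, c⟩ hs ⟨a', c'⟩ hs' he
    have hs1 := Finset.mem_sigma.1 (Finset.mem_coe.1 hs)
    have hs2 := Finset.mem_sigma.1 (Finset.mem_coe.1 hs')
    have he1 : φ a c = φ a' c' := congrArg Sigma.fst he
    have he2 : c = c' := congrArg (fun z : (Σ _ : A', C) => z.2) he
    subst he2
    have := h2 a (hE.mem_toFinset.1 hs1.1) a' (hE.mem_toFinset.1 hs2.1) c
      ((hF a).mem_toFinset.1 hs1.2) ((hF a').mem_toFinset.1 hs2.2) he1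
    subst this
    rfl

theorem e2_card [Nonempty D] {f : Perm D} (hf : TF f) (v r : ℕ) (B : Finset D) (m u : ℕ) :
    (E2 f v r B m u).ncard * m ≤ u * ((TS f v).ncard * (Fintype.card D * (r + 1)) ^ 2) := by
  classical
  obtain ⟨hY, hYc⟩ := ys_card f (TS f v) 2 r
  have key : (E2 f v r B m u).ncard * m ≤ (Ys f (TS f v) 2 r).ncard * u := by
    refine crb_cnt (F := fun a => Dp f r B a.1 a.2) (G := fun y => Rb f y.1 y.2 r B) hY
      (fun a c => (Sg f a.1 (dlab f a.1 a.2) c.1 c.2, dlab f a.1 a.2)) ?_ ?_ ?_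
    · intro a ha
      exact ha.2.1
    · rintro ⟨α, x⟩ ⟨⟨hα, hx⟩, h3, h4⟩ ⟨p, q⟩ hc
      obtain ⟨hp, hq, hv⟩ := id hc
      have hp' := Finset.mem_filter.1 hp
      have hq' := Finset.mem_filter.1 hq
      obtain ⟨k1, k2, k3, k4⟩ := cut0 hf hα hp'.2 hq'.2 hv
      exact ⟨⟨k1, k2⟩, ⟨hp, hq, k3, k4⟩, h4 (p, q) hc⟩
    · rintro ⟨α, x⟩ ⟨⟨hα, hx⟩, _, _⟩ ⟨α', x'⟩ ⟨⟨hα', hx'⟩, _, _⟩ ⟨p, q⟩ hc hc' he
      dsimp only at hα hx hα' hx' he
      have hl := lab_lb hf hα.1 x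
      have hl' := lab_lb hf hα'.1 x'
      have e1 : dlab f α x = dlab f α' x' := congrArg Prod.snd he
      have e2 : Sg f α (dlab f α x) p q = Sg f α' (dlab f α' x') p q := congrArg Prod.fst he
      obtain ⟨hp, hq, hv⟩ := hc
      have hp' := Finset.mem_filter.1 hp
      have hq' := Finset.mem_filter.1 hq
      dsimp only at hv hp' hq'
      have hpq : p ≠ q := by
        rintro rfl
        exact hv (Perm.SameCycle.refl _ _)
      have hl2 := hl'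
      rw [← e1] at e2 hl2
      have b1 := sg_back hl (fun d => lab_nn x d) hp'.2 hq'.2 hpq
      have b2 := sg_back hl2 (fun d => lab_nn x d) hp'.2 hq'.2 hpq
      have e3 : α = α' := by
        rw [← b1, ← b2, e2]
      subst e3
      have e4 := lab_inj hf hα.1 hx hx' e1
      rw [e4]
  calc (E2 f v r B m u).ncard * m ≤ (Ys f (TS f v) 2 r).ncard * u := key
    _ ≤ ((TS f v).ncard * (Fintype.card D * (r + 1)) ^ 2) * u := Nat.mul_le_mul_right _ hYc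
    _ = _ := by ring

private theorem crb_quad {f α' : Perm D} {ℓ : D → ℤ} {r : ℕ} {B : Finset D} {Nz Z : ℕ}
    (hN : (ZB f ℓ r B).card ≤ Nz) :
    {c : D × D × D × D | c.1 ∈ ZB f ℓ r B ∧ c.2.2.2 ∈ ZB f ℓ r B ∧
      c.2.1 ∈ Mid f α' ℓ r B c.1 c.2.2.2 ∧ c.2.2.1 ∈ Mid f α' ℓ r B c.1 c.2.2.2 ∧
      (Mid f α' ℓ r B c.1 c.2.2.2).card ≤ Z}.ncard ≤ Nz ^ 2 * Z ^ 2 := by
  classical
  set G : Set (D × D × D × D) := {c : D × D × D × D | c.1 ∈ ZB f ℓ r B ∧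
      c.2.2.2 ∈ ZB f ℓ r B ∧
      c.2.1 ∈ Mid f α' ℓ r B c.1 c.2.2.2 ∧ c.2.2.1 ∈ Mid f α' ℓ r B c.1 c.2.2.2 ∧
      (Mid f α' ℓ r B c.1 c.2.2.2).card ≤ Z} with hG
  let T : Finset (Σ _ : D × D, D × D) := (ZB f ℓ r B ×ˢ ZB f ℓ r B).sigma fun y =>
    if (Mid f α' ℓ r B y.1 y.2).card ≤ Z then
      Mid f α' ℓ r B y.1 y.2 ×ˢ Mid f α' ℓ r B y.1 y.2 else ∅
  have hT : T.card ≤ Nz ^ 2 * Z ^ 2 := by
    have h1 : T.card ≤ (ZB f ℓ r B ×ˢ ZB f ℓ r B).card * (Z * Z) := by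
      rw [Finset.card_sigma, ← smul_eq_mul (Finset.card _)]
      refine Finset.sum_le_card_nsmul _ _ _ ?_
      intro y _
      by_cases h : (Mid f α' ℓ r B y.1 y.2).card ≤ Z
      · rw [if_pos h, Finset.card_product]
        exact Nat.mul_le_mul h h
      · rw [if_neg h, Finset.card_empty]
        exact Nat.zero_le _
    rw [Finset.card_product] at h1
    calc T.card ≤ _ := h1
      _ ≤ (Nz * Nz) * (Z * Z) := Nat.mul_le_mul_right _ (Nat.mul_le_mul hN hN)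
      _ = _ := by ring
  refine le_trans ?_ hT
  rw [Set.ncard_eq_toFinset_card G (Set.toFinite G)]
  refine Finset.card_le_card_of_injOn
    (fun c => (⟨(c.1, c.2.2.2), (c.2.1, c.2.2.1)⟩ : Σ _ : D × D, D × D)) ?_ ?_
  · rintro ⟨p, q, p2, q2⟩ hc
    have hc' : (p, q, p2, q2) ∈ G := (Set.toFinite G).mem_toFinset.1 (Finset.mem_coe.1 hc)
    obtain ⟨c1, c2, c3, c4, c5⟩ := hc'
    refine Finset.mem_coe.2 (Finset.mem_sigma.2 ⟨Finset.mem_product.2 ⟨c1, c2⟩, ?_⟩)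
    show (q, p2) ∈ (if (Mid f α' ℓ r B p q2).card ≤ Z then
      Mid f α' ℓ r B p q2 ×ˢ Mid f α' ℓ r B p q2 else ∅)
    rw [if_pos c5]
    exact Finset.mem_product.2 ⟨c3, c4⟩
  · rintro ⟨p, q, p2, q2⟩ _ ⟨p', q', p2', q2'⟩ _ he
    have h1 : (p, q2) = (p', q2') := congrArg Sigma.fst he
    have h2 : (q, p2) = (q', p2') := congrArg (fun z : (Σ _ : D × D, D × D) => z.2) he
    simp only [Prod.mk.injEq] at h1 h2
    rw [h1.1, h1.2, h2.1, h2.2]

theorem e3_card [Nonempty D] {f : Perm D} (hf : TF f) (v r : ℕ) (B : Finset D)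
    (Nz Z m : ℕ) :
    (E3 f v r B Nz Z m).ncard * m ≤ (TS f (v + 4)).ncard * (Fintype.card D * (r + 1)) ^ 3 *
      (Nz ^ 2 * Z ^ 2) := by
  classical
  obtain ⟨hY, hYc⟩ := ys_card f (TS f (v + 4)) 3 r
  have key : (E3 f v r B Nz Z m).ncard * m ≤
      (Ys f (TS f (v + 4)) 3 r).ncard * (Nz ^ 2 * Z ^ 2) := by
    refine crb_cnt (F := fun a => AQ f r B Z a.1 a.2)
      (G := fun y => {c : D × D × D × D | c.1 ∈ ZB f y.2 r B ∧ c.2.2.2 ∈ ZB f y.2 r B ∧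
        c.2.1 ∈ Mid f y.1 y.2 r B c.1 c.2.2.2 ∧ c.2.2.1 ∈ Mid f y.1 y.2 r B c.1 c.2.2.2 ∧
        (Mid f y.1 y.2 r B c.1 c.2.2.2).card ≤ Z}) hY
      (fun a c => (S2 f a.1 (dlab f a.1 a.2) c.1 c.2.1 c.2.2.1 c.2.2.2, dlab f a.1 a.2)) ?_ ?_ ?_
    · intro a ha
      exact ha.2.2
    · rintro ⟨α, x⟩ ⟨⟨hα, hx⟩, h3, h4⟩ ⟨p, q, p2, q2⟩ ⟨b1, b2, b3, b4, hD, hPT, m1, m2, m3⟩
      dsimp only at hα hx h3 h4 b1 b2 b3 b4 hD hPT m1 m2 m3 ⊢
      refine ⟨⟨⟨hPT, dc_cyc hf hα hD⟩, dc_lm hf hα hD⟩, ⟨?_, ?_, m1, m2, m3⟩, crb_quad h3⟩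
      · exact Finset.mem_filter.2 ⟨b1, hD.tp⟩
      · exact Finset.mem_filter.2 ⟨b4, hD.tq2⟩
    · rintro ⟨α, x⟩ ⟨⟨hα, hx⟩, _, _⟩ ⟨α', x'⟩ ⟨⟨hα', hx'⟩, _, _⟩ ⟨p, q, p2, q2⟩
        ⟨_, _, _, _, hD, _, _, _, _⟩ ⟨_, _, _, _, hD', _, _, _, _⟩ he
      dsimp only at hα hx hα' hx' hD hD' he
      have e1 : dlab f α x = dlab f α' x' := congrArg Prod.snd he
      have e2 : S2 f α (dlab f α x) p q p2 q2 = S2 f α' (dlab f α' x') p q p2 q2 :=
        congrArg Prod.fst he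
      have d1 := dc_back hf hα hD
      have d2 := dc_back hf hα' hD'
      have e3 : α = α' := by
        rw [← e2, ← e1] at d2
        exact d1.symm.trans d2
      subst e3
      have e4 := lab_inj hf hα.1 hx hx' e1
      rw [e4]
  exact key.trans (Nat.mul_le_mul_right _ hYc)

end QU91
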