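import Pool.Agent.H39.QD.Stat
import Pool.Agent.H40.QL.Defs

/-!
# MP_bcc40c_pr, Q2: part (U) (helper91): definitions

Conventions of HG39 / QD39 / QL40.  `α * f⁻¹` is the rotation around the starting vertex, it is the inverse of `f * α`.

* `Hit g S y e`: `e` is the first point of `S` among `y, g y, g (g y), ...` (so `Fst f α ℓ y e` is
  `Hit (α * f⁻¹) (Desc f ℓ) y e`, definitionally);
* `fr g S`: the first return permutation of `g` on `S` (identity outside `S`);
* `Wp f α ℓ k a b`: two leftmost descending paths starting at the same level, until they coalesce (or one of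
  them ends at a root); `Sg f α ℓ p q`: the surgery `sw` along the paths starting with `p` and `q`;
* `kap = fr (α * f⁻¹) (Desc f ℓ)`: the cyclic order of the descending darts around the vertices;
* `Wr f α ℓ r`: the contour walk of the forest of leftmost geodesics, up to level `r`;
* `tau f α ℓ r`: the contour order of the descending darts of level `r` (tips).
-/

set_option autoImplicit false

namespace QU91

open Equiv HG39 QD39 QL40

variable {D : Type} [Fintype D] [DecidableEq D]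

/-- `e` is the first point of `S` among `y, g y, g (g y), ...` -/
def Hit (g : Perm D) (S : D → Prop) (y e : D) : Prop := S e ∧ Pth g (fun z => ¬ S z) y e

/-- `π` is the first return permutation of `g` on `S` -/
structure IsFr (g : Perm D) (S : D → Prop) (π : Perm D) : Prop where
  out : ∀ d, ¬ S d → π d = d
  on : ∀ d, S d → Hit g S (g d) (π d)

open Classical in
/-- the first return permutation of `g` on `S`, the identity outside `S` -/
noncomputable def fr (g : Perm D) (S : D → Prop) : Perm D :=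
  if h : ∃ π : Perm D, IsFr g S π then h.choose else 1

/-- number of cycles of `g` without points of `S` -/
noncomputable def ncy (g : Perm D) (S : D → Prop) : ℕ :=
  Nat.card {c : Quotient (Perm.SameCycle.setoid g) //
    ∀ d, Quotient.mk (Perm.SameCycle.setoid g) d = c → ¬ S d}

open Classical in
/-- `1` if `p` is true, `-1` otherwise -/
noncomputable def es (p : Prop) : ℤ := if p then 1 else -1

/-- abstract form of `Wp` -/
structure Wq (ρ : Perm D) (S : D → Prop) (lev : D → ℤ) (k : ℕ) (a b a' b' : ℕ → D) : Prop where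
  kp : 1 ≤ k
  inv : ∀ d, lev (ρ d) = lev d
  sa : ∀ i < k, S (a i)
  sb : ∀ i < k, S (b i)
  na : ∀ i < k, ¬ S (a' i)
  nb : ∀ i < k, ¬ S (b' i)
  la : ∀ i < k, lev (a i) = lev (a 0) - i
  lb : ∀ i < k, lev (b i) = lev (a 0) - i
  la' : ∀ i < k, lev (a' i) = lev (a 0) - i - 1
  lb' : ∀ i < k, lev (b' i) = lev (a 0) - i - 1
  ne : ∀ i < k, a i ≠ b i
  ne' : ∀ i < k, a' i ≠ b' i
  ha : ∀ i, i + 1 < k → Hit ρ S (a' i) (a (i + 1))
  hb : ∀ i, i + 1 < k → Hit ρ S (b' i) (b (i + 1))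
  en : ∀ δ δ', Hit ρ S (a' (k - 1)) δ → Hit ρ S (b' (k - 1)) δ' → δ = δ'

/-- two leftmost descending paths `a 0, ..., a (k-1)` and `b 0, ..., b (k-1)` starting at the same level;
they are disjoint, and after `k` steps they coalesce or one of them has arrived at a root -/
structure Wp (f α : Perm D) (ℓ : D → ℤ) (k : ℕ) (a b : ℕ → D) : Prop where
  kp : 1 ≤ k
  da : ∀ i < k, Desc f ℓ (a i)
  db : ∀ i < k, Desc f ℓ (b i)
  na : ∀ i, i + 1 < k → Fst f α ℓ (α (a i)) (a (i + 1))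
  nb : ∀ i, i + 1 < k → Fst f α ℓ (α (b i)) (b (i + 1))
  st : ℓ (b 0) = ℓ (a 0)
  ne : ∀ i < k, a i ≠ b i
  en : ∀ δ δ', Fst f α ℓ (α (a (k - 1))) δ → Fst f α ℓ (α (b (k - 1))) δ' → δ = δ'

open Classical in
/-- the surgery along the leftmost paths starting with `p` and `q` -/
noncomputable def Sg (f α : Perm D) (ℓ : D → ℤ) (p q : D) : Perm D :=
  if h : ∃ w : ℕ × (ℕ → D) × (ℕ → D), Wp f α ℓ w.1 w.2.1 w.2.2 ∧ w.2.1 0 = p ∧ w.2.2 0 = q then
    sw α h.choose.2.1 h.choose.2.2 h.choose.1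
  else α

/-- tips: descending darts of level `r` -/
def Tip (f : Perm D) (ℓ : D → ℤ) (r : ℤ) (d : D) : Prop := Desc f ℓ d ∧ ℓ d = r

open Classical in
/-- `α` on the descending and ascending darts up to level `r` -/
noncomputable def betf (f α : Perm D) (ℓ : D → ℤ) (r : ℤ) (d : D) : D :=
  if ℓ (f d) ≠ ℓ d ∧ ℓ d ≤ r ∧ ℓ (f d) ≤ r then α d else d

open Classical in
/-- `betf` as a permutation -/
noncomputable def bet (f α : Perm D) (ℓ : D → ℤ) (r : ℤ) : Perm D :=
  if h : Function.Involutive (betf f α ℓ r) then h.toPerm else 1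

/-- the contour walk of the forest of leftmost geodesics, up to level `r` -/
noncomputable def Wr (f α : Perm D) (ℓ : D → ℤ) (r : ℤ) : Perm D :=
  α * f⁻¹ * (fr (α * f⁻¹) (Desc f ℓ))⁻¹ * bet f α ℓ r

/-- the contour order of the tips of level `r` -/
noncomputable def tau (f α : Perm D) (ℓ : D → ℤ) (r : ℤ) : Perm D :=
  fr (Wr f α ℓ r) (Tip f ℓ r)

/-- the vertex of `e` has no descending dart -/
def Root (f α : Perm D) (ℓ : D → ℤ) (e : D) : Prop :=
  ∀ d, (f * α).SameCycle e d → ¬ Desc f ℓ d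

/-- number of roots (vertices without descending darts) -/
noncomputable def nrt (f α : Perm D) (ℓ : D → ℤ) : ℕ := ncy (f * α) (Desc f ℓ)

/-- nonnegative weak labels with at most `m` roots, all of level at most `R` -/
structure Lm (f α : Perm D) (ℓ : D → ℤ) (m : ℕ) (R : ℤ) : Prop where
  lb : Lb f α ℓ
  nn : ∀ d, 0 ≤ ℓ d
  num : nrt f α ℓ ≤ m
  lev : ∀ e, Root f α ℓ e → ℓ e ≤ R

/-- labelled maps, with maps in `A`, at most `m` roots of level at most `R` -/
def Ys (f : Perm D) (A : Set (Perm D)) (m : ℕ) (R : ℤ) : Set (Perm D × (D → ℤ)) :=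
  {p | p.1 ∈ A ∧ Lm f p.1 p.2 m R}

/-- leading from a dart to the root below it: `e` is a dart of the root at the end of the leftmost geodesic
starting at the corner `d` -/
inductive Dn (f α : Perm D) (ℓ : D → ℤ) : D → D → Prop
  | base (d e : D) (h : Root f α ℓ e) (hs : (f * α).SameCycle d e) : Dn f α ℓ d e
  | step (d δ e : D) (h : Fst f α ℓ d δ) (hd : Dn f α ℓ (α δ) e) : Dn f α ℓ d e

/-- `P` is closed, as far as levels up to `r` are concerned -/
structure Cl (f α : Perm D) (ℓ : D → ℤ) (r : ℤ) (P : D → Prop) : Prop where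
  cf : ∀ d, P d → P (f d)
  ca : ∀ d, P d → ℓ d ≤ r ∨ ℓ (f d) ≤ r → P (α d)

open Classical in
/-- the darts of the faces which have a vertex of level at most `r` -/
noncomputable def lball (f : Perm D) (ℓ : D → ℤ) (r : ℤ) : Finset D :=
  Finset.univ.filter fun d => ℓ d ≤ r ∨ ℓ (f d) ≤ r ∨ ℓ (f (f d)) ≤ r

/-- maps with exactly two components, both with at least `L` darts -/
def Dis (f : Perm D) (w L : ℕ) : Set (Perm D) :=
  {α | (∀ d, α (α d) = d) ∧ (∀ d, α d ≠ d) ∧ cyc (f * α) = w ∧ ∃ P : D → Prop,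
    (∀ d, P d → P (f d) ∧ P (α d)) ∧ (∀ d, ¬ P d → ¬ P (f d) ∧ ¬ P (α d)) ∧
    L ≤ Nat.card {d // P d} ∧ L ≤ Nat.card {d // ¬ P d} ∧
    (∀ S : D → Prop, (∀ d, S d → S (f d) ∧ S (α d)) → (∃ d, P d ∧ S d) → ∀ d, P d → S d) ∧
    (∀ S : D → Prop, (∀ d, S d → S (f d) ∧ S (α d)) → (∃ d, ¬ P d ∧ S d) → ∀ d, ¬ P d → S d)}

open Classical in
/-- the tips in `B` -/
noncomputable def ZB (f : Perm D) (ℓ : D → ℤ) (r : ℤ) (B : Finset D) : Finset D :=
  B.filter fun d => Tip f ℓ r d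

open Classical in
/-- size of a cycle -/
noncomputable def csz (τ : Perm D) (p : D) : ℕ := (Finset.univ.filter fun d => τ.SameCycle p d).card

/-- contacts: pairs of tips in `B` at a common vertex, in different cycles of the contour order -/
def Rb (f α : Perm D) (ℓ : D → ℤ) (r : ℤ) (B : Finset D) : Set (D × D) :=
  {p | p.1 ∈ ZB f ℓ r B ∧ p.2 ∈ ZB f ℓ r B ∧ (f * α).SameCycle p.1 p.2 ∧
    ¬ (tau f α ℓ r).SameCycle p.1 p.2}

/-- double cuts: `p, q` at a common vertex; after the surgery `p2, q2` are at a common vertex and in the same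
cycle of the contour order -/
structure Dc (f α : Perm D) (ℓ : D → ℤ) (r : ℤ) (p q p2 q2 : D) : Prop where
  tp : Tip f ℓ r p
  tq : Tip f ℓ r q
  tp2 : Tip f ℓ r p2
  tq2 : Tip f ℓ r q2
  n1 : p ≠ q
  v1 : (f * α).SameCycle p q
  n2 : p2 ≠ q2
  v2 : (f * Sg f α ℓ p q).SameCycle p2 q2
  t2 : (tau f (Sg f α ℓ p q) ℓ r).SameCycle p2 q2

/-- the map after the double cut -/
noncomputable def S2 (f α : Perm D) (ℓ : D → ℤ) (p q p2 q2 : D) : Perm D :=
  Sg f (Sg f α ℓ p q) ℓ p2 q2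

open Classical in
/-- the tips in `B` which are in the cycle neither of `s` nor of `t` -/
noncomputable def Mid (f α : Perm D) (ℓ : D → ℤ) (r : ℤ) (B : Finset D) (s t : D) : Finset D :=
  (ZB f ℓ r B).filter fun z => ¬ (tau f α ℓ r).SameCycle s z ∧ ¬ (tau f α ℓ r).SameCycle t z

/-- admissible quads for `(α, x)` -/
def AQ (f : Perm D) (r : ℕ) (B : Finset D) (Z : ℕ) (α : Perm D) (x : D) : Set (D × D × D × D) :=
  {u | u.1 ∈ B ∧ u.2.1 ∈ B ∧ u.2.2.1 ∈ B ∧ u.2.2.2 ∈ B ∧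
    Dc f α (dlab f α x) r u.1 u.2.1 u.2.2.1 u.2.2.2 ∧
    PT f (S2 f α (dlab f α x) u.1 u.2.1 u.2.2.1 u.2.2.2) [] ∧
    u.2.1 ∈ Mid f (S2 f α (dlab f α x) u.1 u.2.1 u.2.2.1 u.2.2.2) (dlab f α x) r B u.1 u.2.2.2 ∧
    u.2.2.1 ∈ Mid f (S2 f α (dlab f α x) u.1 u.2.1 u.2.2.1 u.2.2.2) (dlab f α x) r B u.1 u.2.2.2 ∧
    (Mid f (S2 f α (dlab f α x) u.1 u.2.1 u.2.2.1 u.2.2.2) (dlab f α x) r B u.1 u.2.2.2).card ≤ Z}

/-- pairs (triangulation with `v` vertices, vertex) -/
def Pv (f : Perm D) (v : ℕ) : Set (Perm D × D) := {q | q.1 ∈ TS f v ∧ rep f q.1 q.2 = q.2}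

/-- the set to be estimated, with the tips restricted to `B` -/
def EB (f : Perm D) (v r : ℕ) (B : Finset D) (N : ℕ) : Set (Perm D × D) :=
  {q | q ∈ Pv f v ∧ Plan f q.1 (ball f q.1 q.2 (r + 1)) ∧
    N ≤ (ZB f (dlab f q.1 q.2) r B).card ∧ (ZB f (dlab f q.1 q.2) r B).card ≤ 16 * N}

/-- rare event: a first cut gives two large components -/
def RA1 (f : Perm D) (v r L : ℕ) : Set (Perm D × D) :=
  {q | q ∈ Pv f v ∧ ∃ p p' : D, Tip f (dlab f q.1 q.2) r p ∧ Tip f (dlab f q.1 q.2) r p' ∧ p ≠ p' ∧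
    (f * q.1).SameCycle p p' ∧ Sg f q.1 (dlab f q.1 q.2) p p' ∈ Dis f (v + 2) L}

/-- rare event: a double cut gives two large components -/
def RA2 (f : Perm D) (v r L : ℕ) : Set (Perm D × D) :=
  {q | q ∈ Pv f v ∧ ∃ p p' s s' : D, Dc f q.1 (dlab f q.1 q.2) r p p' s s' ∧
    S2 f q.1 (dlab f q.1 q.2) p p' s s' ∈ Dis f (v + 4) L}

/-- three tips in `B` at a common vertex, the triple cut gives a connected map -/
def TR (f : Perm D) (v r : ℕ) (B : Finset D) (Nz : ℕ) : Set (Perm D × D) :=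
  {q | q ∈ Pv f v ∧ (ZB f (dlab f q.1 q.2) r B).card ≤ Nz ∧ ∃ p ∈ B, ∃ p' ∈ B, ∃ s ∈ B,
    Dc f q.1 (dlab f q.1 q.2) r p p' s p' ∧ PT f (S2 f q.1 (dlab f q.1 q.2) p p' s p') []}

/-- pairs of tips in `B` at different vertices -/
def Dp (f : Perm D) (r : ℕ) (B : Finset D) (α : Perm D) (x : D) : Set (D × D) :=
  {p | p.1 ∈ ZB f (dlab f α x) r B ∧ p.2 ∈ ZB f (dlab f α x) r B ∧ ¬ (f * α).SameCycle p.1 p.2}

/-- every surgery at two different vertices gives few contacts -/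
def E2 (f : Perm D) (v r : ℕ) (B : Finset D) (m u : ℕ) : Set (Perm D × D) :=
  {q | q ∈ Pv f v ∧ m ≤ (Dp f r B q.1 q.2).ncard ∧ ∀ p ∈ Dp f r B q.1 q.2,
    (Rb f (Sg f q.1 (dlab f q.1 q.2) p.1 p.2) (dlab f q.1 q.2) r B).ncard ≤ u}

/-- many admissible quads -/
def E3 (f : Perm D) (v r : ℕ) (B : Finset D) (Nz Z m : ℕ) : Set (Perm D × D) :=
  {q | q ∈ Pv f v ∧ (ZB f (dlab f q.1 q.2) r B).card ≤ Nz ∧ m ≤ (AQ f r B Z q.1 q.2).ncard}

end QU91
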