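import Pool.Agent.H91.QU.Defs
import Pool.Agent.H40.QL.Addp
import Pool.Agent.H39.UI.PieceM
import Pool.Agent.H39.UI.Pai
import Pool.Agent.H39.UN.LawA

/-!
[H91 QU DIC]  (MP_bcc40c_pr, Q2, part (U))  The number of maps with two large components.

PROOFS.
dis_sum: let `α ∈ Dis f w L` (`1 ≤ L`), with `P`.  `F = {d | P d}` is closed under `f`, `f⁻¹`, `α`; `#F = 6 i` (α is an involution without fixed points on `F`, so `#F` is even; `F` is a union of triangles, so `3 ∣ #F`), `#(complement) = 6 i'`, `i + i' = n`, and `6 i ≥ L`, `6 i' ≥ L`.  Restrict `f`, `α` to the subtypes `{d // d ∈ F}`, `{d // d ∉ F}`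
(`Perm.subtypePerm`): `f1, α1, f2, α2`; `α1 ∈ TS f1 u`, `α2 ∈ TS f2 u'`, `u + u' = w` (`cyc_split` of Addp for `f * α`; `(f * α).subtypePerm = f1 * α1`); connectivity from the last two conditions.  `α` is determined by `F, α1, α2`.  So
`#Dis ≤ Σ_F Σ_{u+u'=w} #TS f1 u * #TS f2 u'`, the sum over the `f`-closed `F` with `#F = 6 i`, for each `i` at most `(2n).choose (2i)` of them (UI39.pai_cl).  By ts_card (for the subtypes, `Fintype.card = 6 i`): `#TS f1 u * 6 i = (2i)! 3^(2i) bc i u`, so with `(2n).choose (2i) (2i)! (2i')! = (2n)!` we get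
`#Dis ≤ Σ_{i} Σ_{u ≤ w} (2n)! 3^(2n) bc i u * bc i' (w - u)` (we drop `36 i i' ≥ 1` from the denominators; `i, i' ≥ 1`).
dis_card: pieceM with `a = 0`, `k`, and `L ≤ i`, `L ≤ i'`: `bc i u * bc i' u' ≤ C e^{-c L} (C / n^2)^k bc n v ≤ C e^{-c L} bc n v` for `n^2 ≥ C`; number of terms at most `(n+1) (v + 5) ≤ 12 n^2`; `(2n)! 3^(2n) bc n v = 6 n #TS f v` (ts_card).
-/

set_option autoImplicit false

namespace QU91

open Equiv HG39 QD39 QL40 UI39 UN39

section

variable {D : Type} [Fintype D] [DecidableEq D]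

/-- maps for which `F` and its complement are components, with given numbers of vertices -/
private def DA (f : Perm D) (F : Finset D) (hF : ∀ d, f d ∈ F ↔ d ∈ F) (u u' : ℕ) : Set (Perm D) :=
  {α | ∃ h : ∀ d, α d ∈ F ↔ d ∈ F,
    α.subtypePerm (p := fun d => d ∈ F) h ∈ TS (f.subtypePerm (p := fun d => d ∈ F) hF) u ∧
    α.subtypePerm (p := fun d => ¬ d ∈ F) (fun d => not_congr (h d)) ∈
      TS (f.subtypePerm (p := fun d => ¬ d ∈ F) (fun d => not_congr (hF d))) u'}

open Classical in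
private theorem dis_DA (f : Perm D) (F : Finset D) (hF : ∀ d, f d ∈ F ↔ d ∈ F) (u u' : ℕ) :
    (DA f F hF u u').ncard ≤
      (TS (f.subtypePerm (p := fun d => d ∈ F) hF) u).ncard *
      (TS (f.subtypePerm (p := fun d => ¬ d ∈ F) (fun d => not_congr (hF d))) u').ncard := by
  rw [← Set.ncard_prod]
  refine Set.ncard_le_ncard_of_injOn
    (fun α => if h : ∀ d, α d ∈ F ↔ d ∈ F then
      (α.subtypePerm (p := fun d => d ∈ F) h,
        α.subtypePerm (p := fun d => ¬ d ∈ F) (fun d => not_congr (h d))) else (1, 1)) ?_ ?_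
    (Set.toFinite _)
  · rintro α ⟨h, h1, h2⟩
    rw [dif_pos h]
    exact Set.mk_mem_prod h1 h2
  · rintro α ⟨h, -, -⟩ β ⟨h', -, -⟩ he
    simp only [dif_pos h, dif_pos h', Prod.mk.injEq] at he
    obtain ⟨e1, e2⟩ := he
    ext d
    by_cases hd : d ∈ F
    · have := congrArg (fun g : Perm {d // d ∈ F} => ((g ⟨d, hd⟩ : {d // d ∈ F}) : D)) e1
      simpa [Perm.subtypePerm_apply] using this
    · have := congrArg (fun g : Perm {d // ¬ d ∈ F} => ((g ⟨d, hd⟩ : {d // ¬ d ∈ F}) : D)) e2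
      simpa [Perm.subtypePerm_apply] using this

omit [Fintype D] [DecidableEq D] in
private theorem dis_tf {f : Perm D} (hf : TF f) (p : D → Prop) (h : ∀ d, p (f d) ↔ p d) :
    TF (f.subtypePerm h) := by
  constructor
  · intro d
    apply Subtype.ext
    exact hf.three d.1
  · intro d hd
    exact hf.nf d.1 (congrArg Subtype.val hd)

omit [Fintype D] [DecidableEq D] in
private theorem dis_ts {f : Perm D} {α : Perm D} (p : D → Prop) (h : ∀ d, p (f d) ↔ p d)
    (h' : ∀ d, p (α d) ↔ p d) (hi : ∀ d, α (α d) = d) (hn : ∀ d, α d ≠ d)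
    (hc : ∀ S : D → Prop, (∀ d, S d → S (f d) ∧ S (α d)) → (∃ d, p d ∧ S d) → ∀ d, p d → S d) :
    PT (f.subtypePerm h) (α.subtypePerm h') [] := by
  refine ⟨?_, ?_, ?_, ?_⟩
  · intro d
    exact Subtype.ext (hi d.1)
  · intro d
    constructor
    · intro hd
      exact absurd (congrArg Subtype.val hd) (hn d.1)
    · intro hd
      simp [tri] at hd
  · simp [tri]
  · intro S hS h1 h2 d hd
    obtain ⟨d0, -, hd0⟩ := hS
    have h3 := hc (fun e => ∃ he : p e, S ⟨e, he⟩) (by
      rintro e ⟨he, hSe⟩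
      exact ⟨⟨(h e).2 he, h1 _ hSe⟩, ⟨(h' e).2 he, h2 _ hSe⟩⟩) ⟨d0.1, d0.2, d0.2, hd0⟩ d.1 d.2
    obtain ⟨_, h4⟩ := h3
    exact h4

private theorem dis_dvd {f α : Perm D} (hf : TF f) (hi : ∀ d, α (α d) = d) (hn : ∀ d, α d ≠ d) :
    ∃ i, Fintype.card D = 6 * i := by
  have h3 := cyc_three hf
  have h2 : 2 ∣ α.support.card := by
    apply Perm.two_dvd_card_support
    ext d
    rw [pow_two, Perm.mul_apply, hi]
    rfl
  have h4 : α.support = Finset.univ := by
    ext d
    simp [hn d]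
  rw [h4, Finset.card_univ] at h2
  obtain ⟨k, hk⟩ := h2
  exact ⟨cyc f / 2, by omega⟩

private theorem dis_real {f : Perm D} (hf : TF f) {i : ℕ} (hi : 1 ≤ i)
    (hD : Fintype.card D = 6 * i) (u : ℕ) :
    ((TS f u).ncard : ℝ) ≤ ((2 * i).factorial : ℝ) * 3 ^ (2 * i) * bc i u := by
  rw [← ts_card hf hD hi u]
  have h1 : (1 : ℝ) ≤ 6 * i := by
    have : (1 : ℝ) ≤ i := by exact_mod_cast hi
    linarith
  have h2 : (0 : ℝ) ≤ ((TS f u).ncard : ℝ) := Nat.cast_nonneg _
  nlinarith

open Classical in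
private theorem dis_F {f : Perm D} (hf : TF f) {n i : ℕ} (hD : Fintype.card D = 6 * n) (h1 : 1 ≤ i)
    (h2 : 1 ≤ n - i) (F : Finset D) (hF : ∀ d, f d ∈ F ↔ d ∈ F) (hc : F.card = 6 * i) (u u' : ℕ) :
    ((DA f F hF u u').ncard : ℝ) ≤ ((2 * i).factorial : ℝ) * 3 ^ (2 * i) * bc i u *
      (((2 * (n - i)).factorial : ℝ) * 3 ^ (2 * (n - i)) * bc (n - i) u') := by
  have e1 := dis_DA f F hF u u'
  have e2 : Fintype.card {d // d ∈ F} = 6 * i := by
    rw [Fintype.card_coe, hc]
  have e3 : Fintype.card {d // ¬ d ∈ F} = 6 * (n - i) := by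
    rw [Fintype.card_subtype_compl, e2, hD]
    omega
  have e4 := dis_real (dis_tf hf (fun d => d ∈ F) hF) h1 e2 u
  have e5 := dis_real (dis_tf hf (fun d => ¬ d ∈ F) (fun d => not_congr (hF d))) h2 e3 u'
  calc ((DA f F hF u u').ncard : ℝ)
      ≤ (((TS (f.subtypePerm (p := fun d => d ∈ F) hF) u).ncard *
      (TS (f.subtypePerm (p := fun d => ¬ d ∈ F) (fun d => not_congr (hF d))) u').ncard : ℕ) : ℝ) := by
        exact_mod_cast e1
    _ = ((TS (f.subtypePerm (p := fun d => d ∈ F) hF) u).ncard : ℝ) *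
      ((TS (f.subtypePerm (p := fun d => ¬ d ∈ F) (fun d => not_congr (hF d))) u').ncard : ℝ) := by
        push_cast
        rfl
    _ ≤ _ := by
        apply mul_le_mul e4 e5 (Nat.cast_nonneg _)
        exact le_trans (Nat.cast_nonneg _) e4

end

theorem dis_sum {D : Type} [Fintype D] [DecidableEq D] {f : Perm D} (hf : TF f) {n : ℕ}
    (hD : Fintype.card D = 6 * n) (w L : ℕ) (hL : 1 ≤ L) :
    ((Dis f w (6 * L)).ncard : ℝ) ≤
      ∑ i ∈ (Finset.range (n + 1)).filter (fun i => L ≤ i ∧ L ≤ n - i),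
        ∑ u ∈ Finset.range (w + 1),
          ((2 * n).factorial : ℝ) * 3 ^ (2 * n) * (bc i u * bc (n - i) (w - u)) := by
  classical
  set I := (Finset.range (n + 1)).filter (fun i => L ≤ i ∧ L ≤ n - i) with hI
  set Fs : ℕ → Finset (Finset D) := fun i =>
    Finset.univ.filter fun F => (∀ d, f d ∈ F ↔ d ∈ F) ∧ F.card = 6 * i with hFs
  set G : ℕ → ℕ → Finset D → Finset (Perm D) := fun i u F =>
    if h : ∀ d, f d ∈ F ↔ d ∈ F then (Set.toFinite (DA f F h u (w - u))).toFinset else ∅ with hG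
  have hsub : (Set.toFinite (Dis f w (6 * L))).toFinset ⊆
      I.biUnion fun i => (Finset.range (w + 1)).biUnion fun u => (Fs i).biUnion fun F => G i u F := by
    intro α hα
    rw [Set.Finite.mem_toFinset] at hα
    obtain ⟨hi, hn, hw, P, hP, hP', hL1, hL2, hc1, hc2⟩ := hα
    set F : Finset D := Finset.univ.filter P with hFdef
    have hmem : ∀ d, d ∈ F ↔ P d := by
      intro d
      simp [hFdef]
    have hfF : ∀ d, f d ∈ F ↔ d ∈ F := by
      intro d
      rw [hmem, hmem]
      constructor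
      · intro h
        by_contra h3
        exact (hP' d h3).1 h
      · intro h
        exact (hP d h).1
    have haF : ∀ d, α d ∈ F ↔ d ∈ F := by
      intro d
      rw [hmem, hmem]
      constructor
      · intro h
        by_contra h3
        exact (hP' d h3).2 h
      · intro h
        exact (hP d h).2
    have hPT1 : PT (f.subtypePerm (p := fun d => d ∈ F) hfF)
        (α.subtypePerm (p := fun d => d ∈ F) haF) [] := by
      apply dis_ts _ _ _ hi hn
      rintro S hS ⟨d, hd, hd2⟩ e he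
      exact hc1 S hS ⟨d, (hmem d).1 hd, hd2⟩ e ((hmem e).1 he)
    have hPT2 : PT (f.subtypePerm (p := fun d => ¬ d ∈ F) (fun d => not_congr (hfF d)))
        (α.subtypePerm (p := fun d => ¬ d ∈ F) (fun d => not_congr (haF d))) [] := by
      apply dis_ts _ _ _ hi hn
      rintro S hS ⟨d, hd, hd2⟩ e he
      exact hc2 S hS ⟨d, fun h => hd ((hmem d).2 h), hd2⟩ e (fun h => he ((hmem e).2 h))
    have hcard1 : Fintype.card {d // d ∈ F} = F.card := Fintype.card_coe F
    have hcard2 : Fintype.card {d // ¬ d ∈ F} = 6 * n - F.card := by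
      rw [Fintype.card_subtype_compl, hcard1, hD]
    have hFle : F.card ≤ 6 * n := by
      rw [← hD]
      exact Finset.card_le_univ F
    obtain ⟨i, hi6⟩ := dis_dvd (dis_tf hf (fun d => d ∈ F) hfF) (α := α.subtypePerm (p := fun d => d ∈ F) haF)
      hPT1.inv (fun d hd => hn d.1 (congrArg Subtype.val hd))
    rw [hcard1] at hi6
    have hN1 : Nat.card {d // P d} = F.card := by
      rw [Nat.card_eq_fintype_card, Fintype.card_subtype]
    have hN2 : Nat.card {d // ¬ P d} = 6 * n - F.card := by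
      rw [Nat.card_eq_fintype_card, Fintype.card_subtype_compl, ← Nat.card_eq_fintype_card,
        ← Nat.card_eq_fintype_card, hN1, Nat.card_eq_fintype_card, hD]
    rw [hN1, hi6] at hL1
    rw [hN2, hi6] at hL2
    set u := cyc ((f * α).subtypePerm (p := fun d => d ∈ F) fun d => (hfF (α d)).trans (haF d)) with hu
    have hsp := cyc_split (f * α) (fun d => d ∈ F) (fun d => (hfF (α d)).trans (haF d))
    rw [hw] at hsp
    rw [Finset.mem_biUnion]
    refine ⟨i, ?_, ?_⟩
    · rw [hI, Finset.mem_filter, Finset.mem_range]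
      omega
    rw [Finset.mem_biUnion]
    refine ⟨u, ?_, ?_⟩
    · rw [Finset.mem_range]
      omega
    rw [Finset.mem_biUnion]
    refine ⟨F, ?_, ?_⟩
    · rw [hFs]
      simp only [Finset.mem_filter, Finset.mem_univ, true_and]
      exact ⟨hfF, hi6⟩
    · rw [hG]
      simp only
      rw [dif_pos hfF, Set.Finite.mem_toFinset]
      refine ⟨haF, ⟨hPT1, ?_⟩, ⟨hPT2, ?_⟩⟩
      · rw [Perm.subtypePerm_mul]
      · rw [Perm.subtypePerm_mul]
        omega
  have h1 := Finset.card_le_card hsub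
  rw [← Set.ncard_eq_toFinset_card _ (Set.toFinite (Dis f w (6 * L)))] at h1
  have h2 : (((I.biUnion fun i => (Finset.range (w + 1)).biUnion fun u => (Fs i).biUnion fun F => G i u F).card : ℕ) : ℝ) ≤
      ∑ i ∈ I, ∑ u ∈ Finset.range (w + 1),
          ((2 * n).factorial : ℝ) * 3 ^ (2 * n) * (bc i u * bc (n - i) (w - u)) := by
    have h3 : ∀ i ∈ I, ∀ u ∈ Finset.range (w + 1),
        ((((Fs i).biUnion fun F => G i u F).card : ℕ) : ℝ) ≤
          ((2 * n).factorial : ℝ) * 3 ^ (2 * n) * (bc i u * bc (n - i) (w - u)) := by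
      intro i hi u hu
      rw [hI, Finset.mem_filter, Finset.mem_range] at hi
      obtain ⟨hi1, hi2, hi3⟩ := hi
      have h4 : ((((Fs i).biUnion fun F => G i u F).card : ℕ) : ℝ) ≤ ∑ F ∈ Fs i, ((G i u F).card : ℝ) := by
        exact_mod_cast Finset.card_biUnion_le
      have h5 : ∀ F ∈ Fs i, ((G i u F).card : ℝ) ≤ ((2 * i).factorial : ℝ) * 3 ^ (2 * i) * bc i u *
          (((2 * (n - i)).factorial : ℝ) * 3 ^ (2 * (n - i)) * bc (n - i) (w - u)) := by
        intro F hF
        rw [hFs] at hF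
        simp only [Finset.mem_filter, Finset.mem_univ, true_and] at hF
        rw [hG]
        simp only
        rw [dif_pos hF.1, ← Set.ncard_eq_toFinset_card]
        exact dis_F hf hD (by omega) (by omega) F hF.1 hF.2 u (w - u)
      have h6 : (Fs i).card ≤ (2 * n).choose (2 * i) := by
        apply pai_cl hf hD
        intro F hF
        rw [hFs] at hF
        simp only [Finset.mem_filter, Finset.mem_univ, true_and] at hF
        refine ⟨fun d hd => (hF.1 d).2 hd, by omega⟩
      have b1 := bc_nonneg i u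
      have b2 := bc_nonneg (n - i) (w - u)
      have h7 : ((2 * n).choose (2 * i) : ℝ) * ((2 * i).factorial : ℝ) * ((2 * (n - i)).factorial : ℝ) =
          ((2 * n).factorial : ℝ) := by
        have h8 := Nat.choose_mul_factorial_mul_factorial (n := 2 * n) (k := 2 * i) (by omega)
        have h9 : 2 * n - 2 * i = 2 * (n - i) := by omega
        rw [h9] at h8
        exact_mod_cast h8
      have h10 : (3 : ℝ) ^ (2 * n) = 3 ^ (2 * i) * 3 ^ (2 * (n - i)) := by
        rw [← pow_add]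
        congr 1
        omega
      calc ((((Fs i).biUnion fun F => G i u F).card : ℕ) : ℝ) ≤ ∑ F ∈ Fs i, ((G i u F).card : ℝ) := h4
        _ ≤ ∑ F ∈ Fs i, ((2 * i).factorial : ℝ) * 3 ^ (2 * i) * bc i u *
          (((2 * (n - i)).factorial : ℝ) * 3 ^ (2 * (n - i)) * bc (n - i) (w - u)) :=
            Finset.sum_le_sum h5
        _ = ((Fs i).card : ℝ) * (((2 * i).factorial : ℝ) * 3 ^ (2 * i) * bc i u *
          (((2 * (n - i)).factorial : ℝ) * 3 ^ (2 * (n - i)) * bc (n - i) (w - u))) := by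
            rw [Finset.sum_const, nsmul_eq_mul]
        _ ≤ ((2 * n).choose (2 * i) : ℝ) * (((2 * i).factorial : ℝ) * 3 ^ (2 * i) * bc i u *
          (((2 * (n - i)).factorial : ℝ) * 3 ^ (2 * (n - i)) * bc (n - i) (w - u))) := by
            apply mul_le_mul_of_nonneg_right
            · exact_mod_cast h6
            · positivity
        _ = _ := by
            rw [← h7, h10]
            ring
    have h11 : (((I.biUnion fun i => (Finset.range (w + 1)).biUnion fun u => (Fs i).biUnion fun F => G i u F).card : ℕ) : ℝ) ≤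
        ∑ i ∈ I, ∑ u ∈ Finset.range (w + 1), ((((Fs i).biUnion fun F => G i u F).card : ℕ) : ℝ) := by
      have h12 := Finset.card_biUnion_le (s := I)
        (t := fun i => (Finset.range (w + 1)).biUnion fun u => (Fs i).biUnion fun F => G i u F)
      have h13 : ∀ i ∈ I, ((Finset.range (w + 1)).biUnion fun u => (Fs i).biUnion fun F => G i u F).card ≤
          ∑ u ∈ Finset.range (w + 1), ((Fs i).biUnion fun F => G i u F).card :=
        fun i _ => Finset.card_biUnion_le
      exact_mod_cast h12.trans (Finset.sum_le_sum h13)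
    exact h11.trans (Finset.sum_le_sum fun i hi => Finset.sum_le_sum fun u hu => h3 i hi u hu)
  exact le_trans (by exact_mod_cast h1) h2

theorem dis_card {ω1 ω2 : ℝ} (h1 : 0 < ω1) (h2 : ω2 < 1) : ∃ c C : ℝ, ∃ n0 : ℕ, 0 < c ∧ 0 < C ∧
    1 ≤ n0 ∧ ∀ n v k L : ℕ, n0 ≤ n → ω1 * n ≤ v → (v : ℝ) ≤ ω2 * n → v % 2 = n % 2 → k ≤ 1 →
      1 ≤ L → ∀ f : Perm (Fin (6 * n)), TF f →
        ((Dis f (v + 2 + 2 * k) (6 * L)).ncard : ℝ) ≤
          C * n ^ 3 * Real.exp (-c * L) * (TS f v).ncard := by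
  classical
  obtain ⟨c, C, n0, hc, hC, hp⟩ := pieceM h1 h2 0
  obtain ⟨N, hN⟩ := exists_nat_ge C
  refine ⟨c, 72 * C, n0 + N + 1, hc, by positivity, by omega, ?_⟩
  intro n v k L hn ha hb hpar hk hL f hf
  have hn1 : 1 ≤ n := by omega
  have hnR : (1 : ℝ) ≤ n := by exact_mod_cast hn1
  have hCn : C ≤ (n : ℝ) ^ 2 := by
    have h3 : (N : ℝ) ≤ n := by exact_mod_cast (by omega : N ≤ n)
    nlinarith
  have hvn : v < n := by
    have h3 : (v : ℝ) < n := by nlinarith
    exact_mod_cast h3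
  have hbn := bc_nonneg n v
  have hE := Real.exp_pos (-c * L)
  refine (dis_sum hf (by rw [Fintype.card_fin]) (v + 2 + 2 * k) L hL).trans ?_
  have hterm : ∀ i ∈ (Finset.range (n + 1)).filter (fun i => L ≤ i ∧ L ≤ n - i),
      ∀ u ∈ Finset.range (v + 2 + 2 * k + 1),
      ((2 * n).factorial : ℝ) * 3 ^ (2 * n) * (bc i u * bc (n - i) (v + 2 + 2 * k - u)) ≤
        C * Real.exp (-c * L) * (6 * n * (TS f v).ncard) := by
    intro i hi u hu
    rw [Finset.mem_filter, Finset.mem_range] at hi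
    rw [Finset.mem_range] at hu
    have e1 := hp n v i (n - i) u (v + 2 + 2 * k - u) k 0 L (by omega) ha hb hpar le_rfl (by omega)
      (by omega) hi.2.1 hi.2.2
    have e2 : (C / (n : ℝ) ^ 2) ^ k ≤ 1 := by
      apply pow_le_one₀ (by positivity)
      rw [div_le_one (by positivity)]
      exact hCn
    have e3 : bc i u * bc (n - i) (v + 2 + 2 * k - u) ≤ C * Real.exp (-c * L) * bc n v := by
      refine e1.trans ?_
      calc C * Real.exp (-c * L) * (C / (n : ℝ) ^ 2) ^ k * bc n v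
          ≤ C * Real.exp (-c * L) * 1 * bc n v := by gcongr
        _ = _ := by ring
    have e4 := ts_card hf (n := n) (by rw [Fintype.card_fin]) hn1 v
    calc ((2 * n).factorial : ℝ) * 3 ^ (2 * n) * (bc i u * bc (n - i) (v + 2 + 2 * k - u))
        ≤ ((2 * n).factorial : ℝ) * 3 ^ (2 * n) * (C * Real.exp (-c * L) * bc n v) := by gcongr
      _ = C * Real.exp (-c * L) * (((2 * n).factorial : ℝ) * 3 ^ (2 * n) * bc n v) := by ring
      _ = C * Real.exp (-c * L) * (6 * n * (TS f v).ncard) := by rw [← e4]; ring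
  have hT : (0 : ℝ) ≤ C * Real.exp (-c * L) * (6 * n * (TS f v).ncard) := by positivity
  calc ∑ i ∈ (Finset.range (n + 1)).filter (fun i => L ≤ i ∧ L ≤ n - i),
        ∑ u ∈ Finset.range (v + 2 + 2 * k + 1),
          ((2 * n).factorial : ℝ) * 3 ^ (2 * n) * (bc i u * bc (n - i) (v + 2 + 2 * k - u))
      ≤ ∑ i ∈ (Finset.range (n + 1)).filter (fun i => L ≤ i ∧ L ≤ n - i),
        ∑ u ∈ Finset.range (v + 2 + 2 * k + 1),
          C * Real.exp (-c * L) * (6 * n * (TS f v).ncard) :=
        Finset.sum_le_sum fun i hi => Finset.sum_le_sum fun u hu => hterm i hi u hu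
    _ = (((Finset.range (n + 1)).filter (fun i => L ≤ i ∧ L ≤ n - i)).card : ℝ) *
        (((v + 2 + 2 * k + 1 : ℕ) : ℝ) * (C * Real.exp (-c * L) * (6 * n * (TS f v).ncard))) := by
        rw [Finset.sum_const, Finset.sum_const, Finset.card_range, nsmul_eq_mul, nsmul_eq_mul]
    _ ≤ (2 * n) * ((6 * n) * (C * Real.exp (-c * L) * (6 * n * (TS f v).ncard))) := by
        have k1 : (((Finset.range (n + 1)).filter (fun i => L ≤ i ∧ L ≤ n - i)).card : ℝ) ≤ 2 * n := by
          have k2 : ((Finset.range (n + 1)).filter (fun i => L ≤ i ∧ L ≤ n - i)).card ≤ 2 * n := by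
            refine (Finset.card_filter_le _ _).trans ?_
            rw [Finset.card_range]
            omega
          exact_mod_cast k2
        have k3 : ((v + 2 + 2 * k + 1 : ℕ) : ℝ) ≤ 6 * n := by
          exact_mod_cast (by omega : v + 2 + 2 * k + 1 ≤ 6 * n)
        gcongr
    _ = 72 * C * n ^ 3 * Real.exp (-c * L) * (TS f v).ncard := by ring

end QU91
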