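import Pool.Agent.H91.QU.Defs
import Pool.Agent.H40.QL.Tree
import Pool.Agent.H40.QL.Addp
import Pool.Agent.H39.UI.Defs

/-!
[H91 QU EUL]  (MP_bcc40c_pr, Q2, part (U))  Euler: a connected set of faces has at most the number of vertices of the sphere.

PROOF.  tree_exists (QL40) gives `l` with `3 (l.length + 1) = F.card`, `cyc (f * glue 1 l) + l.length = cyc f`; pairs_exist gives `l2` such that `L = l ++ l2` contains all pairs inside `F`.  `cyc (f * glue 1 (l ++ l2)) ≤ cyc (f * glue 1 l) + l2.length`: induction on `l2` from the right, `glue 1 (L ++ [p]) = glue 1 L * swap p.1 p.2`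
(glue_append; see add_pairs in Addp) and `cyc (π * swap a b) ≤ cyc π + 1` (cyc_swap_same, cyc_swap_diff, `a ≠ b`).  vb_cyc: `3 cyc (f * glue 1 L) + F.card = 3 vb + card D`, cyc_three: `3 cyc f = card D`, pairs_card2: `#{d ∈ F, α d ∈ F} = 2 L.length`.  So
`3 vb = 3 cyc (f * glue 1 L) + F.card - card D ≤ 3 (cyc f - l.length + l2.length) + F.card - card D = 3 (l2.length - l.length) + F.card`, and `6 vb + 2 F.card ≤ 6 L.length - 12 l.length + 4 F.card = 3 * #pairs darts + 12` with `3 l.length = F.card - 3`.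
-/

set_option autoImplicit false

namespace QU91

open Equiv HG39 QD39 QL40 UI39

variable {D : Type} [Fintype D] [DecidableEq D]

private theorem eul_add (f : Perm D) (l l2 : List (D × D)) (hn : (ent (l ++ l2)).Nodup) :
    cyc (f * glue 1 (l ++ l2)) ≤ cyc (f * glue 1 l) + l2.length := by
  induction l2 using List.reverseRecOn with
  | nil =>
    rw [List.append_nil, List.length_nil, Nat.add_zero]
  | append_singleton l2 p ih =>
    rw [← List.append_assoc, ent_snoc, List.nodup_append] at hn
    obtain ⟨h1, h2, -⟩ := hn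
    have hp : p.1 ≠ p.2 := by
      intro h
      rw [List.nodup_cons] at h2
      exact h2.1 (List.mem_singleton.2 h)
    have h3 := ih h1
    have e1 : f * glue 1 (l ++ (l2 ++ [p])) = (f * glue 1 (l ++ l2)) * swap p.1 p.2 := by
      rw [← List.append_assoc, glue_append, mul_assoc]
      rfl
    rw [e1, List.length_append, List.length_singleton]
    by_cases h5 : (f * glue 1 (l ++ l2)).SameCycle p.1 p.2
    · rw [cyc_swap_same _ _ _ hp h5]
      omega
    · have h6 := cyc_swap_diff _ _ _ h5
      omega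

theorem eul {f α : Perm D} (hf : TF f) (hi : ∀ d, α (α d) = d) (hn : ∀ d, α d ≠ d)
    (F : Finset D) (hF : F.Nonempty) (hFf : ∀ d ∈ F, f d ∈ F) (hC : Cf f α F) :
    6 * vb f α F + 2 * F.card ≤ 3 * (F.filter fun d => α d ∈ F).card + 12 := by
  obtain ⟨l, h1, h2, h3, h4, -⟩ := tree_exists hf hi hn F hF hFf
    (fun P hP hPf hPa => hC P hPf hPa hP)
  obtain ⟨l2, h5, h6, h7⟩ := pairs_exist hi hn F l h1 h2
  have h8 := eul_add f l l2 h5
  have h9 := vb_cyc hf hi F hFf (l ++ l2) h5 h6 h7
  have h10 := cyc_three hf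
  have h11 := pairs_card2 hi F (l ++ l2) h5 h6 h7
  rw [List.length_append] at h11
  rw [h11]
  omega

end QU91
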