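import Pool.Agent.H91.QU.Fra

/-!
[H91 QU FRB]  (MP_bcc40c_pr, Q2, part (U))  First return permutations: products, conjugation, number of cycles.

PROOFS.
fr_mul: `t` maps `S` to `S`.  By fr_unique it is enough that `IsFr (t * g) S (t * fr g S)`.  `out`: `fr g S d = d`, `t d = d`.  `on`: let `S d`, `e = fr g S d`, `Hit g S (g d) e` with `k` steps.
If `k = 0` then `g d = e` satisfies `S`, `(t * g) d = t e`, `S (t e)`: hit_self.  If `k > 0`: `g d` does not satisfy `S`, `(t * g) d = g d`, and `(t * g)^j (g d) = (g^(j+1)) d` for `j < k` (these points do not satisfy `S`), `(t * g)^k (g d) = t e`.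
fr_conj: fr_unique and hit_conj.
fr_conj_fix: if `c` fixes `S` pointwise then `c` commutes with `fr g S` (which is supported in `S`), so fr_conj gives it.
fr_cyc: split the quotient of `g` into the classes meeting `S` and the others (`ncy`); the quotient of `fr g S` into the classes of the points of `S` and the classes of the points outside `S` (singletons: the
points outside `S` are fixed, the cycles of points of `S` stay in `S`).  The classes meeting `S` correspond by fr_same.
ncy_inv, cyc_inv: the setoids of `g⁻¹` and `g` have the same relation (`Perm.sameCycle_inv`).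
ncy_one: if all points without `S` in their cycle are in one cycle, and there is one, then `ncy = 1`.
ncy_list: if `ncy g S ≤ m` and D nonempty, the cycles without `S` have representatives `e 0, ..., e (m-1)` (repeat if there are fewer; if there is none take anything).
-/

set_option autoImplicit false

namespace QU91

open Equiv HG39 QD39 QL40

variable {D : Type} [Fintype D] [DecidableEq D]

theorem fr_mul (g t : Perm D) (S : D → Prop) (ht : ∀ d, ¬ S d → t d = d) :
    fr (t * g) S = t * fr g S := by
  have hS : ∀ d, S d → S (t d) := by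
    intro d hd
    by_contra h
    exact h ((t.injective (ht _ h)).symm ▸ hd)
  refine fr_unique ⟨fun d hd => ?_, fun d hd => ?_⟩
  · rw [Perm.mul_apply, (fr_spec g S).out d hd, ht d hd]
  · obtain ⟨he, k, hk, hkS⟩ := (fr_spec g S).on d hd
    have key : ∀ j, j ≤ k → ((t * g) ^ j) ((t * g) d) = t ((g ^ j) (g d)) := by
      intro j
      induction j with
      | zero => intro _; rfl
      | succ j ih =>
        intro hj
        rw [pow_succ', Perm.mul_apply, ih (by omega), Perm.mul_apply,
          ht _ (hkS j (by omega)), pow_succ', Perm.mul_apply]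
    refine ⟨?_, k, ?_, fun j hj => ?_⟩
    · rw [Perm.mul_apply]
      exact hS _ he
    · rw [key k le_rfl, hk, Perm.mul_apply]
    · rw [key j hj.le, ht _ (hkS j hj)]
      exact hkS j hj

theorem fr_conj (g c : Perm D) (S : D → Prop) (hc : ∀ d, S (c d) ↔ S d) :
    fr (c * g * c⁻¹) S = c * fr g S * c⁻¹ := by
  have hc' : ∀ d, S (c⁻¹ d) ↔ S d := by
    intro d
    rw [← hc (c⁻¹ d), ← Perm.mul_apply, mul_inv_cancel, Perm.one_apply]
  refine fr_unique ⟨fun d hd => ?_, fun d hd => ?_⟩
  · rw [Perm.mul_apply, Perm.mul_apply, (fr_spec g S).out _ (fun h => hd ((hc' d).1 h)),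
      ← Perm.mul_apply, mul_inv_cancel, Perm.one_apply]
  · exact hit_conj c hc ((fr_spec g S).on _ ((hc' d).2 hd))

omit [DecidableEq D] in
private theorem frb_card (h : Perm D) (S : D → Prop) :
    cyc h = Nat.card (Quotient ((Perm.SameCycle.setoid h).comap
      (Subtype.val : {d // S d} → D))) + ncy h S := by
  classical
  have h1 : Nat.card (Quotient ((Perm.SameCycle.setoid h).comap
      (Subtype.val : {d // S d} → D))) =
      Nat.card {c : Quotient (Perm.SameCycle.setoid h) //
        ¬ ∀ d, Quotient.mk (Perm.SameCycle.setoid h) d = c → ¬ S d} := by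
    refine Nat.card_congr ((Setoid.comapQuotientEquiv _ _).trans (Equiv.setCongr ?_))
    ext c
    simp only [Set.mem_range, Function.comp_apply, Subtype.exists]
    constructor
    · rintro ⟨d, hd, rfl⟩ h2
      exact h2 d rfl hd
    · intro h2
      have h3 : ∃ d, Quotient.mk (Perm.SameCycle.setoid h) d = c ∧ S d := by
        by_contra h4
        push Not at h4
        exact h2 h4
      obtain ⟨d, h4, h5⟩ := h3
      exact ⟨d, h5, h4⟩
  have h2 := Nat.card_congr (Equiv.sumCompl
    (fun c : Quotient (Perm.SameCycle.setoid h) =>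
      ∀ d, Quotient.mk (Perm.SameCycle.setoid h) d = c → ¬ S d))
  rw [Nat.card_sum] at h2
  unfold cyc ncy
  rw [h1, ← h2, add_comm]

theorem fr_cyc (g : Perm D) (S : D → Prop) :
    cyc g + Nat.card {d // ¬ S d} = cyc (fr g S) + ncy g S := by
  classical
  have h1 : (Perm.SameCycle.setoid g).comap (Subtype.val : {d // S d} → D) =
      (Perm.SameCycle.setoid (fr g S)).comap (Subtype.val : {d // S d} → D) := by
    apply Setoid.ext
    intro a b
    exact (fr_same a.2 b.2).symm
  have h2 : ncy (fr g S) S = Nat.card {d // ¬ S d} := by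
    unfold ncy
    symm
    have hfix : ∀ d, ¬ S d → ∀ e, (fr g S).SameCycle d e → d = e := fun d hd e h =>
      h.eq_of_left ((fr_spec g S).out d hd)
    refine Nat.card_congr (Equiv.ofBijective (fun d => ⟨Quotient.mk _ d.1, fun e he => ?_⟩)
      ⟨?_, ?_⟩)
    · have h3 : (fr g S).SameCycle e d.1 := Quotient.exact he
      rw [← hfix _ d.2 _ h3.symm]
      exact d.2
    · intro a b hab
      have h3 := congrArg Subtype.val hab
      have h4 : (fr g S).SameCycle a.1 b.1 := Quotient.exact h3
      exact Subtype.ext (hfix _ a.2 _ h4)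
    · rintro ⟨c, hc⟩
      induction c using Quotient.inductionOn with
      | h d => exact ⟨⟨d, hc d rfl⟩, rfl⟩
  have h3 := frb_card g S
  have h4 := frb_card (fr g S) S
  rw [h1] at h3
  rw [h2] at h4
  omega

omit [Fintype D] [DecidableEq D] in
private theorem frb_setoid (g : Perm D) :
    Perm.SameCycle.setoid g⁻¹ = Perm.SameCycle.setoid g := by
  apply Setoid.ext
  intro a b
  exact Perm.sameCycle_inv

theorem cyc_inv (g : Perm D) : cyc g⁻¹ = cyc g := by
  unfold cyc
  rw [frb_setoid]

theorem ncy_inv (g : Perm D) (S : D → Prop) : ncy g⁻¹ S = ncy g S := by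
  unfold ncy
  rw [frb_setoid]

omit [Fintype D] [DecidableEq D] in
private theorem frb_iff (g : Perm D) (S : D → Prop) (e : D) :
    (∀ d, Quotient.mk (Perm.SameCycle.setoid g) d = Quotient.mk _ e → ¬ S d) ↔
      ∀ d, g.SameCycle e d → ¬ S d :=
  ⟨fun h d hd => h d (Quotient.sound hd.symm), fun h d hd =>
    h d (Quotient.exact hd : g.SameCycle d e).symm⟩

theorem ncy_one {g : Perm D} {S : D → Prop} {x : D}
    (h : ∀ e, (∀ d, g.SameCycle e d → ¬ S d) ↔ g.SameCycle e x) : ncy g S = 1 := by
  unfold ncy
  rw [Nat.card_eq_one_iff_unique]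
  refine ⟨⟨?_⟩, ⟨⟨Quotient.mk _ x, (frb_iff g S x).2 ((h x).2 (Perm.SameCycle.refl g x))⟩⟩⟩
  rintro ⟨c, hc⟩ ⟨c', hc'⟩
  induction c using Quotient.inductionOn with
  | h e =>
    induction c' using Quotient.inductionOn with
    | h e' =>
      have h1 := (h e).1 ((frb_iff g S e).1 hc)
      have h2 := (h e').1 ((frb_iff g S e').1 hc')
      exact Subtype.ext (Quotient.sound (h1.trans h2.symm))

theorem ncy_list [Nonempty D] {g : Perm D} {S : D → Prop} {m : ℕ} (h : ncy g S ≤ m) :
    ∃ e : Fin m → D, ∀ d, (∀ d', g.SameCycle d d' → ¬ S d') → ∃ i, g.SameCycle d (e i) := by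
  classical
  set T := {c : Quotient (Perm.SameCycle.setoid g) //
    ∀ d, Quotient.mk (Perm.SameCycle.setoid g) d = c → ¬ S d} with hT
  have hn : Nat.card T ≤ m := h
  let φ : T ≃ Fin (Nat.card T) := Finite.equivFin T
  refine ⟨fun i => if hi : i.1 < Nat.card T then (φ.symm ⟨i.1, hi⟩).1.out else
    Classical.arbitrary D, fun d hd => ?_⟩
  let c : T := ⟨Quotient.mk _ d, (frb_iff g S d).2 hd⟩
  refine ⟨⟨(φ c).1, lt_of_lt_of_le (φ c).2 hn⟩, ?_⟩
  have h1 : (φ c).1 < Nat.card T := (φ c).2
  simp only [dif_pos h1, Fin.eta, Equiv.symm_apply_apply]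
  exact (Quotient.mk_out (s := Perm.SameCycle.setoid g) d : g.SameCycle _ _).symm

end QU91
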