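import Pool.Agent.H91.QU.Sgf

/-!
[H91 QU SGC]  (MP_bcc40c_pr, Q2, part (U))  The surgery and connectivity.

PROOFS.  Let `α' = Sg f α ℓ p q = sw α a b k` with `Wp f α ℓ k a b`, `a 0 = p`, `b 0 = q` (wp_exists, sg_eq).
sg_clo: `P` is closed under `f` and `α'`, hence (finite, `f` of order three, `α'` an involution) `P d ↔ P (f d)`, `P d ↔ P (α' d)`, and `P` is constant on the cycles of `f * α'`.  By wp_val `α' (a i) = α (b i)`, `α' (b i) = α (a i)`; by wp_back `Fst f α' ℓ (α' (a i)) (a (i+1))`, so `P (a i) ↔ P (α (b i)) ↔ P (a (i+1))` (fst_same),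
so `P (a i) ↔ P p ↔ P (α (b i))` and in the same way `P (b i) ↔ P q ↔ P (α (a i))` for all `i < k`.  If `P p ↔ P q`: `α d = α' d` except for the `4 k` darts, where `P` has one value: so `P d → P (α d)`.
sg_con1: `PT f α' []`: `inv, leg, ndp` as for `α` (sg_lb.inv, fpf); `con`: `P` closed under `f`, `α'`, holds somewhere.  `P p ↔ P q`: either `¬ (f * α).SameCycle p q`, then `(f * α').SameCycle p q` (sg_flip) and `P` is constant on vertices; or `¬ (tau f α ℓ r).SameCycle p q`: then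
`(tau f α' ℓ r).SameCycle p q` (sg_tau, and `(τ * swap p q).SameCycle p q`: zs_ab), and tau_clo (`P` is `Cl f α' ℓ r P`).  So `P` is closed under `α` (sg_clo) and `hα.con` gives all darts.
sg_dis: `¬ PT f α' []` gives (`con` fails; the other fields hold) `P` closed under `f`, `α'`, with `P d0` and `¬ P d1`.  If `P p ↔ P q`, sg_clo and `hα.con` give a contradiction.  So exactly one of `p, q` satisfies `P`; replace `P` by its complement (it is closed too, see above) if necessary: `P p`, `¬ P q`.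
Any `S` closed under `f`, `α'` with `S d` for some `d` with `P d`: consider `S ∧ P` (closed, not empty, not everything): it contains exactly one of `p`, `q`, so it contains `p`.  If `P e` and `¬ S e` then `P ∧ ¬ S` is closed, not empty, does not contain `p`, nor `q` (`¬ P q`): `(P ∧ ¬ S) p ↔ (P ∧ ¬ S) q`,
contradiction as before (sg_clo, connectivity of `α`).  The same for the complement with `q`.
Sizes: the cycle of `p` of `tau f α' ℓ r` is in `P` (tau_clo), so `csz .. p ≤ Nat.card {d // P d}`; `q` and the complement.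
-/

set_option autoImplicit false

namespace QU91

open Equiv HG39 QD39 QL40

variable {D : Type} [Fintype D] [DecidableEq D]

variable {f α : Perm D} {ℓ : D → ℤ} {r : ℤ} {p q : D}

theorem pt_iff {f α : Perm D} : PT f α [] ↔ (∀ d, α (α d) = d) ∧ (∀ d, α d ≠ d) ∧
    ∀ P : D → Prop, (∃ d, P d) → (∀ d, P d → P (f d)) → (∀ d, P d → P (α d)) → ∀ d, P d := by
  constructor
  · intro h
    have hne : ∀ d, α d ≠ d := by
      intro d hd
      rw [h.leg] at hd
      simp [tri] at hd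
    refine ⟨h.inv, hne, ?_⟩
    rintro P ⟨d, hd⟩ h1 h2 e
    exact h.con P ⟨d, hne d, hd⟩ h1 h2 e (hne e)
  · rintro ⟨h1, h2, h3⟩
    refine ⟨h1, ?_, ?_, ?_⟩
    · intro d
      simp [tri, h2 d]
    · simp [tri]
    · rintro P ⟨d, _, hd⟩ h4 h5 e _
      exact h3 P ⟨d, hd⟩ h4 h5 e

private theorem sgc_f {f : Perm D} (hf : TF f) {P : D → Prop} (h1 : ∀ d, P d → P (f d)) (d : D) :
    P d ↔ P (f d) := by
  refine ⟨h1 d, fun h => ?_⟩
  have h2 := h1 _ (h1 _ h)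
  rw [hf.three] at h2
  exact h2

private theorem sgc_a {β : Perm D} (hi : ∀ d, β (β d) = d) {P : D → Prop}
    (h1 : ∀ d, P d → P (β d)) (d : D) : P d ↔ P (β d) := by
  refine ⟨h1 d, fun h => ?_⟩
  have h2 := h1 _ h
  rw [hi] at h2
  exact h2

private theorem sgc_fst {β : Perm D} (hf : TF f) (hi : ∀ d, β (β d) = d) {P : D → Prop}
    (h1 : ∀ d, P d → P (f d)) (h2 : ∀ d, P d → P (β d)) {y δ : D} (h : Fst f β ℓ y δ) :
    P y ↔ P δ := by
  have h3 : (β * f⁻¹).SameCycle y δ := hit_same (S := Desc f ℓ) h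
  refine zs_ind (β * f⁻¹) (fun x y => P x ↔ P y) (fun x => Iff.rfl)
    (fun x y z h1 h2 => h1.trans h2) ?_ h3
  intro x
  rw [Perm.mul_apply, ← sgc_a hi h2]
  have h4 := sgc_f hf h1 (f⁻¹ x)
  have h5 : f (f⁻¹ x) = x := Equiv.apply_symm_apply f x
  rw [h5] at h4
  exact h4.symm

theorem sg_clo (hf : TF f) (hl : Lb f α ℓ) (nn : ∀ d, 0 ≤ ℓ d) (hp : Tip f ℓ r p)
    (hq : Tip f ℓ r q) (hpq : p ≠ q) {P : D → Prop} (h1 : ∀ d, P d → P (f d))
    (h2 : ∀ d, P d → P (Sg f α ℓ p q d)) (h : P p ↔ P q) (d : D) (hd : P d) : P (α d) := by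
  obtain ⟨k, a, b, hW, ha, hb⟩ := wp_exists hl nn hp hq hpq
  subst ha hb
  rw [sg_eq hW] at h2
  have hl' : Lb f (sw α a b k) ℓ := wp_lb hl hW
  obtain ⟨v1, v2⟩ := wp_val hl hW
  have hB := wp_back hl hW
  have hA : ∀ i < k, (P (a i) ↔ P (a 0)) ∧ (P (b i) ↔ P (b 0)) := by
    intro i
    induction i with
    | zero => exact fun _ => ⟨Iff.rfl, Iff.rfl⟩
    | succ i ih =>
      intro hi
      obtain ⟨i1, i2⟩ := ih (by omega)
      have e1 := sgc_fst hf hl'.inv h1 h2 (hB.na i hi)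
      have e2 := sgc_fst hf hl'.inv h1 h2 (hB.nb i hi)
      have e3 := sgc_a hl'.inv h2 (a i)
      have e4 := sgc_a hl'.inv h2 (b i)
      exact ⟨(e3.trans e1).symm.trans i1, (e4.trans e2).symm.trans i2⟩
  have hC : ∀ i < k, (P (α (b i)) ↔ P (a 0)) ∧ (P (α (a i)) ↔ P (b 0)) := by
    intro i hi
    obtain ⟨i1, i2⟩ := hA i hi
    obtain ⟨w1, w2, _, _⟩ := v1 i hi
    have e3 := sgc_a hl'.inv h2 (a i)
    have e4 := sgc_a hl'.inv h2 (b i)
    rw [w1] at e3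
    rw [w2] at e4
    exact ⟨e3.symm.trans i1, e4.symm.trans i2⟩
  by_cases hd' : ∀ i < k, d ≠ a i ∧ d ≠ b i ∧ d ≠ α (a i) ∧ d ≠ α (b i)
  · rw [← v2 d hd']
    exact h2 d hd
  · push Not at hd'
    obtain ⟨i, hi, hi2⟩ := hd'
    obtain ⟨i1, i2⟩ := hA i hi
    obtain ⟨i3, i4⟩ := hC i hi
    by_cases c1 : d = a i
    · rw [c1] at hd ⊢
      exact i4.2 (h.1 (i1.1 hd))
    · by_cases c2 : d = b i
      · rw [c2] at hd ⊢
        exact i3.2 (h.2 (i2.1 hd))
      · by_cases c3 : d = α (a i)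
        · rw [c3] at hd ⊢
          rw [hl.inv]
          exact i1.2 (h.2 (i4.1 hd))
        · have c4 := hi2 c1 c2 c3
          rw [c4] at hd ⊢
          rw [hl.inv]
          exact i2.2 (h.1 (i3.1 hd))

theorem sg_con1 (hf : TF f) (hα : PT f α []) (hl : Lb f α ℓ) (nn : ∀ d, 0 ≤ ℓ d)
    (hp : Tip f ℓ r p) (hq : Tip f ℓ r q) (hpq : p ≠ q)
    (h : ¬ (f * α).SameCycle p q ∨ ¬ (tau f α ℓ r).SameCycle p q) :
    PT f (Sg f α ℓ p q) [] := by
  have hl' := sg_lb hl nn hp hq hpq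
  rw [pt_iff]
  refine ⟨hl'.inv, hl'.fpf, ?_⟩
  intro P hP h1 h2
  have hpq' : P p ↔ P q := by
    rcases h with h | h
    · have h3 := (sg_flip hl nn hp hq hpq).2 h
      refine zs_ind (f * Sg f α ℓ p q) (fun x y => P x ↔ P y) (fun x => Iff.rfl)
        (fun x y z h1 h2 => h1.trans h2) ?_ h3
      intro x
      rw [Perm.mul_apply, ← sgc_f hf h1]
      exact sgc_a hl'.inv h2 x
    · have h3 : (tau f (Sg f α ℓ p q) ℓ r).SameCycle p q := by
        rw [sg_tau hl nn hp hq hpq]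
        exact zs_ab _ _ _ h
      exact tau_clo hf hl' (P := P) ⟨h1, fun d hd _ => h2 d hd⟩ h3
  exact (pt_iff.1 hα).2.2 P hP h1 fun d hd => sg_clo hf hl nn hp hq hpq h1 h2 hpq' d hd

private theorem sgc_two {β : Perm D} (hf : TF f) (hi : ∀ d, β (β d) = d)
    (hall : ∀ S : D → Prop, (∀ d, S d → S (f d) ∧ S (β d)) → (S p ↔ S q) → (∃ d, S d) → ∀ d, S d)
    {P : D → Prop} (hP : ∀ d, P d → P (f d) ∧ P (β d)) (_ : P p) (h2 : ¬ P q) (S : D → Prop)
    (hS : ∀ d, S d → S (f d) ∧ S (β d)) (he : ∃ d, P d ∧ S d) (d : D) (hd : P d) : S d := by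
  by_contra hn
  have hT : ∀ d, (P d ∧ ¬ S d) → (P (f d) ∧ ¬ S (f d)) ∧ (P (β d) ∧ ¬ S (β d)) := by
    rintro d ⟨h3, h4⟩
    refine ⟨⟨(hP d h3).1, ?_⟩, ⟨(hP d h3).2, ?_⟩⟩
    · rw [← sgc_f hf (fun d hd => (hS d hd).1)]
      exact h4
    · rw [← sgc_a hi (fun d hd => (hS d hd).2)]
      exact h4
  by_cases hs : S p
  · have h3 := hall (fun d => P d ∧ ¬ S d) hT
      ⟨fun h => absurd hs h.2, fun h => absurd h.1 h2⟩ ⟨d, hd, hn⟩ q
    exact h2 h3.1
  · obtain ⟨d0, h3, h4⟩ := he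
    have h5 := hall (fun d => P d ∧ S d)
      (fun d hd => ⟨⟨(hP d hd.1).1, (hS d hd.2).1⟩, ⟨(hP d hd.1).2, (hS d hd.2).2⟩⟩)
      ⟨fun h => absurd h.2 hs, fun h => absurd h.1 h2⟩ ⟨d0, h3, h4⟩ p
    exact hs h5.2

private theorem sgc_csz {β : Perm D} (hf : TF f) (hl : Lb f β ℓ) {P : D → Prop}
    (hP : ∀ d, P d → P (f d) ∧ P (β d)) {s : D} (hs : P s) :
    csz (tau f β ℓ r) s ≤ Nat.card {d // P d} := by
  classical
  rw [Nat.card_eq_fintype_card, Fintype.card_subtype]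
  unfold csz
  refine Finset.card_le_card ?_
  intro d hd
  rw [Finset.mem_filter] at hd ⊢
  exact ⟨hd.1, (tau_clo hf hl (P := P) ⟨fun d hd => (hP d hd).1, fun d hd _ => (hP d hd).2⟩
    hd.2).1 hs⟩

theorem sg_dis (hf : TF f) (hα : PT f α []) (hl : Lb f α ℓ) (nn : ∀ d, 0 ≤ ℓ d)
    (hp : Tip f ℓ r p) (hq : Tip f ℓ r q) (hpq : p ≠ q) (hn : ¬ PT f (Sg f α ℓ p q) [])
    {w L : ℕ} (hw : cyc (f * Sg f α ℓ p q) = w)
    (h1 : L ≤ csz (tau f (Sg f α ℓ p q) ℓ r) p) (h2 : L ≤ csz (tau f (Sg f α ℓ p q) ℓ r) q) :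
    Sg f α ℓ p q ∈ Dis f w L := by
  have hl' := sg_lb hl nn hp hq hpq
  have hall : ∀ S : D → Prop, (∀ d, S d → S (f d) ∧ S (Sg f α ℓ p q d)) → (S p ↔ S q) →
      (∃ d, S d) → ∀ d, S d := by
    intro S hS hpq' hne
    exact (pt_iff.1 hα).2.2 S hne (fun d hd => (hS d hd).1) fun d hd =>
      sg_clo hf hl nn hp hq hpq (fun d hd => (hS d hd).1) (fun d hd => (hS d hd).2) hpq' d hd
  obtain ⟨P, hP, hPp, hPq⟩ : ∃ P : D → Prop, (∀ d, P d → P (f d) ∧ P (Sg f α ℓ p q d)) ∧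
      P p ∧ ¬ P q := by
    rw [pt_iff] at hn
    have h3 : ¬ ∀ P : D → Prop, (∃ d, P d) → (∀ d, P d → P (f d)) →
        (∀ d, P d → P (Sg f α ℓ p q d)) → ∀ d, P d := fun h => hn ⟨hl'.inv, hl'.fpf, h⟩
    push Not at h3
    obtain ⟨P, h4, h5, h6, d1, h7⟩ := h3
    have hP : ∀ d, P d → P (f d) ∧ P (Sg f α ℓ p q d) := fun d hd => ⟨h5 d hd, h6 d hd⟩
    have h8 : ¬ (P p ↔ P q) := fun h => h7 (hall P hP h h4 d1)
    by_cases h9 : P p
    · by_cases h10 : P q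
      · exact absurd ⟨fun _ => h10, fun _ => h9⟩ h8
      · exact ⟨P, hP, h9, h10⟩
    · by_cases h10 : P q
      · refine ⟨fun d => ¬ P d, ?_, h9, fun h => h h10⟩
        intro d hd
        refine ⟨?_, ?_⟩
        · change ¬ P (f d)
          rw [← sgc_f hf h5]
          exact hd
        · change ¬ P (Sg f α ℓ p q d)
          rw [← sgc_a hl'.inv h6]
          exact hd
      · exact absurd ⟨fun h => absurd h h9, fun h => absurd h h10⟩ h8
  have hPc : ∀ d, ¬ P d → ¬ P (f d) ∧ ¬ P (Sg f α ℓ p q d) := by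
    intro d hd
    refine ⟨?_, ?_⟩
    · rw [← sgc_f hf fun d hd => (hP d hd).1]
      exact hd
    · rw [← sgc_a hl'.inv fun d hd => (hP d hd).2]
      exact hd
  refine ⟨hl'.inv, hl'.fpf, hw, P, hP, hPc, h1.trans (sgc_csz hf hl' hP hPp),
    h2.trans (sgc_csz (P := fun d => ¬ P d) hf hl' hPc hPq), ?_, ?_⟩
  · intro S hS he d hd
    exact sgc_two hf hl'.inv hall hP hPp hPq S hS he d hd
  · intro S hS he d hd
    exact sgc_two (p := q) (q := p) (P := fun d => ¬ P d) hf hl'.inv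
      (fun S hS h => hall S hS h.symm) hPc hPq (fun h => h hPp) S hS he d hd

end QU91
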