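import Pool.Agent.H91.QU.One
import Pool.Agent.H91.QU.Frb
import Pool.Agent.H91.QU.Sgc
import Pool.Agent.H40.QL.Bas

/-!
[H91 QU LAB]  (MP_bcc40c_pr, Q2, part (U))  Distance labels `dlab f α x d = dst f α x d`.

PROOFS.  dlab_lab (QL40.Bas): `Lab f α (dlab f α x)`; lb_of_lab: `Lb`; `dlab f α x x = 0`.
lab_root: `ℓ e = 0` for `e` in the vertex of `x` (QL40.lb_same), and a dart of level 0 is not descending (`ℓ ≥ 0`).  Conversely if `0 < ℓ e` then `Lab.dsc` gives a descending dart in the vertex; if `ℓ e = 0` then `Lab.zro` with `x`.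
lab_lm: `nrt = 1`: ncy_one with lab_root; the level of a root is 0.
lab_tip: tau_one with `P = fun _ => True` and lab_root.
lab_ball: `ball f α x (r+1)` is the set of `d` with `dst x d < r + 1` or ...
lab_inj: `dlab f α x' x = dlab f α x x = 0` (the hypothesis gives `dlab f α x' x = dlab f α x x`), so `x` and `x'` are in the same vertex (connected graph: `dst = 0` for a connected graph means equality of vertices; use dlab_lab .zro with `x'` and `x`), so `rep f α x = rep f α x'`.
lab_zt: `dst x d = r ∧ dst x (f d) + 1 = r` is `Tip` (`Desc f ℓ d`: `ℓ (f d) = ℓ d - 1`).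
-/

set_option autoImplicit false

namespace QU91

open Equiv HG39 QD39 QL40

variable {D : Type} [Fintype D] [DecidableEq D]

variable {f α : Perm D}

theorem lab_lb (hf : TF f) (hα : PT f α []) (x : D) : Lb f α (dlab f α x) := by
  exact lb_of_lab hα (dlab_lab hf hα x)

theorem lab_nn (x d : D) : 0 ≤ dlab f α x d := by
  exact Int.natCast_nonneg _

private theorem lab_self (x : D) : dlab f α x x = 0 := by
  unfold dlab
  rw [dst_self f α x x (Equiv.Perm.SameCycle.refl _ _)]
  rfl

theorem lab_root (hf : TF f) (hα : PT f α []) (x e : D) :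
    Root f α (dlab f α x) e ↔ (f * α).SameCycle e x := by
  have hL := dlab_lab hf hα x
  have hl := lab_lb hf hα x
  have hx := lab_self (f := f) (α := α) x
  constructor
  · intro h
    by_cases h0 : 0 < dlab f α x e
    · obtain ⟨d', h1, _, h2⟩ := hL.dsc e (hl.fpf e) h0
      exact absurd h2 (h d' h1)
    · have h3 := lab_nn (f := f) (α := α) x e
      exact hL.zro e x (hl.fpf e) (hl.fpf x) (by omega) hx
  · intro h d hd hD
    have h1 := lb_same hl h
    have h2 := lb_same hl hd
    have h3 := lab_nn (f := f) (α := α) x (f d)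
    have h4 : dlab f α x (f d) = dlab f α x d - 1 := hD
    omega

theorem lab_lm (hf : TF f) (hα : PT f α []) (x : D) (R : ℕ) : Lm f α (dlab f α x) 1 R := by
  have hl := lab_lb hf hα x
  refine ⟨hl, fun d => lab_nn x d, ?_, ?_⟩
  · exact (ncy_one (g := f * α) (S := Desc f (dlab f α x)) (x := x)
      (fun e => lab_root hf hα x e)).le
  · intro e he
    have h1 := lb_same hl ((lab_root hf hα x e).1 he)
    rw [h1, lab_self]
    exact Int.natCast_nonneg _

theorem lab_tip (hf : TF f) (hα : PT f α []) (x : D) {r : ℤ} {s t : D}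
    (hs : Tip f (dlab f α x) r s) (ht : Tip f (dlab f α x) r t) :
    (tau f α (dlab f α x) r).SameCycle s t := by
  refine tau_one hf (lab_lb hf hα x) (fun d => lab_nn x d) (P := fun _ => True)
    ⟨fun _ _ => trivial, fun _ _ _ => trivial⟩ ?_ hs ht trivial trivial
  intro e e' _ _ he he' _ _
  exact ((lab_root hf hα x e).1 he).trans ((lab_root hf hα x e').1 he').symm

theorem lab_ball (x : D) (r : ℕ) : ball f α x (r + 1) = lball f (dlab f α x) r := by
  ext d
  unfold ball lball dlab
  simp only [Finset.mem_filter, Finset.mem_univ, true_and]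
  omega

theorem lab_inj (hf : TF f) (hα : PT f α []) {x x' : D} (h1 : rep f α x = x)
    (h2 : rep f α x' = x') (h : dlab f α x = dlab f α x') : x = x' := by
  have hL := dlab_lab hf hα x
  have hl := lab_lb hf hα x
  have h3 : dlab f α x x' = 0 := by
    rw [h]
    exact lab_self x'
  have h4 := hL.zro x x' (hl.fpf x) (hl.fpf x') (lab_self x) h3
  rw [← h1, ← h2]
  unfold rep
  exact congrArg Quotient.out (Quotient.sound h4)

open Classical in
theorem lab_zt (x : D) (r : ℕ) :
    zt f α x r = (Finset.univ.filter fun d => Tip f (dlab f α x) r d).card := by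
  unfold zt
  refine congrArg Finset.card ?_
  ext d
  simp only [Finset.mem_filter, Finset.mem_univ, true_and]
  constructor
  · rintro ⟨h1, h2⟩
    refine ⟨?_, ?_⟩
    · show ((dst f α x (f d) : ℕ) : ℤ) = ((dst f α x d : ℕ) : ℤ) - 1
      omega
    · show ((dst f α x d : ℕ) : ℤ) = r
      omega
  · rintro ⟨h1, h2⟩
    have h3 : ((dst f α x (f d) : ℕ) : ℤ) = ((dst f α x d : ℕ) : ℤ) - 1 := h1
    have h4 : ((dst f α x d : ℕ) : ℤ) = r := h2
    omega

end QU91
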