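import Pool.Agent.H91.QU.Vbs
import Pool.Agent.H91.QU.Lab
import Pool.Agent.H91.QU.Eul
import Pool.Agent.H91.QU.Ysc

/-!
[H91 QU NCR]  (MP_bcc40c_pr, Q2, part (U))  Planar balls: the vertices at the last level do not cross.

Let `ℓ = dlab f α x` (`Lb`, `nn`: lab_lb, lab_nn), `α' = Sg f α ℓ p q`, `F = ball f α x (r+1) = lball f ℓ r` (lab_ball).
PROOF.  `Plan f α F`: `6 vb f α F + 2 #F = 3 #pairs + 12`.  By vb_sg (`(f * α).SameCycle p q`, `(tau f α ℓ r).SameCycle p q` by lab_tip): `vb f α' F = vb f α F + 2`; pr_sg: the same `#pairs`.  So `6 vb f α' F + 2 #F = 3 #pairs + 24`.  `F` is closed under `f` (hf.three), not empty (`p ∈ F`).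
By eul for `α'` (an involution without fixed points: sg_lb) `Cf f α' F` is false: there is `S` with `S d → S (f d)`, `S d → S (α' d)` (`d ∈ F`, `α' d ∈ F`), holding at some `d0 ∈ F` and not at some `d1 ∈ F`.  Let `P d := d ∈ F ∧ S d` and `P' d := d ∈ F ∧ ¬ S d`.  Both are `Cl f α' ℓ r` (lb_mem for `α'`; for `P'`: `S` is also closed
under the inverses: `f (f (f d)) = d`, `α' (α' d) = d`).
ncr_root: each closed `P ⊆ F` (`Cl`) which holds somewhere contains a root dart of level `≤ r`: a dart of `P` in `F` has, after applying `f` at most twice, level `≤ r` (definition of lball; `P` closed under `f`); dn_exists, dn_clo, dn_root, dn_lev.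
By sg_nrt `nrt f α' ℓ = nrt f α ℓ + 1 = 2` (lab_lm: `nrt f α ℓ ≤ 1`).  So lm_list with `m = 2` (`Lm f α' ℓ 2 r`: sg_lm): at most two root vertices; `P` and `P'` contain root darts `e ∈ P`, `e' ∈ P'`, not in the same vertex (vertices of level `≤ r` are in `P` or in `P'`: closed under the rotation).  So all root darts in `P` (level `≤ r`) are in
the vertex of `e`, and all in `P'` in the vertex of `e'`.  tau_one for `α'` and `P`, and for `P'`: two tips of level `r` both in `P` (or both in `P'`) are in the same cycle of `tau f α' ℓ r = tau f α ℓ r * swap p q` (sg_tau).  Finally `s, t` are in the same vertex of `α'`, of level `r`, so both in `P` or both in `P'` (every dart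
of level `r` is in `F`; the rotation `α' * f⁻¹` preserves `P` at levels `≤ r`).
-/

/-!
[H91 QU NCR]  (MP_bcc40c_pr, Q2, part (U))  Planar balls: the vertices at the last level do not cross.

Let `ℓ = dlab f α x` (`Lb`, `nn`: lab_lb, lab_nn), `α' = Sg f α ℓ p q`, `F = ball f α x (r+1) = lball f ℓ r` (lab_ball).
PROOF.  `Plan f α F`: `6 vb f α F + 2 #F = 3 #pairs + 12`.  By vb_sg (`(f * α).SameCycle p q`, `(tau f α ℓ r).SameCycle p q` by lab_tip): `vb f α' F = vb f α F + 2`; pr_sg: the same `#pairs`.  So `6 vb f α' F + 2 #F = 3 #pairs + 24`.  `F` is closed under `f` (hf.three), not empty (`p ∈ F`).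
By eul for `α'` (an involution without fixed points: sg_lb) `Cf f α' F` is false: there is `S` with `S d → S (f d)`, `S d → S (α' d)` (`d ∈ F`, `α' d ∈ F`), holding at some `d0 ∈ F` and not at some `d1 ∈ F`.  Let `P d := d ∈ F ∧ S d` and `P' d := d ∈ F ∧ ¬ S d`.  Both are `Cl f α' ℓ r` (lb_mem for `α'`; for `P'`: `S` is also closed
under the inverses: `f (f (f d)) = d`, `α' (α' d) = d`).
ncr_root: each closed `P ⊆ F` (`Cl`) which holds somewhere contains a root dart of level `≤ r`: a dart of `P` in `F` has, after applying `f` at most twice, level `≤ r` (definition of lball; `P` closed under `f`); dn_exists, dn_clo, dn_root, dn_lev.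
By sg_nrt `nrt f α' ℓ = nrt f α ℓ + 1 = 2` (lab_lm: `nrt f α ℓ ≤ 1`).  So lm_list with `m = 2` (`Lm f α' ℓ 2 r`: sg_lm): at most two root vertices; `P` and `P'` contain root darts `e ∈ P`, `e' ∈ P'`, not in the same vertex (vertices of level `≤ r` are in `P` or in `P'`: closed under the rotation).  So all root darts in `P` (level `≤ r`) are in
the vertex of `e`, and all in `P'` in the vertex of `e'`.  tau_one for `α'` and `P`, and for `P'`: two tips of level `r` both in `P` (or both in `P'`) are in the same cycle of `tau f α' ℓ r = tau f α ℓ r * swap p q` (sg_tau).  Finally `s, t` are in the same vertex of `α'`, of level `r`, so both in `P` or both in `P'` (every dart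
of level `r` is in `F`; the rotation `α' * f⁻¹` preserves `P` at levels `≤ r`).
-/

set_option autoImplicit false

namespace QU91

open Equiv HG39 QD39 QL40 UI39

variable {D : Type} [Fintype D] [DecidableEq D]

variable {f α : Perm D}

theorem ncr_root (hf : TF f) {ℓ : D → ℤ} (hl : Lb f α ℓ) (nn : ∀ d, 0 ≤ ℓ d) {r : ℤ}
    {P : D → Prop} (hP : Cl f α ℓ r P) {d : D} (hd : d ∈ lball f ℓ r) (hPd : P d) :
    ∃ e, P e ∧ Root f α ℓ e ∧ ℓ e ≤ r := by
  have h1 : ∃ d', P d' ∧ ℓ d' ≤ r := by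
    unfold lball at hd
    rw [Finset.mem_filter] at hd
    rcases hd.2 with h | h | h
    · exact ⟨d, hPd, h⟩
    · exact ⟨f d, hP.cf d hPd, h⟩
    · exact ⟨f (f d), hP.cf _ (hP.cf d hPd), h⟩
  obtain ⟨d', hPd', hd'⟩ := h1
  obtain ⟨e, he⟩ := dn_exists hl nn d'
  exact ⟨e, (dn_clo hf hl hP hd' he).1 hPd', dn_root he, (dn_lev hl he).trans hd'⟩

private theorem ncr_vclo {ℓ : D → ℤ} (hl : Lb f α ℓ) {r : ℤ} {P : D → Prop}
    (hP : Cl f α ℓ r P) {a b : D} (ha : ℓ a ≤ r) (hs : (f * α).SameCycle a b) (hPa : P a) :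
    P b := by
  obtain ⟨n, -, hn⟩ := hs.exists_pow_eq'
  have h1 : ∀ m : ℕ, P (((f * α) ^ m) a) ∧ ℓ (((f * α) ^ m) a) ≤ r := by
    intro m
    induction m with
    | zero => exact ⟨hPa, ha⟩
    | succ m ih =>
      rw [pow_succ', Perm.mul_apply, Perm.mul_apply]
      refine ⟨hP.cf _ (hP.ca _ ih.1 (Or.inl ih.2)), ?_⟩
      rw [hl.ver, hl.inv]
      exact ih.2
  rw [← hn]
  exact (h1 n).1

private theorem ncr_three {ℓ : D → ℤ} (hl : Lb f α ℓ) {r : ℤ} {P P' : D → Prop}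
    (hP : Cl f α ℓ r P) (hPP' : ∀ d, P d → P' d → False) {el : Fin 2 → D}
    (hel : ∀ d, Root f α ℓ d → ∃ i, (f * α).SameCycle d (el i)) {e' : D} (he' : P' e')
    (hre' : Root f α ℓ e') {e1 e2 : D} (h1 : P e1) (h2 : P e2) (r1 : Root f α ℓ e1)
    (r2 : Root f α ℓ e2) (l1 : ℓ e1 ≤ r) (l2 : ℓ e2 ≤ r) : (f * α).SameCycle e1 e2 := by
  obtain ⟨i1, hi1⟩ := hel e1 r1
  obtain ⟨i2, hi2⟩ := hel e2 r2
  obtain ⟨i', hi'⟩ := hel e' hre'
  have n1 : i1 ≠ i' := by
    rintro rfl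
    exact hPP' e' (ncr_vclo hl hP l1 (hi1.trans hi'.symm) h1) he'
  have n2 : i2 ≠ i' := by
    rintro rfl
    exact hPP' e' (ncr_vclo hl hP l2 (hi2.trans hi'.symm) h2) he'
  have h12 : i1 = i2 := by
    have e1 := i1.2
    have e2 := i2.2
    have e3 := i'.2
    have f1 : (i1 : ℕ) ≠ i' := fun h => n1 (Fin.ext h)
    have f2 : (i2 : ℕ) ≠ i' := fun h => n2 (Fin.ext h)
    apply Fin.ext
    omega
  subst h12
  exact hi1.trans hi2.symm

theorem ncr (hf : TF f) (hα : PT f α []) (x : D) {r : ℕ}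
    (hpl : Plan f α (ball f α x (r + 1))) {p q : D} (hp : Tip f (dlab f α x) r p)
    (hq : Tip f (dlab f α x) r q) (hpq : p ≠ q) (hv : (f * α).SameCycle p q) {s t : D}
    (hs : Tip f (dlab f α x) r s) (ht : Tip f (dlab f α x) r t)
    (h : (f * Sg f α (dlab f α x) p q).SameCycle s t) :
    (tau f α (dlab f α x) r * swap p q).SameCycle s t := by
  classical
  haveI : Nonempty D := ⟨x⟩
  have hl := lab_lb hf hα x
  have nn : ∀ d, 0 ≤ dlab f α x d := fun d => lab_nn x d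
  have hlm := sg_lm (lab_lm hf hα x r) hp hq hpq
  have htau := lab_tip hf hα x hp hq
  rw [lab_ball] at hpl
  rw [← sg_tau hl nn hp hq hpq]
  have hvb := vb_sg hf hl nn hp hq hpq
  have hpr : ∀ d ∈ lball f (dlab f α x) r, (Sg f α (dlab f α x) p q d ∈ lball f (dlab f α x) r ↔
      α d ∈ lball f (dlab f α x) r) := fun d hd => pr_sg hl nn hp hq hpq hd
  have hl' := sg_lb hl nn hp hq hpq
  obtain ⟨ℓ, hℓ⟩ : ∃ ℓ : D → ℤ, ℓ = dlab f α x := ⟨_, rfl⟩
  rw [← hℓ] at hl nn hlm htau hpl hvb hpr hl' hp hq hs ht h ⊢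
  obtain ⟨β, hβ⟩ : ∃ β : Perm D, β = Sg f α ℓ p q := ⟨_, rfl⟩
  rw [← hβ] at hlm hvb hpr hl' h ⊢
  obtain ⟨F, hF⟩ : ∃ F : Finset D, F = lball f ℓ r := ⟨_, rfl⟩
  rw [← hF] at hpl hvb hpr
  have hmem : ∀ d, d ∈ F ↔ ℓ d ≤ r ∨ ℓ (f d) ≤ r ∨ ℓ (f (f d)) ≤ r := by
    intro d
    rw [hF]
    unfold lball
    rw [Finset.mem_filter]
    simp only [Finset.mem_univ, true_and]
  have hFf : ∀ d ∈ F, f d ∈ F := by
    intro d hd
    rw [hmem] at hd ⊢
    rw [hf.three]
    tauto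
  have hpF : p ∈ F := (hmem p).2 (Or.inl hp.2.le)
  have hnC : ¬ UI39.Cf f β F := by
    intro hC
    have h1 := eul hf hl'.inv hl'.fpf F ⟨p, hpF⟩ hFf hC
    have h2 : (F.filter fun d => β d ∈ F) = F.filter fun d => α d ∈ F := by
      apply Finset.filter_congr
      intro d hd
      exact hpr d hd
    have h3 : es ((f * α).SameCycle p q) = 1 := by
      unfold es
      rw [if_pos hv]
    have h4 : es ((tau f α ℓ r).SameCycle p q) = 1 := by
      unfold es
      rw [if_pos htau]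
    rw [h3, h4] at hvb
    rw [h2] at h1
    unfold Plan at hpl
    omega
  unfold UI39.Cf at hnC
  push Not at hnC
  obtain ⟨S, hS1, hS2, ⟨d0, hd0, hSd0⟩, d1, hd1, hSd1⟩ := hnC
  have hcl : Cl f β ℓ r (fun d => d ∈ F ∧ S d) := by
    constructor
    · rintro d ⟨h1, h2⟩
      exact ⟨hFf d h1, hS1 d h1 h2⟩
    · rintro d ⟨h1, h2⟩ h3
      have h4 := (lb_mem hl' h3).2
      rw [← hF] at h4
      exact ⟨h4, hS2 d h1 h4 h2⟩
  have hcl' : Cl f β ℓ r (fun d => d ∈ F ∧ ¬ S d) := by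
    constructor
    · rintro d ⟨h1, h2⟩
      refine ⟨hFf d h1, fun h3 => h2 ?_⟩
      have h4 := hS1 _ (hFf _ (hFf d h1)) (hS1 _ (hFf d h1) h3)
      rwa [hf.three] at h4
    · rintro d ⟨h1, h2⟩ h3
      have h4 := (lb_mem hl' h3).2
      rw [← hF] at h4
      refine ⟨h4, fun h5 => h2 ?_⟩
      have h6 := hS2 (β d) h4 (by rw [hl'.inv]; exact h1) h5
      rwa [hl'.inv] at h6
  have hPP : ∀ d, (d ∈ F ∧ S d) → (d ∈ F ∧ ¬ S d) → False := fun d a b => b.2 a.2
  have hPP' : ∀ d, (d ∈ F ∧ ¬ S d) → (d ∈ F ∧ S d) → False := fun d a b => a.2 b.2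
  obtain ⟨e, he1, he2, -⟩ := ncr_root hf hl' nn hcl (by rw [← hF]; exact hd0) ⟨hd0, hSd0⟩
  obtain ⟨e', he1', he2', -⟩ := ncr_root hf hl' nn hcl' (by rw [← hF]; exact hd1) ⟨hd1, hSd1⟩
  obtain ⟨el, -, hel⟩ := lm_list hlm
  have hsF : s ∈ F := (hmem s).2 (Or.inl hs.2.le)
  by_cases hSs : S s
  · refine tau_one hf hl' nn hcl ?_ hs ht ⟨hsF, hSs⟩ (ncr_vclo hl' hcl hs.2.le h ⟨hsF, hSs⟩)
    intro e1 e2 h1 h2 r1 r2 l1 l2
    exact ncr_three hl' hcl hPP hel he1' he2' h1 h2 r1 r2 l1 l2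
  · refine tau_one hf hl' nn hcl' ?_ hs ht ⟨hsF, hSs⟩ (ncr_vclo hl' hcl' hs.2.le h ⟨hsF, hSs⟩)
    intro e1 e2 h1 h2 r1 r2 l1 l2
    exact ncr_three hl' hcl' hPP' hel he1 he2 h1 h2 r1 r2 l1 l2

end QU91
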