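import Pool.Agent.H91.QU.Two
import Pool.Agent.H91.QU.Ncr
import Pool.Agent.H91.QU.Cha
import Pool.Agent.H91.QU.Chd

/-!
[H91 QU QUA]  (MP_bcc40c_pr, Q2, part (U))  Many contacts give many admissible quads.

Let `α = q.1`, `x = q.2`, `ℓ = dlab f α x`, `τ = tau f α ℓ r`, `Z = ZB f ℓ r B`, `R s t := (f * α).SameCycle s t`, `o = d.1`, `d2 = d.2`, `pos z = pos τ o z`; all tips are in the cycle of `o` (lab_tip).
PROOF.
1. `chain` for `τ, R, Z, o, d2, M`: `hnc`: let `p, q' ∈ Z` with `p ≠ q'`, `R p q'`, `R s t`, `¬ R s p`: then `¬ R s q'`, sgv_out: `(f * Sg f α ℓ p q').SameCycle s t`, ncr: `(τ * swap p q').SameCycle s t`.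
 The set of `chain` is `Rb f (Sg f α ℓ o d2) ℓ r B`: `tau f (Sg ..) ℓ r = τ * swap o d2` (sg_tau), vertices by sgv_merge (`¬ R o d2`).  So `chain` gives `K`, `s`, `t` with `u < (K + 4) M^2`, so `K0 < K` (as `(K0+5) M^2 ≤ u`; if `K ≤ K0` then `(K+4) M^2 ≤ u`).
2. `chd` for `K0, L, m = pos d2, pos (s i), pos (t i)`, `Z' = Z.image pos` (`#Z' = #Z` by pos_inj): at least `K0/4` indices `i` with `L ≤ i`, `i + 2L < K0` and `K0 * mid i ≤ 4 L #Z ≤ 4 L Nz ≤ K0 Zm`, so `mid i ≤ Zm` (`K0 ≥ 6 L > 0`).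
3. For such an `i` let `(a, b, a', b') = (s i, t i, s (i+L), t (i+L))`, positions `pos a < pos a' < pos d2 < pos b' < pos b`.  Claim: it is in `AQ` or RA1 or RA2.  `Dc f α ℓ r a b a' b'`: `v2`: sgv_out (`a'` is not in the vertex of `a`, so not in that of `b`); `t2`: sg_tau, cell1 (`a', b'` both in `(pos a, pos b]`); `n1, n2`: positions.
 Sizes: `csz (τ * swap a b) a ≥ L`: contains `s 0, ..., s i` (positions `≤ pos a`, cell1); `csz (τ * swap a b) b ≥ L`: contains `s (i+1), ..., s (i+L)`; cell2 with `(s, t, s', t') = (a, b, a', b')`: `csz (τ * swap a b * swap a' b') a' ≥ L`: contains `s (i+1), ..., s (i+L)` (middle cell `(pos a, pos a'] ∪ (pos b', pos b]`); `csz .. b' ≥ L`: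
 contains `s (i+L+1), ..., s (i+2L)` (inner cell `(pos a', pos b']`; `i + 2L < K0`).  dc_rare: RA1 or RA2 or `PT f (S2 f α ℓ a b a' b') []`.
 `Mid f (S2 f α ℓ a b a' b') ℓ r B a b'` (dc_tau, cell2): the `z ∈ Z` in the middle cell: `pos a < pos z ≤ pos a'` or `pos b' < pos z ≤ pos b`; contains `b` and `a'`, its size is `mid i ≤ Zm`.
4. Different `i` give different quads (`s i` are different), so `K0 ≤ 4 #AQ` (`AQ` is a finite set).
-/

set_option autoImplicit false

namespace QU91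

open Equiv HG39 QD39 QL40

variable {D : Type} [Fintype D] [DecidableEq D]

private theorem qua_csz {π : Perm D} {p : D} {c : ℕ → D} (a n : ℕ)
    (hinj : ∀ i j, i < j → j < a + n → c i ≠ c j)
    (h : ∀ i, a ≤ i → i < a + n → π.SameCycle p (c i)) : n ≤ csz π p := by
  classical
  have h1 : (Finset.range n).card ≤ (Finset.univ.filter fun d => π.SameCycle p d).card := by
    apply Finset.card_le_card_of_injOn (fun i => c (a + i))
    · intro i hi
      have hi' : i < n := Finset.mem_range.1 hi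
      exact Finset.mem_coe.2 (Finset.mem_filter.2 ⟨Finset.mem_univ _, h _ (by omega) (by omega)⟩)
    · intro i hi j hj hij
      have hi' : i < n := Finset.mem_range.1 hi
      have hj' : j < n := Finset.mem_range.1 hj
      rcases lt_trichotomy i j with h2 | h2 | h2
      · exact absurd hij (hinj _ _ (by omega) (by omega))
      · exact h2
      · exact absurd hij.symm (hinj _ _ (by omega) (by omega))
  rw [Finset.card_range] at h1
  unfold csz
  convert h1

open Classical in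
/-- one admissible quad -/
private theorem qua_one {f : Perm D} (hf : TF f) {v r : ℕ} {α : Perm D} {x : D}
    (hTS : α ∈ TS f v) (hx : rep f α x = x) (B : Finset D) {o : D} {m : ℕ}
    (ho : Tip f (dlab f α x) r o) {s t : ℕ → D} {K L : ℕ} {Zm : ℕ} (hL : 1 ≤ L)
    (h1 : ∀ i < K, s i ∈ ZB f (dlab f α x) r B ∧ t i ∈ ZB f (dlab f α x) r B ∧
      (f * α).SameCycle (s i) (t i) ∧ pos (tau f α (dlab f α x) r) o (s i) < m ∧
        m < pos (tau f α (dlab f α x) r) o (t i))
    (h2 : ∀ i j, i < j → j < K → pos (tau f α (dlab f α x) r) o (s i) <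
        pos (tau f α (dlab f α x) r) o (s j) ∧
        pos (tau f α (dlab f α x) r) o (t j) < pos (tau f α (dlab f α x) r) o (t i) ∧
        ¬ (f * α).SameCycle (s j) (s i)) {i : ℕ} (hi1 : L ≤ i) (hi2 : i + 2 * L < K)
    (hmid : (((ZB f (dlab f α x) r B).image fun z => pos (tau f α (dlab f α x) r) o z).filter
      fun z => (pos (tau f α (dlab f α x) r) o (s i) < z ∧
        z ≤ pos (tau f α (dlab f α x) r) o (s (i + L))) ∨
        (pos (tau f α (dlab f α x) r) o (t (i + L)) < z ∧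
        z ≤ pos (tau f α (dlab f α x) r) o (t i))).card ≤ Zm) :
    (α, x) ∈ RA1 f v r L ∨ (α, x) ∈ RA2 f v r L ∨
      (s i, t i, s (i + L), t (i + L)) ∈ AQ f r B Zm α x := by
  have hα : PT f α [] := hTS.1
  have hl := lab_lb hf hα x
  have nn : ∀ d, 0 ≤ dlab f α x d := fun d => lab_nn x d
  have hZ : ∀ z, z ∈ ZB f (dlab f α x) r B → z ∈ B ∧ Tip f (dlab f α x) r z := by
    intro z hz
    unfold ZB at hz
    exact Finset.mem_filter.1 hz
  have hS : ∀ z, z ∈ ZB f (dlab f α x) r B → (tau f α (dlab f α x) r).SameCycle o z :=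
    fun z hz => lab_tip hf hα x ho (hZ z hz).2
  obtain ⟨za, zb, hv, a1, b1⟩ := h1 i (by omega)
  obtain ⟨za', zb', hv', a2, b2⟩ := h1 (i + L) (by omega)
  obtain ⟨m1, m2, m3⟩ := h2 i (i + L) (by omega) (by omega)
  have ta := (hZ _ za).2
  have tb := (hZ _ zb).2
  have ta' := (hZ _ za').2
  have tb' := (hZ _ zb').2
  have Sa := hS _ za
  have Sb := hS _ zb
  have Sa' := hS _ za'
  have Sb' := hS _ zb'
  have hab : s i ≠ t i := by
    intro h
    rw [← h] at b1
    omega
  have hab' : s (i + L) ≠ t (i + L) := by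
    intro h
    rw [← h] at b2
    omega
  have q1 : pos (tau f α (dlab f α x) r) o (s i) < pos (tau f α (dlab f α x) r) o (t i) := by
    omega
  have q2 : pos (tau f α (dlab f α x) r) o (s (i + L)) <
      pos (tau f α (dlab f α x) r) o (t (i + L)) := by omega
  have hDc : Dc f α (dlab f α x) r (s i) (t i) (s (i + L)) (t (i + L)) := by
    refine ⟨ta, tb, ta', tb', hab, hv, hab', ?_, ?_⟩
    · rw [sgv_out hl nn ta tb hab ta'.2 m3 (fun h => m3 (h.trans hv.symm))]
      exact hv'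
    · rw [sg_tau hl nn ta tb hab, cell1 Sa Sb Sa' Sb' q1]
      exact ⟨fun _ => ⟨by omega, by omega⟩, fun _ => ⟨by omega, by omega⟩⟩
  have sN : ∀ i j, i < j → j < K → s i ≠ s j := by
    intro i j hij hj h
    have h3 := (h2 i j hij hj).1
    rw [h] at h3
    exact lt_irrefl _ h3
  have s1 : L ≤ csz (tau f α (dlab f α x) r * swap (s i) (t i)) (s i) := by
    apply qua_csz 0 L (c := s) (fun i j hij hj => sN i j hij (by omega))
    intro j _ hj
    rw [cell1 Sa Sb Sa (hS _ (h1 j (by omega)).1) q1]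
    have h3 := (h2 j i (by omega) (by omega)).1
    constructor
    · rintro ⟨h4, -⟩
      omega
    · rintro ⟨h4, -⟩
      omega
  have s2 : L ≤ csz (tau f α (dlab f α x) r * swap (s i) (t i)) (t i) := by
    apply qua_csz (i + 1) L (c := s) (fun i j hij hj => sN i j hij (by omega))
    intro j hj1 hj
    obtain ⟨zj, -, -, c1, -⟩ := h1 j (by omega)
    rw [cell1 Sa Sb Sb (hS _ zj) q1]
    have h3 := (h2 i j (by omega) (by omega)).1
    exact ⟨fun _ => ⟨by omega, by omega⟩, fun _ => ⟨by omega, le_rfl⟩⟩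
  have s3 : L ≤ csz (tau f α (dlab f α x) r * swap (s i) (t i) *
      swap (s (i + L)) (t (i + L))) (s (i + L)) := by
    apply qua_csz (i + 1) L (c := s) (fun i j hij hj => sN i j hij (by omega))
    intro j hj1 hj
    obtain ⟨zj, -, -, c1, -⟩ := h1 j (by omega)
    rw [cell2 Sa Sb Sa' Sb' Sa' (hS _ zj) m1 q2 m2.le]
    have h3 := (h2 i j (by omega) (by omega)).1
    have h4 : pos (tau f α (dlab f α x) r) o (s j) ≤
        pos (tau f α (dlab f α x) r) o (s (i + L)) := by
      rcases Nat.eq_or_lt_of_le (show j ≤ i + L by omega) with h | h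
      · rw [h]
      · exact (h2 j (i + L) h (by omega)).1.le
    refine ⟨⟨fun _ => ⟨by omega, by omega⟩, fun _ => ⟨by omega, by omega⟩⟩, ?_, ?_⟩
    · rintro ⟨h5, -⟩
      omega
    · rintro ⟨h5, -⟩
      omega
  have s4 : L ≤ csz (tau f α (dlab f α x) r * swap (s i) (t i) *
      swap (s (i + L)) (t (i + L))) (t (i + L)) := by
    apply qua_csz (i + L + 1) L (c := s) (fun i j hij hj => sN i j hij (by omega))
    intro j hj1 hj
    obtain ⟨zj, -, -, c1, -⟩ := h1 j (by omega)
    rw [cell2 Sa Sb Sa' Sb' Sb' (hS _ zj) m1 q2 m2.le]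
    have h3 := (h2 i j (by omega) (by omega)).1
    have h4 := (h2 (i + L) j (by omega) (by omega)).1
    exact ⟨⟨fun _ => ⟨by omega, by omega⟩, fun _ => ⟨by omega, by omega⟩⟩,
      fun _ => ⟨by omega, by omega⟩, fun _ => ⟨by omega, le_rfl⟩⟩
  rcases dc_rare hf hTS hx hDc L s1 s2 s3 s4 with h | h | h
  · exact Or.inl h
  · exact Or.inr (Or.inl h)
  · right
    right
    have hMid : ∀ z, z ∈ Mid f (S2 f α (dlab f α x) (s i) (t i) (s (i + L)) (t (i + L)))
        (dlab f α x) r B (s i) (t (i + L)) ↔ z ∈ ZB f (dlab f α x) r B ∧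
          ((pos (tau f α (dlab f α x) r) o (s i) < pos (tau f α (dlab f α x) r) o z ∧
            pos (tau f α (dlab f α x) r) o z ≤ pos (tau f α (dlab f α x) r) o (s (i + L))) ∨
          (pos (tau f α (dlab f α x) r) o (t (i + L)) < pos (tau f α (dlab f α x) r) o z ∧
            pos (tau f α (dlab f α x) r) o z ≤ pos (tau f α (dlab f α x) r) o (t i))) := by
      intro z
      unfold Mid
      rw [Finset.mem_filter, dc_tau hf hTS hDc]
      refine and_congr_right fun hz => ?_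
      rw [cell2 Sa Sb Sa' Sb' Sa (hS z hz) m1 q2 m2.le,
        cell2 Sa Sb Sa' Sb' Sb' (hS z hz) m1 q2 m2.le]
      omega
    refine ⟨(hZ _ za).1, (hZ _ zb).1, (hZ _ za').1, (hZ _ zb').1, hDc, h, ?_, ?_, ?_⟩
    · rw [hMid]
      exact ⟨zb, Or.inr ⟨m2, le_rfl⟩⟩
    · rw [hMid]
      exact ⟨za', Or.inl ⟨m1, le_rfl⟩⟩
    · refine le_trans (Finset.card_le_card_of_injOn
        (fun z => pos (tau f α (dlab f α x) r) o z) ?_ ?_) hmid
      · intro z hz
        obtain ⟨h3, h4⟩ := (hMid z).1 (Finset.mem_coe.1 hz)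
        exact Finset.mem_coe.2 (Finset.mem_filter.2 ⟨Finset.mem_image_of_mem _ h3, h4⟩)
      · intro z hz w hw h3
        exact pos_inj (hS z ((hMid z).1 (Finset.mem_coe.1 hz)).1)
          (hS w ((hMid w).1 (Finset.mem_coe.1 hw)).1) h3

open Classical in
theorem qua {f : Perm D} (hf : TF f) {v r : ℕ} {q : Perm D × D} (hq : q ∈ Pv f v)
    (hpl : Plan f q.1 (ball f q.1 q.2 (r + 1))) (B : Finset D) {Nz : ℕ}
    (hz : (ZB f (dlab f q.1 q.2) r B).card ≤ Nz) {M : ℕ}
    (hM : ∀ s ∈ ZB f (dlab f q.1 q.2) r B, ((ZB f (dlab f q.1 q.2) r B).filter fun w =>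
      (f * q.1).SameCycle s w).card ≤ M)
    {d : D × D} (hd : d ∈ Dp f r B q.1 q.2) {u : ℕ}
    (hu : u < (Rb f (Sg f q.1 (dlab f q.1 q.2) d.1 d.2) (dlab f q.1 q.2) r B).ncard)
    (L : ℕ) (hL : 1 ≤ L) {K0 Zm : ℕ} (hK : 6 * L ≤ K0) (hKu : (K0 + 5) * M ^ 2 ≤ u)
    (hZ : 4 * L * Nz ≤ K0 * Zm) :
    q ∈ RA1 f v r L ∨ q ∈ RA2 f v r L ∨ K0 ≤ 4 * (AQ f r B Zm q.1 q.2).ncard := by
  obtain ⟨α, x⟩ := q
  obtain ⟨o, d2⟩ := d
  have hTS : α ∈ TS f v := hq.1
  have hα : PT f α [] := hTS.1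
  have hx : rep f α x = x := hq.2
  obtain ⟨ho, hd2, hn⟩ := hd
  simp only at hpl hz hM ho hd2 hn hu
  have hl := lab_lb hf hα x
  have nn : ∀ d, 0 ≤ dlab f α x d := fun d => lab_nn x d
  have hZm : ∀ z, z ∈ ZB f (dlab f α x) r B → z ∈ B ∧ Tip f (dlab f α x) r z := by
    intro z hz
    unfold ZB at hz
    exact Finset.mem_filter.1 hz
  have tpo := (hZm o ho).2
  have td2 := (hZm d2 hd2).2
  have hod : o ≠ d2 := fun h => hn (h ▸ Perm.SameCycle.refl _ _)
  have hS : ∀ z ∈ ZB f (dlab f α x) r B, (tau f α (dlab f α x) r).SameCycle o z :=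
    fun z hz => lab_tip hf hα x tpo (hZm z hz).2
  obtain ⟨K, s, t, hn1, hn2, hn3⟩ := chain (τ := tau f α (dlab f α x) r)
    (R := fun a b => (f * α).SameCycle a b)
    ⟨fun a => Perm.SameCycle.refl _ a, fun h => h.symm, fun h h' => h.trans h'⟩
    (ZB f (dlab f α x) r B) ho hd2 hS hn M (fun z hz => by convert hM z hz) (by
      intro p hp p' hp' s hs t ht hpp hR1 hR2 hR3
      have h1 : (f * Sg f α (dlab f α x) p p').SameCycle s t := by
        rw [sgv_out hl nn (hZm p hp).2 (hZm p' hp').2 hpp (hZm s hs).2.2 hR3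
          (fun h => hR3 (h.trans hR1.symm))]
        exact hR2
      exact ncr hf hα x hpl (hZm p hp).2 (hZm p' hp').2 hpp hR1 (hZm s hs).2 (hZm t ht).2 h1)
  have hset : Rb f (Sg f α (dlab f α x) o d2) (dlab f α x) r B =
      {c : D × D | c.1 ∈ ZB f (dlab f α x) r B ∧ c.2 ∈ ZB f (dlab f α x) r B ∧
        ((f * α).SameCycle c.1 c.2 ∨ (((f * α).SameCycle c.1 o ∨ (f * α).SameCycle c.1 d2) ∧
          ((f * α).SameCycle c.2 o ∨ (f * α).SameCycle c.2 d2))) ∧
        ¬ (tau f α (dlab f α x) r * swap o d2).SameCycle c.1 c.2} := by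
    ext ⟨a, b⟩
    simp only [Rb, Set.mem_ofPred_eq]
    refine and_congr_right fun ha => and_congr_right fun hb => ?_
    rw [sg_tau hl nn tpo td2 hod, sgv_merge hl nn tpo td2 hod hn (hZm a ha).2.2]
  rw [hset] at hu
  have hK1 : K0 < K := by
    have h1 : (K0 + 5) * M ^ 2 < (K + 4) * M ^ 2 := lt_of_le_of_lt hKu (lt_of_lt_of_le hu hn1)
    have h2 := Nat.lt_of_mul_lt_mul_right h1
    omega
  have hchd := chd K0 L (pos (tau f α (dlab f α x) r) o d2)
    (fun i => pos (tau f α (dlab f α x) r) o (s i))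
    (fun i => pos (tau f α (dlab f α x) r) o (t i))
    ((ZB f (dlab f α x) r B).image fun z => pos (tau f α (dlab f α x) r) o z) hL hK
    (fun i j hij hj => (hn3 i j hij (by omega)).1) (fun i j hij hj => (hn3 i j hij (by omega)).2.1)
    (fun i hi => ⟨(hn2 i (by omega)).2.2.2.1, (hn2 i (by omega)).2.2.2.2⟩)
  by_cases hr1 : ((α, x) : Perm D × D) ∈ RA1 f v r L
  · exact Or.inl hr1
  by_cases hr2 : ((α, x) : Perm D × D) ∈ RA2 f v r L
  · exact Or.inr (Or.inl hr2)
  right
  right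
  refine hchd.trans (Nat.mul_le_mul_left 4 ?_)
  have hcard : ((ZB f (dlab f α x) r B).image fun z => pos (tau f α (dlab f α x) r) o z).card ≤
      Nz := Finset.card_image_le.trans hz
  have hinj : ∀ i j, i < K0 → j < K0 → s i = s j → i = j := by
    intro i j hi hj h
    rcases lt_trichotomy i j with h1 | h1 | h1
    · have h2 := (hn3 i j h1 (by omega)).1
      rw [h] at h2
      exact absurd h2 (lt_irrefl _)
    · exact h1
    · have h2 := (hn3 j i h1 (by omega)).1
      rw [h] at h2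
      exact absurd h2 (lt_irrefl _)
  rw [← Finset.card_image_of_injOn (f := fun i => (s i, t i, s (i + L), t (i + L))),
    ← Set.ncard_coe_finset]
  · refine Set.ncard_le_ncard ?_ (Set.toFinite _)
    intro c hc
    obtain ⟨i, hi, rfl⟩ := Finset.mem_image.1 (Finset.mem_coe.1 hc)
    rw [Finset.mem_filter] at hi
    obtain ⟨-, hi1, hi2, hi3⟩ := hi
    have hmid : (((ZB f (dlab f α x) r B).image fun z =>
      pos (tau f α (dlab f α x) r) o z).filter
      fun z => (pos (tau f α (dlab f α x) r) o (s i) < z ∧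
        z ≤ pos (tau f α (dlab f α x) r) o (s (i + L))) ∨
        (pos (tau f α (dlab f α x) r) o (t (i + L)) < z ∧
        z ≤ pos (tau f α (dlab f α x) r) o (t i))).card ≤ Zm := by
      have h1 : 4 * L * ((ZB f (dlab f α x) r B).image fun z =>
          pos (tau f α (dlab f α x) r) o z).card ≤ 4 * L * Nz := Nat.mul_le_mul_left _ hcard
      exact Nat.le_of_mul_le_mul_left ((hi3.trans h1).trans hZ) (by omega)
    rcases qua_one hf hTS hx B tpo hL (K := K) hn2 hn3 hi1 (by omega) hmid with h | h | h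
    · exact absurd h hr1
    · exact absurd h hr2
    · exact h
  · intro i hi j hj h
    have hi' := (Finset.mem_filter.1 (Finset.mem_coe.1 hi)).1
    have hj' := (Finset.mem_filter.1 (Finset.mem_coe.1 hj)).1
    exact hinj i j (Finset.mem_range.1 hi') (Finset.mem_range.1 hj') (congrArg Prod.fst h)

end QU91
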