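import Pool.Agent.H91.QU.Tri
import Pool.Agent.H91.QU.Qua

/-!
[H91 QU DICH]  (MP_bcc40c_pr, Q2, part (U))  The decomposition of the set `EB`.

PROOF.  Let `q ∈ EB f v r B N`, `Z = ZB f (dlab f q.1 q.2) r B`, `N ≤ #Z ≤ 16 N`.  If some `s0 ∈ Z` has at least `3 L` elements of `Z` in its vertex: tri_ex.  Otherwise all vertices have at most `M = 3 L` elements.
dp_card: `#Dp = #Z^2 - #{(s, w) ∈ Z^2 in the same vertex} ≥ #Z^2 - #Z * 3 L ≥ #Z^2 / 2 ≥ N^2 / 2` (as `#Z ≥ N ≥ 6 L`).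
If every `p ∈ Dp` satisfies `#Rb ≤ u` then `q ∈ E2` with `m = N^2 / 2`.  Otherwise qua with `Nz = 16 N`, `M = 3 L`: RA1 or RA2 or `K0 ≤ 4 #AQ`, so `K0 / 4 ≤ #AQ`: E3.
-/

set_option autoImplicit false

namespace QU91

open Equiv HG39 QD39 QL40

variable {D : Type} [Fintype D] [DecidableEq D]

open Classical in
theorem dp_low (f α : Perm D) (x : D) (r : ℕ) (B : Finset D) {N L : ℕ} (hN : 6 * L ≤ N)
    (hZ : N ≤ (ZB f (dlab f α x) r B).card)
    (hM : ∀ s ∈ ZB f (dlab f α x) r B, ((ZB f (dlab f α x) r B).filter fun w =>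
      (f * α).SameCycle s w).card ≤ 3 * L) :
    N ^ 2 / 2 ≤ (Dp f r B α x).ncard := by
  set Z : Finset D := ZB f (dlab f α x) r B with hZd
  have hDp : Dp f r B α x =
      (((Z ×ˢ Z).filter fun p : D × D => ¬ (f * α).SameCycle p.1 p.2 : Finset (D × D)) :
        Set (D × D)) := by
    ext p
    simp only [Dp, Set.mem_setOf_eq, Finset.coe_filter, Finset.mem_product]
    tauto
  rw [hDp, Set.ncard_coe_finset]
  have h1 : ((Z ×ˢ Z).filter fun p : D × D => (f * α).SameCycle p.1 p.2).card +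
      ((Z ×ˢ Z).filter fun p : D × D => ¬ (f * α).SameCycle p.1 p.2).card = Z.card * Z.card := by
    rw [Finset.card_filter_add_card_filter_not, Finset.card_product]
  have h2 : ((Z ×ˢ Z).filter fun p : D × D => (f * α).SameCycle p.1 p.2).card ≤
      Z.card * (3 * L) := by
    rw [Finset.card_filter, Finset.sum_product]
    calc ∑ s ∈ Z, ∑ w ∈ Z, (if (f * α).SameCycle s w then 1 else 0)
        = ∑ s ∈ Z, (Z.filter fun w => (f * α).SameCycle s w).card := by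
          refine Finset.sum_congr rfl fun s _ => ?_
          rw [Finset.card_filter]
      _ ≤ ∑ s ∈ Z, 3 * L := Finset.sum_le_sum fun s hs => hM s hs
      _ = Z.card * (3 * L) := by rw [Finset.sum_const, smul_eq_mul]
  have h3 : 2 * (Z.card * (3 * L)) ≤ Z.card * Z.card := by
    have : 6 * L ≤ Z.card := hN.trans hZ
    nlinarith
  have h4 : N ^ 2 ≤ Z.card * Z.card := by
    rw [pow_two]
    exact Nat.mul_le_mul hZ hZ
  omega

theorem dich {f : Perm D} (hf : TF f) {v r : ℕ} (B : Finset D) {N L u K0 Zm : ℕ} (hL : 1 ≤ L)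
    (hN : 6 * L ≤ N) (hK : 6 * L ≤ K0) (hKu : (K0 + 5) * (3 * L) ^ 2 ≤ u)
    (hZ : 4 * L * (16 * N) ≤ K0 * Zm) :
    EB f v r B N ⊆ RA1 f v r L ∪ RA2 f v r L ∪ TR f v r B (16 * N) ∪
      E2 f v r B (N ^ 2 / 2) u ∪ E3 f v r B (16 * N) Zm (K0 / 4) := by
  classical
  rintro q ⟨hq, hpl, hN1, hN2⟩
  by_cases h1 : ∃ s0 ∈ ZB f (dlab f q.1 q.2) r B, 3 * L ≤
      ((ZB f (dlab f q.1 q.2) r B).filter fun w => (f * q.1).SameCycle s0 w).card
  · obtain ⟨s0, hs0, hc⟩ := h1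
    have := tri_ex hf hq hpl B hN2 L hL hs0 hc
    rcases this with h | h | h
    · exact Or.inl (Or.inl (Or.inl (Or.inl h)))
    · exact Or.inl (Or.inl (Or.inl (Or.inr h)))
    · exact Or.inl (Or.inl (Or.inr h))
  · push Not at h1
    have hM : ∀ s ∈ ZB f (dlab f q.1 q.2) r B, ((ZB f (dlab f q.1 q.2) r B).filter fun w =>
        (f * q.1).SameCycle s w).card ≤ 3 * L := fun s hs => (h1 s hs).le
    by_cases h2 : ∀ p ∈ Dp f r B q.1 q.2,
        (Rb f (Sg f q.1 (dlab f q.1 q.2) p.1 p.2) (dlab f q.1 q.2) r B).ncard ≤ u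
    · exact Or.inl (Or.inr ⟨hq, dp_low f q.1 q.2 r B hN hN1 hM, h2⟩)
    · push Not at h2
      obtain ⟨d, hd, hu⟩ := h2
      have := qua hf hq hpl B hN2 hM hd hu L hL hK hKu hZ
      rcases this with h | h | h
      · exact Or.inl (Or.inl (Or.inl (Or.inl h)))
      · exact Or.inl (Or.inl (Or.inl (Or.inr h)))
      · refine Or.inr ⟨hq, hN2, ?_⟩
        omega

end QU91
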