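import Pool.Agent.H91.QU.Tac

/-!
[H91 QU DNR]  (MP_bcc40c_pr, Q2, part (U))  The contour walk connects exactly the darts above the same root.

Notation as in TAC: `ρ = α * f⁻¹`, `K = fr ρ (Desc f ℓ)`, `β = bet f α ℓ r`, `W = Wr f α ℓ r = ρ * K⁻¹ * β`.  `K⁻¹` fixes the darts which are not descending.
Values of `W d` for `ℓ d ≤ r` (bet_val):
 (a) `d` descending: `β d = α d` (ascending, not descending: QL40.swv_not_desc), so `W d = ρ (α d)`.
 (b) `ℓ (f d) = ℓ d + 1 ≤ r`: `β d = α d =: δ` is descending; `W d = ρ (K⁻¹ δ)`, and `Hit ρ (Desc f ℓ) (ρ (K⁻¹ δ)) δ` (fr_pre), i.e. `Fst f α ℓ (ρ (K⁻¹ δ)) δ`.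
 (c) otherwise (`d` not descending, and `ℓ (f d) = ℓ d` or `ℓ (f d) = ℓ d + 1 = r + 1`): `β d = d`, `W d = ρ d`.
PROOFS.
dn_exists: induction on `(ℓ d).toNat`: if the vertex of `d` has a descending dart there is `Fst f α ℓ d δ` (hit_exists; `(f * α).SameCycle = (α * f⁻¹).SameCycle`), `ℓ (α δ) = ℓ (f δ) = ℓ δ - 1 = ℓ d - 1` (fst_lev), otherwise `Root f α ℓ d`: base.
dn_unique: induction on `Dn f α ℓ d e`, cases on the other one: base/base: transitivity; base/step: `Root` and `Fst` contradict each other (fst_same); step/step: fst_unique.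
dn_lev: induction.
dn_step' (`d` not descending): `Dn f α ℓ d e ↔ Dn f α ℓ (ρ d) e` (hit_step; Root is a property of the vertex; fst_same).  For `d` descending: `Fst f α ℓ d d` (hit_self), so `Dn f α ℓ d e ↔ Dn f α ℓ (α d) e` (unique).
dn_clo: induction; `P` is invariant along the rotation and its inverse at levels `≤ r`: `ρ z = α (f⁻¹ z)`, `f⁻¹ = f * f` (hf), `Cl.ca` for `f⁻¹ z`: `ℓ (f (f⁻¹ z)) = ℓ z ≤ r`.
wr_dn: cases (a), (b), (c).  (b): `Dn f α ℓ (ρ (K⁻¹ δ)) e` by step (Fst .. δ, and `α δ = d`).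
wr_clo1: the same three cases: all darts involved are at levels `≤ r`: (a) `α d`: Cl.ca; `ρ (α d)`.  (b) `δ = α d`: `ℓ d ≤ r`: Cl.ca; `K⁻¹ δ` is in the `ρ`-cycle of `δ`.
dn_wr: CLAIM(j), by downward induction on the level `j ≤ r` (induction on `r - j`): for every dart `y` of level `j` which is not descending, `W.SameCycle y (ρ y)`.  (c): `W y = ρ y`.  (b): `δ = α y` is descending of level `j + 1`, `W y = ρ (K⁻¹ δ) =: z`, `Fst f α ℓ z δ`: from `z` the rotation leads to `δ` through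
darts which are not descending, of level `j + 1`: by CLAIM(j+1) all of them and `δ` are in one `W`-cycle; and `W δ = ρ (α δ) = ρ y` by (a).  So `y ~ z ~ δ ~ ρ y`.
Then: `Fst f α ℓ d δ` implies `W.SameCycle d δ` (CLAIM along the path), `W δ = ρ (α δ)`, and `α δ` is not descending, so `W.SameCycle (α δ) (ρ (α δ))` by the claim: `W.SameCycle d (α δ)`.  At a root vertex all darts are not descending, so the whole vertex is in one `W`-cycle.  Induction on `Dn`.
wr_same: `→`: wr_dn along the cycle (zs_ind; `W` maps `{ℓ ≤ r}` to itself), dn_unique.  `←`: dn_wr, and the root vertex is in one `W`-cycle (dn_wr for `base`).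
wr_clo: wr_clo1 along the cycle.
-/

set_option autoImplicit false

namespace QU91

open Equiv HG39 QD39 QL40

variable {D : Type} [Fintype D] [DecidableEq D]

variable {f α : Perm D} {ℓ : D → ℤ}

private theorem dnr_rs (hl : Lb f α ℓ) (d : D) : (f * α).SameCycle d ((α * f⁻¹) d) :=
  (rho_same hl.inv _ _).1 ⟨1, by rw [zpow_one]⟩

private theorem dnr_rl (hl : Lb f α ℓ) (d : D) : ℓ ((α * f⁻¹) d) = ℓ d :=
  (lb_same hl (dnr_rs hl d)).symm

private theorem dnr_fst_same (hl : Lb f α ℓ) {y δ : D} (h : Fst f α ℓ y δ) :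
    (f * α).SameCycle y δ := pth_same hl.inv h.2

private theorem dnr_fst_lev (hl : Lb f α ℓ) {y δ : D} (h : Fst f α ℓ y δ) :
    ℓ δ = ℓ y ∧ ℓ (α δ) = ℓ y - 1 := by
  have h1 : ℓ δ = ℓ y := (lb_same hl (dnr_fst_same hl h)).symm
  have h2 : ℓ (f δ) = ℓ δ - 1 := h.1
  rw [hl.ver, h1] at h2
  exact ⟨h1, h2⟩

private theorem dnr_fst_self {d : D} (h : Desc f ℓ d) : Fst f α ℓ d d :=
  hit_self (g := α * f⁻¹) (S := Desc f ℓ) h

private theorem dnr_fst_step {d δ : D} (h : ¬ Desc f ℓ d) :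
    Fst f α ℓ d δ ↔ Fst f α ℓ ((α * f⁻¹) d) δ :=
  hit_step (g := α * f⁻¹) (S := Desc f ℓ) h

theorem dn_exists (hl : Lb f α ℓ) (nn : ∀ d, 0 ≤ ℓ d) (d : D) : ∃ e, Dn f α ℓ d e := by
  have key : ∀ n : ℕ, ∀ d, (ℓ d).toNat ≤ n → ∃ e, Dn f α ℓ d e := by
    intro n
    induction n with
    | zero =>
      intro d hd
      refine ⟨d, Dn.base d d ?_ (Perm.SameCycle.refl _ _)⟩
      intro d' hs hdesc
      have h1 : ℓ (f d') = ℓ d' - 1 := hdesc
      have h2 := lb_same hl hs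
      have h3 := nn (f d')
      have h4 := nn d
      omega
    | succ n ih =>
      intro d hd
      by_cases hr : Root f α ℓ d
      · exact ⟨d, Dn.base d d hr (Perm.SameCycle.refl _ _)⟩
      · unfold Root at hr
        push Not at hr
        obtain ⟨d', hs, hdesc⟩ := hr
        obtain ⟨δ, hδ⟩ := hit_exists (g := α * f⁻¹) (S := Desc f ℓ)
          ((rho_same hl.inv d d').2 hs) hdesc
        have h1 := dnr_fst_lev hl (show Fst f α ℓ d δ from hδ)
        have h2 := nn (α δ)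
        obtain ⟨e, he⟩ := ih (α δ) (by omega)
        exact ⟨e, Dn.step d δ e hδ he⟩
  exact key _ d le_rfl

theorem dn_root {d e : D} (h : Dn f α ℓ d e) : Root f α ℓ e := by
  induction h with
  | base d e hr hs => exact hr
  | step d δ e hf hd ih => exact ih

theorem dn_unique (hl : Lb f α ℓ) {d e e' : D} (h : Dn f α ℓ d e) (h' : Dn f α ℓ d e') :
    (f * α).SameCycle e e' := by
  induction h with
  | base d e hr hs =>
    cases h' with
    | base _ _ hr' hs' => exact hs.symm.trans hs'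
    | step _ δ _ hf hd => exact absurd hf.1 (hr δ (hs.symm.trans (dnr_fst_same hl hf)))
  | step d δ e hf hd ih =>
    cases h' with
    | base _ _ hr' hs' => exact absurd hf.1 (hr' δ (hs'.symm.trans (dnr_fst_same hl hf)))
    | step _ δ' _ hf' hd' =>
      have h1 := fst_unique hf hf'
      subst h1
      exact ih hd'

theorem dn_lev (hl : Lb f α ℓ) {d e : D} (h : Dn f α ℓ d e) : ℓ e ≤ ℓ d := by
  induction h with
  | base d e hr hs => exact (lb_same hl hs).symm.le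
  | step d δ e hf hd ih =>
    have h1 := dnr_fst_lev hl hf
    omega

private theorem dnr_rot (hf : TF f) (hl : Lb f α ℓ) {r : ℤ} {P : D → Prop}
    (hP : Cl f α ℓ r P) {z : D} (hz : ℓ z ≤ r) : P z ↔ P ((α * f⁻¹) z) := by
  have h1 : f⁻¹ z = f (f z) := by
    rw [Perm.inv_eq_iff_eq, hf.three]
  have h2 : (α * f⁻¹) z = α (f (f z)) := by rw [Perm.mul_apply, h1]
  constructor
  · intro h
    rw [h2]
    refine hP.ca _ (hP.cf _ (hP.cf _ h)) (Or.inr ?_)
    rw [hf.three]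
    exact hz
  · intro h
    have h3 := hP.ca _ h (Or.inl (by rw [dnr_rl hl]; exact hz))
    rw [h2, hl.inv] at h3
    have h4 := hP.cf _ h3
    rwa [hf.three] at h4

private theorem dnr_ca (hl : Lb f α ℓ) {r : ℤ} {P : D → Prop}
    (hP : Cl f α ℓ r P) {z : D} (hz : ℓ z ≤ r) : P z ↔ P (α z) := by
  constructor
  · intro h
    exact hP.ca _ h (Or.inl hz)
  · intro h
    have h1 := hP.ca _ h (Or.inr (by rw [hl.ver, hl.inv]; exact hz))
    rwa [hl.inv] at h1

private theorem dnr_vert (hf : TF f) (hl : Lb f α ℓ) {r : ℤ} {P : D → Prop}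
    (hP : Cl f α ℓ r P) {x y : D} (hx : ℓ x ≤ r) (h : (f * α).SameCycle x y) : P x ↔ P y := by
  have h1 := zs_ind (α * f⁻¹) (fun x y => ℓ x ≤ r → (ℓ y ≤ r ∧ (P x ↔ P y)))
    (fun x hx => ⟨hx, Iff.rfl⟩)
    (fun x y z hxy hyz hx => ⟨(hyz (hxy hx).1).1, (hxy hx).2.trans (hyz (hxy hx).1).2⟩)
    (fun x hx => ⟨by rw [dnr_rl hl]; exact hx, dnr_rot hf hl hP hx⟩)
    ((rho_same hl.inv x y).2 h)
  exact (h1 hx).2

theorem dn_clo (hf : TF f) (hl : Lb f α ℓ) {r : ℤ} {P : D → Prop} (hP : Cl f α ℓ r P) {d e : D}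
    (hd : ℓ d ≤ r) (h : Dn f α ℓ d e) : P d ↔ P e := by
  induction h with
  | base d e hr hs => exact dnr_vert hf hl hP hd hs
  | step d δ e hfst hdn ih =>
    have h1 := dnr_fst_lev hl hfst
    exact ((dnr_vert hf hl hP hd (dnr_fst_same hl hfst)).trans
      (dnr_ca hl hP (by omega))).trans (ih (by omega))

private theorem dnr_K {z : D} (h : ¬ Desc f ℓ z) :
    (fr (α * f⁻¹) (Desc f ℓ))⁻¹ z = z := by
  rw [Perm.inv_eq_iff_eq]
  exact ((fr_spec (α * f⁻¹) (Desc f ℓ)).out z h).symm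

private theorem dnr_W (r : ℤ) (d : D) : Wr f α ℓ r d =
    (α * f⁻¹) ((fr (α * f⁻¹) (Desc f ℓ))⁻¹ (bet f α ℓ r d)) := rfl

/-- the three cases -/
private theorem dnr_cases (hl : Lb f α ℓ) {r : ℤ} {d : D} (hd : ℓ d ≤ r) :
    (Desc f ℓ d ∧ ¬ Desc f ℓ (α d) ∧ ℓ (α d) = ℓ d - 1 ∧ Wr f α ℓ r d = (α * f⁻¹) (α d)) ∨
    (¬ Desc f ℓ d ∧ Desc f ℓ (α d) ∧ ℓ (α d) = ℓ d + 1 ∧ ℓ (α d) ≤ r ∧
      Fst f α ℓ (Wr f α ℓ r d) (α d)) ∨
    (¬ Desc f ℓ d ∧ Wr f α ℓ r d = (α * f⁻¹) d) := by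
  classical
  have h1 := hl.ver d
  have h2 := hl.ver (α d)
  rw [hl.inv] at h2
  by_cases hD : Desc f ℓ d
  · left
    have h3 : ℓ (f d) = ℓ d - 1 := hD
    have h4 : ¬ Desc f ℓ (α d) := by
      intro h
      have h5 : ℓ (f (α d)) = ℓ (α d) - 1 := h
      omega
    refine ⟨hD, h4, by omega, ?_⟩
    have h5 : bet f α ℓ r d = α d := by
      rw [bet_val hl r d, if_pos ⟨by omega, hd, by omega⟩]
    rw [dnr_W, h5, dnr_K h4]
  · right
    by_cases hA : ℓ (f d) = ℓ d + 1 ∧ ℓ (f d) ≤ r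
    · left
      have h3 : Desc f ℓ (α d) := by
        show ℓ (f (α d)) = ℓ (α d) - 1
        omega
      have h5 : bet f α ℓ r d = α d := by
        rw [bet_val hl r d, if_pos ⟨by omega, hd, hA.2⟩]
      refine ⟨hD, h3, by omega, by omega, ?_⟩
      rw [dnr_W, h5]
      exact fr_pre h3
    · right
      have h3 := hl.lip d
      have h4 := lb_low hl d
      have h6 : ℓ (f d) ≠ ℓ d - 1 := hD
      have h5 : bet f α ℓ r d = d := by
        rw [bet_val hl r d, if_neg]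
        rintro ⟨c1, c2, c3⟩
        exact hA ⟨by omega, c3⟩
      refine ⟨hD, ?_⟩
      rw [dnr_W, h5, dnr_K hD]

private theorem dnr_step (hl : Lb f α ℓ) {d e : D} (h : ¬ Desc f ℓ d) :
    Dn f α ℓ d e ↔ Dn f α ℓ ((α * f⁻¹) d) e := by
  constructor
  · intro hd
    cases hd with
    | base _ _ hr hs => exact Dn.base _ _ hr ((dnr_rs hl d).symm.trans hs)
    | step _ δ _ hf hd => exact Dn.step _ δ _ ((dnr_fst_step h).1 hf) hd
  · intro hd
    cases hd with
    | base _ _ hr hs => exact Dn.base _ _ hr ((dnr_rs hl d).trans hs)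
    | step _ δ _ hf hd => exact Dn.step _ δ _ ((dnr_fst_step h).2 hf) hd

private theorem dnr_desc {d e : D} (h : Desc f ℓ d) :
    Dn f α ℓ d e ↔ Dn f α ℓ (α d) e := by
  constructor
  · intro hd
    cases hd with
    | base _ _ hr hs => exact absurd h (hr d hs.symm)
    | step _ δ _ hf hd =>
      have h1 := fst_unique hf (dnr_fst_self h)
      subst h1
      exact hd
  · intro hd
    exact Dn.step d d e (dnr_fst_self h) hd

theorem wr_dn (hl : Lb f α ℓ) {r : ℤ} {d e : D} (hd : ℓ d ≤ r) (h : Dn f α ℓ d e) :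
    ℓ (Wr f α ℓ r d) ≤ r ∧ Dn f α ℓ (Wr f α ℓ r d) e := by
  rcases dnr_cases hl hd with ⟨h1, h2, h3, h4⟩ | ⟨h1, h2, h3, h4, h5⟩ | ⟨h1, h2⟩
  · rw [h4, dnr_rl hl]
    exact ⟨by omega, (dnr_step hl h2).1 ((dnr_desc h1).1 h)⟩
  · have h6 := dnr_fst_lev hl h5
    refine ⟨by omega, Dn.step _ (α d) e h5 ?_⟩
    rw [hl.inv]
    exact h
  · rw [h2, dnr_rl hl]
    exact ⟨hd, (dnr_step hl h1).1 h⟩

/-- paths to the first descending dart -/
private theorem dnr_path (hl : Lb f α ℓ) {r j : ℤ}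
    (hc : ∀ y, ¬ Desc f ℓ y → ℓ y = j → (Wr f α ℓ r).SameCycle y ((α * f⁻¹) y)) {z δ : D}
    (hz : ℓ z = j) (h : Fst f α ℓ z δ) : (Wr f α ℓ r).SameCycle z δ := by
  obtain ⟨hD, k, hk, hj⟩ := h
  have h1 : ∀ i, i ≤ k → (Wr f α ℓ r).SameCycle z (((α * f⁻¹) ^ i) z) ∧
      ℓ (((α * f⁻¹) ^ i) z) = j := by
    intro i
    induction i with
    | zero =>
      intro _
      exact ⟨Perm.SameCycle.refl _ _, hz⟩
    | succ i ih =>
      intro hi
      obtain ⟨h2, h3⟩ := ih (by omega)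
      have h4 := hc _ (hj i (by omega)) h3
      rw [pow_succ', Perm.mul_apply (α * f⁻¹)]
      exact ⟨h2.trans h4, by rw [dnr_rl hl]; exact h3⟩
  have h2 := (h1 k le_rfl).1
  rw [hk] at h2
  exact h2

private theorem dnr_wstep {W : Perm D} (d : D) : W.SameCycle d (W d) := ⟨1, by rw [zpow_one]⟩

private theorem dnr_claim (hl : Lb f α ℓ) {r : ℤ} (n : ℕ) : ∀ y, ℓ y ≤ r → r - ℓ y ≤ n →
    ¬ Desc f ℓ y → (Wr f α ℓ r).SameCycle y ((α * f⁻¹) y) := by
  induction n with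
  | zero =>
    intro y hy hn hD
    rcases dnr_cases hl hy with ⟨h1, h2, h3, h4⟩ | ⟨h1, h2, h3, h4, h5⟩ | ⟨h1, h2⟩
    · exact absurd h1 hD
    · push_cast at hn
      omega
    · rw [← h2]
      exact dnr_wstep y
  | succ n ih =>
    intro y hy hn hD
    rcases dnr_cases hl hy with ⟨h1, h2, h3, h4⟩ | ⟨h1, h2, h3, h4, h5⟩ | ⟨h1, h2⟩
    · exact absurd h1 hD
    · have h6 := dnr_fst_lev hl h5
      push_cast at hn
      have h7 := dnr_path hl (r := r) (j := ℓ y + 1)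
        (fun y' hy1 hy2 => ih y' (by omega) (by omega) hy1) (by omega) h5
      have h8 : Wr f α ℓ r (α y) = (α * f⁻¹) y := by
        rcases dnr_cases hl h4 with ⟨g1, g2, g3, g4⟩ | ⟨g1, -⟩ | ⟨g1, -⟩
        · rw [g4, hl.inv]
        · exact absurd h2 g1
        · exact absurd h2 g1
      rw [← h8]
      exact ((dnr_wstep y).trans h7).trans (dnr_wstep (α y))
    · rw [← h2]
      exact dnr_wstep y

private theorem dnr_cl (hl : Lb f α ℓ) {r : ℤ} {y : D} (hy : ℓ y ≤ r) (h : ¬ Desc f ℓ y) :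
    (Wr f α ℓ r).SameCycle y ((α * f⁻¹) y) :=
  dnr_claim hl (r - ℓ y).toNat y hy (by omega) h

theorem dn_wr (hl : Lb f α ℓ) {r : ℤ} {d e : D} (hd : ℓ d ≤ r) (h : Dn f α ℓ d e) :
    (Wr f α ℓ r).SameCycle d e := by
  induction h with
  | base d e hr hs =>
    have he : ℓ d = ℓ e := lb_same hl hs
    have h1 := zs_ind (α * f⁻¹) (fun x y => (f * α).SameCycle e x →
      ((f * α).SameCycle e y ∧ (Wr f α ℓ r).SameCycle x y))
      (fun x hx => ⟨hx, Perm.SameCycle.refl _ _⟩)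
      (fun x y z hxy hyz hx => ⟨(hyz (hxy hx).1).1, (hxy hx).2.trans (hyz (hxy hx).1).2⟩)
      (fun x hx => ⟨hx.trans (dnr_rs hl x), dnr_cl hl (by
        rw [← lb_same hl hx, ← he]
        exact hd) (hr x hx)⟩)
      ((rho_same hl.inv d e).2 hs)
    exact (h1 hs.symm).2
  | step d δ e hf hdn ih =>
    have h1 := dnr_fst_lev hl hf
    have h2 := dnr_path hl (r := r) (j := ℓ d)
      (fun y hy1 hy2 => dnr_cl hl (by omega) hy1) rfl hf
    have h3 : ¬ Desc f ℓ (α δ) ∧ Wr f α ℓ r δ = (α * f⁻¹) (α δ) := by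
      rcases dnr_cases hl (r := r) (d := δ) (by omega) with
        ⟨g1, g2, g3, g4⟩ | ⟨g1, -⟩ | ⟨g1, -⟩
      · exact ⟨g2, g4⟩
      · exact absurd hf.1 g1
      · exact absurd hf.1 g1
    have h4 := dnr_cl hl (r := r) (y := α δ) (by omega) h3.1
    rw [← h3.2] at h4
    exact ((h2.trans (dnr_wstep δ)).trans h4.symm).trans (ih (by omega))

theorem wr_same (hl : Lb f α ℓ) {r : ℤ} {d d' e e' : D} (hd : ℓ d ≤ r) (hd' : ℓ d' ≤ r)
    (h : Dn f α ℓ d e) (h' : Dn f α ℓ d' e') :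
    (Wr f α ℓ r).SameCycle d d' ↔ (f * α).SameCycle e e' := by
  constructor
  · intro hs
    have h1 := zs_ind (Wr f α ℓ r) (fun x y => ℓ x ≤ r → ∀ e, Dn f α ℓ x e →
      (ℓ y ≤ r ∧ Dn f α ℓ y e))
      (fun x hx e he => ⟨hx, he⟩)
      (fun x y z hxy hyz hx e he => hyz (hxy hx e he).1 e (hxy hx e he).2)
      (fun x hx e he => wr_dn hl hx he) hs
    exact dn_unique hl (h1 hd e h).2 h'
  · intro hs
    have h1 := dn_lev hl h
    have h2 := dn_wr hl (r := r) (by omega) (Dn.base e e' (dn_root h') hs)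
    exact ((dn_wr hl hd h).trans h2).trans (dn_wr hl hd' h').symm

theorem wr_clo (hf : TF f) (hl : Lb f α ℓ) {r : ℤ} {P : D → Prop} (hP : Cl f α ℓ r P) {d d' : D}
    (hd : ℓ d ≤ r) (h : (Wr f α ℓ r).SameCycle d d') : P d ↔ P d' := by
  have h1 := zs_ind (Wr f α ℓ r) (fun x y => ℓ x ≤ r → (ℓ y ≤ r ∧ (P x ↔ P y)))
    (fun x hx => ⟨hx, Iff.rfl⟩)
    (fun x y z hxy hyz hx => ⟨(hyz (hxy hx).1).1, (hxy hx).2.trans (hyz (hxy hx).1).2⟩) ?_ h
  · exact (h1 hd).2
  · intro x hx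
    rcases dnr_cases hl hx with ⟨h1, h2, h3, h4⟩ | ⟨h1, h2, h3, h4, h5⟩ | ⟨h1, h2⟩
    · rw [h4, dnr_rl hl]
      exact ⟨by omega, (dnr_ca hl hP hx).trans (dnr_rot hf hl hP (by omega))⟩
    · have h6 := dnr_fst_lev hl h5
      refine ⟨by omega, ?_⟩
      have h7 := dnr_vert hf hl hP (x := Wr f α ℓ r x) (by omega) (dnr_fst_same hl h5)
      exact (dnr_ca hl hP hx).trans h7.symm
    · rw [h2, dnr_rl hl]
      exact ⟨hx, dnr_rot hf hl hP hx⟩

end QU91
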