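import Pool.Agent.H91.QU.Wpb

/-!
[H91 QU EXS]  (MP_bcc40c_pr, Q2, part (U))  Existence and uniqueness of the two paths, first facts on `Sg`.

PROOFS.
wp_exists: induction on `(ℓ p).toNat` (or on a bound of `ℓ p`), for all pairs of different descending darts `p, q` with `ℓ p = ℓ q`.  If for all `δ, δ'` with `Fst f α ℓ (α p) δ`, `Fst f α ℓ (α q) δ'` we have `δ = δ'`: `k = 1`, `a = fun _ => p`, `b = fun _ => q`.
Otherwise there are `δ ≠ δ'` with these properties; they are descending (Fst), `ℓ δ = ℓ (α p) = ℓ p - 1` (fst_lev, ver), `ℓ δ' = ℓ δ`, and `0 ≤ ℓ (f δ) = ℓ δ - 1`; the induction gives `k, a, b` for `δ, δ'`, and we take `k + 1` and the sequences with `p`, `q` added in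
front (`fun i => if i = 0 then p else a (i-1)`; `Nat.casesOn`).
wp_unique: by induction on `i`: if `i < k` and `i < k'` then `a i = a' i`, `b i = b' i` (`fst_unique`, HG39.LabBasic).  If `k < k'`: `Fst (α (a' (k-1))) (a' k)`, `Fst (α (b' (k-1))) (b' k)` with `a' k ≠ b' k`, contradiction to `en` (with `a' (k-1) = a (k-1)` etc.).
sg_eq: by wp_unique and swp_congr (the chosen paths agree with `a, b` below `k`; `sw α a b k = swp a b k * α * (swp a b k)⁻¹`).
-/

set_option autoImplicit false

namespace QU91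

open Equiv HG39 QD39 QL40

variable {D : Type} [Fintype D] [DecidableEq D]

variable {f α : Perm D} {ℓ : D → ℤ}

private def exs_pre {D : Type} (p : D) (a : ℕ → D) : ℕ → D
  | 0 => p
  | i + 1 => a i

theorem wp_exists (hl : Lb f α ℓ) (nn : ∀ d, 0 ≤ ℓ d) {r : ℤ} {p q : D} (hp : Tip f ℓ r p)
    (hq : Tip f ℓ r q) (hpq : p ≠ q) :
    ∃ (k : ℕ) (a b : ℕ → D), Wp f α ℓ k a b ∧ a 0 = p ∧ b 0 = q := by
  have key : ∀ (n : ℕ) (r : ℤ) (p q : D), r ≤ n → Tip f ℓ r p → Tip f ℓ r q → p ≠ q →
      ∃ (k : ℕ) (a b : ℕ → D), Wp f α ℓ k a b ∧ a 0 = p ∧ b 0 = q := by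
    intro n
    induction n with
    | zero =>
      intro r p q hr hp _ _
      exfalso
      have h1 : ℓ (f p) = ℓ p - 1 := hp.1
      have h2 := nn (f p)
      have h3 := hp.2
      push_cast at hr
      omega
    | succ n ih =>
      intro r p q hr hp hq hpq
      by_cases hc : ∀ δ δ', Fst f α ℓ (α p) δ → Fst f α ℓ (α q) δ' → δ = δ'
      · exact ⟨1, fun _ => p, fun _ => q, ⟨le_rfl, fun _ _ => hp.1, fun _ _ => hq.1,
          fun i hi => absurd hi (by omega), fun i hi => absurd hi (by omega),
          hq.2.trans hp.2.symm, fun _ _ => hpq, hc⟩, rfl, rfl⟩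
      · push Not at hc
        obtain ⟨δ, δ', h1, h2, h3⟩ := hc
        have e1 := fst_lev hl h1
        have e2 := fst_lev hl h2
        have e3 : ℓ (f p) = ℓ p - 1 := hp.1
        have e4 : ℓ (f q) = ℓ q - 1 := hq.1
        have e5 := hl.ver p
        have e6 := hl.ver q
        have e7 := hp.2
        have e8 := hq.2
        obtain ⟨k, a, b, h, ha, hb⟩ := ih (r - 1) δ δ' (by push_cast at hr; omega)
          ⟨h1.1, by omega⟩ ⟨h2.1, by omega⟩ h3
        have hk := h.kp
        refine ⟨k + 1, exs_pre p a, exs_pre q b, ⟨by omega, ?_, ?_, ?_, ?_, ?_, ?_, ?_⟩, rfl, rfl⟩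
        · intro i hi
          cases i with
          | zero => exact hp.1
          | succ i => exact h.da i (by omega)
        · intro i hi
          cases i with
          | zero => exact hq.1
          | succ i => exact h.db i (by omega)
        · intro i hi
          cases i with
          | zero =>
            show Fst f α ℓ (α p) (a 0)
            rw [ha]
            exact h1
          | succ i => exact h.na i (by omega)
        · intro i hi
          cases i with
          | zero =>
            show Fst f α ℓ (α q) (b 0)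
            rw [hb]
            exact h2
          | succ i => exact h.nb i (by omega)
        · show ℓ q = ℓ p
          omega
        · intro i hi
          cases i with
          | zero => exact hpq
          | succ i => exact h.ne i (by omega)
        · obtain ⟨m, rfl⟩ : ∃ m, k = m + 1 := ⟨k - 1, by omega⟩
          exact h.en
  obtain ⟨n, hn⟩ : ∃ n : ℕ, r ≤ n := ⟨r.toNat, Int.self_le_toNat r⟩
  exact key n r p q hn hp hq hpq

theorem wp_unique {k k' : ℕ} {a b a' b' : ℕ → D} (h : Wp f α ℓ k a b) (h' : Wp f α ℓ k' a' b')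
    (ha : a 0 = a' 0) (hb : b 0 = b' 0) : k = k' ∧ ∀ i < k, a i = a' i ∧ b i = b' i := by
  have key : ∀ i, i < k → i < k' → a i = a' i ∧ b i = b' i := by
    intro i
    induction i with
    | zero => exact fun _ _ => ⟨ha, hb⟩
    | succ i ih =>
      intro h1 h2
      obtain ⟨e1, e2⟩ := ih (by omega) (by omega)
      have f1 := h.na i h1
      have f2 := h'.na i h2
      have g1 := h.nb i h1
      have g2 := h'.nb i h2
      rw [e1] at f1
      rw [e2] at g1
      exact ⟨fst_unique f1 f2, fst_unique g1 g2⟩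
  have hk : k = k' := by
    have hkp := h.kp
    have hkp' := h'.kp
    rcases lt_trichotomy k k' with h1 | h1 | h1
    · exfalso
      obtain ⟨m, rfl⟩ : ∃ m, k = m + 1 := ⟨k - 1, by omega⟩
      obtain ⟨e1, e2⟩ := key m (by omega) (by omega)
      have f1 := h'.na m h1
      have f2 := h'.nb m h1
      rw [← e1] at f1
      rw [← e2] at f2
      exact h'.ne (m + 1) h1 (h.en _ _ f1 f2)
    · exact h1
    · exfalso
      obtain ⟨m, rfl⟩ : ∃ m, k' = m + 1 := ⟨k' - 1, by omega⟩
      obtain ⟨e1, e2⟩ := key m (by omega) (by omega)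
      have f1 := h.na m h1
      have f2 := h.nb m h1
      rw [e1] at f1
      rw [e2] at f2
      exact h.ne (m + 1) h1 (h'.en _ _ f1 f2)
  exact ⟨hk, fun i hi => key i hi (by omega)⟩

theorem sg_eq {k : ℕ} {a b : ℕ → D} (h : Wp f α ℓ k a b) :
    Sg f α ℓ (a 0) (b 0) = sw α a b k := by
  classical
  have hex : ∃ w : ℕ × (ℕ → D) × (ℕ → D), Wp f α ℓ w.1 w.2.1 w.2.2 ∧ w.2.1 0 = a 0 ∧
      w.2.2 0 = b 0 := ⟨(k, a, b), h, rfl, rfl⟩
  have hw := hex.choose_spec
  obtain ⟨h1, h2⟩ := wp_unique hw.1 h hw.2.1 hw.2.2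
  unfold Sg
  rw [dif_pos hex, sw, sw, swp_congr h2, h1]

end QU91
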