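import Mathlib

/-!
[H91 QU NUM]  (MP_bcc40c_pr, Q2, part (U))  The choice of the parameters.

PROOF.  `η = ε / 8`; for given `n, r, N` (large `n`) let `L = ⌈(log n)^2⌉₊ + 1`, `u = ⌊n^(3ε/2)⌋₊`, `K = ⌊n^(7ε/5)⌋₊`, `Z = 384 * L * N / K + 1` (natural division; `4 (6 L) (16 N) = 384 L N ≤ K Z`).  `r + 1 ≤ 2 B0 log n + 1`.  Everything that is polylogarithmic is at most `n^(ε/1000)` for large `n`.
 (5),(6): `exp (-c L) ≤ exp (-c (log n)^2) = n^(-c log n)`, smaller than every power of `n`.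
 (7): `C / n^4 (6n(r+1))^3 (16 N)^3 ≤ C' polylog n^(-1) n^(3/2 + 3ε) ≤ polylog n^(3/4) ≤ n^(1-η)/5` (`3ε ≤ 1/4`, `η ≤ 1/96`).
 (8): `u (6n(r+1))^2 ≤ polylog n^(2 + 3ε/2)`, and `N^2/2 ≥ n^(1+2ε)/4`, so the right side is at least `n^(1 + 2ε + 1 - ε/8)/20`, and `3/2 < 2 - 1/8`.
 (9): `N ≤ 2 n^(1/2+ε)`, `Z ≤ 1 + polylog n^(1/2 + ε - 7ε/5)`: `n^(-4) (n(r+1))^3 N^2 Z^2 ≤ polylog n^(-1) n^(1+2ε) n^(1 + 2ε - 14ε/5) = polylog n^(1 + 6ε/5)`; the right side is at least `n^(7ε/5 + 1 - ε/8)/40`, and `7/5 - 1/8 = 1.275 > 6/5`.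
-/

set_option autoImplicit false

namespace QU91

open Filter

private theorem num_ev {ε B0 c C : ℝ} (hε : 0 < ε) (hB : 0 < B0) (hC : 0 < C) :
    ∃ n0 : ℕ, 1 ≤ n0 ∧ ∀ n : ℕ, n0 ≤ n → 10 ^ 9 * (C + 1) ≤ (n : ℝ) ^ (ε / 200) ∧
      (Real.log n) ^ 2 + 2 ≤ (n : ℝ) ^ (ε / 200) ∧ B0 * Real.log n + 1 ≤ (n : ℝ) ^ (ε / 200) ∧
      20 / c ≤ Real.log n := by
  obtain ⟨δ, hδ⟩ : ∃ δ : ℝ, δ = ε / 200 := ⟨_, rfl⟩
  have hδ0 : 0 < δ := by rw [hδ]; linarith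
  rw [← hδ]
  obtain ⟨A, hA⟩ : ∃ A : ℝ, A = 16 / δ ^ 2 + 2 + (2 * B0 / δ + 1) + 10 ^ 9 * (C + 1) := ⟨_, rfl⟩
  have t1 : Tendsto (fun n : ℕ => (n : ℝ) ^ (δ / 2)) atTop atTop :=
    (tendsto_rpow_atTop (by linarith)).comp tendsto_natCast_atTop_atTop
  have t2 : Tendsto (fun n : ℕ => Real.log n) atTop atTop :=
    Real.tendsto_log_atTop.comp tendsto_natCast_atTop_atTop
  obtain ⟨n0, hn0⟩ := eventually_atTop.1 ((t1.eventually_ge_atTop A).and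
    ((t2.eventually_ge_atTop (20 / c)).and (eventually_ge_atTop 1)))
  refine ⟨max n0 1, le_max_right _ _, fun n hn => ?_⟩
  obtain ⟨h1, h2, h3⟩ := hn0 n ((le_max_left _ _).trans hn)
  have hx : (0 : ℝ) < n := by exact_mod_cast h3
  obtain ⟨t, ht⟩ : ∃ t : ℝ, t = (n : ℝ) ^ (δ / 2) := ⟨_, rfl⟩
  rw [← ht] at h1
  have hy : (n : ℝ) ^ δ = t ^ 2 := by
    rw [ht, ← Real.rpow_natCast, ← Real.rpow_mul hx.le]
    congr 1
    push_cast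
    ring
  have p1 : 0 < 16 / δ ^ 2 := by positivity
  have p2 : 0 < 2 * B0 / δ := by positivity
  have p3 : 0 < 10 ^ 9 * (C + 1) := by positivity
  have hlog0 : 0 ≤ Real.log n := Real.log_nonneg (by exact_mod_cast h3)
  have ht1 : 1 ≤ t := by
    have : (1 : ℝ) ≤ A := by rw [hA]; linarith
    linarith
  have l1 : Real.log n ≤ t * (2 / δ) := by
    have := Real.log_le_rpow_div hx.le (ε := δ / 2) (by linarith)
    rw [← ht] at this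
    calc Real.log n ≤ t / (δ / 2) := this
      _ = t * (2 / δ) := by field_simp
  have l2 : (Real.log n) ^ 2 ≤ 16 / δ ^ 2 * t := by
    have h4 := Real.log_le_rpow_div hx.le (ε := δ / 4) (by linarith)
    have h5 : ((n : ℝ) ^ (δ / 4)) ^ 2 = t := by
      rw [ht, ← Real.rpow_natCast, ← Real.rpow_mul hx.le]
      congr 1
      push_cast
      ring
    calc (Real.log n) ^ 2 ≤ ((n : ℝ) ^ (δ / 4) / (δ / 4)) ^ 2 := pow_le_pow_left₀ hlog0 h4 2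
      _ = 16 / δ ^ 2 * ((n : ℝ) ^ (δ / 4)) ^ 2 := by
        field_simp
        ring
      _ = 16 / δ ^ 2 * t := by rw [h5]
  rw [hy]
  refine ⟨?_, ?_, ?_, h2⟩
  · have : 10 ^ 9 * (C + 1) ≤ t := by linarith
    nlinarith
  · have h6 : 16 / δ ^ 2 + 2 ≤ t := by linarith
    have h7 : (16 / δ ^ 2 + 2) * t ≤ t * t := mul_le_mul_of_nonneg_right h6 (by linarith)
    nlinarith
  · have h6 : 2 * B0 / δ + 1 ≤ t := by linarith
    have h7 : (2 * B0 / δ + 1) * t ≤ t * t := mul_le_mul_of_nonneg_right h6 (by linarith)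
    have h8 : B0 * Real.log n ≤ B0 * (t * (2 / δ)) := mul_le_mul_of_nonneg_left l1 hB.le
    have h9 : B0 * (t * (2 / δ)) = 2 * B0 / δ * t := by ring
    nlinarith

private theorem num_pow {y : ℝ} (hy : 1 ≤ y) {a b : ℕ} (h : a ≤ b) : y ^ a ≤ y ^ b :=
  pow_le_pow_right₀ hy h

/-- the third estimate -/
private theorem num_9 {C y z r N : ℝ} (hC : 0 < C) (hy : 10 ^ 9 * (C + 1) ≤ y)
    (hz : y ^ 1200 ≤ z) (hr : r + 1 ≤ y) (hr0 : 0 ≤ r + 1) (hN0 : 0 ≤ N)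
    (hN : N ≤ 2 * (z * y ^ 200)) :
    C / (z ^ 2) ^ 4 * (6 * z ^ 2 * (r + 1)) ^ 3 * (16 * N) ^ 3 ≤ z ^ 2 / y ^ 25 / 5 := by
  have hy1 : 1 ≤ y := by linarith
  have hy0 : 0 < y := by linarith
  have hz0 : 0 < z := lt_of_lt_of_le (by positivity) hz
  have h1 : C / (z ^ 2) ^ 4 * (6 * z ^ 2 * (r + 1)) ^ 3 * (16 * N) ^ 3 ≤
      C / (z ^ 2) ^ 4 * (6 * z ^ 2 * y) ^ 3 * (16 * (2 * (z * y ^ 200))) ^ 3 := by
    gcongr
  refine h1.trans ?_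
  have h2 : C / (z ^ 2) ^ 4 * (6 * z ^ 2 * y) ^ 3 * (16 * (2 * (z * y ^ 200))) ^ 3 =
      (7077888 * C) * y ^ 603 * z := by
    field_simp
    ring
  rw [h2, le_div_iff₀ (by norm_num), le_div_iff₀ (by positivity)]
  have h3 : 5 * (7077888 * C) ≤ y := by linarith
  have h4 : y ^ 629 ≤ z := (num_pow hy1 (by norm_num)).trans hz
  calc 7077888 * C * y ^ 603 * z * 5 * y ^ 25 = (5 * (7077888 * C)) * (y ^ 628 * z) := by ring
    _ ≤ y * (y ^ 628 * z) := mul_le_mul_of_nonneg_right h3 (by positivity)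
    _ = y ^ 629 * z := by ring
    _ ≤ z * z := mul_le_mul_of_nonneg_right h4 hz0.le
    _ = z ^ 2 := by ring

/-- the second estimate -/
private theorem num_8 {C y z r e : ℝ} (hC : 0 < C) (hy : 10 ^ 9 * (C + 1) ≤ y)
    (hz : y ^ 1200 ≤ z) (hr : r + 1 ≤ y) (hr0 : 0 ≤ r + 1) (he : e ≤ 1 / z ^ 40) :
    C * (z ^ 2) ^ 3 * e * (6 * z ^ 2 * (r + 1)) ^ 3 * (6 * z ^ 2) ^ 4 ≤ z ^ 2 / y ^ 25 / 5 := by
  have hy1 : 1 ≤ y := by linarith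
  have hy0 : 0 < y := by linarith
  have hz0 : 0 < z := lt_of_lt_of_le (by positivity) hz
  have hz1 : 1 ≤ z := (one_le_pow₀ hy1).trans hz
  have h1 : C * (z ^ 2) ^ 3 * e * (6 * z ^ 2 * (r + 1)) ^ 3 * (6 * z ^ 2) ^ 4 ≤
      C * (z ^ 2) ^ 3 * (1 / z ^ 40) * (6 * z ^ 2 * y) ^ 3 * (6 * z ^ 2) ^ 4 := by
    gcongr
  refine h1.trans ?_
  have h2 : C * (z ^ 2) ^ 3 * (1 / z ^ 40) * (6 * z ^ 2 * y) ^ 3 * (6 * z ^ 2) ^ 4 =
      279936 * C * y ^ 3 / z ^ 20 := by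
    field_simp
    ring
  rw [h2, le_div_iff₀ (by norm_num), le_div_iff₀ (by positivity), div_mul_eq_mul_div,
    div_mul_eq_mul_div, div_le_iff₀ (by positivity)]
  have h3 : 5 * (279936 * C) ≤ y := by linarith
  have h4 : y ^ 29 ≤ z := (num_pow hy1 (by norm_num)).trans hz
  calc 279936 * C * y ^ 3 * 5 * y ^ 25 = (5 * (279936 * C)) * y ^ 28 := by ring
    _ ≤ y * y ^ 28 := mul_le_mul_of_nonneg_right h3 (by positivity)
    _ = y ^ 29 := by ring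
    _ ≤ z := h4
    _ = z ^ 1 := by ring
    _ ≤ z ^ 22 := num_pow hz1 (by norm_num)
    _ = z ^ 2 * z ^ 20 := by ring

/-- the fourth estimate -/
private theorem num_10 {y z r u M : ℝ} (hy : 10 ^ 9 ≤ y) (hz0 : 0 < z) (hr : r + 1 ≤ y)
    (hr0 : 0 ≤ r + 1) (hu : u ≤ y ^ 300) (hM : (z * y ^ 200) ^ 2 / 4 ≤ M) :
    u * (6 * z ^ 2 * (r + 1)) ^ 2 ≤ M * (z ^ 2 / y ^ 25 / 5) := by
  have hy1 : 1 ≤ y := by linarith
  have hy0 : 0 < y := by linarith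
  have h1 : u * (6 * z ^ 2 * (r + 1)) ^ 2 ≤ y ^ 300 * (6 * z ^ 2 * y) ^ 2 := by
    gcongr
  have h2 : (z * y ^ 200) ^ 2 / 4 * (z ^ 2 / y ^ 25 / 5) ≤ M * (z ^ 2 / y ^ 25 / 5) :=
    mul_le_mul_of_nonneg_right hM (by positivity)
  refine (h1.trans ?_).trans h2
  have h3 : (z * y ^ 200) ^ 2 / 4 * (z ^ 2 / y ^ 25 / 5) = z ^ 4 * y ^ 375 / 20 := by
    field_simp
    ring
  rw [h3, le_div_iff₀ (by norm_num)]
  have h4 : (720 : ℝ) ≤ y := by linarith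
  calc y ^ 300 * (6 * z ^ 2 * y) ^ 2 * 20 = 720 * (z ^ 4 * y ^ 302) := by ring
    _ ≤ y * (z ^ 4 * y ^ 302) := mul_le_mul_of_nonneg_right h4 (by positivity)
    _ = z ^ 4 * y ^ 303 := by ring
    _ ≤ z ^ 4 * y ^ 375 :=
      mul_le_mul_of_nonneg_left (num_pow hy1 (by norm_num)) (by positivity)

/-- the fifth estimate -/
private theorem num_11 {C y z r N Z M : ℝ} (hC : 0 < C) (hy : 10 ^ 9 * (C + 1) ≤ y)
    (hz : y ^ 1200 ≤ z) (hr : r + 1 ≤ y) (hr0 : 0 ≤ r + 1) (hN0 : 0 ≤ N)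
    (hN : N ≤ 2 * (z * y ^ 200)) (hZ0 : 0 ≤ Z) (hZ : Z ≤ z * y ^ 2 / y ^ 80)
    (hM : y ^ 280 / 16 ≤ M) :
    C / (z ^ 2) ^ 4 * (6 * z ^ 2 * (r + 1)) ^ 3 * ((16 * N) ^ 2 * Z ^ 2) ≤
      M * (z ^ 2 / y ^ 25 / 5) := by
  have hy1 : 1 ≤ y := by linarith
  have hy0 : 0 < y := by linarith
  have hz0 : 0 < z := lt_of_lt_of_le (by positivity) hz
  have h1 : C / (z ^ 2) ^ 4 * (6 * z ^ 2 * (r + 1)) ^ 3 * ((16 * N) ^ 2 * Z ^ 2) ≤
      C / (z ^ 2) ^ 4 * (6 * z ^ 2 * y) ^ 3 * ((16 * (2 * (z * y ^ 200))) ^ 2 *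
        (z * y ^ 2 / y ^ 80) ^ 2) := by
    gcongr
  have h2 : y ^ 280 / 16 * (z ^ 2 / y ^ 25 / 5) ≤ M * (z ^ 2 / y ^ 25 / 5) :=
    mul_le_mul_of_nonneg_right hM (by positivity)
  refine (h1.trans ?_).trans h2
  have h3 : C / (z ^ 2) ^ 4 * (6 * z ^ 2 * y) ^ 3 * ((16 * (2 * (z * y ^ 200))) ^ 2 *
        (z * y ^ 2 / y ^ 80) ^ 2) = 221184 * C * y ^ 247 * z ^ 2 := by
    field_simp
    ring
  have h4 : y ^ 280 / 16 * (z ^ 2 / y ^ 25 / 5) = y ^ 255 * z ^ 2 / 80 := by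
    field_simp
    ring
  rw [h3, h4, le_div_iff₀ (by norm_num)]
  have h5 : 80 * (221184 * C) ≤ y := by linarith
  calc 221184 * C * y ^ 247 * z ^ 2 * 80 = 80 * (221184 * C) * (y ^ 247 * z ^ 2) := by ring
    _ ≤ y * (y ^ 247 * z ^ 2) := mul_le_mul_of_nonneg_right h5 (by positivity)
    _ = y ^ 248 * z ^ 2 := by ring
    _ ≤ y ^ 255 * z ^ 2 :=
      mul_le_mul_of_nonneg_right (num_pow hy1 (by norm_num)) (by positivity)

theorem num {ε B0 c C : ℝ} (hε : 0 < ε) (hε2 : ε ≤ 1 / 12) (hB : 0 < B0) (hc : 0 < c)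
    (hC : 0 < C) : ∃ η : ℝ, 0 < η ∧ ∃ n0 : ℕ, 1 ≤ n0 ∧ ∀ n r N : ℕ, n0 ≤ n →
      (r : ℝ) ≤ B0 * Real.log n → (n : ℝ) ^ (1 / 2 + ε) ≤ N → (N : ℝ) ≤ 2 * (n : ℝ) ^ (1 / 2 + ε) →
      ∃ L u K Z : ℕ, 1 ≤ L ∧ 36 * L ≤ N ∧ 36 * L ≤ K ∧ 2 ≤ N ∧ (K + 5) * (18 * L) ^ 2 ≤ u ∧
        4 * (6 * L) * (16 * N) ≤ K * Z ∧
        C * (n : ℝ) ^ 3 * Real.exp (-c * L) * (6 * n * (r + 1)) ^ 2 * (6 * n) ^ 2 ≤
          (n : ℝ) ^ (1 - η) / 5 ∧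
        C * (n : ℝ) ^ 3 * Real.exp (-c * L) * (6 * n * (r + 1)) ^ 3 * (6 * n) ^ 4 ≤
          (n : ℝ) ^ (1 - η) / 5 ∧
        C / (n : ℝ) ^ 4 * (6 * n * (r + 1)) ^ 3 * (16 * N) ^ 3 ≤ (n : ℝ) ^ (1 - η) / 5 ∧
        (u : ℝ) * (6 * n * (r + 1)) ^ 2 ≤ ((N ^ 2 / 2 : ℕ) : ℝ) * ((n : ℝ) ^ (1 - η) / 5) ∧
        C / (n : ℝ) ^ 4 * (6 * n * (r + 1)) ^ 3 * ((16 * N) ^ 2 * (Z : ℝ) ^ 2) ≤
          ((K / 4 : ℕ) : ℝ) * ((n : ℝ) ^ (1 - η) / 5) := by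
  obtain ⟨n0, hn1, hn0⟩ := num_ev (c := c) hε hB hC
  refine ⟨ε / 8, by linarith, n0, hn1, fun n r N hn hr hN1 hN2 => ?_⟩
  obtain ⟨a1, a2, a3, a4⟩ := hn0 n hn
  have hnn : 1 ≤ n := hn1.trans hn
  have hx : (0 : ℝ) < n := by exact_mod_cast hnn
  have hx1 : (1 : ℝ) ≤ n := by exact_mod_cast hnn
  obtain ⟨y, hy⟩ : ∃ y : ℝ, y = (n : ℝ) ^ (ε / 200) := ⟨_, rfl⟩
  obtain ⟨z, hz⟩ : ∃ z : ℝ, z = (n : ℝ) ^ (1 / 2 : ℝ) := ⟨_, rfl⟩
  rw [← hy] at a1 a2 a3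
  have hyp : ∀ (k : ℕ) (s : ℝ), s = ε / 200 * k → (n : ℝ) ^ s = y ^ k := by
    intro k s hs
    rw [hy, ← Real.rpow_natCast, ← Real.rpow_mul hx.le, hs]
  have hzn : (n : ℝ) = z ^ 2 := by
    rw [hz, ← Real.rpow_natCast, ← Real.rpow_mul hx.le]
    norm_num
  have e1 : (n : ℝ) ^ (1 / 2 + ε) = z * y ^ 200 := by
    rw [Real.rpow_add hx, ← hz, hyp 200 ε (by push_cast; ring)]
  have e2 : (n : ℝ) ^ (1 - ε / 8) = z ^ 2 / y ^ 25 := by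
    rw [Real.rpow_sub hx, Real.rpow_one, hyp 25 (ε / 8) (by push_cast; ring), hzn]
  have hy9 : 10 ^ 9 ≤ y := by linarith
  have hy1 : 1 ≤ y := by linarith
  have hy0 : 0 < y := by linarith
  have hzy : y ^ 1200 ≤ z := by
    rw [← hyp 1200 (6 * ε) (by push_cast; ring), hz]
    exact Real.rpow_le_rpow_of_exponent_le hx1 (by linarith)
  have hz0 : 0 < z := lt_of_lt_of_le (by positivity) hzy
  have hz1 : 1 ≤ z := (one_le_pow₀ hy1).trans hzy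
  rw [e1] at hN1 hN2
  have hr1 : (r : ℝ) + 1 ≤ y := by linarith
  have hr0 : (0 : ℝ) ≤ r + 1 := by positivity
  -- the parameters
  obtain ⟨L, hL⟩ : ∃ L : ℕ, L = ⌈(Real.log n) ^ 2⌉₊ + 1 := ⟨_, rfl⟩
  obtain ⟨K, hK⟩ : ∃ K : ℕ, K = ⌊y ^ 280⌋₊ := ⟨_, rfl⟩
  obtain ⟨u, hu⟩ : ∃ u : ℕ, u = ⌊y ^ 300⌋₊ := ⟨_, rfl⟩
  have hL1 : 1 ≤ L := by omega
  have hL2 : (L : ℝ) ≤ y := by
    have h1 : (⌈(Real.log n) ^ 2⌉₊ : ℝ) < (Real.log n) ^ 2 + 1 :=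
      Nat.ceil_lt_add_one (sq_nonneg _)
    rw [hL]
    push_cast
    linarith
  have hL3 : (Real.log n) ^ 2 ≤ L := by
    have h1 := Nat.le_ceil ((Real.log n) ^ 2)
    rw [hL]
    push_cast
    linarith
  have hK1 : (K : ℝ) ≤ y ^ 280 := by
    rw [hK]
    exact Nat.floor_le (by positivity)
  have hK2 : y ^ 280 < K + 1 := by
    rw [hK]
    exact Nat.lt_floor_add_one _
  have hu1 : (u : ℝ) ≤ y ^ 300 := by
    rw [hu]
    exact Nat.floor_le (by positivity)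
  have hu2 : y ^ 300 < u + 1 := by
    rw [hu]
    exact Nat.lt_floor_add_one _
  have hy280 : 10 ^ 9 ≤ y ^ 280 := by
    calc (10 : ℝ) ^ 9 ≤ y := hy9
      _ = y ^ 1 := by ring
      _ ≤ y ^ 280 := num_pow hy1 (by norm_num)
  have hKh : y ^ 280 / 2 ≤ K := by linarith
  have hKy : (36 : ℝ) * L ≤ y ^ 2 := by
    have h1 : 36 * y ≤ y * y := mul_le_mul_of_nonneg_right (by linarith) hy0.le
    have h2 : y ^ 2 = y * y := sq y
    linarith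
  have hy2 : y ^ 2 ≤ y ^ 280 / 2 := by
    have h1 : y ^ 2 * y ≤ y ^ 280 := by
      rw [← pow_succ]
      exact num_pow hy1 (by norm_num)
    have h2 : y ^ 2 * 2 ≤ y ^ 2 * y := mul_le_mul_of_nonneg_left (by linarith) (by positivity)
    linarith
  have hK0 : (0 : ℝ) < K := by linarith
  have hzyN : y ^ 2 ≤ N := by
    calc y ^ 2 ≤ y ^ 200 := num_pow hy1 (by norm_num)
      _ = 1 * y ^ 200 := (one_mul _).symm
      _ ≤ z * y ^ 200 := mul_le_mul_of_nonneg_right hz1 (by positivity)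
      _ ≤ N := hN1
  have hN0 : (0 : ℝ) ≤ N := Nat.cast_nonneg _
  have hN2' : (2 : ℝ) ≤ N := by
    have h1 : y ^ 1 ≤ y ^ 2 := num_pow hy1 (by norm_num)
    rw [pow_one] at h1
    linarith
  refine ⟨L, u, K, 384 * L * N / K + 1, hL1, ?_, ?_, ?_, ?_, ?_, ?_⟩
  · have : (36 : ℝ) * L ≤ N := hKy.trans hzyN
    exact_mod_cast this
  · have : (36 : ℝ) * L ≤ K := hKy.trans (hy2.trans hKh)
    exact_mod_cast this
  · exact_mod_cast hN2'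
  · have h1 : ((K : ℝ) + 5) * (18 * L) ^ 2 ≤ (y ^ 280 + y ^ 280) * (18 * y) ^ 2 := by
      gcongr
      linarith
    have h2 : (y ^ 280 + y ^ 280) * (18 * y) ^ 2 = 648 * y ^ 282 := by ring
    have h3 : 648 * y ^ 282 ≤ y * y ^ 282 := mul_le_mul_of_nonneg_right (by linarith) (by positivity)
    have h4 : y * y ^ 282 = y ^ 283 := by ring
    have h5 : y ^ 283 * 2 ≤ y ^ 283 * y := mul_le_mul_of_nonneg_left (by linarith) (by positivity)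
    have h6 : y ^ 283 * y = y ^ 284 := by ring
    have h7 : y ^ 284 ≤ y ^ 300 := num_pow hy1 (by norm_num)
    have h8 : 1 ≤ y ^ 283 := one_le_pow₀ hy1
    have h9 : ((K : ℝ) + 5) * (18 * L) ^ 2 ≤ u := by linarith
    exact_mod_cast h9
  · have hK0' : 0 < K := by exact_mod_cast hK0
    have h1 := Nat.lt_mul_div_succ (384 * L * N) hK0'
    have h2 : 4 * (6 * L) * (16 * N) = 384 * L * N := by ring
    rw [h2]
    exact h1.le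
  have hexp : Real.exp (-c * L) ≤ 1 / z ^ 40 := by
    have h1 : 20 ≤ c * Real.log n := by
      rw [div_le_iff₀ hc] at a4
      linarith
    have hl0 : 0 ≤ Real.log n := Real.log_nonneg hx1
    have h2 : 20 * Real.log n ≤ c * L := by
      calc 20 * Real.log n ≤ c * Real.log n * Real.log n := mul_le_mul_of_nonneg_right h1 hl0
        _ = c * (Real.log n) ^ 2 := by ring
        _ ≤ c * L := mul_le_mul_of_nonneg_left hL3 hc.le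
    have h3 : z ^ 40 = Real.exp (20 * Real.log n) := by
      have h4 : z ^ 40 = (n : ℝ) ^ 20 := by
        rw [hzn]
        ring
      have h5 : Real.exp (20 * Real.log n) = (Real.exp (Real.log n)) ^ 20 := by
        rw [← Real.exp_nat_mul]
        norm_num
      rw [h4, h5, Real.exp_log hx]
    rw [h3, one_div, ← Real.exp_neg]
    apply Real.exp_le_exp.2
    linarith
  have hexp0 : 0 ≤ Real.exp (-c * L) := (Real.exp_pos _).le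
  have g8 := num_8 hC a1 hzy hr1 hr0 hexp
  have g9 := num_9 hC a1 hzy hr1 hr0 hN0 hN2
  have g10 : (u : ℝ) * (6 * z ^ 2 * (r + 1)) ^ 2 ≤
      ((N ^ 2 / 2 : ℕ) : ℝ) * (z ^ 2 / y ^ 25 / 5) := by
    refine num_10 hy9 hz0 hr1 hr0 hu1 ?_
    have h1 : N ^ 2 < 2 * (N ^ 2 / 2 + 1) := Nat.lt_mul_div_succ (N ^ 2) (by norm_num)
    have h2 : ((N : ℝ)) ^ 2 < 2 * (((N ^ 2 / 2 : ℕ) : ℝ) + 1) := by exact_mod_cast h1
    have h3 : (z * y ^ 200) ^ 2 ≤ (N : ℝ) ^ 2 := pow_le_pow_left₀ (by positivity) hN1 2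
    have h4 : (2 : ℝ) ^ 2 ≤ (N : ℝ) ^ 2 := pow_le_pow_left₀ (by norm_num) hN2' 2
    linarith
  have hZ : (((384 * L * N / K + 1 : ℕ)) : ℝ) ≤ z * y ^ 2 / y ^ 80 := by
    have h1 : ((384 * L * N / K : ℕ) : ℝ) ≤ ((384 * L * N : ℕ) : ℝ) / K := Nat.cast_div_le
    have h2 : ((384 * L * N : ℕ) : ℝ) / K ≤ 384 * y * (2 * (z * y ^ 200)) / (y ^ 280 / 2) := by
      push_cast
      gcongr
    have h3 : 384 * y * (2 * (z * y ^ 200)) / (y ^ 280 / 2) = 1536 * (z * y / y ^ 80) := by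
      field_simp
      ring
    have h4 : 1 ≤ z * y / y ^ 80 := by
      rw [le_div_iff₀ (by positivity), one_mul]
      calc y ^ 80 ≤ y ^ 1200 := num_pow hy1 (by norm_num)
        _ ≤ z := hzy
        _ = z * 1 := (mul_one _).symm
        _ ≤ z * y := mul_le_mul_of_nonneg_left hy1 hz0.le
    have h5 : z * y ^ 2 / y ^ 80 = y * (z * y / y ^ 80) := by ring
    have h6 : 1537 * (z * y / y ^ 80) ≤ y * (z * y / y ^ 80) :=
      mul_le_mul_of_nonneg_right (by linarith) (by linarith)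
    push_cast
    push_cast at h1
    rw [h5]
    have h7 : ((384 * L * N / K : ℕ) : ℝ) ≤ 1536 * (z * y / y ^ 80) := by
      rw [← h3]
      push_cast at h1 h2 ⊢
      linarith
    linarith
  have g11 : C / (z ^ 2) ^ 4 * (6 * z ^ 2 * (r + 1)) ^ 3 *
      ((16 * N) ^ 2 * (((384 * L * N / K + 1 : ℕ)) : ℝ) ^ 2) ≤
      ((K / 4 : ℕ) : ℝ) * (z ^ 2 / y ^ 25 / 5) := by
    refine num_11 hC a1 hzy hr1 hr0 hN0 hN2 (Nat.cast_nonneg _) hZ ?_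
    have h1 : K < 4 * (K / 4 + 1) := Nat.lt_mul_div_succ K (by norm_num)
    have h2 : (K : ℝ) < 4 * (((K / 4 : ℕ) : ℝ) + 1) := by exact_mod_cast h1
    linarith
  rw [e2]
  have g7 : C * (z ^ 2) ^ 3 * Real.exp (-c * L) * (6 * z ^ 2 * (r + 1)) ^ 2 * (6 * z ^ 2) ^ 2 ≤
      z ^ 2 / y ^ 25 / 5 := by
    refine le_trans ?_ g8
    have h0 : (1 : ℝ) ≤ z ^ 2 := one_le_pow₀ hz1
    have h1 : (1 : ℝ) ≤ 6 * z ^ 2 := by linarith
    have h2 : (1 : ℝ) ≤ 6 * z ^ 2 * (r + 1) := by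
      have : (1 : ℝ) ≤ r + 1 := by
        have : (0 : ℝ) ≤ r := Nat.cast_nonneg _
        linarith
      exact one_le_mul_of_one_le_of_one_le h1 this
    have h3 : (6 * z ^ 2 * ((r : ℝ) + 1)) ^ 2 ≤ (6 * z ^ 2 * (r + 1)) ^ 3 :=
      num_pow h2 (by norm_num)
    have h4 : (6 * z ^ 2) ^ 2 ≤ (6 * z ^ 2) ^ 4 := num_pow h1 (by norm_num)
    exact mul_le_mul (mul_le_mul_of_nonneg_left h3 (by positivity)) h4 (by positivity)
      (by positivity)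
  simp only [← hzn] at g7 g8 g9 g10 g11
  rw [← hzn]
  exact ⟨g7, g8, g9, g10, g11⟩

end QU91
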