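import Pool.Agent.H91.QU.Defs
import Pool.Agent.H39.UN.Rat
import Pool.Agent.H39.UN.LawA

/-!
[H91 QU RTO]  (MP_bcc40c_pr, Q2, part (U))  Four more vertices cost a factor `n^(-4)`.

PROOF.  ts_card for `v + 4` and `v`: `#TS f (v+4) / #TS f v = bc n (v+4) / bc n v`.  rat_two: `w^3 bc n (w+2) ≤ 6 (3n+2) bc n w` (`w ≥ 1`), with `w = v` and `w = v + 2`, both `≥ ω1 n`: `bc n (v+4) ≤ (6 (3n+2) / (ω1 n)^3)^2 bc n v ≤ (30 / (ω1^3 n^2))^2 bc n v`.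
-/

set_option autoImplicit false

namespace QU91

open Equiv HG39 QD39 QL40 UN39

theorem ts_ratio {ω1 : ℝ} (h1 : 0 < ω1) : ∃ C : ℝ, ∃ n0 : ℕ, 0 < C ∧ 1 ≤ n0 ∧
    ∀ n v : ℕ, n0 ≤ n → ω1 * n ≤ v → ∀ f : Perm (Fin (6 * n)), TF f →
      ((TS f (v + 4)).ncard : ℝ) ≤ C / (n : ℝ) ^ 4 * (TS f v).ncard := by
  refine ⟨900 / ω1 ^ 6, 1, by positivity, le_refl _, ?_⟩
  intro n v hn hv f hf
  have hn1 : (1 : ℝ) ≤ n := by exact_mod_cast hn
  have hn0 : (0 : ℝ) < n := by linarith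
  have hw : 0 < ω1 * n := mul_pos h1 hn0
  have hv0 : (0 : ℝ) < v := lt_of_lt_of_le hw hv
  have hv1 : 1 ≤ v := by
    have : 0 < v := by exact_mod_cast hv0
    omega
  have hD : Fintype.card (Fin (6 * n)) = 6 * n := Fintype.card_fin _
  have c1 := ts_card hf hD hn (v + 4)
  have c2 := ts_card hf hD hn v
  have r1 := rat_two n v hv1
  have r2 := rat_two n (v + 2) (by omega)
  have e4 : v + 2 + 2 = v + 4 := by omega
  rw [e4] at r2
  have hX := bc_nonneg n (v + 4)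
  have hY := bc_nonneg n v
  have hZ := bc_nonneg n (v + 2)
  have h5 : (3 * (n : ℝ) + 2) ≤ 5 * n := by linarith
  have s1 : (ω1 * n) ^ 3 * bc n (v + 2) ≤ 30 * n * bc n v := by
    have t1 : (ω1 * n) ^ 3 ≤ (v : ℝ) ^ 3 := pow_le_pow_left₀ hw.le hv 3
    have t2 := mul_le_mul_of_nonneg_right t1 hZ
    have t3 : 6 * (3 * (n : ℝ) + 2) * bc n v ≤ 30 * n * bc n v :=
      mul_le_mul_of_nonneg_right (by linarith) hY
    linarith
  have s2 : (ω1 * n) ^ 3 * bc n (v + 4) ≤ 30 * n * bc n (v + 2) := by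
    have t1 : (ω1 * n) ^ 3 ≤ ((v + 2 : ℕ) : ℝ) ^ 3 := by
      apply pow_le_pow_left₀ hw.le
      push_cast
      linarith
    have t2 := mul_le_mul_of_nonneg_right t1 hX
    have t3 : 6 * (3 * (n : ℝ) + 2) * bc n (v + 2) ≤ 30 * n * bc n (v + 2) :=
      mul_le_mul_of_nonneg_right (by linarith) hZ
    linarith
  have s3 : ω1 ^ 6 * (n : ℝ) ^ 4 * bc n (v + 4) ≤ 900 * bc n v := by
    have t1 : (ω1 * n) ^ 3 * ((ω1 * n) ^ 3 * bc n (v + 4)) ≤ (ω1 * n) ^ 3 * (30 * n * bc n (v + 2)) :=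
      mul_le_mul_of_nonneg_left s2 (by positivity)
    have t2 : 30 * (n : ℝ) * ((ω1 * n) ^ 3 * bc n (v + 2)) ≤ 30 * (n : ℝ) * (30 * n * bc n v) :=
      mul_le_mul_of_nonneg_left s1 (by positivity)
    have t3 : (n : ℝ) ^ 2 * (ω1 ^ 6 * (n : ℝ) ^ 4 * bc n (v + 4)) ≤ (n : ℝ) ^ 2 * (900 * bc n v) := by
      nlinarith [t1, t2]
    exact le_of_mul_le_mul_left t3 (by positivity)
  have s4 : bc n (v + 4) ≤ 900 / ω1 ^ 6 / (n : ℝ) ^ 4 * bc n v := by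
    rw [div_div, div_mul_eq_mul_div, le_div_iff₀ (by positivity)]
    linarith
  have hF : (0 : ℝ) ≤ ((2 * n).factorial : ℝ) * 3 ^ (2 * n) := by positivity
  have s5 := mul_le_mul_of_nonneg_left s4 hF
  have s6 : ((TS f (v + 4)).ncard : ℝ) * (6 * n) ≤
      900 / ω1 ^ 6 / (n : ℝ) ^ 4 * (TS f v).ncard * (6 * n) := by
    rw [c1]
    calc _ ≤ _ := s5
      _ = 900 / ω1 ^ 6 / (n : ℝ) ^ 4 * (((2 * n).factorial : ℝ) * 3 ^ (2 * n) * bc n v) := by ring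
      _ = _ := by rw [← c2]; ring
  exact le_of_mul_le_mul_right s6 (by positivity)

end QU91
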