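import Pool.Agent.H91.QU.Thin
import Pool.Agent.H91.QU.Dich
import Pool.Agent.H91.QU.Cra
import Pool.Agent.H91.QU.Crb
import Pool.Agent.H91.QU.Dic
import Pool.Agent.H91.QU.Rto
import Pool.Agent.H91.QU.Num

/-!
[H91 QU FIN]  (MP_bcc40c_pr, Q2, part (U))  The assembly.

PROOF of stB.  `c, C1` from dis_card, `C2` from ts_ratio, `C = max C1 C2`; `num` gives `η, n0` and for each `n, r, N` the numbers `L, u, K, Z`.  dich with `6 * L` for `L` (`6 (6L) = 36 L ≤ N`, `(3 (6 L))^2 = (18 L)^2`, ...): `#EB ≤ #RA1 + #RA2 + #TR + #E2 + #E3`.  Each is at most `n^(1-η)/5 * #TS f v`: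
ra1_card with dis_card (`k = 0`), ra2_card with dis_card (`k = 1`, `v + 2 + 2 = v + 4`), tr_card with ts_ratio, e2_card (`m = N^2/2 ≥ 1`: divide by `m`), e3_card with ts_ratio (`m = K/4 ≥ 1`).  `Fintype.card (Fin (6 n)) = 6 n`, nonempty as `n ≥ 1`.
-/

/-!
[H91 QU FIN]  (MP_bcc40c_pr, Q2, part (U))  The assembly.

PROOF of stB.  `c, C1` from dis_card, `C2` from ts_ratio, `C = max C1 C2`; `num` gives `η, n0` and for each `n, r, N` the numbers `L, u, K, Z`.  dich with `6 * L` for `L` (`6 (6L) = 36 L ≤ N`, `(3 (6 L))^2 = (18 L)^2`, ...): `#EB ≤ #RA1 + #RA2 + #TR + #E2 + #E3`.  Each is at most `n^(1-η)/5 * #TS f v`: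
ra1_card with dis_card (`k = 0`), ra2_card with dis_card (`k = 1`, `v + 2 + 2 = v + 4`), tr_card with ts_ratio, e2_card (`m = N^2/2 ≥ 1`: divide by `m`), e3_card with ts_ratio (`m = K/4 ≥ 1`).  `Fintype.card (Fin (6 n)) = 6 n`, nonempty as `n ≥ 1`.
-/

set_option autoImplicit false

namespace QU91

open Equiv HG39 QD39 QL40

private theorem fin_div {a b m t : ℝ} (hm : 0 < m) (h1 : a * m ≤ b) (h2 : b ≤ m * t) : a ≤ t := by
  have h3 : a * m ≤ t * m := by linarith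
  exact le_of_mul_le_mul_right h3 hm

theorem stB : StB := by
  intro ω1 ω2 B0 ε h1 h2 hB hε hε2
  obtain ⟨c, C1, n1, hc, hC1, hn1, hdis⟩ := dis_card h1 h2
  obtain ⟨C2, n2, hC2, hn2, hrat⟩ := ts_ratio h1
  have hCpos : 0 < max C1 C2 := lt_max_of_lt_left hC1
  obtain ⟨η, hη, n3, hn3, hnum⟩ := num hε hε2 hB hc hCpos
  refine ⟨η, hη, max n1 (max n2 n3), ?_⟩
  intro n v N hn hv1 hv2 hpar hN1 hN2 f hf r hr1 hr2 B
  have e1 : n1 ≤ n := (le_max_left _ _).trans hn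
  have e2 : n2 ≤ n := ((le_max_left _ _).trans (le_max_right _ _)).trans hn
  have e3 : n3 ≤ n := ((le_max_right _ _).trans (le_max_right _ _)).trans hn
  have hn0 : 1 ≤ n := hn1.trans e1
  obtain ⟨L, u, K, Z, hL, hNL, hKL, hN2', hKu, hKZ, a1, a2, a3, a4, a5⟩ :=
    hnum n r N e3 hr2 hN1 hN2
  haveI : Nonempty (Fin (6 * n)) := ⟨⟨0, by omega⟩⟩
  have hKu' : (K + 5) * (3 * (6 * L)) ^ 2 ≤ u := by
    have : 3 * (6 * L) = 18 * L := by ring
    rw [this]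
    exact hKu
  have hd := dich hf (v := v) (r := r) B (N := N) (L := 6 * L) (u := u) (K0 := K) (Zm := Z)
    (by omega) (by omega) (by omega) hKu' hKZ
  have hcard : (Fintype.card (Fin (6 * n)) : ℝ) = 6 * n := by
    rw [Fintype.card_fin]
    push_cast
    ring
  obtain ⟨C, hC⟩ : ∃ C : ℝ, C = max C1 C2 := ⟨_, rfl⟩
  rw [← hC] at a1 a2 a3 a5
  have hCC1 : C1 ≤ C := by rw [hC]; exact le_max_left _ _
  have hCC2 : C2 ≤ C := by rw [hC]; exact le_max_right _ _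
  obtain ⟨T, hT⟩ : ∃ T : ℝ, T = ((TS f v).ncard : ℝ) := ⟨_, rfl⟩
  have hT0 : 0 ≤ T := by rw [hT]; positivity
  obtain ⟨t, ht⟩ : ∃ t : ℝ, t = (n : ℝ) ^ (1 - η) / 5 := ⟨_, rfl⟩
  rw [← ht] at a1 a2 a3 a4 a5
  have hn4 : (0 : ℝ) < (n : ℝ) ^ 4 := by
    have : (0 : ℝ) < n := by exact_mod_cast hn0
    positivity
  have d1 : ((Dis f (v + 2) (6 * L)).ncard : ℝ) ≤ C * n ^ 3 * Real.exp (-c * L) * T := by
    have h3 := hdis n v 0 L e1 hv1 hv2 hpar (by omega) hL f hf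
    rw [← hT] at h3
    simp only [Nat.mul_zero, Nat.add_zero] at h3
    refine h3.trans ?_
    gcongr
  have d2 : ((Dis f (v + 4) (6 * L)).ncard : ℝ) ≤ C * n ^ 3 * Real.exp (-c * L) * T := by
    have h3 := hdis n v 1 L e1 hv1 hv2 hpar (by omega) hL f hf
    rw [← hT] at h3
    simp only [Nat.mul_one] at h3
    refine h3.trans ?_
    gcongr
  have d3 : ((TS f (v + 4)).ncard : ℝ) ≤ C / (n : ℝ) ^ 4 * T := by
    have h3 := hrat n v e2 hv1 f hf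
    rw [← hT] at h3
    refine h3.trans ?_
    gcongr
  have f1 : ((RA1 f v r (6 * L)).ncard : ℝ) ≤ T * t := by
    have h3 : ((RA1 f v r (6 * L)).ncard : ℝ) ≤ (Dis f (v + 2) (6 * L)).ncard *
        (6 * n * (r + 1)) ^ 2 * (6 * n) ^ 2 := by
      have := ra1_card hf v r (6 * L)
      rw [← hcard]
      exact_mod_cast this
    refine h3.trans ?_
    calc ((Dis f (v + 2) (6 * L)).ncard : ℝ) * (6 * n * (r + 1)) ^ 2 * (6 * n) ^ 2
        ≤ (C * n ^ 3 * Real.exp (-c * L) * T) * (6 * n * (r + 1)) ^ 2 * (6 * n) ^ 2 := by gcongr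
      _ = T * (C * (n : ℝ) ^ 3 * Real.exp (-c * L) * (6 * n * (r + 1)) ^ 2 * (6 * n) ^ 2) := by ring
      _ ≤ T * t := mul_le_mul_of_nonneg_left a1 hT0
  have f2 : ((RA2 f v r (6 * L)).ncard : ℝ) ≤ T * t := by
    have h3 : ((RA2 f v r (6 * L)).ncard : ℝ) ≤ (Dis f (v + 4) (6 * L)).ncard *
        (6 * n * (r + 1)) ^ 3 * (6 * n) ^ 4 := by
      have := ra2_card hf v r (6 * L)
      rw [← hcard]
      exact_mod_cast this
    refine h3.trans ?_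
    calc ((Dis f (v + 4) (6 * L)).ncard : ℝ) * (6 * n * (r + 1)) ^ 3 * (6 * n) ^ 4
        ≤ (C * n ^ 3 * Real.exp (-c * L) * T) * (6 * n * (r + 1)) ^ 3 * (6 * n) ^ 4 := by gcongr
      _ = T * (C * (n : ℝ) ^ 3 * Real.exp (-c * L) * (6 * n * (r + 1)) ^ 3 * (6 * n) ^ 4) := by ring
      _ ≤ T * t := mul_le_mul_of_nonneg_left a2 hT0
  have f3 : ((TR f v r B (16 * N)).ncard : ℝ) ≤ T * t := by
    have h3 : ((TR f v r B (16 * N)).ncard : ℝ) ≤ (TS f (v + 4)).ncard *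
        (6 * n * (r + 1)) ^ 3 * (16 * N) ^ 3 := by
      have := tr_card hf v r B (16 * N)
      rw [← hcard]
      exact_mod_cast this
    refine h3.trans ?_
    calc ((TS f (v + 4)).ncard : ℝ) * (6 * n * (r + 1)) ^ 3 * (16 * N) ^ 3
        ≤ (C / (n : ℝ) ^ 4 * T) * (6 * n * (r + 1)) ^ 3 * (16 * N) ^ 3 := by gcongr
      _ = T * (C / (n : ℝ) ^ 4 * (6 * n * (r + 1)) ^ 3 * (16 * N) ^ 3) := by ring
      _ ≤ T * t := mul_le_mul_of_nonneg_left a3 hT0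
  have f4 : ((E2 f v r B (N ^ 2 / 2) u).ncard : ℝ) ≤ T * t := by
    have h3 : ((E2 f v r B (N ^ 2 / 2) u).ncard : ℝ) * ((N ^ 2 / 2 : ℕ) : ℝ) ≤
        u * (T * (6 * n * (r + 1)) ^ 2) := by
      have := e2_card hf v r B (N ^ 2 / 2) u
      rw [← hcard, hT]
      exact_mod_cast this
    have hm : 1 ≤ N ^ 2 / 2 := by
      have : 2 ^ 2 ≤ N ^ 2 := Nat.pow_le_pow_left hN2' 2
      omega
    have hm' : (0 : ℝ) < ((N ^ 2 / 2 : ℕ) : ℝ) := by exact_mod_cast hm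
    refine fin_div hm' h3 ?_
    calc (u : ℝ) * (T * (6 * n * (r + 1)) ^ 2) = T * (u * (6 * n * (r + 1)) ^ 2) := by ring
      _ ≤ T * (((N ^ 2 / 2 : ℕ) : ℝ) * t) := mul_le_mul_of_nonneg_left a4 hT0
      _ = ((N ^ 2 / 2 : ℕ) : ℝ) * (T * t) := by ring
  have f5 : ((E3 f v r B (16 * N) Z (K / 4)).ncard : ℝ) ≤ T * t := by
    have h3 : ((E3 f v r B (16 * N) Z (K / 4)).ncard : ℝ) * ((K / 4 : ℕ) : ℝ) ≤
        (TS f (v + 4)).ncard * (6 * n * (r + 1)) ^ 3 * ((16 * N) ^ 2 * (Z : ℝ) ^ 2) := by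
      have := e3_card hf v r B (16 * N) Z (K / 4)
      rw [← hcard]
      exact_mod_cast this
    have hm : 1 ≤ K / 4 := by omega
    have hm' : (0 : ℝ) < ((K / 4 : ℕ) : ℝ) := by exact_mod_cast hm
    refine fin_div hm' h3 ?_
    calc ((TS f (v + 4)).ncard : ℝ) * (6 * n * (r + 1)) ^ 3 * ((16 * N) ^ 2 * (Z : ℝ) ^ 2)
        ≤ (C / (n : ℝ) ^ 4 * T) * (6 * n * (r + 1)) ^ 3 * ((16 * N) ^ 2 * (Z : ℝ) ^ 2) := by gcongr
      _ = T * (C / (n : ℝ) ^ 4 * (6 * n * (r + 1)) ^ 3 * ((16 * N) ^ 2 * (Z : ℝ) ^ 2)) := by ring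
      _ ≤ T * (((K / 4 : ℕ) : ℝ) * t) := mul_le_mul_of_nonneg_left a5 hT0
      _ = ((K / 4 : ℕ) : ℝ) * (T * t) := by ring
  have g1 : (EB f v r B N).ncard ≤ (RA1 f v r (6 * L)).ncard + (RA2 f v r (6 * L)).ncard +
      (TR f v r B (16 * N)).ncard + (E2 f v r B (N ^ 2 / 2) u).ncard +
      (E3 f v r B (16 * N) Z (K / 4)).ncard := by
    refine (Set.ncard_le_ncard hd (Set.toFinite _)).trans ?_
    refine (Set.ncard_union_le _ _).trans (Nat.add_le_add_right ?_ _)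
    refine (Set.ncard_union_le _ _).trans (Nat.add_le_add_right ?_ _)
    refine (Set.ncard_union_le _ _).trans (Nat.add_le_add_right ?_ _)
    exact Set.ncard_union_le _ _
  have g2 : ((EB f v r B N).ncard : ℝ) ≤ (RA1 f v r (6 * L)).ncard + (RA2 f v r (6 * L)).ncard +
      (TR f v r B (16 * N)).ncard + (E2 f v r B (N ^ 2 / 2) u).ncard +
      (E3 f v r B (16 * N) Z (K / 4)).ncard := by exact_mod_cast g1
  refine g2.trans ?_
  have g3 : (n : ℝ) ^ (1 - η) * ((TS f v).ncard : ℝ) = 5 * (T * t) := by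
    rw [ht, hT]
    ring
  rw [g3]
  linarith

theorem stU : StU := thin stB

end QU91
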