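import Pool.Agent.H91.QU.Defs

/-!
[H91 QU FRA]  (MP_bcc40c_pr, Q2, part (U))  Hits and first return permutations: basic facts.

PROOFS.  `Pth ρ S a b := ∃ k, (ρ^k) a = b ∧ ∀ j < k, S ((ρ^j) a)`.
hit_unique: two hits with k, k': if k < k' then `(g^k) y = e` satisfies `S`, contradiction with `j = k < k'`.
hit_exists: `g.SameCycle y s` gives `m : ℕ` with `(g^m) y = s` (finite order, `Perm.SameCycle.exists_pow_eq'` or `exists_nat_pow_eq`); take the least `m` with `S ((g^m) y)` (Nat.find).
hit_congr: by induction on `j ≤ k`: `Q ((g^j) y)` and `(g'^j) y = (g^j) y`.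
hit_conj: `(c g c⁻¹)^j (c y) = c ((g^j) y)`.
fr_spec: existence of a permutation with `IsFr`: for `S d` choose `F d` with `Hit g S (g d) (F d)` (hit_exists: `g.SameCycle (g d) d`, `S d`), `F d = d` otherwise.  `F` maps `S` to `S`.  It is injective on `S`:
if `(g^k) (g d) = e = (g^k') (g d')` with `k < k'` then `d = (g^(k'-k-1)) (g d')`, and `k'-k-1 < k'`, contradiction to `S d`; if `k = k'` then `d = d'`.  So `F` is injective, hence bijective (finite), `Equiv.ofBijective`.
fr_unique: by hit_unique.
fr_pre: `fr_spec.on` at `(fr g S)⁻¹ d` (it satisfies `S` by fr_mem).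
fr_same: `→`: `d` and `fr g S d` are in the same `g`-cycle (hit_same), induction (`zs_ind` of Pool.Agent.H39.HG.ZSwap).  `←`: `e = (g^m) d`, strong induction on `m`: if `m = 0` done; otherwise let `d1 = fr g S d = (g^(k+1)) d`, where `(g^j) d` does not satisfy
`S` for `0 < j ≤ k`; as `S e`, `k + 1 ≤ m`, and `e = (g^(m-k-1)) d1`.
-/

set_option autoImplicit false

namespace QU91

open Equiv HG39 QD39 QL40

variable {D : Type} [Fintype D] [DecidableEq D]

theorem hit_self {g : Perm D} {S : D → Prop} {y : D} (h : S y) : Hit g S y y := by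
  exact ⟨h, 0, rfl, fun j hj => absurd hj (Nat.not_lt_zero j)⟩

theorem hit_step {g : Perm D} {S : D → Prop} {y e : D} (h : ¬ S y) :
    Hit g S y e ↔ Hit g S (g y) e := by
  constructor
  · rintro ⟨he, k, hk, hj⟩
    obtain _ | k := k
    · exact absurd (by rw [← hk] at he; exact he) h
    · refine ⟨he, k, ?_, fun j hjk => ?_⟩
      · rw [← hk, pow_succ, Perm.mul_apply]
      · have := hj (j + 1) (by omega)
        rwa [pow_succ, Perm.mul_apply] at this
  · rintro ⟨he, k, hk, hj⟩
    refine ⟨he, k + 1, ?_, fun j hjk => ?_⟩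
    · rw [pow_succ, Perm.mul_apply]
      exact hk
    · obtain _ | j := j
      · exact h
      · rw [pow_succ, Perm.mul_apply]
        exact hj j (by omega)

theorem hit_unique {g : Perm D} {S : D → Prop} {y e e' : D} (h : Hit g S y e)
    (h' : Hit g S y e') : e = e' := by
  obtain ⟨he, k, hk, hj⟩ := h
  obtain ⟨he', k', hk', hj'⟩ := h'
  rcases lt_trichotomy k k' with h1 | h1 | h1
  · exact absurd (by rw [hk]; exact he) (hj' k h1)
  · rw [← hk, ← hk', h1]
  · exact absurd (by rw [hk']; exact he') (hj k' h1)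

theorem hit_same {g : Perm D} {S : D → Prop} {y e : D} (h : Hit g S y e) :
    g.SameCycle y e := by
  obtain ⟨_, k, hk, _⟩ := h
  exact ⟨(k : ℤ), by rw [zpow_natCast]; exact hk⟩

theorem hit_exists {g : Perm D} {S : D → Prop} {y s : D} (h : g.SameCycle y s) (hs : S s) :
    ∃ e, Hit g S y e := by
  classical
  obtain ⟨n, _, hn⟩ := h.exists_pow_eq'
  have hex : ∃ m, S ((g ^ m) y) := ⟨n, by rw [hn]; exact hs⟩
  exact ⟨(g ^ Nat.find hex) y, Nat.find_spec hex, Nat.find hex, rfl,
    fun j hj => Nat.find_min hex hj⟩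

theorem hit_congr {g g' : Perm D} {S S' Q : D → Prop} (hQ : ∀ d, Q d → ¬ S d → Q (g d))
    (hg : ∀ d, Q d → ¬ S d → g' d = g d) (hS : ∀ d, Q d → (S' d ↔ S d)) {y e : D} (hy : Q y)
    (h : Hit g S y e) : Hit g' S' y e := by
  obtain ⟨he, k, hk, hj⟩ := h
  have h1 : ∀ j, j ≤ k → Q ((g ^ j) y) ∧ (g' ^ j) y = (g ^ j) y := by
    intro j
    induction j with
    | zero => exact fun _ => ⟨hy, rfl⟩
    | succ j ih =>
      intro hjk
      obtain ⟨i1, i2⟩ := ih (by omega)
      have i3 := hj j (by omega)
      rw [pow_succ', Perm.mul_apply, pow_succ', Perm.mul_apply, i2]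
      exact ⟨hQ _ i1 i3, hg _ i1 i3⟩
  refine ⟨?_, k, ?_, fun j hjk => ?_⟩
  · have := (h1 k le_rfl).1
    rw [hk] at this
    exact (hS e this).2 he
  · rw [(h1 k le_rfl).2, hk]
  · show ¬ S' ((g' ^ j) y)
    rw [(h1 j hjk.le).2, hS _ (h1 j hjk.le).1]
    exact hj j hjk

theorem hit_conj {g : Perm D} {S : D → Prop} (c : Perm D) (hc : ∀ d, S (c d) ↔ S d) {y e : D}
    (h : Hit g S y e) : Hit (c * g * c⁻¹) S (c y) (c e) := by
  obtain ⟨he, k, hk, hj⟩ := h
  have h1 : ∀ j : ℕ, ((c * g * c⁻¹) ^ j) (c y) = c ((g ^ j) y) := by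
    intro j
    induction j with
    | zero => rfl
    | succ j ih =>
      have hc' : c⁻¹ (c ((g ^ j) y)) = (g ^ j) y := Equiv.symm_apply_apply c _
      rw [pow_succ', Perm.mul_apply, ih, pow_succ', Perm.mul_apply, Perm.mul_apply, Perm.mul_apply,
        hc']
  refine ⟨(hc e).2 he, k, ?_, fun j hjk => ?_⟩
  · rw [h1, hk]
  · show ¬ S (((c * g * c⁻¹) ^ j) (c y))
    rw [h1, hc]
    exact hj j hjk

theorem fr_spec (g : Perm D) (S : D → Prop) : IsFr g S (fr g S) := by
  classical
  have hex : ∃ π : Perm D, IsFr g S π := by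
    have h1 : ∀ d, ∃ e, (S d → Hit g S (g d) e) ∧ (¬ S d → e = d) := by
      intro d
      by_cases hd : S d
      · obtain ⟨e, he⟩ := hit_exists (g := g) (S := S) (y := g d) (s := d)
          (Perm.sameCycle_apply_left.2 (Perm.SameCycle.refl g d)) hd
        exact ⟨e, fun _ => he, fun h => absurd hd h⟩
      · exact ⟨d, fun h => absurd h hd, fun _ => rfl⟩
    choose F hF hF' using h1
    have key : ∀ d d', S d → S d' → ∀ k k' : ℕ, k < k' → (g ^ k) (g d) = (g ^ k') (g d') →
        (∀ j < k', ¬ S ((g ^ j) (g d'))) → False := by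
      intro d d' hd hd' k k' hkk h2 h3
      obtain ⟨m, rfl⟩ : ∃ m, k' = k + (m + 1) := ⟨k' - k - 1, by omega⟩
      rw [pow_add, Perm.mul_apply] at h2
      have h4 := (g ^ k).injective h2
      rw [pow_succ', Perm.mul_apply] at h4
      have h5 := g.injective h4
      exact h3 m (by omega) (by rw [← h5]; exact hd)
    have hinj : Function.Injective F := by
      intro d d' hdd
      by_cases hd : S d
      · by_cases hd' : S d'
        · obtain ⟨_, k, hk, hj⟩ := hF d hd
          obtain ⟨_, k', hk', hj'⟩ := hF d' hd'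
          rcases lt_trichotomy k k' with h2 | h2 | h2
          · exact (key d d' hd hd' k k' h2 (by rw [hk, hk', hdd]) hj').elim
          · subst h2
            have h3 : (g ^ k) (g d) = (g ^ k) (g d') := by rw [hk, hk', hdd]
            exact g.injective ((g ^ k).injective h3)
          · exact (key d' d hd' hd k' k h2 (by rw [hk, hk', hdd]) hj).elim
        · have h2 := (hF d hd).1
          rw [hdd, hF' d' hd'] at h2
          exact absurd h2 hd'
      · by_cases hd' : S d'
        · have h2 := (hF d' hd').1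
          rw [← hdd, hF' d hd] at h2
          exact absurd h2 hd
        · rw [← hF' d hd, hdd, hF' d' hd']
    refine ⟨Equiv.ofBijective F (Finite.injective_iff_bijective.1 hinj), ?_, ?_⟩
    · intro d hd
      exact hF' d hd
    · intro d hd
      exact hF d hd
  unfold fr
  rw [dif_pos hex]
  exact hex.choose_spec

theorem fr_unique {g : Perm D} {S : D → Prop} {π : Perm D} (h : IsFr g S π) : fr g S = π := by
  ext d
  by_cases hd : S d
  · exact hit_unique ((fr_spec g S).on d hd) (h.on d hd)
  · rw [(fr_spec g S).out d hd, h.out d hd]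

theorem fr_mem {g : Perm D} {S : D → Prop} {d : D} : S (fr g S d) ↔ S d := by
  by_cases hd : S d
  · exact ⟨fun _ => hd, fun _ => ((fr_spec g S).on d hd).1⟩
  · rw [(fr_spec g S).out d hd]

theorem fr_pre {g : Perm D} {S : D → Prop} {d : D} (hd : S d) :
    Hit g S (g ((fr g S)⁻¹ d)) d := by
  have h1 : fr g S ((fr g S)⁻¹ d) = d := Equiv.apply_symm_apply (fr g S) d
  have h2 : S ((fr g S)⁻¹ d) := by
    refine (fr_mem (g := g) (S := S)).1 ?_
    rw [h1]
    exact hd
  have h3 := (fr_spec g S).on _ h2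
  rwa [h1] at h3

theorem fr_same {g : Perm D} {S : D → Prop} {d e : D} (hd : S d) (he : S e) :
    (fr g S).SameCycle d e ↔ g.SameCycle d e := by
  constructor
  · intro h
    obtain ⟨n, _, hn⟩ := h.exists_pow_eq'
    have h1 : ∀ m : ℕ, S (((fr g S) ^ m) d) ∧ g.SameCycle d (((fr g S) ^ m) d) := by
      intro m
      induction m with
      | zero => exact ⟨hd, Perm.SameCycle.refl g d⟩
      | succ m ih =>
        obtain ⟨i1, i2⟩ := ih
        rw [pow_succ', Perm.mul_apply]
        refine ⟨fr_mem.2 i1, i2.trans ?_⟩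
        have i3 := hit_same ((fr_spec g S).on _ i1)
        exact Perm.sameCycle_apply_left.1 i3
    have h2 := (h1 n).2
    rwa [hn] at h2
  · intro h
    obtain ⟨n, _, hn⟩ := h.exists_pow_eq'
    have h1 : ∀ n : ℕ, ∀ d, S d → (g ^ n) d = e → (fr g S).SameCycle d e := by
      intro n
      induction n using Nat.strong_induction_on with
      | _ n ih =>
        intro d hd hn
        obtain _ | m := n
        · have : d = e := hn
          rw [this]
        · rw [pow_succ, Perm.mul_apply] at hn
          obtain ⟨_, k, hk, hj⟩ := (fr_spec g S).on d hd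
          have hkm : k ≤ m := by
            by_contra hcon
            exact hj m (by omega) (by rw [hn]; exact he)
          have h2 : (g ^ (m - k)) (fr g S d) = e := by
            rw [← hk, ← Perm.mul_apply, ← pow_add, Nat.sub_add_cancel hkm]
            exact hn
          have h3 := ih (m - k) (by omega) (fr g S d) (fr_mem.2 hd) h2
          exact Perm.sameCycle_apply_left.1 h3
    exact h1 n d hd hn

end QU91
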