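import Pool.Agent.H91.QU.Fra

/-!
[H91 QU FRC]  (MP_bcc40c_pr, Q2, part (U))  First return permutation of `swap p q * g`.

PROOFS.  Let `g' = swap p q * g`: `g' y = g y` unless `g y ∈ {p, q}`; if `g y = p` then `g' y = q`; if `g y = q` then `g' y = p`.
(A) If `Hit g S y e` with path `y = y_0, ..., y_k = e` and `y_j ∉ {p, q}` for `1 ≤ j ≤ k`, then `Hit g' S y e`.
(B) In a hitting path the point `p` occurs at most once (if `p_i = p_j`, `i < j ≤ k` then the path is periodic and `p_k = p_(k-(j-i))`, but `S p_k` and not `S` before).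
fr_swap: by fr_unique it is enough that `IsFr g' S (swap p' q' * fr g S)`; `out`: `p', q'` satisfy `S`.  Let the path of `p` to `p'` have `a` steps and the path of `q` to `q'` `b` steps.
Case `p' ≠ q'`: the path of `p` does not contain `q` (otherwise `q` hits `p'`) and conversely; so `Hit g' S p p'`, `Hit g' S q q'` by (A), (B).  Let `S d`, `y_0 = g d, ..., y_k = e = fr g S d` the path.  Let `j` be minimal with `y_j ∈ {p, q}`.
 - no such `j`: `g' d = g d`, `Hit g' S (g d) e` by (A).  `e ≠ p'`: otherwise `p = g^(-a) p'`, `y_j = g^(-(k-j)) p'`: if `a ≤ k` then `p = y_(k-a)`; if `a > k` then `d = g^(-(k+1)) p'` is a point of the path of `p` before its end, so not `S d`.  In the same way `e ≠ q'`. So `swap p' q' e = e`.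
 - `y_j = p`: then `e = p'`, and under `g'`: `d, y_0, ..., y_(j-1), q` and then the path of `q` to `q'` (`Hit g' S q q'`), so `Hit g' S (g' d) q'`, `swap p' q' p' = q'`.
 - `y_j = q`: the same.
Case `p' = q'`: then `swap p' q' = 1`.  If `p = q` trivial.  Otherwise `a ≠ b`, by symmetry (swap_comm) `a > b`, and `q` is on the path of `p` (`q = g^(-b) p'`).  `Hit g' S q p'` by (A) (the path of `q` contains neither `q` again nor `p`, which is further away from `p'`).
 For `S d`: if the path of `d` contains neither `p` nor `q`: as before.  Otherwise `e = p'` and (as above) `a ≤ k`, so `p` comes first, and then under `g'` we jump to `q` and arrive at `p'`.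
fr_swap_none: the `g`-cycle of `p` does not meet `S` (hit_exists).  If the cycle of `q` does not meet `S` either, the paths starting in `S` never meet `p, q`.  Otherwise `q` hits `q'`, `Hit g' S q q'` by (A) (`p` is in another cycle), and from `p` the `g'`-path runs through the
`g`-cycle of `p` and from `g⁻¹ p` jumps to `q`: so `Hit g' S p q'`.  For `S d` with the path of `d` containing `q` (so `fr g S d = q'`): under `g'` it jumps to `p` and arrives at `q'`.  All other `d`: unchanged.
-/

set_option autoImplicit false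

namespace QU91

open Equiv HG39 QD39 QL40

variable {D : Type} [Fintype D] [DecidableEq D]

private theorem frc_swap_self (p : D) : swap p p = (1 : Perm D) := swap_self p

private theorem frc_pow_succ (g : Perm D) (n : ℕ) (y : D) : (g ^ (n + 1)) y = (g ^ n) (g y) := by
  rw [pow_succ, Perm.mul_apply]

private theorem frc_add (g : Perm D) (m n : ℕ) (y : D) : (g ^ m) ((g ^ n) y) = (g ^ (m + n)) y := by
  rw [pow_add, Perm.mul_apply]

/-- (A): hits not passing through `p` and `q` -/
theorem hit_avoid {g : Perm D} {S : D → Prop} {p q y e : D} {k : ℕ} (he : S e)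
    (hk : (g ^ k) y = e) (hS : ∀ j < k, ¬ S ((g ^ j) y))
    (h : ∀ j, 1 ≤ j → j ≤ k → (g ^ j) y ≠ p ∧ (g ^ j) y ≠ q) :
    Hit (swap p q * g) S y e := by
  induction k generalizing y with
  | zero =>
    have h1 : y = e := by simpa using hk
    rw [← h1] at he ⊢
    exact hit_self he
  | succ k ih =>
    have h0 : ¬ S y := by simpa using hS 0 (Nat.succ_pos k)
    rw [hit_step h0]
    have h1 := h 1 le_rfl (by omega)
    rw [pow_one] at h1
    have h2 : (swap p q * g) y = g y := by
      rw [Perm.mul_apply, swap_apply_of_ne_of_ne h1.1 h1.2]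
    rw [h2]
    refine ih ?_ (fun j hj => ?_) (fun j hj hj' => ?_)
    · rw [← frc_pow_succ]
      exact hk
    · rw [← frc_pow_succ]
      exact hS (j + 1) (by omega)
    · rw [← frc_pow_succ]
      exact h (j + 1) (by omega) (by omega)

private theorem frc_jump {g : Perm D} {S : D → Prop} {p q x : D} (hx : Hit (swap p q * g) S q x)
    (j : ℕ) : ∀ y : D, (∀ i < j + 1, ¬ S ((g ^ i) y)) →
    (∀ i, 1 ≤ i → i < j + 1 → (g ^ i) y ≠ p ∧ (g ^ i) y ≠ q) → (g ^ (j + 1)) y = p →
    Hit (swap p q * g) S y x := by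
  induction j with
  | zero =>
    intro y h0 _ hp
    have h1 : ¬ S y := by simpa using h0 0 (Nat.succ_pos 0)
    rw [hit_step h1]
    have h2 : (swap p q * g) y = q := by
      rw [Perm.mul_apply]
      rw [zero_add, pow_one] at hp
      rw [hp, swap_apply_left]
    rwa [h2]
  | succ j ih =>
    intro y h0 h1 hp
    have h2 : ¬ S y := by simpa using h0 0 (Nat.succ_pos _)
    rw [hit_step h2]
    have h3 := h1 1 le_rfl (by omega)
    rw [pow_one] at h3
    have h4 : (swap p q * g) y = g y := by
      rw [Perm.mul_apply, swap_apply_of_ne_of_ne h3.1 h3.2]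
    rw [h4]
    refine ih (g y) (fun i hi => ?_) (fun i hi hi' => ?_) ?_
    · rw [← frc_pow_succ]
      exact h0 (i + 1) (by omega)
    · rw [← frc_pow_succ]
      exact h1 (i + 1) (by omega) (by omega)
    · rw [← frc_pow_succ]
      exact hp

private theorem frc_start {g : Perm D} {S : D → Prop} {p q x d : D}
    (hx : Hit (swap p q * g) S q x) (j : ℕ) (h0 : ∀ i < j, ¬ S ((g ^ i) (g d)))
    (h1 : ∀ i < j, (g ^ i) (g d) ≠ p ∧ (g ^ i) (g d) ≠ q) (hp : (g ^ j) (g d) = p) :
    Hit (swap p q * g) S ((swap p q * g) d) x := by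
  rcases Nat.eq_zero_or_pos j with hj | hj
  · subst hj
    have h2 : g d = p := by simpa using hp
    rw [Perm.mul_apply, h2, swap_apply_left]
    exact hx
  · obtain ⟨j, rfl⟩ : ∃ m, j = m + 1 := ⟨j - 1, by omega⟩
    have h3 := h1 0 (by omega)
    rw [pow_zero, Perm.one_apply] at h3
    rw [Perm.mul_apply, swap_apply_of_ne_of_ne h3.1 h3.2]
    exact frc_jump hx j (g d) h0 (fun i _ hi => h1 i hi) hp

private theorem frc_none {g : Perm D} {S : D → Prop} {p q d e : D} {k : ℕ} (he : S e)
    (hk : (g ^ k) (g d) = e) (hS : ∀ j < k, ¬ S ((g ^ j) (g d)))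
    (h : ∀ j ≤ k, (g ^ j) (g d) ≠ p ∧ (g ^ j) (g d) ≠ q) :
    Hit (swap p q * g) S ((swap p q * g) d) e := by
  have h3 := h 0 (by omega)
  rw [pow_zero, Perm.one_apply] at h3
  rw [Perm.mul_apply, swap_apply_of_ne_of_ne h3.1 h3.2]
  exact hit_avoid he hk hS fun j _ hj => h j hj

/-- a point on a hitting path hits the same end -/
private theorem frc_mid {g : Perm D} {S : D → Prop} {y e p : D} {k j : ℕ} (he : S e)
    (hk : (g ^ k) y = e) (hS : ∀ j < k, ¬ S ((g ^ j) y)) (hj : j ≤ k) (hp : (g ^ j) y = p) :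
    Hit g S p e := by
  refine ⟨he, k - j, ?_, fun i hi => ?_⟩
  · rw [← hp, frc_add, Nat.sub_add_cancel hj]
    exact hk
  · rw [← hp, frc_add]
    exact hS _ (by omega)

/-- (B) a hitting path is injective -/
private theorem frc_inj {g : Perm D} {S : D → Prop} {y e : D} {k i j : ℕ} (he : S e)
    (hk : (g ^ k) y = e) (hS : ∀ j < k, ¬ S ((g ^ j) y)) (hij : i < j) (hj : j ≤ k) :
    (g ^ i) y ≠ (g ^ j) y := by
  intro h
  have h1 : (g ^ (k - j)) ((g ^ i) y) = (g ^ (k - j)) ((g ^ j) y) := by rw [h]
  rw [frc_add, frc_add, Nat.sub_add_cancel hj, hk] at h1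
  have h2 := hS (k - j + i) (by omega)
  rw [h1] at h2
  exact h2 he

/-- two paths to the same end -/
private theorem frc_back {g : Perm D} {y p e : D} {k a : ℕ} (hk : (g ^ k) y = e)
    (ha : (g ^ a) p = e) (h : a ≤ k) : (g ^ (k - a)) y = p := by
  apply (g ^ a).injective
  rw [frc_add, ha, Nat.add_sub_cancel' h, hk]

private theorem frc_len {g : Perm D} {S : D → Prop} {d p e : D} {k a : ℕ} (hd : S d)
    (hk : (g ^ k) (g d) = e) (ha : (g ^ a) p = e) (hS : ∀ j < a, ¬ S ((g ^ j) p)) : a ≤ k := by
  by_contra hlt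
  push Not at hlt
  have h1 : (g ^ (a - (k + 1))) p = d := by
    apply (g ^ (k + 1)).injective
    rw [frc_add, Nat.add_sub_cancel' (by omega), ha, frc_pow_succ, hk]
  have h2 := hS (a - (k + 1)) (by omega)
  rw [h1] at h2
  exact h2 hd

/-- the case of the path running through `p` first -/
private theorem frc_case {g : Perm D} {S : D → Prop} {p q p' d x : D} {k : ℕ} (hd : S d)
    (he : S p') (hk : (g ^ k) (g d) = p') (hS : ∀ j < k, ¬ S ((g ^ j) (g d)))
    (h1 : Hit g S p p')
    (hq : ∀ i, i ≤ k → (g ^ i) (g d) = q → ∃ j < i, (g ^ j) (g d) = p)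
    (hx : Hit (swap p q * g) S q x) :
    Hit (swap p q * g) S ((swap p q * g) d) x := by
  obtain ⟨_, a, ha, haS⟩ := h1
  have hak : a ≤ k := frc_len hd hk ha haS
  have hp := frc_back hk ha hak
  refine frc_start hx (k - a) (fun i hi => hS i (by omega)) (fun i hi => ⟨?_, ?_⟩) hp
  · intro h
    exact frc_inj he hk hS hi (by omega) (h.trans hp.symm)
  · intro h
    obtain ⟨j, hj, hjp⟩ := hq i (by omega) h
    exact frc_inj he hk hS (show j < k - a by omega) (by omega) (hjp.trans hp.symm)

private theorem frc_ne {g : Perm D} {S : D → Prop} {p q p' q' : D} (h1 : Hit g S p p')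
    (h2 : Hit g S q q') (hne : p' ≠ q') :
    fr (swap p q * g) S = swap p' q' * fr g S := by
  have key : ∀ {p q p' q' : D}, Hit g S p p' → Hit g S q q' → p' ≠ q' →
      Hit (swap p q * g) S q q' := by
    intro p q p' q' h1 h2 hne
    obtain ⟨hq', b, hb, hbS⟩ := h2
    refine hit_avoid hq' hb hbS fun j hj hjb => ⟨fun h => ?_, fun h => ?_⟩
    · exact hne (hit_unique h1 (frc_mid hq' hb hbS hjb h))
    · exact frc_inj hq' hb hbS (show 0 < j by omega) hjb (by rw [pow_zero, Perm.one_apply, h])
  have K1 := key h1 h2 hne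
  have K2 := key h2 h1 hne.symm
  rw [swap_comm] at K2
  refine fr_unique ⟨fun d hd => ?_, fun d hd => ?_⟩
  · rw [Perm.mul_apply, (fr_spec g S).out d hd]
    refine swap_apply_of_ne_of_ne (fun h => hd (h ▸ h1.1)) (fun h => hd (h ▸ h2.1))
  · have h3 := (fr_spec g S).on d hd
    obtain ⟨he, k, hk, hkS⟩ := h3
    show Hit (swap p q * g) S ((swap p q * g) d) (swap p' q' (fr g S d))
    by_cases e1 : fr g S d = p'
    · rw [e1, swap_apply_left]
      rw [e1] at he hk
      refine frc_case hd he hk hkS h1 (fun i hi h => ?_) K1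
      exact absurd (hit_unique (frc_mid he hk hkS hi h) h2) hne
    · by_cases e2 : fr g S d = q'
      · rw [e2, swap_apply_right]
        rw [e2] at he hk
        rw [swap_comm p q]
        rw [swap_comm p q] at K2
        refine frc_case hd he hk hkS h2 (fun i hi h => ?_) K2
        exact absurd (hit_unique h1 (frc_mid he hk hkS hi h)) hne
      · rw [swap_apply_of_ne_of_ne e1 e2]
        refine frc_none he hk hkS fun j hj => ⟨fun h => ?_, fun h => ?_⟩
        · exact e1 (hit_unique (frc_mid he hk hkS hj h) h1)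
        · exact e2 (hit_unique (frc_mid he hk hkS hj h) h2)

private theorem frc_eq {g : Perm D} {S : D → Prop} {p q p' : D} {a b : ℕ} (hp' : S p')
    (ha : (g ^ a) p = p') (haS : ∀ j < a, ¬ S ((g ^ j) p)) (hb : (g ^ b) q = p')
    (hbS : ∀ j < b, ¬ S ((g ^ j) q)) (hab : b < a) :
    fr (swap p q * g) S = fr g S := by
  have h1 : Hit g S p p' := ⟨hp', a, ha, haS⟩
  have h2 : Hit g S q p' := ⟨hp', b, hb, hbS⟩
  have K : Hit (swap p q * g) S q p' := by
    refine hit_avoid hp' hb hbS fun j hj hjb => ⟨fun h => ?_, fun h => ?_⟩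
    · have h3 : (g ^ (b - j)) p = p' := by
        rw [← h, frc_add, Nat.sub_add_cancel hjb]
        exact hb
      have h4 := haS (b - j) (by omega)
      rw [h3] at h4
      exact h4 hp'
    · exact frc_inj hp' hb hbS (show 0 < j by omega) hjb (by rw [pow_zero, Perm.one_apply, h])
  refine fr_unique ⟨fun d hd => (fr_spec g S).out d hd, fun d hd => ?_⟩
  obtain ⟨he, k, hk, hkS⟩ := (fr_spec g S).on d hd
  by_cases e1 : fr g S d = p'
  · rw [e1]
    rw [e1] at he hk
    have hak : a ≤ k := frc_len hd hk ha haS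
    have hp := frc_back hk ha hak
    refine frc_case hd he hk hkS h1 (fun i hi h => ?_) K
    refine ⟨k - a, ?_, hp⟩
    by_contra hlt
    push Not at hlt
    -- `q` at place `i ≤ k - a`, but it is at place `k - b`
    have hq := frc_back hk hb (by omega : b ≤ k)
    rcases Nat.lt_or_ge i (k - b) with h5 | h5
    · exact frc_inj he hk hkS h5 (by omega) (h.trans hq.symm)
    · omega
  · refine frc_none he hk hkS fun j hj => ⟨fun h => ?_, fun h => ?_⟩
    · exact e1 (hit_unique (frc_mid he hk hkS hj h) h1)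
    · exact e1 (hit_unique (frc_mid he hk hkS hj h) h2)

theorem fr_swap {g : Perm D} {S : D → Prop} {p q p' q' : D} (h1 : Hit g S p p')
    (h2 : Hit g S q q') : fr (swap p q * g) S = swap p' q' * fr g S := by
  by_cases hne : p' = q'
  · subst hne
    rw [frc_swap_self, one_mul]
    obtain ⟨hp', a, ha, haS⟩ := h1
    obtain ⟨_, b, hb, hbS⟩ := h2
    rcases Nat.lt_trichotomy a b with h | h | h
    · rw [swap_comm]
      exact frc_eq hp' hb hbS ha haS h
    · subst h
      have : p = q := (g ^ a).injective (ha.trans hb.symm)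
      subst this
      rw [frc_swap_self, one_mul]
    · exact frc_eq hp' ha haS hb hbS h
  · exact frc_ne h1 h2 hne

theorem fr_swap_none {g : Perm D} {S : D → Prop} {p q : D} (h : ∀ e, ¬ Hit g S p e) :
    fr (swap p q * g) S = fr g S := by
  refine fr_unique ⟨fun d hd => (fr_spec g S).out d hd, fun d hd => ?_⟩
  obtain ⟨he, k, hk, hkS⟩ := (fr_spec g S).on d hd
  have hpn : ∀ j ≤ k, (g ^ j) (g d) ≠ p := fun j hj h1 => h _ (frc_mid he hk hkS hj h1)
  by_cases hq : ∃ j ≤ k, (g ^ j) (g d) = q
  · obtain ⟨j, hj, hjq⟩ := hq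
    have hqe : Hit g S q (fr g S d) := frc_mid he hk hkS hj hjq
    have hcyc : ∀ m : ℕ, ¬ S ((g ^ m) p) := by
      intro m hm
      obtain ⟨e, h1⟩ := hit_exists (g := g) (S := S) (y := p) (s := (g ^ m) p)
        ⟨m, by rw [zpow_natCast]⟩ hm
      exact h e h1
    have hpq : ¬ g.SameCycle p q := by
      intro h1
      obtain ⟨e, h3⟩ := hit_exists (h1.trans (hit_same hqe)) he
      exact h e h3
    -- from `q`
    have K : Hit (swap p q * g) S q (fr g S d) := by
      obtain ⟨_, b, hb, hbS⟩ := hqe
      refine hit_avoid he hb hbS fun i hi hib => ⟨fun h3 => ?_, fun h3 => ?_⟩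
      · exact hpq (Perm.SameCycle.symm ⟨i, by rw [zpow_natCast]; exact h3⟩)
      · exact frc_inj he hb hbS (show 0 < i by omega) hib (by rw [pow_zero, Perm.one_apply, h3])
    -- from `p`
    have K2 : Hit (swap p q * g) S p (fr g S d) := by
      have hex : ∃ m : ℕ, (g ^ (m + 1)) p = p := by
        refine ⟨orderOf g - 1, ?_⟩
        rw [Nat.sub_add_cancel (orderOf_pos g), pow_orderOf_eq_one, Perm.one_apply]
      classical
      refine frc_jump K (Nat.find hex) p (fun i _ => hcyc i) (fun i hi hi' => ⟨?_, ?_⟩)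
        (Nat.find_spec hex)
      · intro h3
        obtain ⟨i, rfl⟩ : ∃ m, i = m + 1 := ⟨i - 1, by omega⟩
        exact Nat.find_min hex (m := i) (by omega) h3
      · intro h3
        exact hpq ⟨i, by rw [zpow_natCast]; exact h3⟩
    rw [swap_comm p q] at K2 ⊢
    refine frc_start K2 j (fun i hi => hkS i (by omega)) (fun i hi => ⟨?_, hpn i (by omega)⟩) hjq
    intro h3
    exact frc_inj he hk hkS hi hj (h3.trans hjq.symm)
  · refine frc_none he hk hkS fun j hj => ⟨hpn j hj, fun h3 => hq ⟨j, hj, h3⟩⟩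

end QU91
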