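import Pool.Agent.H91.QU.Dnr

/-!
[H91 QU ONE]  (MP_bcc40c_pr, Q2, part (U))  Contour order: cycles and roots.

PROOFS.  `tau f α ℓ r = fr W T`, `W = Wr f α ℓ r`, `T = Tip f ℓ r`.
tau_tip: the cycle of a point of `T` stays in `T` (fr_mem, zs_ind).
tau_out: fr_spec.out.
tau_wr: fr_same.
tau_one: let `Dn s e`, `Dn t e'` (dn_exists).  `P e`, `P e'` by dn_clo (`ℓ s = r`), levels `≤ r` by dn_lev, roots by dn_root; so `(f * α).SameCycle e e'` by `hr`, wr_same, fr_same.
tau_clo: if `s` is a tip: tau_wr and wr_clo.  Otherwise `t = s` (`tau` fixes `s`).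
tau_end: let `Dn (α (a (k-1))) e`, `Dn (α (b (k-1))) e'`.  Then `Dn (a 0) e`, `Dn (b 0) e'` (backward induction along the paths: `Fst f α ℓ (a i) (a i)` (hit_self) so `Dn (a i) e ↔ Dn (α (a i)) e`, and `Fst (α (a i)) (a (i+1))`).  So `(tau).SameCycle (a 0) (b 0) ↔ (f * α).SameCycle e e'` (tau_wr, wr_same).  Let `A = α (a (k-1))`,
`B = α (b (k-1))`, `ℓ A = ℓ B` (wp_lev).  If `A ~ B` (same vertex): if the vertex is a root: `Dn A A`, `Dn B A`, so `e ~ A ~ e'` (dn_unique).  Otherwise both have a `Fst`, equal by `en`, so `Dn B e` and `e ~ e'`.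
If `e ~ e'` : if neither `A` nor `B` is in a root vertex: both have `Fst`, equal by `en`, so `A ~ δ ~ B` (fst_same).  If `A` is in a root vertex: `e ~ A`, so `ℓ e' = ℓ e = ℓ A = ℓ B` (lb_same); if `B` were not in a root vertex, then `Fst B δ`, `ℓ e' ≤ ℓ (α δ) = ℓ B - 1`, contradiction.  So `B` is in a root vertex,
`e' ~ B`, `A ~ B`.  The case of `B` is symmetric.
-/

set_option autoImplicit false

namespace QU91

open Equiv HG39 QD39 QL40

variable {D : Type} [Fintype D] [DecidableEq D]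

variable {f α : Perm D} {ℓ : D → ℤ} {r : ℤ}

theorem tau_tip {s t : D} (hs : Tip f ℓ r s) (h : (tau f α ℓ r).SameCycle s t) :
    Tip f ℓ r t := by
  obtain ⟨n, _, hn⟩ := h.exists_pow_eq'
  have h1 : ∀ m : ℕ, Tip f ℓ r (((tau f α ℓ r) ^ m) s) := by
    intro m
    induction m with
    | zero => exact hs
    | succ m ih =>
      rw [pow_succ', Perm.mul_apply]
      exact (fr_mem (g := Wr f α ℓ r) (S := Tip f ℓ r)).2 ih
  have h2 := h1 n
  rwa [hn] at h2

theorem tau_out {d : D} (hd : ¬ Tip f ℓ r d) : tau f α ℓ r d = d :=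
  (fr_spec (Wr f α ℓ r) (Tip f ℓ r)).out d hd

theorem tau_wr {s t : D} (hs : Tip f ℓ r s) (ht : Tip f ℓ r t) :
    (tau f α ℓ r).SameCycle s t ↔ (Wr f α ℓ r).SameCycle s t :=
  fr_same hs ht

theorem tau_one (hf : TF f) (hl : Lb f α ℓ) (nn : ∀ d, 0 ≤ ℓ d) {P : D → Prop}
    (hP : Cl f α ℓ r P)
    (hr : ∀ e e', P e → P e' → Root f α ℓ e → Root f α ℓ e' → ℓ e ≤ r → ℓ e' ≤ r →
      (f * α).SameCycle e e')
    {s t : D} (hs : Tip f ℓ r s) (ht : Tip f ℓ r t) (h1 : P s) (h2 : P t) :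
    (tau f α ℓ r).SameCycle s t := by
  obtain ⟨e, he⟩ := dn_exists hl nn s
  obtain ⟨e', he'⟩ := dn_exists hl nn t
  have hsr : ℓ s ≤ r := hs.2.le
  have htr : ℓ t ≤ r := ht.2.le
  rw [tau_wr hs ht, wr_same hl hsr htr he he']
  exact hr e e' ((dn_clo hf hl hP hsr he).1 h1) ((dn_clo hf hl hP htr he').1 h2) (dn_root he)
    (dn_root he') ((dn_lev hl he).trans hsr) ((dn_lev hl he').trans htr)

theorem tau_clo (hf : TF f) (hl : Lb f α ℓ) {P : D → Prop} (hP : Cl f α ℓ r P) {s t : D}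
    (h : (tau f α ℓ r).SameCycle s t) : P s ↔ P t := by
  by_cases hs : Tip f ℓ r s
  · have ht := tau_tip hs h
    exact wr_clo hf hl hP hs.2.le ((tau_wr hs ht).1 h)
  · have h1 : s = t := h.eq_of_left (tau_out hs)
    rw [h1]

/-- leading to a root: either at the root, or a step down -/
theorem one_cases (hl : Lb f α ℓ) {X e : D} (h : Dn f α ℓ X e) :
    (Root f α ℓ X ∧ (f * α).SameCycle X e) ∨
      (∃ δ, Fst f α ℓ X δ ∧ Dn f α ℓ (α δ) e ∧ ℓ e < ℓ X) := by
  cases h with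
  | base _ _ h hs => exact Or.inl ⟨fun d hd => h d (hs.symm.trans hd), hs⟩
  | step _ δ _ h hd =>
    refine Or.inr ⟨δ, h, hd, ?_⟩
    have h1 := dn_lev hl hd
    have h2 : ℓ (f δ) = ℓ δ - 1 := h.1
    rw [← hl.ver, h2, fst_lev hl h] at h1
    omega

/-- the last steps of a descending path lead to the same root as the first one -/
theorem one_path {k : ℕ} {a : ℕ → D} (hk : 1 ≤ k) (hd : Desc f ℓ (a 0))
    (hn : ∀ i, i + 1 < k → Fst f α ℓ (α (a i)) (a (i + 1))) {e : D}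
    (h : Dn f α ℓ (α (a (k - 1))) e) : Dn f α ℓ (a 0) e := by
  have h1 : ∀ j, j < k → Dn f α ℓ (α (a (k - 1 - j))) e := by
    intro j
    induction j with
    | zero => exact fun _ => h
    | succ j ih =>
      intro hj
      have h2 := ih (by omega)
      have h3 : k - 1 - j = (k - 1 - (j + 1)) + 1 := by omega
      have h4 := hn (k - 1 - (j + 1)) (by omega)
      rw [← h3] at h4
      exact Dn.step _ _ _ h4 h2
  have h2 := h1 (k - 1) (by omega)
  rw [Nat.sub_self] at h2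
  exact Dn.step _ (a 0) _ (hit_self hd) h2

theorem tau_end (hl : Lb f α ℓ) (nn : ∀ d, 0 ≤ ℓ d) {k : ℕ} {a b : ℕ → D}
    (h : Wp f α ℓ k a b) (hr : ℓ (a 0) = r) :
    (tau f α ℓ r).SameCycle (a 0) (b 0) ↔
      (f * α).SameCycle (α (a (k - 1))) (α (b (k - 1))) := by
  have hk := h.kp
  obtain ⟨e, he⟩ := dn_exists hl nn (α (a (k - 1)))
  obtain ⟨e', he'⟩ := dn_exists hl nn (α (b (k - 1)))
  have hea := one_path hk (h.da 0 (by omega)) h.na he
  have heb := one_path hk (h.db 0 (by omega)) h.nb he'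
  have hta : Tip f ℓ r (a 0) := ⟨h.da 0 (by omega), hr⟩
  have htb : Tip f ℓ r (b 0) := ⟨h.db 0 (by omega), h.st.trans hr⟩
  rw [tau_wr hta htb, wr_same hl hta.2.le htb.2.le hea heb]
  obtain ⟨-, -, l1, l2⟩ := wp_lev hl h (k - 1) (by omega)
  have hAB : ℓ (α (a (k - 1))) = ℓ (α (b (k - 1))) := l1.trans l2.symm
  constructor
  · intro hee
    have hlev : ℓ e = ℓ e' := lb_same hl hee
    rcases one_cases hl he with ⟨_, hAe⟩ | ⟨δ, hδ, _, h1⟩
    · rcases one_cases hl he' with ⟨_, hBe⟩ | ⟨δ', hδ', _, h2⟩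
      · exact (hAe.trans hee).trans hBe.symm
      · have h3 := lb_same hl hAe
        omega
    · rcases one_cases hl he' with ⟨_, hBe⟩ | ⟨δ', hδ', _, h2⟩
      · have h3 := lb_same hl hBe
        omega
      · have h3 := h.en δ δ' hδ hδ'
        subst h3
        exact (fst_same hl.inv hδ).trans (fst_same hl.inv hδ').symm
  · intro hv
    rcases one_cases hl he with ⟨hRA, hAe⟩ | ⟨δ, hδ, hd, _⟩
    · rcases one_cases hl he' with ⟨_, hBe⟩ | ⟨δ', hδ', _, _⟩
      · exact (hAe.symm.trans hv).trans hBe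
      · exact absurd hδ'.1 (hRA δ' (hv.trans (fst_same hl.inv hδ')))
    · rcases one_cases hl he' with ⟨hRB, _⟩ | ⟨δ', hδ', hd', _⟩
      · exact absurd hδ.1 (hRB δ (hv.symm.trans (fst_same hl.inv hδ)))
      · have h3 := h.en δ δ' hδ hδ'
        subst h3
        exact dn_unique hl hd hd'

end QU91
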