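import Pool.Agent.H91.QU.Defs

/-!
[H91 QU POS]  (MP_bcc40c_pr, Q2, part (U))  Positions on a cycle and the cells after multiplication by transpositions.

PROOFS.  `pos τ o d` = least `m` with `(τ^m) o = d`.  Let `c` be the least positive integer with `(τ^c) o = o`; for `d` in the cycle of `o`: `pos < c`, and `(τ^i) o`, `i < c`, are different.
cell1: let `P = pos p < Q = pos q`, `π = τ * swap p q`, `x_i = (τ^i) o`.  `π x_i = x_(i+1)` for `i ∉ {P, Q}`, `π x_P = x_(Q+1)`, `π x_Q = x_(P+1)` (`x_c = x_0`).  So the set of the `x_i` with `P < i ≤ Q` is closed under `π` and also its complement in the cycle: different cells are not in the same cycle (zs_ind of ZSwap).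
Conversely in the cell `(P, Q]`: `x_(i+1) = π x_i` for `P < i < Q`: all in one cycle.  In the other cell: `x_0, ..., x_P` are in one cycle, `x_(Q+1), ..., x_(c-1), x_c = x_0` too, and `π x_P = x_(Q+1)`.
cell2: let `S < S' < T' ≤ T` be the positions of `s, s', t', t`, `π = τ * swap s t * swap s' t'`.  `π x_i = x_(i+1)` except: `π x_S = x_(T+1)`; `π x_(S') = x_(T'+1)` if `T' < T` and `= x_(S+1)` if `T' = T`; `π x_(T') = x_(S'+1)`; `π x_T = x_(S+1)` if `T' < T`.
So the three cells: `(S', T']`; `(S, S'] ∪ (T', T]`; the rest.  Closed under `π`, and each is one cycle, as above.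
-/

set_option autoImplicit false

namespace QU91

open Equiv HG39 QD39 QL40

variable {D : Type} [Fintype D] [DecidableEq D]

/-- position of `d` on the cycle of `o` -/
noncomputable def pos (τ : Perm D) (o d : D) : ℕ := sInf {m | (τ ^ m) o = d}

theorem pos_spec {τ : Perm D} {o d : D} (h : τ.SameCycle o d) : (τ ^ pos τ o d) o = d := by
  obtain ⟨n, _, hn⟩ := h.exists_pow_eq'
  have h1 : pos τ o d ∈ {m | (τ ^ m) o = d} := Nat.sInf_mem ⟨n, hn⟩
  exact h1

theorem pos_self {τ : Perm D} {o : D} : pos τ o o = 0 := by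
  have h1 : (0 : ℕ) ∈ {m | (τ ^ m) o = o} := rfl
  exact Nat.le_zero.1 (Nat.sInf_le h1)

theorem pos_inj {τ : Perm D} {o d e : D} (hd : τ.SameCycle o d) (he : τ.SameCycle o e)
    (h : pos τ o d = pos τ o e) : d = e := by
  rw [← pos_spec hd, h, pos_spec he]

theorem pos_period (τ : Perm D) (o : D) : ∃ c, 0 < c ∧ (τ ^ c) o = o ∧
    (∀ i j, i < c → j < c → (τ ^ i) o = (τ ^ j) o → i = j) ∧
    ∀ d, τ.SameCycle o d → pos τ o d < c := by
  classical
  have hex : ∃ c, 0 < c ∧ (τ ^ c) o = o :=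
    ⟨orderOf τ, orderOf_pos τ, by rw [pow_orderOf_eq_one]; rfl⟩
  have hmin : ∀ m < Nat.find hex, ¬ (0 < m ∧ (τ ^ m) o = o) := fun m hm => Nat.find_min hex hm
  obtain ⟨h0, h1⟩ := Nat.find_spec hex
  refine ⟨Nat.find hex, h0, h1, ?_, ?_⟩
  · have key : ∀ i j, i < j → j < Nat.find hex → (τ ^ i) o ≠ (τ ^ j) o := by
      intro i j hij hj h
      have h2 : (τ ^ i) ((τ ^ (j - i)) o) = (τ ^ i) o := by
        rw [← Perm.mul_apply, ← pow_add, Nat.add_sub_cancel' hij.le]
        exact h.symm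
      exact hmin (j - i) (by omega) ⟨by omega, (τ ^ i).injective h2⟩
    intro i j hi hj h
    rcases lt_trichotomy i j with h2 | h2 | h2
    · exact absurd h (key i j h2 hj)
    · exact h2
    · exact absurd h.symm (key j i h2 hi)
  · intro d hd
    by_contra hcon
    push Not at hcon
    have h2 := pos_spec hd
    have h3 : (τ ^ (pos τ o d - Nat.find hex)) o = d := by
      have h4 : (τ ^ (pos τ o d - Nat.find hex)) ((τ ^ Nat.find hex) o) = d := by
        rw [← Perm.mul_apply, ← pow_add, Nat.sub_add_cancel hcon]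
        exact h2
      rwa [h1] at h4
    have h5 : pos τ o d ≤ pos τ o d - Nat.find hex := Nat.sInf_le h3
    omega

theorem pos_chain {π : Perm D} {x : ℕ → D} {a b : ℕ}
    (h : ∀ i, a ≤ i → i < b → π (x i) = x (i + 1)) (i : ℕ) (ha : a ≤ i) (hb : i ≤ b) :
    π.SameCycle (x i) (x b) := by
  have key : ∀ m, a ≤ b - m → π.SameCycle (x (b - m)) (x b) := by
    intro m
    induction m with
    | zero => exact fun _ => Perm.SameCycle.refl π (x b)
    | succ m ih =>
      intro hm
      by_cases hmb : b ≤ m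
      · have h1 : b - (m + 1) = b - m := by omega
        rw [h1]
        exact ih (by omega)
      · have h1 : b - m = b - (m + 1) + 1 := by omega
        have h2 := ih (by omega)
        have h3 := h (b - (m + 1)) hm (by omega)
        rw [← h1] at h3
        rw [← h3] at h2
        exact Perm.sameCycle_apply_left.1 h2
  have h1 := key (b - i) (by omega)
  rwa [Nat.sub_sub_self hb] at h1

theorem pos_closed {π : Perm D} {x : ℕ → D} {c : ℕ} {R : ℕ → ℕ → Prop} (hr : ∀ i, R i i)
    (ht : ∀ i j k, R i j → R j k → R i k) (h : ∀ i < c, ∃ j < c, π (x i) = x j ∧ R i j)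
    {i : ℕ} (hi : i < c) (n : ℕ) : ∃ j < c, (π ^ n) (x i) = x j ∧ R i j := by
  induction n with
  | zero => exact ⟨i, hi, rfl, hr i⟩
  | succ n ih =>
    obtain ⟨j, hj, h1, h2⟩ := ih
    obtain ⟨k, hk, h3, h4⟩ := h j hj
    refine ⟨k, hk, ?_, ht _ _ _ h2 h4⟩
    rw [pow_succ', Perm.mul_apply, h1, h3]

theorem pos_same {π : Perm D} {x : ℕ → D} {c : ℕ} {R : ℕ → ℕ → Prop} (hr : ∀ i, R i i)
    (ht : ∀ i j k, R i j → R j k → R i k) (h : ∀ i < c, ∃ j < c, π (x i) = x j ∧ R i j)
    (hinj : ∀ i j, i < c → j < c → x i = x j → i = j)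
    {i j : ℕ} (hi : i < c) (hj : j < c) (hs : π.SameCycle (x i) (x j)) : R i j := by
  obtain ⟨n, _, hn⟩ := hs.exists_pow_eq'
  obtain ⟨k, hk, h1, h2⟩ := pos_closed hr ht h hi n
  have h3 : j = k := hinj j k hj hk (by rw [← hn, h1])
  rw [h3]
  exact h2

theorem cell1 {τ : Perm D} {o p q s t : D} (hp : τ.SameCycle o p) (hq : τ.SameCycle o q)
    (hs : τ.SameCycle o s) (ht : τ.SameCycle o t) (hpq : pos τ o p < pos τ o q) :
    (τ * swap p q).SameCycle s t ↔
      ((pos τ o p < pos τ o s ∧ pos τ o s ≤ pos τ o q) ↔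
        (pos τ o p < pos τ o t ∧ pos τ o t ≤ pos τ o q)) := by
  obtain ⟨c, hc0, hc, hinj, hlt⟩ := pos_period τ o
  have xp := pos_spec hp
  have xq := pos_spec hq
  have xs := pos_spec hs
  have xt := pos_spec ht
  have lp := hlt p hp
  have lq := hlt q hq
  have ls := hlt s hs
  have lt := hlt t ht
  set P := pos τ o p
  set Q := pos τ o q
  set i := pos τ o s
  set j := pos τ o t
  set x : ℕ → D := fun m => (τ ^ m) o with hx
  have hstep : ∀ m, τ (x m) = x (m + 1) := fun m => by
    simp only [hx]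
    rw [pow_succ', Perm.mul_apply]
  have hxp : p = x P := xp.symm
  have hxq : q = x Q := xq.symm
  have hxs : s = x i := xs.symm
  have hxt : t = x j := xt.symm
  have hxc : x c = x 0 := hc
  have hinj' : ∀ m n, m < c → n < c → m ≠ n → x m ≠ x n :=
    fun m n hm hn hmn h => hmn (hinj m n hm hn h)
  have hnxt : ∀ m < c, ∃ n < c, x (m + 1) = x n ∧ (n = m + 1 ∨ (n = 0 ∧ m + 1 = c)) := by
    intro m hm
    by_cases h : m + 1 = c
    · exact ⟨0, hc0, by rw [h]; exact hxc, Or.inr ⟨rfl, h⟩⟩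
    · exact ⟨m + 1, by omega, rfl, Or.inl rfl⟩
  have v0 : ∀ m < c, m ≠ P → m ≠ Q → (τ * swap p q) (x m) = x (m + 1) := by
    intro m hm h1 h2
    rw [Perm.mul_apply, swap_apply_of_ne_of_ne, hstep]
    · rw [hxp]; exact hinj' m P hm lp h1
    · rw [hxq]; exact hinj' m Q hm lq h2
  have vP : (τ * swap p q) (x P) = x (Q + 1) := by
    rw [Perm.mul_apply, ← hxp, swap_apply_left, hxq, hstep]
  have vQ : (τ * swap p q) (x Q) = x (P + 1) := by
    rw [Perm.mul_apply, ← hxq, swap_apply_right, hxp, hstep]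
  constructor
  · intro h
    rw [hxs, hxt] at h
    have h1 := pos_same (R := fun m n => ((P < m ∧ m ≤ Q) ↔ (P < n ∧ n ≤ Q))) (c := c)
      (fun _ => Iff.rfl) (fun _ _ _ h1 h2 => h1.trans h2) ?_ hinj ls lt h
    · exact h1
    · intro m hm
      by_cases hmP : m = P
      · obtain ⟨n, hn, h1, h2⟩ := hnxt Q lq
        refine ⟨n, hn, by rw [hmP, vP, h1], ?_⟩
        show (P < m ∧ m ≤ Q) ↔ (P < n ∧ n ≤ Q)
        omega
      by_cases hmQ : m = Q
      · obtain ⟨n, hn, h1, h2⟩ := hnxt P lp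
        refine ⟨n, hn, by rw [hmQ, vQ, h1], ?_⟩
        show (P < m ∧ m ≤ Q) ↔ (P < n ∧ n ≤ Q)
        omega
      obtain ⟨n, hn, h1, h2⟩ := hnxt m hm
      refine ⟨n, hn, by rw [v0 m hm hmP hmQ, h1], ?_⟩
      show (P < m ∧ m ≤ Q) ↔ (P < n ∧ n ≤ Q)
      omega
  · intro h
    have cA : ∀ m, P < m → m ≤ Q → (τ * swap p q).SameCycle (x m) (x Q) := by
      intro m h1 h2
      exact pos_chain (a := P + 1) (fun n h3 h4 => v0 n (by omega) (by omega) (by omega)) m h1 h2
    have cB1 : ∀ m, m ≤ P → (τ * swap p q).SameCycle (x m) (x P) := by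
      intro m h2
      exact pos_chain (a := 0) (fun n h3 h4 => v0 n (by omega) (by omega) (by omega)) m
        (Nat.zero_le m) h2
    have cB : ∀ m < c, ¬ (P < m ∧ m ≤ Q) → (τ * swap p q).SameCycle (x m) (x P) := by
      intro m hm h1
      by_cases h2 : m ≤ P
      · exact cB1 m h2
      · have h3 : (τ * swap p q).SameCycle (x m) (x c) :=
          pos_chain (a := Q + 1) (fun n h3 h4 => v0 n (by omega) (by omega) (by omega)) m
            (by omega) hm.le
        rw [hxc] at h3
        exact h3.trans (cB1 0 (Nat.zero_le P))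
    rw [hxs, hxt]
    by_cases h1 : P < i ∧ i ≤ Q
    · have h2 := h.1 h1
      exact (cA i h1.1 h1.2).trans (cA j h2.1 h2.2).symm
    · have h2 : ¬ (P < j ∧ j ≤ Q) := fun h3 => h1 (h.2 h3)
      exact (cB i ls h1).trans (cB j lt h2).symm

theorem cell2 {τ : Perm D} {o s t s' t' u w : D} (hs : τ.SameCycle o s) (ht : τ.SameCycle o t)
    (hs' : τ.SameCycle o s') (ht' : τ.SameCycle o t') (hu : τ.SameCycle o u)
    (hw : τ.SameCycle o w) (h1 : pos τ o s < pos τ o s') (h2 : pos τ o s' < pos τ o t')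
    (h3 : pos τ o t' ≤ pos τ o t) :
    (τ * swap s t * swap s' t').SameCycle u w ↔
      ((pos τ o s < pos τ o u ∧ pos τ o u ≤ pos τ o t) ↔
        (pos τ o s < pos τ o w ∧ pos τ o w ≤ pos τ o t)) ∧
      ((pos τ o s' < pos τ o u ∧ pos τ o u ≤ pos τ o t') ↔
        (pos τ o s' < pos τ o w ∧ pos τ o w ≤ pos τ o t')) := by
  obtain ⟨c, hc0, hc, hinj, hlt⟩ := pos_period τ o
  have xs := pos_spec hs
  have xt := pos_spec ht
  have xs' := pos_spec hs'
  have xt' := pos_spec ht'
  have xu := pos_spec hu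
  have xw := pos_spec hw
  have ls := hlt s hs
  have lt := hlt t ht
  have ls' := hlt s' hs'
  have lt' := hlt t' ht'
  have lu := hlt u hu
  have lw := hlt w hw
  set S := pos τ o s
  set T := pos τ o t
  set S' := pos τ o s'
  set T' := pos τ o t'
  set i := pos τ o u
  set j := pos τ o w
  set x : ℕ → D := fun m => (τ ^ m) o with hx
  have hstep : ∀ m, τ (x m) = x (m + 1) := fun m => by
    simp only [hx]
    rw [pow_succ', Perm.mul_apply]
  have hxs : s = x S := xs.symm
  have hxt : t = x T := xt.symm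
  have hxs' : s' = x S' := xs'.symm
  have hxt' : t' = x T' := xt'.symm
  have hxu : u = x i := xu.symm
  have hxw : w = x j := xw.symm
  have hxc : x c = x 0 := hc
  have hinj' : ∀ m n, m < c → n < c → m ≠ n → x m ≠ x n :=
    fun m n hm hn hmn h => hmn (hinj m n hm hn h)
  have hnxt : ∀ m < c, ∃ n < c, x (m + 1) = x n ∧ (n = m + 1 ∨ (n = 0 ∧ m + 1 = c)) := by
    intro m hm
    by_cases h : m + 1 = c
    · exact ⟨0, hc0, by rw [h]; exact hxc, Or.inr ⟨rfl, h⟩⟩
    · exact ⟨m + 1, by omega, rfl, Or.inl rfl⟩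
  -- values of the two transpositions
  have w0 : ∀ m < c, m ≠ S → m ≠ T → swap s t (x m) = x m := by
    intro m hm g1 g2
    rw [hxs, hxt]
    exact swap_apply_of_ne_of_ne (hinj' m S hm ls g1) (hinj' m T hm lt g2)
  have w0' : ∀ m < c, m ≠ S' → m ≠ T' → swap s' t' (x m) = x m := by
    intro m hm g1 g2
    rw [hxs', hxt']
    exact swap_apply_of_ne_of_ne (hinj' m S' hm ls' g1) (hinj' m T' hm lt' g2)
  have wS : swap s t (x S) = x T := by rw [hxs, hxt]; exact swap_apply_left _ _
  have wT : swap s t (x T) = x S := by rw [hxs, hxt]; exact swap_apply_right _ _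
  have wS' : swap s' t' (x S') = x T' := by rw [hxs', hxt']; exact swap_apply_left _ _
  have wT' : swap s' t' (x T') = x S' := by rw [hxs', hxt']; exact swap_apply_right _ _
  set π := τ * swap s t * swap s' t' with hπ
  have v0 : ∀ m < c, m ≠ S → m ≠ T → m ≠ S' → m ≠ T' → π (x m) = x (m + 1) := by
    intro m hm g1 g2 g3 g4
    rw [hπ, Perm.mul_apply, Perm.mul_apply, w0' m hm g3 g4, w0 m hm g1 g2, hstep]
  have vS : π (x S) = x (T + 1) := by
    rw [hπ, Perm.mul_apply, Perm.mul_apply, w0' S ls (by omega) (by omega), wS, hstep]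
  have vT' : π (x T') = x (S' + 1) := by
    rw [hπ, Perm.mul_apply, Perm.mul_apply, wT', w0 S' ls' (by omega) (by omega), hstep]
  have vT : T' ≠ T → π (x T) = x (S + 1) := by
    intro g
    rw [hπ, Perm.mul_apply, Perm.mul_apply, w0' T lt (by omega) (by omega), wT, hstep]
  have vS'a : T' ≠ T → π (x S') = x (T' + 1) := by
    intro g
    rw [hπ, Perm.mul_apply, Perm.mul_apply, wS', w0 T' lt' (by omega) g, hstep]
  have vS'b : T' = T → π (x S') = x (S + 1) := by
    intro g
    rw [hπ, Perm.mul_apply, Perm.mul_apply, wS', g, wT, hstep]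
  constructor
  · intro h
    rw [hxu, hxw] at h
    refine pos_same (R := fun m n => ((S < m ∧ m ≤ T) ↔ (S < n ∧ n ≤ T)) ∧
      ((S' < m ∧ m ≤ T') ↔ (S' < n ∧ n ≤ T'))) (c := c)
      (fun _ => ⟨Iff.rfl, Iff.rfl⟩) (fun _ _ _ g1 g2 => ⟨g1.1.trans g2.1, g1.2.trans g2.2⟩) ?_
      hinj lu lw h
    intro m hm
    show ∃ n < c, π (x m) = x n ∧ (((S < m ∧ m ≤ T) ↔ (S < n ∧ n ≤ T)) ∧
      ((S' < m ∧ m ≤ T') ↔ (S' < n ∧ n ≤ T')))
    by_cases hmS : m = S
    · obtain ⟨n, hn, g1, g2⟩ := hnxt T lt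
      exact ⟨n, hn, by rw [hmS, vS, g1], by omega, by omega⟩
    by_cases hmT' : m = T'
    · obtain ⟨n, hn, g1, g2⟩ := hnxt S' ls'
      exact ⟨n, hn, by rw [hmT', vT', g1], by omega, by omega⟩
    by_cases hTT : T' = T
    · by_cases hmS' : m = S'
      · obtain ⟨n, hn, g1, g2⟩ := hnxt S ls
        exact ⟨n, hn, by rw [hmS', vS'b hTT, g1], by omega, by omega⟩
      · obtain ⟨n, hn, g1, g2⟩ := hnxt m hm
        exact ⟨n, hn, by rw [v0 m hm hmS (by omega) hmS' hmT', g1], by omega, by omega⟩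
    · by_cases hmS' : m = S'
      · obtain ⟨n, hn, g1, g2⟩ := hnxt T' lt'
        exact ⟨n, hn, by rw [hmS', vS'a hTT, g1], by omega, by omega⟩
      by_cases hmT : m = T
      · obtain ⟨n, hn, g1, g2⟩ := hnxt S ls
        exact ⟨n, hn, by rw [hmT, vT hTT, g1], by omega, by omega⟩
      obtain ⟨n, hn, g1, g2⟩ := hnxt m hm
      exact ⟨n, hn, by rw [v0 m hm hmS hmT hmS' hmT', g1], by omega, by omega⟩
  · rintro ⟨g, g'⟩
    have cA : ∀ m, S' < m → m ≤ T' → π.SameCycle (x m) (x T') := by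
      intro m k1 k2
      exact pos_chain (a := S' + 1)
        (fun n k3 k4 => v0 n (by omega) (by omega) (by omega) (by omega) (by omega)) m k1 k2
    have cB1 : ∀ m, S < m → m ≤ S' → π.SameCycle (x m) (x S') := by
      intro m k1 k2
      exact pos_chain (a := S + 1)
        (fun n k3 k4 => v0 n (by omega) (by omega) (by omega) (by omega) (by omega)) m k1 k2
    have cB2 : ∀ m, T' < m → m ≤ T → π.SameCycle (x m) (x S') := by
      intro m k1 k2
      have k5 : π.SameCycle (x m) (x T) := pos_chain (a := T' + 1)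
        (fun n k3 k4 => v0 n (by omega) (by omega) (by omega) (by omega) (by omega)) m k1 k2
      have k6 : π.SameCycle (x T) (x (S + 1)) := by
        rw [← vT (by omega)]
        exact Perm.sameCycle_apply_right.2 (Perm.SameCycle.refl π _)
      exact (k5.trans k6).trans (cB1 (S + 1) (by omega) (by omega))
    have cC1 : ∀ m, m ≤ S → π.SameCycle (x m) (x S) := by
      intro m k2
      exact pos_chain (a := 0)
        (fun n k3 k4 => v0 n (by omega) (by omega) (by omega) (by omega) (by omega)) m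
        (Nat.zero_le m) k2
    have cC2 : ∀ m, T < m → m < c → π.SameCycle (x m) (x S) := by
      intro m k1 k2
      have k5 : π.SameCycle (x m) (x c) := pos_chain (a := T + 1)
        (fun n k3 k4 => v0 n (by omega) (by omega) (by omega) (by omega) (by omega)) m k1 k2.le
      rw [hxc] at k5
      exact k5.trans (cC1 0 (Nat.zero_le S))
    have dA : ∀ m, (S' < m ∧ m ≤ T') → π.SameCycle (x m) (x T') := fun m hm => cA m hm.1 hm.2
    have dB : ∀ m, (S < m ∧ m ≤ T) → ¬ (S' < m ∧ m ≤ T') → π.SameCycle (x m) (x S') := by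
      intro m k1 k2
      by_cases k3 : m ≤ S'
      · exact cB1 m k1.1 k3
      · exact cB2 m (by omega) k1.2
    have dC : ∀ m < c, ¬ (S < m ∧ m ≤ T) → π.SameCycle (x m) (x S) := by
      intro m k1 k2
      by_cases k3 : m ≤ S
      · exact cC1 m k3
      · exact cC2 m (by omega) k1
    rw [hxu, hxw]
    by_cases k1 : S' < i ∧ i ≤ T'
    · exact (dA i k1).trans (dA j (g'.1 k1)).symm
    · have k1' : ¬ (S' < j ∧ j ≤ T') := fun k => k1 (g'.2 k)
      by_cases k2 : S < i ∧ i ≤ T
      · exact (dB i k2 k1).trans (dB j (g.1 k2) k1').symm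
      · have k2' : ¬ (S < j ∧ j ≤ T) := fun k => k2 (g.2 k)
        exact (dC i lu k2).trans (dC j lw k2').symm

end QU91
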