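import Pool.Agent.H91.QU.Exs
import Pool.Agent.H91.QU.One

/-!
[H91 QU SGF]  (MP_bcc40c_pr, Q2, part (U))  The surgery `Sg`: summary of its properties.

PROOFS.  `wp_exists` gives `k, a, b` with `Wp f α ℓ k a b`, `a 0 = p`, `b 0 = q`; `Sg f α ℓ p q = sw α a b k` (sg_eq).  `ℓ (a 0) = r`.
sg_lb: wp_lb.  sg_back: wp_back, sg_eq for `sw α a b k`, wp_twice.  sg_comm: wp_symm.  sg_tau: wp_tau.  sg_cyc: wp_cyc, tau_end.  sg_nrt: wp_nrt, tau_end.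
sg_top: wp_top.  sg_flip: wp_start.  sg_lm: wp_root, sg_nrt.
-/

set_option autoImplicit false

namespace QU91

open Equiv HG39 QD39 QL40

variable {D : Type} [Fintype D] [DecidableEq D]

variable {f α : Perm D} {ℓ : D → ℤ} {r : ℤ} {p q : D}

theorem sg_lb (hl : Lb f α ℓ) (nn : ∀ d, 0 ≤ ℓ d) (hp : Tip f ℓ r p) (hq : Tip f ℓ r q)
    (hpq : p ≠ q) : Lb f (Sg f α ℓ p q) ℓ := by
  obtain ⟨k, a, b, h, rfl, rfl⟩ := wp_exists hl nn hp hq hpq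
  rw [sg_eq h]
  exact wp_lb hl h

theorem sg_back (hl : Lb f α ℓ) (nn : ∀ d, 0 ≤ ℓ d) (hp : Tip f ℓ r p) (hq : Tip f ℓ r q)
    (hpq : p ≠ q) : Sg f (Sg f α ℓ p q) ℓ p q = α := by
  obtain ⟨k, a, b, h, rfl, rfl⟩ := wp_exists hl nn hp hq hpq
  rw [sg_eq h, sg_eq (wp_back hl h)]
  exact wp_twice hl h

theorem sg_comm (hl : Lb f α ℓ) (nn : ∀ d, 0 ≤ ℓ d) (hp : Tip f ℓ r p) (hq : Tip f ℓ r q)
    (hpq : p ≠ q) : Sg f α ℓ q p = Sg f α ℓ p q := by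
  obtain ⟨k, a, b, h, rfl, rfl⟩ := wp_exists hl nn hp hq hpq
  rw [sg_eq h, sg_eq (wp_symm h).1]
  exact (wp_symm h).2

theorem sg_tau (hl : Lb f α ℓ) (nn : ∀ d, 0 ≤ ℓ d) (hp : Tip f ℓ r p) (hq : Tip f ℓ r q)
    (hpq : p ≠ q) : tau f (Sg f α ℓ p q) ℓ r = tau f α ℓ r * swap p q := by
  obtain ⟨k, a, b, h, rfl, rfl⟩ := wp_exists hl nn hp hq hpq
  rw [sg_eq h]
  exact wp_tau hl h hp.2

theorem sg_cyc (hl : Lb f α ℓ) (nn : ∀ d, 0 ≤ ℓ d) (hp : Tip f ℓ r p) (hq : Tip f ℓ r q)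
    (hpq : p ≠ q) :
    (cyc (f * Sg f α ℓ p q) : ℤ) = cyc (f * α) + es ((f * α).SameCycle p q) +
      es ((tau f α ℓ r).SameCycle p q) := by
  obtain ⟨k, a, b, h, rfl, rfl⟩ := wp_exists hl nn hp hq hpq
  rw [sg_eq h, wp_cyc hl h, propext (tau_end hl nn h hp.2)]

theorem sg_nrt (hl : Lb f α ℓ) (nn : ∀ d, 0 ≤ ℓ d) (hp : Tip f ℓ r p) (hq : Tip f ℓ r q)
    (hpq : p ≠ q) :
    (nrt f (Sg f α ℓ p q) ℓ : ℤ) = nrt f α ℓ + es ((tau f α ℓ r).SameCycle p q) := by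
  obtain ⟨k, a, b, h, rfl, rfl⟩ := wp_exists hl nn hp hq hpq
  rw [sg_eq h, wp_nrt hl h, propext (tau_end hl nn h hp.2)]

theorem sg_top (hl : Lb f α ℓ) (nn : ∀ d, 0 ≤ ℓ d) (hp : Tip f ℓ r p) (hq : Tip f ℓ r q)
    (hpq : p ≠ q) {d e : D} (hd : r ≤ ℓ d) :
    (f * Sg f α ℓ p q).SameCycle d e ↔ ((f * α) * swap p q).SameCycle d e := by
  obtain ⟨k, a, b, h, rfl, rfl⟩ := wp_exists hl nn hp hq hpq
  rw [sg_eq h]
  exact wp_top hl h (hp.2.trans_le hd)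

theorem sg_flip (hl : Lb f α ℓ) (nn : ∀ d, 0 ≤ ℓ d) (hp : Tip f ℓ r p) (hq : Tip f ℓ r q)
    (hpq : p ≠ q) : (f * Sg f α ℓ p q).SameCycle p q ↔ ¬ (f * α).SameCycle p q := by
  obtain ⟨k, a, b, h, rfl, rfl⟩ := wp_exists hl nn hp hq hpq
  rw [sg_eq h]
  exact wp_start hl h

theorem sg_lm {m : ℕ} (h : Lm f α ℓ m r) (hp : Tip f ℓ r p) (hq : Tip f ℓ r q)
    (hpq : p ≠ q) : Lm f (Sg f α ℓ p q) ℓ (m + 1) r := by
  refine ⟨sg_lb h.lb h.nn hp hq hpq, h.nn, ?_, ?_⟩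
  · have h1 := sg_nrt h.lb h.nn hp hq hpq
    have h2 : es ((tau f α ℓ r).SameCycle p q) ≤ 1 := by
      unfold es
      split_ifs <;> norm_num
    have h3 := h.num
    omega
  · obtain ⟨k, a, b, hw, rfl, rfl⟩ := wp_exists h.lb h.nn hp hq hpq
    rw [sg_eq hw]
    exact fun e he => wp_root h.lb hw hp.2.le h.lev e he

end QU91
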