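import Pool.Agent.H91.QU.Sgf
import Pool.Agent.H39.HG.ZSwap

/-!
[H91 QU SGV]  (MP_bcc40c_pr, Q2, part (U))  The vertices at the level of the tips after the surgery.

PROOFS.  By sg_top the cycles of `f * Sg f α ℓ p q` at the level `r` are those of `π * swap p q`, `π = f * α`.  Note `(π * swap p q) * swap p q = π` and `(π * swap p q).SameCycle p q ↔ ¬ π.SameCycle p q` (sg_flip, or ZSwap).
sgv_merge: `¬ π.SameCycle p q`: zs_iff.
sgv_split: `π.SameCycle p q`: then `¬ (π * swap p q).SameCycle p q`, zs_iff for `π * swap p q`: `(π).SameCycle s t ↔ (π * swap p q).SameCycle s t ∨ ...`.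
sgv_out: if `π.SameCycle p q`: zs_iff for `π * swap p q` (`s` is not in the new cycles of `p`, `q` either, by sgv_split); otherwise sgv_merge.
sgv_in: zs_iff for `π * swap p q` applied to `s, p`: `(π * swap p q).SameCycle s p ∨ ((.. s p ∨ .. s q) ∧ ..)`.
(Levels: vertices have constant labels, QL40.lb_same.)
-/

/-!
[H91 QU SGV]  (MP_bcc40c_pr, Q2, part (U))  The vertices at the level of the tips after the surgery.

PROOFS.  By sg_top the cycles of `f * Sg f α ℓ p q` at the level `r` are those of `π * swap p q`, `π = f * α`.  Note `(π * swap p q) * swap p q = π` and `(π * swap p q).SameCycle p q ↔ ¬ π.SameCycle p q` (sg_flip, or ZSwap).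
sgv_merge: `¬ π.SameCycle p q`: zs_iff.
sgv_split: `π.SameCycle p q`: then `¬ (π * swap p q).SameCycle p q`, zs_iff for `π * swap p q`: `(π).SameCycle s t ↔ (π * swap p q).SameCycle s t ∨ ...`.
sgv_out: if `π.SameCycle p q`: zs_iff for `π * swap p q` (`s` is not in the new cycles of `p`, `q` either, by sgv_split); otherwise sgv_merge.
sgv_in: zs_iff for `π * swap p q` applied to `s, p`: `(π * swap p q).SameCycle s p ∨ ((.. s p ∨ .. s q) ∧ ..)`.
(Levels: vertices have constant labels, QL40.lb_same.)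
-/

set_option autoImplicit false

namespace QU91

open Equiv HG39 QD39 QL40

variable {D : Type} [Fintype D] [DecidableEq D]

variable {f α : Perm D} {ℓ : D → ℤ} {r : ℤ} {p q : D}

private theorem sgv_lev (hp : Tip f ℓ r p) : r ≤ ℓ p := hp.2.symm.le

private theorem sgv_A (hl : Lb f α ℓ) (nn : ∀ d, 0 ≤ ℓ d) (hp : Tip f ℓ r p) (hq : Tip f ℓ r q)
    (hpq : p ≠ q) (hv : (f * α).SameCycle p q) (x y : D) :
    (f * α).SameCycle x y ↔ ((f * α) * swap p q).SameCycle x y ∨
      ((((f * α) * swap p q).SameCycle x p ∨ ((f * α) * swap p q).SameCycle x q) ∧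
        (((f * α) * swap p q).SameCycle y p ∨ ((f * α) * swap p q).SameCycle y q)) := by
  have h1 : ¬ ((f * α) * swap p q).SameCycle p q := by
    rw [← sg_top hl nn hp hq hpq (sgv_lev hp), sg_flip hl nn hp hq hpq]
    exact fun h => h hv
  have h2 := zs_iff ((f * α) * swap p q) p q h1 x y
  have h3 : (f * α) * swap p q * swap p q = f * α := by
    rw [mul_assoc, swap_mul_self, mul_one]
  rwa [h3] at h2

theorem sgv_split (hl : Lb f α ℓ) (nn : ∀ d, 0 ≤ ℓ d) (hp : Tip f ℓ r p) (hq : Tip f ℓ r q)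
    (hpq : p ≠ q) (hv : (f * α).SameCycle p q) {s t : D} (hs : ℓ s = r)
    (h : (f * Sg f α ℓ p q).SameCycle s t) : (f * α).SameCycle s t := by
  rw [sg_top hl nn hp hq hpq hs.symm.le] at h
  exact (sgv_A hl nn hp hq hpq hv s t).2 (Or.inl h)

theorem sgv_out (hl : Lb f α ℓ) (nn : ∀ d, 0 ≤ ℓ d) (hp : Tip f ℓ r p) (hq : Tip f ℓ r q)
    (hpq : p ≠ q) {s t : D} (hs : ℓ s = r) (hsp : ¬ (f * α).SameCycle s p)
    (hsq : ¬ (f * α).SameCycle s q) :
    (f * Sg f α ℓ p q).SameCycle s t ↔ (f * α).SameCycle s t := by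
  rw [sg_top hl nn hp hq hpq hs.symm.le]
  by_cases hv : (f * α).SameCycle p q
  · have hA := sgv_A hl nn hp hq hpq hv
    constructor
    · exact fun h => (hA s t).2 (Or.inl h)
    · intro h
      rcases (hA s t).1 h with h1 | ⟨h1 | h1, _⟩
      · exact h1
      · exact absurd ((hA s p).2 (Or.inl h1)) hsp
      · exact absurd ((hA s q).2 (Or.inl h1)) hsq
  · rw [zs_iff (f * α) p q hv s t]
    constructor
    · rintro (h1 | ⟨h1 | h1, _⟩)
      · exact h1
      · exact absurd h1 hsp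
      · exact absurd h1 hsq
    · exact Or.inl

theorem sgv_in (hl : Lb f α ℓ) (nn : ∀ d, 0 ≤ ℓ d) (hp : Tip f ℓ r p) (hq : Tip f ℓ r q)
    (hpq : p ≠ q) (hv : (f * α).SameCycle p q) {s : D} (hs : (f * α).SameCycle s p) :
    (f * Sg f α ℓ p q).SameCycle s p ∨ (f * Sg f α ℓ p q).SameCycle s q := by
  have hls : r ≤ ℓ s := by
    rw [lb_same hl hs]
    exact sgv_lev hp
  rw [sg_top hl nn hp hq hpq hls, sg_top hl nn hp hq hpq hls]
  rcases (sgv_A hl nn hp hq hpq hv s p).1 hs with h1 | ⟨h1, _⟩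
  · exact Or.inl h1
  · exact h1

theorem sgv_merge (hl : Lb f α ℓ) (nn : ∀ d, 0 ≤ ℓ d) (hp : Tip f ℓ r p) (hq : Tip f ℓ r q)
    (hpq : p ≠ q) (hv : ¬ (f * α).SameCycle p q) {s t : D} (hs : ℓ s = r) :
    (f * Sg f α ℓ p q).SameCycle s t ↔ (f * α).SameCycle s t ∨
      (((f * α).SameCycle s p ∨ (f * α).SameCycle s q) ∧
        ((f * α).SameCycle t p ∨ (f * α).SameCycle t q)) := by
  rw [sg_top hl nn hp hq hpq hs.symm.le]
  exact zs_iff (f * α) p q hv s t

end QU91
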