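import Pool.Agent.H91.QU.Wpb

/-!
[H91 QU TAC]  (MP_bcc40c_pr, Q2, part (U))  The contour order of the tips after the surgery.

Notation: `ρ = α * f⁻¹`, `S = Desc f ℓ`, `K = fr ρ S` (kap), `β = bet f α ℓ r`, `W = Wr f α ℓ r = ρ * K⁻¹ * β`; `α' = sw α a b k`, `P = swp a b k`, `Q = swp (α ∘ a) (α ∘ b) k`, `c = P * Q`.  All `a i, b i, α (a i), α (b i)` are different (wp_dist) and have levels `≤ r`, so `P * P = 1`,
`Q * Q = 1` (swp_val), `P * Q = Q * P`.
PROOFS.
bet_val: `betf f α ℓ r` is an involution: `ℓ (f d) = ℓ (α d)`, `ℓ (f (α d)) = ℓ (α (α d)) = ℓ d`, so the condition holds for `α d` iff it holds for `d`, and `α (α d) = d`.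
wp_bet: `bet f α' ℓ r = P * Q * β`: `α' = P * Q * α` (wp_rot); `d` with the condition: both sides are `α' d`; `d` without the condition: `d` is none of the `a i, ...` (they satisfy the condition: descending or ascending, both ends of level `≤ ℓ (a 0) ≤ r`), so `P`, `Q` fix `d`.
wp_betP: `β * P = Q * β` and `β * Q = P * β`: compare the values at `a i, b i, α (a i), α (b i)` (`β (a i) = α (a i)`, ...) and elsewhere (`β` maps the other darts to other darts).
wp_wr: `Wr f α' ℓ r = (P Q ρ) (swap (a 0) (b 0) * K)⁻¹ (P Q β) = P Q ρ K⁻¹ swap(a 0, b 0) P Q β` (wp_rot, wp_kap, wp_bet).  And `P Q β = P β P = β Q P` (wp_betP), `c = P Q`.  Claim: `Wr' = c * (W * swap (α (a 0)) (α (b 0))) * c⁻¹`, i.e. `c⁻¹ Wr' c = W * swap ..`: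
`c⁻¹ Wr' c = ρ K⁻¹ swap(a 0, b 0) P Q β P Q`; `β P Q = Q β Q = Q P β`, so `P Q β P Q = P Q Q P β = β`; so it is `ρ K⁻¹ swap(a 0, b 0) β = ρ K⁻¹ β swap(β (a 0), β (b 0)) = W * swap (α (a 0)) (α (b 0))` (`β⁻¹ = β`).
wr_hit: let `δ` be a tip of level `r`; then `Hit W (Tip f ℓ r) (W (α δ)) δ`.  Proof: `β (α δ) = δ` (condition: `ℓ (α δ) = r - 1`, `ℓ (f (α δ)) = ℓ δ = r`), so `W (α δ) = ρ (K⁻¹ δ)`, and `Hit ρ S (ρ (K⁻¹ δ)) δ` (fr_pre).  Along this path (darts of level `r`, not descending before the end) `β` is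
the identity (either level darts or `ℓ (f z) = r + 1`), `K⁻¹` is the identity (not in `S`), so `W z = ρ z`, and `Tip ↔ S` on the level `r`: hit_congr with `Q z := ℓ z = r`.
wp_tau (`ℓ (a 0) = r`): `c` preserves `Tip f ℓ r`; fr_conj: `tau' = c * fr (W * swap (α (a 0)) (α (b 0))) T * c⁻¹` (T = Tip f ℓ r).  `W * swap x y = swap (W x) (W y) * W`, fr_swap with wr_hit: `fr (..) T = swap (a 0) (b 0) * tau`.  `c` acts on `T` as `swap (a 0) (b 0)` (the points of the other transpositions are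
not in `T`: they are not descending or have level `< r`), and a permutation `π` supported in `T` satisfies `c * π * c⁻¹ = swap (a 0) (b 0) * π * swap (a 0) (b 0)`.  So `tau' = swap * (swap * tau) * swap = tau * swap (a 0) (b 0)`.
-/

set_option autoImplicit false

namespace QU91

open Equiv HG39 QD39 QL40

variable {D : Type} [Fintype D] [DecidableEq D]

variable {f α : Perm D} {ℓ : D → ℤ} {k : ℕ} {a b : ℕ → D}

open Classical in
theorem bet_val (hl : Lb f α ℓ) (r : ℤ) (d : D) :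
    bet f α ℓ r d = if ℓ (f d) ≠ ℓ d ∧ ℓ d ≤ r ∧ ℓ (f d) ≤ r then α d else d := by
  have hinv : Function.Involutive (betf f α ℓ r) := by
    intro d
    unfold betf
    by_cases hd : ℓ (f d) ≠ ℓ d ∧ ℓ d ≤ r ∧ ℓ (f d) ≤ r
    · have h1 : ℓ (f (α d)) ≠ ℓ (α d) ∧ ℓ (α d) ≤ r ∧ ℓ (f (α d)) ≤ r := by
        have h2 := hl.ver d
        have h3 := hl.ver (α d)
        rw [hl.inv] at h3
        rw [h3, ← h2]
        exact ⟨fun h => hd.1 h.symm, hd.2.2, hd.2.1⟩
      rw [if_pos hd, if_pos h1, hl.inv]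
    · rw [if_neg hd, if_neg hd]
  unfold bet
  rw [dif_pos hinv]
  rfl

private theorem tac_bet_pos (hl : Lb f α ℓ) {r : ℤ} {d : D} (h1 : ℓ (f d) ≠ ℓ d) (h2 : ℓ d ≤ r)
    (h3 : ℓ (f d) ≤ r) : bet f α ℓ r d = α d := by
  classical
  rw [bet_val hl, if_pos ⟨h1, h2, h3⟩]

private theorem tac_bet_neg (hl : Lb f α ℓ) {r : ℤ} {d : D}
    (h : ¬ (ℓ (f d) ≠ ℓ d ∧ ℓ d ≤ r ∧ ℓ (f d) ≤ r)) : bet f α ℓ r d = d := by
  classical
  rw [bet_val hl, if_neg h]

private theorem tac_bet_bet (hl : Lb f α ℓ) (r : ℤ) (d : D) :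
    bet f α ℓ r (bet f α ℓ r d) = d := by
  by_cases hd : ℓ (f d) ≠ ℓ d ∧ ℓ d ≤ r ∧ ℓ (f d) ≤ r
  · have h2 := hl.ver d
    have h3 := hl.ver (α d)
    rw [hl.inv] at h3
    rw [tac_bet_pos hl hd.1 hd.2.1 hd.2.2, tac_bet_pos hl (d := α d), hl.inv]
    · rw [h3, ← h2]
      exact fun h => hd.1 h.symm
    · rw [← h2]; exact hd.2.2
    · rw [h3]; exact hd.2.1
  · rw [tac_bet_neg hl hd, tac_bet_neg hl hd]

/-- the conditions at the four darts -/
private theorem tac_cond (hl : Lb f α ℓ) (h : Wp f α ℓ k a b) {r : ℤ} (hr : ℓ (a 0) ≤ r)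
    {i : ℕ} (hi : i < k) :
    bet f α ℓ r (a i) = α (a i) ∧ bet f α ℓ r (b i) = α (b i) ∧
      bet f α ℓ r (α (a i)) = a i ∧ bet f α ℓ r (α (b i)) = b i := by
  obtain ⟨l1, l2, l3, l4⟩ := wp_lev hl h i hi
  have d1 : ℓ (f (a i)) = ℓ (a i) - 1 := h.da i hi
  have d2 : ℓ (f (b i)) = ℓ (b i) - 1 := h.db i hi
  have h0 : (0 : ℤ) ≤ i := Int.natCast_nonneg i
  have e1 : bet f α ℓ r (a i) = α (a i) :=
    tac_bet_pos hl (by omega) (by omega) (by omega)
  have e2 : bet f α ℓ r (b i) = α (b i) :=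
    tac_bet_pos hl (by omega) (by omega) (by omega)
  refine ⟨e1, e2, ?_, ?_⟩
  · rw [← e1, tac_bet_bet hl]
  · rw [← e2, tac_bet_bet hl]

/-- values of the two products of transpositions -/
private theorem tac_P (hl : Lb f α ℓ) (h : Wp f α ℓ k a b) :
    (∀ i < k, swp a b k (a i) = b i ∧ swp a b k (b i) = a i) ∧
      (∀ d, (∀ i < k, d ≠ a i ∧ d ≠ b i) → swp a b k d = d) ∧
      (∀ d, swp a b k (swp a b k d) = d) :=
  swp_val (fun i j hi hj => (wp_dist hl h i j hi hj).1)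
    (fun i j hi hj => (wp_dist hl h i j hi hj).2.2.2.2.2.2)

private theorem tac_Q (hl : Lb f α ℓ) (h : Wp f α ℓ k a b) :
    (∀ i < k, swp (fun i => α (a i)) (fun i => α (b i)) k (α (a i)) = α (b i) ∧
      swp (fun i => α (a i)) (fun i => α (b i)) k (α (b i)) = α (a i)) ∧
      (∀ d, (∀ i < k, d ≠ α (a i) ∧ d ≠ α (b i)) →
        swp (fun i => α (a i)) (fun i => α (b i)) k d = d) ∧
      (∀ d, swp (fun i => α (a i)) (fun i => α (b i)) k
        (swp (fun i => α (a i)) (fun i => α (b i)) k d) = d) :=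
  swp_val (a := fun i => α (a i)) (b := fun i => α (b i))
    (fun i j hi hj => (wp_dist hl h i j hi hj).2.2.2.2.2.1)
    (fun i j hi hj hij => ⟨fun h' => ((wp_dist hl h i j hi hj).2.2.2.2.2.2 hij).1 (α.injective h'),
      fun h' => ((wp_dist hl h i j hi hj).2.2.2.2.2.2 hij).2 (α.injective h')⟩)

private theorem tac_PQ (hl : Lb f α ℓ) (h : Wp f α ℓ k a b) :
    swp a b k * swp (fun i => α (a i)) (fun i => α (b i)) k =
      swp (fun i => α (a i)) (fun i => α (b i)) k * swp a b k := by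
  obtain ⟨p1, p2, _⟩ := tac_P hl h
  obtain ⟨q1, q2, _⟩ := tac_Q hl h
  have ap : ∀ i < k, swp a b k (α (a i)) = α (a i) ∧ swp a b k (α (b i)) = α (b i) := by
    intro i hi
    refine ⟨p2 _ fun j hj => ?_, p2 _ fun j hj => ?_⟩
    · exact ⟨(wp_dist hl h j i hj hi).2.1.symm, (wp_dist hl h j i hj hi).2.2.2.1.symm⟩
    · exact ⟨(wp_dist hl h j i hj hi).2.2.1.symm, (wp_dist hl h j i hj hi).2.2.2.2.1.symm⟩
  have aq : ∀ i < k, swp (fun i => α (a i)) (fun i => α (b i)) k (a i) = a i ∧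
      swp (fun i => α (a i)) (fun i => α (b i)) k (b i) = b i := by
    intro i hi
    refine ⟨q2 _ fun j hj => ?_, q2 _ fun j hj => ?_⟩
    · exact ⟨(wp_dist hl h i j hi hj).2.1, (wp_dist hl h i j hi hj).2.2.1⟩
    · exact ⟨(wp_dist hl h i j hi hj).2.2.2.1, (wp_dist hl h i j hi hj).2.2.2.2.1⟩
  ext d
  rw [Perm.mul_apply, Perm.mul_apply]
  by_cases h1 : ∃ i < k, d = a i
  · obtain ⟨i, hi, rfl⟩ := h1
    rw [(aq i hi).1, (p1 i hi).1, (aq i hi).2]
  · by_cases h2 : ∃ i < k, d = b i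
    · obtain ⟨i, hi, rfl⟩ := h2
      rw [(aq i hi).2, (p1 i hi).2, (aq i hi).1]
    · have h3 : swp a b k d = d := p2 d fun i hi => ⟨fun h' => h1 ⟨i, hi, h'⟩, fun h' => h2 ⟨i, hi, h'⟩⟩
      rw [h3]
      by_cases h4 : ∃ i < k, d = α (a i)
      · obtain ⟨i, hi, rfl⟩ := h4
        rw [(q1 i hi).1, (ap i hi).2]
      · by_cases h5 : ∃ i < k, d = α (b i)
        · obtain ⟨i, hi, rfl⟩ := h5
          rw [(q1 i hi).2, (ap i hi).1]
        · have h6 : swp (fun i => α (a i)) (fun i => α (b i)) k d = d :=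
            q2 d fun i hi => ⟨fun h' => h4 ⟨i, hi, h'⟩, fun h' => h5 ⟨i, hi, h'⟩⟩
          rw [h6, h3]

private theorem tac_PP (hl : Lb f α ℓ) (h : Wp f α ℓ k a b) : swp a b k * swp a b k = 1 := by
  ext d
  exact (tac_P hl h).2.2 d

private theorem tac_QQ (hl : Lb f α ℓ) (h : Wp f α ℓ k a b) :
    swp (fun i => α (a i)) (fun i => α (b i)) k *
      swp (fun i => α (a i)) (fun i => α (b i)) k = 1 := by
  ext d
  exact (tac_Q hl h).2.2 d

theorem wp_bet (hl : Lb f α ℓ) (h : Wp f α ℓ k a b) {r : ℤ} (hr : ℓ (a 0) ≤ r) :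
    bet f (sw α a b k) ℓ r =
      swp a b k * swp (fun i => α (a i)) (fun i => α (b i)) k * bet f α ℓ r := by
  obtain ⟨p1, p2, _⟩ := tac_P hl h
  obtain ⟨q1, q2, _⟩ := tac_Q hl h
  ext d
  by_cases hd : ℓ (f d) ≠ ℓ d ∧ ℓ d ≤ r ∧ ℓ (f d) ≤ r
  · rw [tac_bet_pos (wp_lb hl h) hd.1 hd.2.1 hd.2.2, Perm.mul_apply,
      tac_bet_pos hl hd.1 hd.2.1 hd.2.2, wp_rot hl h, Perm.mul_apply]
  · rw [tac_bet_neg (wp_lb hl h) hd, Perm.mul_apply, tac_bet_neg hl hd, Perm.mul_apply]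
    have hnd : ∀ i < k, (d ≠ a i ∧ d ≠ b i) ∧ (d ≠ α (a i) ∧ d ≠ α (b i)) := by
      intro i hi
      obtain ⟨l1, l2, l3, l4⟩ := wp_lev hl h i hi
      have d1 : ℓ (f (a i)) = ℓ (a i) - 1 := h.da i hi
      have d2 : ℓ (f (b i)) = ℓ (b i) - 1 := h.db i hi
      have d3 := hl.ver (α (a i))
      have d4 := hl.ver (α (b i))
      rw [hl.inv] at d3 d4
      have h0 : (0 : ℤ) ≤ i := Int.natCast_nonneg i
      refine ⟨⟨?_, ?_⟩, ?_, ?_⟩
      · rintro rfl
        exact hd ⟨by omega, by omega, by omega⟩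
      · rintro rfl
        exact hd ⟨by omega, by omega, by omega⟩
      · rintro rfl
        exact hd ⟨by omega, by omega, by omega⟩
      · rintro rfl
        exact hd ⟨by omega, by omega, by omega⟩
    rw [q2 d fun i hi => (hnd i hi).2, p2 d fun i hi => (hnd i hi).1]

theorem wp_betP (hl : Lb f α ℓ) (h : Wp f α ℓ k a b) {r : ℤ} (hr : ℓ (a 0) ≤ r) :
    bet f α ℓ r * swp a b k = swp (fun i => α (a i)) (fun i => α (b i)) k * bet f α ℓ r ∧
      bet f α ℓ r * swp (fun i => α (a i)) (fun i => α (b i)) k = swp a b k * bet f α ℓ r := by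
  obtain ⟨p1, p2, _⟩ := tac_P hl h
  obtain ⟨q1, q2, _⟩ := tac_Q hl h
  have hbb : bet f α ℓ r * bet f α ℓ r = 1 := by
    ext d
    exact tac_bet_bet hl r d
  have h1 : bet f α ℓ r * swp a b k =
      swp (fun i => α (a i)) (fun i => α (b i)) k * bet f α ℓ r := by
    ext d
    rw [Perm.mul_apply, Perm.mul_apply]
    by_cases h1 : ∃ i < k, d = a i
    · obtain ⟨i, hi, rfl⟩ := h1
      obtain ⟨c1, c2, _, _⟩ := tac_cond hl h hr hi
      rw [(p1 i hi).1, c1, c2, (q1 i hi).1]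
    · by_cases h2 : ∃ i < k, d = b i
      · obtain ⟨i, hi, rfl⟩ := h2
        obtain ⟨c1, c2, _, _⟩ := tac_cond hl h hr hi
        rw [(p1 i hi).2, c1, c2, (q1 i hi).2]
      · rw [p2 d fun i hi => ⟨fun h' => h1 ⟨i, hi, h'⟩, fun h' => h2 ⟨i, hi, h'⟩⟩]
        rw [q2]
        intro i hi
        obtain ⟨_, _, c3, c4⟩ := tac_cond hl h hr hi
        refine ⟨fun h' => h1 ⟨i, hi, ?_⟩, fun h' => h2 ⟨i, hi, ?_⟩⟩
        · rw [← c3, ← h', tac_bet_bet hl]
        · rw [← c4, ← h', tac_bet_bet hl]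
  refine ⟨h1, ?_⟩
  calc bet f α ℓ r * swp (fun i => α (a i)) (fun i => α (b i)) k
      = bet f α ℓ r * (swp (fun i => α (a i)) (fun i => α (b i)) k * bet f α ℓ r) *
          bet f α ℓ r := by
        rw [mul_assoc, mul_assoc, hbb, mul_one]
    _ = bet f α ℓ r * (bet f α ℓ r * swp a b k) * bet f α ℓ r := by rw [h1]
    _ = swp a b k * bet f α ℓ r := by rw [← mul_assoc, hbb, one_mul]

theorem wp_wr (hl : Lb f α ℓ) (h : Wp f α ℓ k a b) {r : ℤ} (hr : ℓ (a 0) ≤ r) :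
    Wr f (sw α a b k) ℓ r =
      (swp a b k * swp (fun i => α (a i)) (fun i => α (b i)) k) *
        (Wr f α ℓ r * swap (α (a 0)) (α (b 0))) *
        (swp a b k * swp (fun i => α (a i)) (fun i => α (b i)) k)⁻¹ := by
  obtain ⟨b1, b2⟩ := wp_betP hl h hr
  have hPP := tac_PP hl h
  have hQQ := tac_QQ hl h
  have hPQ := tac_PQ hl h
  obtain ⟨_, _, c3, c4⟩ := tac_cond hl h hr h.kp
  have hsw : bet f α ℓ r * swap (α (a 0)) (α (b 0)) = swap (a 0) (b 0) * bet f α ℓ r := by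
    rw [mul_swap_eq_swap_mul, c3, c4]
  unfold Wr
  rw [wp_kap hl h, wp_bet hl h hr, mul_inv_rev, swap_inv]
  nth_rewrite 1 [wp_rot hl h]
  generalize swp a b k = P at *
  generalize swp (fun i => α (a i)) (fun i => α (b i)) k = Q at *
  generalize (fr (α * f⁻¹) (Desc f ℓ))⁻¹ = K at *
  generalize bet f α ℓ r = β at *
  rw [eq_mul_inv_iff_mul_eq]
  have e1 : P * Q * β * (P * Q) = β := by
    calc P * Q * β * (P * Q) = P * Q * (β * P) * Q := by group
      _ = P * Q * (Q * β) * Q := by rw [b1]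
      _ = P * (Q * Q) * (β * Q) := by group
      _ = P * (P * β) := by rw [hQQ, b2, mul_one]
      _ = β := by rw [← mul_assoc, hPP, one_mul]
  calc P * Q * α * f⁻¹ * (K * swap (a 0) (b 0)) * (P * Q * β) * (P * Q)
      = P * Q * α * f⁻¹ * K * swap (a 0) (b 0) * (P * Q * β * (P * Q)) := by group
    _ = P * Q * α * f⁻¹ * K * (swap (a 0) (b 0) * β) := by rw [e1]; group
    _ = P * Q * (α * f⁻¹ * K * β * swap (α (a 0)) (α (b 0))) := by rw [← hsw]; group

theorem wr_hit (hl : Lb f α ℓ) {r : ℤ} {δ : D} (hδ : Tip f ℓ r δ) :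
    Hit (Wr f α ℓ r) (Tip f ℓ r) (Wr f α ℓ r (α δ)) δ := by
  obtain ⟨hD, hlev⟩ := hδ
  have hρ : ∀ d, ℓ ((α * f⁻¹) d) = ℓ d := by
    intro d
    rw [Perm.mul_apply, ← hl.ver]
    congr 1
    exact Equiv.apply_symm_apply f d
  have hlow : ∀ d, ℓ d ≤ ℓ (f d) + 1 := by
    intro d
    have h1 := hl.lip (α d)
    have h2 := hl.ver (α d)
    rw [hl.inv] at h2
    rw [h2, ← hl.ver d] at h1
    exact h1
  have hWv : ∀ d, Wr f α ℓ r d =
      (α * f⁻¹) ((fr (α * f⁻¹) (Desc f ℓ))⁻¹ (bet f α ℓ r d)) := fun d => rfl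
  have hb : bet f α ℓ r (α δ) = δ := by
    have h1 : ℓ (f δ) = ℓ δ - 1 := hD
    have h2 := hl.ver δ
    have h3 := hl.ver (α δ)
    rw [hl.inv] at h3
    rw [tac_bet_pos hl (by omega) (by omega) (by omega), hl.inv]
  have hpre := fr_pre (g := α * f⁻¹) (S := Desc f ℓ) hD
  have hcyc : ∀ (n : ℕ) (d : D), ℓ (((α * f⁻¹) ^ n) d) = ℓ d := by
    intro n d
    induction n with
    | zero => rfl
    | succ n ih => rw [pow_succ', Perm.mul_apply, hρ, ih]
  have hy : ℓ (Wr f α ℓ r (α δ)) = r := by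
    rw [hWv, hb]
    obtain ⟨_, n, hn, _⟩ := hpre
    rw [← hcyc n, hn, hlev]
  rw [hWv, hb] at hy ⊢
  refine hit_congr (g := α * f⁻¹) (S := Desc f ℓ) (Q := fun z => ℓ z = r) ?_ ?_ ?_ hy hpre
  · intro d hd _
    exact (hρ d).trans hd
  · intro d hd hnd
    have h1 : bet f α ℓ r d = d := by
      apply tac_bet_neg hl
      rintro ⟨h1, h2, h3⟩
      apply hnd
      have h4 := hlow d
      show ℓ (f d) = ℓ d - 1
      omega
    have h2 : (fr (α * f⁻¹) (Desc f ℓ))⁻¹ d = d := by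
      rw [Perm.inv_eq_iff_eq]
      exact ((fr_spec (α * f⁻¹) (Desc f ℓ)).out d hnd).symm
    rw [hWv, h1, h2]
  · intro d hd
    exact ⟨fun h => h.1, fun h => ⟨h, hd⟩⟩

theorem wp_tau (hl : Lb f α ℓ) (h : Wp f α ℓ k a b) {r : ℤ} (hr : ℓ (a 0) = r) :
    tau f (sw α a b k) ℓ r = tau f α ℓ r * swap (a 0) (b 0) := by
  obtain ⟨p1, p2, p3⟩ := tac_P hl h
  obtain ⟨q1, q2, q3⟩ := tac_Q hl h
  have hPQ := tac_PQ hl h
  have hk := h.kp
  have ta : Tip f ℓ r (a 0) := ⟨h.da 0 hk, hr⟩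
  have tb : Tip f ℓ r (b 0) := ⟨h.db 0 hk, by rw [h.st, hr]⟩
  set c := swp a b k * swp (fun i => α (a i)) (fun i => α (b i)) k with hc
  have hcc : ∀ d, c (c d) = d := by
    intro d
    have h1 : c * c = 1 := by
      calc c * c = swp a b k * (swp (fun i => α (a i)) (fun i => α (b i)) k * swp a b k) *
            swp (fun i => α (a i)) (fun i => α (b i)) k := by rw [hc]; group
        _ = (swp a b k * swp a b k) * (swp (fun i => α (a i)) (fun i => α (b i)) k *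
            swp (fun i => α (a i)) (fun i => α (b i)) k) := by rw [← hPQ, hc]; group
        _ = 1 := by rw [tac_PP hl h, tac_QQ hl h, one_mul]
    rw [← Perm.mul_apply, h1]
    rfl
  have hcT : ∀ d, Tip f ℓ r d → c d = swap (a 0) (b 0) d := by
    rintro d ⟨h1, h2⟩
    have h1' : ℓ (f d) = ℓ d - 1 := h1
    have h3 : swp (fun i => α (a i)) (fun i => α (b i)) k d = d := by
      apply q2
      intro i hi
      obtain ⟨l1, l2, l3, l4⟩ := wp_lev hl h i hi
      refine ⟨?_, ?_⟩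
      · rintro rfl
        exact swv_not_desc hl (h.da i hi) h1
      · rintro rfl
        exact swv_not_desc hl (h.db i hi) h1
    rw [hc, Perm.mul_apply, h3]
    by_cases h4 : d = a 0
    · rw [h4, (p1 0 hk).1, swap_apply_left]
    · by_cases h5 : d = b 0
      · rw [h5, (p1 0 hk).2, swap_apply_right]
      · rw [swap_apply_of_ne_of_ne h4 h5]
        apply p2
        intro i hi
        obtain ⟨l1, l2, l3, l4⟩ := wp_lev hl h i hi
        refine ⟨?_, ?_⟩
        · intro h6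
          have h7 : i = 0 := by
            rw [h6] at h2
            omega
          subst h7
          exact h4 h6
        · intro h6
          have h7 : i = 0 := by
            rw [h6] at h2
            omega
          subst h7
          exact h5 h6
  have hsT : ∀ d, Tip f ℓ r d → Tip f ℓ r (swap (a 0) (b 0) d) := by
    intro d hd
    by_cases h4 : d = a 0
    · rw [h4, swap_apply_left]; exact tb
    · by_cases h5 : d = b 0
      · rw [h5, swap_apply_right]; exact ta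
      · rw [swap_apply_of_ne_of_ne h4 h5]; exact hd
  have hT : ∀ d, Tip f ℓ r (c d) ↔ Tip f ℓ r d := by
    intro d
    constructor
    · intro hd
      have h1 := hsT _ hd
      rw [← hcT _ hd, hcc] at h1
      exact h1
    · intro hd
      rw [hcT d hd]
      exact hsT d hd
  have hcinv : ∀ d, c⁻¹ d = c d := by
    intro d
    rw [Perm.inv_eq_iff_eq, hcc]
  unfold tau
  rw [wp_wr hl h hr.le, ← hc, fr_conj _ c _ hT, mul_swap_eq_swap_mul,
    fr_swap (wr_hit hl ta) (wr_hit hl tb)]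
  ext d
  simp only [Perm.mul_apply]
  rw [hcinv]
  by_cases hd : Tip f ℓ r d
  · rw [hcT d hd]
    have h1 : Tip f ℓ r (swap (a 0) (b 0) (fr (Wr f α ℓ r) (Tip f ℓ r) (swap (a 0) (b 0) d))) :=
      hsT _ (fr_mem.2 (hsT d hd))
    rw [hcT _ h1, swap_apply_self]
  · have h1 : ¬ Tip f ℓ r (c d) := fun h' => hd ((hT d).1 h')
    have h2 : ∀ d, ¬ Tip f ℓ r d → swap (a 0) (b 0) d = d := by
      intro d hd
      apply swap_apply_of_ne_of_ne
      · rintro rfl
        exact hd ta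
      · rintro rfl
        exact hd tb
    rw [(fr_spec (Wr f α ℓ r) (Tip f ℓ r)).out _ h1, h2 _ h1, hcc, h2 d hd,
      (fr_spec (Wr f α ℓ r) (Tip f ℓ r)).out _ hd]

end QU91
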