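import Pool.Agent.H91.QU.Lab
import Pool.Agent.H91.QU.Che

/-!
[H91 QU THIN]  (MP_bcc40c_pr, Q2, part (U))  Reduction to a bounded number of tips in a set `B`.

PROOF.  Given `ω1 ω2 B ε` let `ε' = min (ε/2) (1/12)`, `StB` gives `η', n0'`; `η = η'/2`.  Let `n` be large, `N = ⌈n^(1/2+ε')⌉₊` (so `n^(1/2+ε') ≤ N ≤ 2 n^(1/2+ε')`, `4 ≤ N`, and `8 N ≤ n^(1/2+ε)`).  Let `E` be the set of StU and for `(α, x) ∈ E` let `z = zt f α x r ≥ 8 N`, `Z` the set of tips (lab_zt), `a = Nat.log 2 z`: `2^a ≤ z < 2^(a+1)`, `2^a ≥ 4 N`,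
`M = 2^a / (2 N)` (natural division, `≥ 2`), `m = M - 1`: `2 N M ≤ 2^a ≤ z` and `8 N M > 8 N (2^a/(2N) - 1) ≥ 2^(a+1) > z` (as `2^a ≥ 4 N`).  `z ≤ 6 n`, so `a ≤ Nat.log 2 (6 n)`.  Let `E_a` be the part of `E` with this `a`.  For `(α, x) ∈ E_a` che gives: at least half of the colourings `c : Fin (6n) → Fin M` satisfy
`N ≤ #(Z ∩ B_c) ≤ 16 N`, `B_c = {d | c d = 0}`; and `ZB f (dlab f α x) r B_c = Z.filter (c d = 0)`, so `(α, x) ∈ EB f v r B_c N`.  Double counting: `#E_a * M^(6n) ≤ 2 Σ_c #(E_a ∩ EB f v r B_c N) ≤ 2 M^(6n) n^(1-η') #TS`.  Sum over `a ≤ Nat.log 2 (6n)`: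
`#E ≤ 2 (Nat.log 2 (6 n) + 1) n^(1-η') #TS ≤ n^(1-η) #TS` for large `n`.
-/

set_option autoImplicit false

namespace QU91

open Equiv HG39 QD39 QL40

/-- the estimate with a bounded number of tips in a set `B` -/
def StB : Prop := ∀ (ω1 ω2 B0 ε : ℝ), 0 < ω1 → ω2 < 1 → 0 < B0 → 0 < ε → ε ≤ 1 / 12 →
  ∃ η : ℝ, 0 < η ∧ ∃ n0 : ℕ, ∀ n v N : ℕ, n0 ≤ n → ω1 * n ≤ v → (v : ℝ) ≤ ω2 * n →
  v % 2 = n % 2 → (n : ℝ) ^ (1 / 2 + ε) ≤ N → (N : ℝ) ≤ 2 * (n : ℝ) ^ (1 / 2 + ε) →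
  ∀ f : Perm (Fin (6 * n)), TF f → ∀ r : ℕ, 1 ≤ r → (r : ℝ) ≤ B0 * Real.log n →
  ∀ B : Finset (Fin (6 * n)),
    ((EB f v r B N).ncard : ℝ) ≤ (n : ℝ) ^ (1 - η) * (TS f v).ncard


open Classical in
private theorem thin_a {n v r N : ℕ} {f : Perm (Fin (6 * n))} (X : ℝ) (hX : 0 ≤ X) (hN : 4 ≤ N)
    (hB : ∀ B : Finset (Fin (6 * n)), ((EB f v r B N).ncard : ℝ) ≤ X) (a : ℕ)
    (E : Finset (Perm (Fin (6 * n)) × Fin (6 * n)))
    (hE : ∀ q ∈ E, q ∈ Pv f v ∧ Plan f q.1 (ball f q.1 q.2 (r + 1)) ∧ 8 * N ≤ zt f q.1 q.2 r ∧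
      Nat.log 2 (zt f q.1 q.2 r) = a) : (E.card : ℝ) ≤ 2 * X := by
  rcases E.eq_empty_or_nonempty with rfl | hne
  · rw [Finset.card_empty, Nat.cast_zero]
    positivity
  obtain ⟨q0, hq0⟩ := hne
  obtain ⟨-, -, h03, h04⟩ := hE q0 hq0
  have h2a : 4 * N + 1 ≤ 2 ^ a := by
    have := Nat.lt_pow_succ_log_self (by norm_num : 1 < 2) (zt f q0.1 q0.2 r)
    rw [h04, pow_succ] at this
    omega
  obtain ⟨M, hM⟩ : ∃ M, M = 2 ^ a / (2 * N) := ⟨_, rfl⟩
  have hM2 : 2 ≤ M := by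
    rw [hM, Nat.le_div_iff_mul_le (by omega)]
    omega
  obtain ⟨m, hm⟩ : ∃ m, M = m + 1 := ⟨M - 1, by omega⟩
  have hM1 : 2 * N * (m + 1) ≤ 2 ^ a := by
    rw [← hm, hM]
    exact Nat.mul_div_le _ _
  have hM3 : 2 ^ a < 2 * N * (m + 1) + 2 * N := by
    have := Nat.lt_mul_div_succ (2 ^ a) (by omega : 0 < 2 * N)
    rw [← hM, hm, mul_add, mul_one] at this
    exact this
  have key : ∀ q ∈ E, (m + 1) ^ (6 * n) ≤
      2 * (Finset.univ.filter fun c : Fin (6 * n) → Fin (m + 1) =>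
        q ∈ EB f v r (Finset.univ.filter fun d => c d = 0) N).card := by
    intro q hq
    obtain ⟨g1, g2, g3, g4⟩ := hE q hq
    have hz := lab_zt (f := f) (α := q.1) q.2 r
    have e1 : 2 ^ a ≤ zt f q.1 q.2 r := by
      rw [← g4]
      exact Nat.pow_log_le_self 2 (by omega)
    have e2 : zt f q.1 q.2 r < 2 ^ a * 2 := by
      have := Nat.lt_pow_succ_log_self (by norm_num : 1 < 2) (zt f q.1 q.2 r)
      rw [g4, pow_succ] at this
      exact this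
    rw [hz] at e1 e2
    have c1 := che (Finset.univ.filter fun d => Tip f (dlab f q.1 q.2) r d) m N hN
      (hM1.trans e1) (by
        have h5 : 8 * N * (m + 1) = 4 * (2 * N * (m + 1)) := by ring
        omega)
    rw [Fintype.card_fin] at c1
    refine c1.trans (Nat.mul_le_mul_left _ (Finset.card_le_card ?_))
    intro c hc
    rw [Finset.mem_filter] at hc ⊢
    have e3 : ZB f (dlab f q.1 q.2) r (Finset.univ.filter fun d => c d = 0) =
        (Finset.univ.filter fun d => Tip f (dlab f q.1 q.2) r d).filter fun d => c d = 0 := by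
      unfold ZB
      ext d
      simp only [Finset.mem_filter, Finset.mem_univ, true_and]
      exact and_comm
    refine ⟨Finset.mem_univ _, g1, g2, ?_, ?_⟩
    · rw [e3]
      exact hc.2.1
    · rw [e3]
      exact hc.2.2
  have h3 : E.card * (m + 1) ^ (6 * n) ≤
      2 * ∑ c : Fin (6 * n) → Fin (m + 1),
        (E.filter fun q => q ∈ EB f v r (Finset.univ.filter fun d => c d = 0) N).card := by
    have h4 : ∑ c : Fin (6 * n) → Fin (m + 1),
        (E.filter fun q => q ∈ EB f v r (Finset.univ.filter fun d => c d = 0) N).card =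
        ∑ q ∈ E, (Finset.univ.filter fun c : Fin (6 * n) → Fin (m + 1) =>
          q ∈ EB f v r (Finset.univ.filter fun d => c d = 0) N).card := by
      simp only [Finset.card_filter]
      exact Finset.sum_comm
    rw [h4, Finset.mul_sum]
    calc E.card * (m + 1) ^ (6 * n) = ∑ _q ∈ E, (m + 1) ^ (6 * n) := by
          rw [Finset.sum_const, smul_eq_mul]
      _ ≤ _ := Finset.sum_le_sum key
  have h5 : ∀ c : Fin (6 * n) → Fin (m + 1),
      ((E.filter fun q => q ∈ EB f v r (Finset.univ.filter fun d => c d = 0) N).card : ℝ) ≤ X := by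
    intro c
    refine le_trans ?_ (hB (Finset.univ.filter fun d => c d = 0))
    have hfin : (EB f v r (Finset.univ.filter fun d => c d = 0) N).Finite := Set.toFinite _
    rw [Set.ncard_eq_toFinset_card _ hfin]
    refine Nat.cast_le.2 (Finset.card_le_card ?_)
    intro q hq
    rw [Finset.mem_filter] at hq
    rw [Set.Finite.mem_toFinset]
    exact hq.2
  have h6 : (E.card : ℝ) * ((m : ℝ) + 1) ^ (6 * n) ≤ 2 * (((m : ℝ) + 1) ^ (6 * n) * X) := by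
    have h7 : ((E.card * (m + 1) ^ (6 * n) : ℕ) : ℝ) ≤
        ((2 * ∑ c : Fin (6 * n) → Fin (m + 1),
        (E.filter fun q => q ∈ EB f v r (Finset.univ.filter fun d => c d = 0) N).card : ℕ) : ℝ) :=
      Nat.cast_le.2 h3
    push_cast at h7
    refine h7.trans ?_
    refine mul_le_mul_of_nonneg_left ?_ (by norm_num)
    refine (Finset.sum_le_card_nsmul _ _ X fun c _ => h5 c).trans (le_of_eq ?_)
    rw [Finset.card_univ, Fintype.card_fun, Fintype.card_fin, Fintype.card_fin, nsmul_eq_mul]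
    push_cast
    ring
  have h8 : (0 : ℝ) < ((m : ℝ) + 1) ^ (6 * n) := by positivity
  have h9 : (E.card : ℝ) * ((m : ℝ) + 1) ^ (6 * n) ≤ (2 * X) * ((m : ℝ) + 1) ^ (6 * n) := by
    linarith
  exact le_of_mul_le_mul_right h9 h8

private theorem thin_log (s : ℝ) (hs : 0 < s) : ∃ n1 : ℕ, ∀ n : ℕ, n1 ≤ n →
    2 * ((Nat.log 2 (6 * n) : ℝ) + 1) ≤ (n : ℝ) ^ s := by
  have hl2 : 0 < Real.log 2 := Real.log_pos (by norm_num)
  have h1 : ∀ᶠ x : ℝ in Filter.atTop, ‖Real.log x‖ ≤ Real.log 2 / 4 * ‖x ^ s‖ :=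
    (isLittleO_log_rpow_atTop hs).bound (by positivity)
  have h2 : ∀ᶠ x : ℝ in Filter.atTop, 4 * (Real.log 6 / Real.log 2 + 1) ≤ x ^ s :=
    (tendsto_rpow_atTop hs).eventually_ge_atTop _
  have h3 : ∀ᶠ x : ℝ in Filter.atTop, (1 : ℝ) ≤ x := Filter.eventually_ge_atTop 1
  have h4 := (tendsto_natCast_atTop_atTop (R := ℝ)).eventually (h1.and (h2.and h3))
  obtain ⟨n1, hn1⟩ := Filter.eventually_atTop.1 h4
  refine ⟨n1, fun n hn => ?_⟩
  obtain ⟨g1, g2, g3⟩ := hn1 n hn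
  have g4 : 0 ≤ (n : ℝ) ^ s := by positivity
  rw [Real.norm_of_nonneg (Real.log_nonneg g3), Real.norm_of_nonneg g4] at g1
  have g5 : (Nat.log 2 (6 * n) : ℝ) ≤ Real.logb 2 ((6 * n : ℕ) : ℝ) := Real.natLog_le_logb _ _
  have g6 : Real.logb 2 ((6 * n : ℕ) : ℝ) = (Real.log 6 + Real.log n) / Real.log 2 := by
    unfold Real.logb
    push_cast
    rw [Real.log_mul (by norm_num) (by positivity)]
  rw [g6] at g5
  have g7 : Real.log n / Real.log 2 ≤ (n : ℝ) ^ s / 4 := by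
    rw [div_le_iff₀ hl2]
    linarith
  rw [add_div] at g5
  linarith
theorem thin (h : StB) : StU := by
  classical
  intro ω1 ω2 B0 ε hω1 hω2 hB0 hε
  have hε1 : 0 < min (ε / 2) (1 / 12) := by positivity
  obtain ⟨η, hη, n0, h0⟩ := h ω1 ω2 B0 (min (ε / 2) (1 / 12)) hω1 hω2 hB0 hε1 (min_le_right _ _)
  set ε' := min (ε / 2) (1 / 12) with hε'
  obtain ⟨n1, hn1⟩ := thin_log (η / 2) (by positivity)
  have h2 : ∀ᶠ x : ℝ in Filter.atTop, 16 ≤ x ^ (ε / 2) :=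
    (tendsto_rpow_atTop (by positivity)).eventually_ge_atTop _
  obtain ⟨n2, hn2⟩ := Filter.eventually_atTop.1
    ((tendsto_natCast_atTop_atTop (R := ℝ)).eventually h2)
  refine ⟨η / 2, by positivity, max (max n0 n1) (max n2 16), ?_⟩
  intro n v hn hv1 hv2 hv3 f hf r hr hr2
  have hn0 : n0 ≤ n := le_trans (le_trans (le_max_left _ _) (le_max_left _ _)) hn
  have hn1' : n1 ≤ n := le_trans (le_trans (le_max_right _ _) (le_max_left _ _)) hn
  have hn2' : n2 ≤ n := le_trans (le_trans (le_max_left _ _) (le_max_right _ _)) hn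
  have hn16 : 16 ≤ n := le_trans (le_trans (le_max_right _ _) (le_max_right _ _)) hn
  have hnR : (16 : ℝ) ≤ n := by exact_mod_cast hn16
  have hnpos : (0 : ℝ) < n := by linarith
  have hx4 : (4 : ℝ) ≤ (n : ℝ) ^ (1 / 2 + ε') := by
    calc (4 : ℝ) = (16 : ℝ) ^ (1 / 2 : ℝ) := by
          rw [show (16 : ℝ) = 4 ^ (2 : ℝ) by norm_num, ← Real.rpow_mul (by norm_num)]
          norm_num
      _ ≤ (n : ℝ) ^ (1 / 2 : ℝ) := Real.rpow_le_rpow (by norm_num) hnR (by norm_num)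
      _ ≤ (n : ℝ) ^ (1 / 2 + ε') :=
        Real.rpow_le_rpow_of_exponent_le (by linarith) (by linarith)
  obtain ⟨N, hN⟩ : ∃ N, N = ⌈(n : ℝ) ^ (1 / 2 + ε')⌉₊ := ⟨_, rfl⟩
  have hN1 : (n : ℝ) ^ (1 / 2 + ε') ≤ N := by
    rw [hN]
    exact Nat.le_ceil _
  have hN2 : (N : ℝ) ≤ 2 * (n : ℝ) ^ (1 / 2 + ε') := by
    rw [hN]
    have := Nat.ceil_lt_add_one (by positivity : (0 : ℝ) ≤ (n : ℝ) ^ (1 / 2 + ε'))
    linarith
  have hN4 : 4 ≤ N := by
    have : (4 : ℝ) ≤ N := hx4.trans hN1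
    exact_mod_cast this
  have hN8 : (8 : ℝ) * N ≤ (n : ℝ) ^ (1 / 2 + ε) := by
    have e1 : (n : ℝ) ^ (1 / 2 + ε') * 16 ≤ (n : ℝ) ^ (1 / 2 + ε') * (n : ℝ) ^ (ε / 2) :=
      mul_le_mul_of_nonneg_left (hn2 n hn2') (by positivity)
    rw [← Real.rpow_add hnpos] at e1
    have e2 : (n : ℝ) ^ (1 / 2 + ε' + ε / 2) ≤ (n : ℝ) ^ (1 / 2 + ε) := by
      refine Real.rpow_le_rpow_of_exponent_le (by linarith) ?_
      have : ε' ≤ ε / 2 := min_le_left _ _
      linarith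
    linarith
  have hEB := h0 n v N hn0 hv1 hv2 hv3 hN1 hN2 f hf r hr hr2
  set X : ℝ := (n : ℝ) ^ (1 - η) * (TS f v).ncard with hX
  have hX0 : 0 ≤ X := by positivity
  have hfin : {q : Perm (Fin (6 * n)) × Fin (6 * n) | q.1 ∈ TS f v ∧ rep f q.1 q.2 = q.2 ∧
      Plan f q.1 (ball f q.1 q.2 (r + 1)) ∧
      (n : ℝ) ^ (1 / 2 + ε) ≤ (zt f q.1 q.2 r : ℝ)}.Finite := Set.toFinite _
  rw [Set.ncard_eq_toFinset_card _ hfin]
  rw [Finset.card_eq_sum_card_fiberwise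
    (f := fun q : Perm (Fin (6 * n)) × Fin (6 * n) => Nat.log 2 (zt f q.1 q.2 r))
    (t := Finset.range (Nat.log 2 (6 * n) + 1))]
  · have h3 : ∀ a ∈ Finset.range (Nat.log 2 (6 * n) + 1), (((hfin.toFinset.filter
        fun q : Perm (Fin (6 * n)) × Fin (6 * n) => Nat.log 2 (zt f q.1 q.2 r) = a).card : ℕ) : ℝ)
        ≤ 2 * X := by
      intro a _
      refine thin_a X hX0 hN4 hEB a _ ?_
      intro q hq
      rw [Finset.mem_filter, Set.Finite.mem_toFinset] at hq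
      obtain ⟨⟨g1, g2, g3, g4⟩, g5⟩ := hq
      refine ⟨⟨g1, g2⟩, g3, ?_, g5⟩
      have : ((8 * N : ℕ) : ℝ) ≤ (zt f q.1 q.2 r : ℝ) := by
        push_cast
        exact hN8.trans g4
      exact_mod_cast this
    push_cast
    refine (Finset.sum_le_card_nsmul _ _ _ h3).trans ?_
    rw [Finset.card_range, nsmul_eq_mul]
    have h4 := hn1 n hn1'
    have h5 : (n : ℝ) ^ (1 - η / 2) = (n : ℝ) ^ (η / 2) * (n : ℝ) ^ (1 - η) := by
      rw [← Real.rpow_add hnpos]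
      congr 1
      ring
    rw [h5, mul_assoc]
    push_cast
    calc ((Nat.log 2 (6 * n) : ℝ) + 1) * (2 * X) = (2 * ((Nat.log 2 (6 * n) : ℝ) + 1)) * X := by
          ring
      _ ≤ (n : ℝ) ^ (η / 2) * X := mul_le_mul_of_nonneg_right h4 hX0
  · intro q _
    rw [Finset.mem_coe, Finset.mem_range, Nat.lt_succ_iff]
    refine Nat.log_mono_right ?_
    unfold zt
    refine (Finset.card_le_univ _).trans (le_of_eq ?_)
    rw [Fintype.card_fin]

end QU91
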