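import Pool.Agent.H91.QU.Two
import Pool.Agent.H91.QU.Ncr
import Pool.Agent.H91.QU.Pos

/-!
[H91 QU TRI]  (MP_bcc40c_pr, Q2, part (U))  A vertex with many tips of `B` at the last level of a planar ball.

Let `ℓ = dlab f α x`, `τ = tau f α ℓ r`, `Z = ZB f ℓ r B`, positions `pos τ s0 z`; all tips are in the cycle of `s0` (lab_tip).
PROOF.  Let `c_0, c_1, ..., c_(m-1)` (`m ≥ 3 L`) be the elements of `Z` in the vertex of `s0`, sorted by their positions (different by pos_inj).  Let `p = c_(L-1)`, `p' = c_(3L-1)`, `s = c_(2L-1)`.  `Dc f α ℓ r p p' s p'`: `v1`: the same vertex; `n2`: `s ≠ p'`; `t2`: `tau f (Sg f α ℓ p p') ℓ r = τ * swap p p'` (sg_tau), cell1: `s` and `p'` both have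
`pos p < pos ≤ pos p'`.  `v2`: by sgv_in (`(f * α).SameCycle s p`) `s` is in the new vertex of `p` or in that of `p'`; if it were in that of `p`, ncr would give `(τ * swap p p').SameCycle s p`, but cell1 says no.
Sizes (dc_rare): `csz (τ * swap p p') p ≥ L`: contains `c_0, ..., c_(L-1)` (cell1: positions `≤ pos p`); `csz (τ * swap p p') p' ≥ L`: contains `c_L, ..., c_(3L-1)`; with cell2 for `(s, t, s', t') = (p, p', s, p')` (`pos p < pos s < pos p' ≤ pos p'`): `csz (τ * swap p p' * swap s p') s ≥ L`: contains `c_L, ..., c_(2L-1)` (middle cell: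
`pos p < pos ≤ pos s`); `csz .. p' ≥ L`: contains `c_(2L), ..., c_(3L-1)`.  So by dc_rare RA1 or RA2 or `PT`, and in the last case TR.
(Sorting: e.g. `Finset.orderEmbOfFin` for the image of the set under `pos τ s0`.)
-/

set_option autoImplicit false

namespace QU91

open Equiv HG39 QD39 QL40

variable {D : Type} [Fintype D] [DecidableEq D]

private theorem tri_enum {A : Type} [DecidableEq A] (a0 : A) (Q : Finset A) (φ : A → ℕ)
    (hinj : ∀ x ∈ Q, ∀ y ∈ Q, φ x = φ y → x = y) :
    ∃ q : ℕ → A, (∀ i < Q.card, q i ∈ Q) ∧ ∀ i j, i < j → j < Q.card → φ (q i) < φ (q j) := by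
  have hc : (Q.image φ).card = Q.card := Finset.card_image_of_injOn fun x hx y hy h =>
    hinj x hx y hy h
  have hex : ∀ i : Fin Q.card, ∃ a ∈ Q, φ a = (Q.image φ).orderEmbOfFin hc i := fun i =>
    Finset.mem_image.1 (Finset.orderEmbOfFin_mem _ hc i)
  choose g hg1 hg2 using hex
  refine ⟨fun i => if h : i < Q.card then g ⟨i, h⟩ else a0, fun i hi => ?_, fun i j hij hj => ?_⟩
  · simp only [dif_pos hi]
    exact hg1 _
  · have hi : i < Q.card := by omega
    simp only [dif_pos hi, dif_pos hj]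
    rw [hg2, hg2]
    exact ((Q.image φ).orderEmbOfFin hc).strictMono (Fin.mk_lt_mk.2 hij)

private theorem tri_csz {π : Perm D} {p : D} {c : ℕ → D} (a n : ℕ)
    (hinj : ∀ i j, i < j → j < a + n → c i ≠ c j)
    (h : ∀ i, a ≤ i → i < a + n → π.SameCycle p (c i)) : n ≤ csz π p := by
  classical
  have h1 : (Finset.range n).card ≤ (Finset.univ.filter fun d => π.SameCycle p d).card := by
    apply Finset.card_le_card_of_injOn (fun i => c (a + i))
    · intro i hi
      have hi' : i < n := Finset.mem_range.1 hi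
      exact Finset.mem_coe.2 (Finset.mem_filter.2 ⟨Finset.mem_univ _, h _ (by omega) (by omega)⟩)
    · intro i hi j hj hij
      have hi' : i < n := Finset.mem_range.1 hi
      have hj' : j < n := Finset.mem_range.1 hj
      rcases lt_trichotomy i j with h2 | h2 | h2
      · exact absurd hij (hinj _ _ (by omega) (by omega))
      · exact h2
      · exact absurd hij.symm (hinj _ _ (by omega) (by omega))
  rw [Finset.card_range] at h1
  unfold csz
  convert h1

open Classical in
theorem tri_ex {f : Perm D} (hf : TF f) {v r : ℕ} {q : Perm D × D} (hq : q ∈ Pv f v)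
    (hpl : Plan f q.1 (ball f q.1 q.2 (r + 1))) (B : Finset D) {Nz : ℕ}
    (hz : (ZB f (dlab f q.1 q.2) r B).card ≤ Nz) (L : ℕ) (hL : 1 ≤ L) {s0 : D}
    (hs0 : s0 ∈ ZB f (dlab f q.1 q.2) r B)
    (hc : 3 * L ≤ ((ZB f (dlab f q.1 q.2) r B).filter fun w =>
      (f * q.1).SameCycle s0 w).card) :
    q ∈ RA1 f v r L ∨ q ∈ RA2 f v r L ∨ q ∈ TR f v r B Nz := by
  obtain ⟨α, x⟩ := q
  have hTS : α ∈ TS f v := hq.1
  have hα : PT f α [] := hTS.1
  have hx : rep f α x = x := hq.2
  simp only at hpl hz hs0 hc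
  have hl := lab_lb hf hα x
  have nn : ∀ d, 0 ≤ dlab f α x d := fun d => lab_nn x d
  have hZ : ∀ z, z ∈ ZB f (dlab f α x) r B → z ∈ B ∧ Tip f (dlab f α x) r z := by
    intro z hz
    unfold ZB at hz
    exact Finset.mem_filter.1 hz
  have hts0 := (hZ s0 hs0).2
  obtain ⟨c, hc1, hc2⟩ := tri_enum s0 ((ZB f (dlab f α x) r B).filter fun w =>
      (f * α).SameCycle s0 w) (fun w => pos (tau f α (dlab f α x) r) s0 w) (by
    intro z hz w hw h
    exact pos_inj (lab_tip hf hα x hts0 (hZ z (Finset.mem_filter.1 hz).1).2)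
      (lab_tip hf hα x hts0 (hZ w (Finset.mem_filter.1 hw).1).2) h)
  have cB : ∀ i < 3 * L, c i ∈ B := fun i hi =>
    (hZ _ (Finset.mem_filter.1 (hc1 i (by omega))).1).1
  have cT : ∀ i < 3 * L, Tip f (dlab f α x) r (c i) := fun i hi =>
    (hZ _ (Finset.mem_filter.1 (hc1 i (by omega))).1).2
  have cV : ∀ i < 3 * L, (f * α).SameCycle s0 (c i) := fun i hi =>
    (Finset.mem_filter.1 (hc1 i (by omega))).2
  have cS : ∀ i < 3 * L, (tau f α (dlab f α x) r).SameCycle s0 (c i) := fun i hi =>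
    lab_tip hf hα x hts0 (cT i hi)
  have cP : ∀ i j, i < j → j < 3 * L → pos (tau f α (dlab f α x) r) s0 (c i) <
      pos (tau f α (dlab f α x) r) s0 (c j) := fun i j hij hj => hc2 i j hij (by omega)
  have cQ : ∀ i j, i ≤ j → j < 3 * L → pos (tau f α (dlab f α x) r) s0 (c i) ≤
      pos (tau f α (dlab f α x) r) s0 (c j) := by
    intro i j hij hj
    rcases Nat.eq_or_lt_of_le hij with h | h
    · rw [h]
    · exact (cP i j h hj).le
  have cN : ∀ i j, i < j → j < 3 * L → c i ≠ c j := by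
    intro i j hij hj h
    have h1 := cP i j hij hj
    rw [h] at h1
    exact lt_irrefl _ h1
  have p1 := cP (L - 1) (2 * L - 1) (by omega) (by omega)
  have p2 := cP (2 * L - 1) (3 * L - 1) (by omega) (by omega)
  have p3 := cP (L - 1) (3 * L - 1) (by omega) (by omega)
  have hpq := cN (L - 1) (3 * L - 1) (by omega) (by omega)
  have hsq := cN (2 * L - 1) (3 * L - 1) (by omega) (by omega)
  have tp := cT (L - 1) (by omega)
  have tq := cT (3 * L - 1) (by omega)
  have ts := cT (2 * L - 1) (by omega)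
  have Sp := cS (L - 1) (by omega)
  have Sq := cS (3 * L - 1) (by omega)
  have Ss := cS (2 * L - 1) (by omega)
  have hv : (f * α).SameCycle (c (L - 1)) (c (3 * L - 1)) :=
    (cV (L - 1) (by omega)).symm.trans (cV (3 * L - 1) (by omega))
  have hvs : (f * α).SameCycle (c (2 * L - 1)) (c (L - 1)) :=
    (cV (2 * L - 1) (by omega)).symm.trans (cV (L - 1) (by omega))
  have hDc : Dc f α (dlab f α x) r (c (L - 1)) (c (3 * L - 1)) (c (2 * L - 1))
      (c (3 * L - 1)) := by
    refine ⟨tp, tq, ts, tq, hpq, hv, hsq, ?_, ?_⟩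
    · rcases sgv_in hl nn tp tq hpq hv hvs with h | h
      · exfalso
        have h1 := ncr hf hα x hpl tp tq hpq hv ts tp h
        rw [cell1 Sp Sq Ss Sp p3] at h1
        exact lt_irrefl _ (h1.1 ⟨p1, p2.le⟩).1
      · exact h
    · rw [sg_tau hl nn tp tq hpq, cell1 Sp Sq Ss Sq p3]
      exact ⟨fun _ => ⟨p3, le_rfl⟩, fun _ => ⟨p1, p2.le⟩⟩
  have s1 : L ≤ csz (tau f α (dlab f α x) r * swap (c (L - 1)) (c (3 * L - 1))) (c (L - 1)) := by
    apply tri_csz 0 L (c := c) (fun i j hij hj => cN i j hij (by omega))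
    intro i _ hi
    rw [cell1 Sp Sq Sp (cS i (by omega)) p3]
    have h1 := cQ i (L - 1) (by omega) (by omega)
    constructor
    · rintro ⟨h2, -⟩
      exact absurd h2 (lt_irrefl _)
    · rintro ⟨h2, -⟩
      exact absurd h2 (not_lt.2 h1)
  have s2 : L ≤ csz (tau f α (dlab f α x) r * swap (c (L - 1)) (c (3 * L - 1)))
      (c (3 * L - 1)) := by
    apply tri_csz L L (c := c) (fun i j hij hj => cN i j hij (by omega))
    intro i hi1 hi
    rw [cell1 Sp Sq Sq (cS i (by omega)) p3]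
    have h1 := cP (L - 1) i (by omega) (by omega)
    have h2 := cQ i (3 * L - 1) (by omega) (by omega)
    exact ⟨fun _ => ⟨h1, h2⟩, fun _ => ⟨p3, le_rfl⟩⟩
  have s3 : L ≤ csz (tau f α (dlab f α x) r * swap (c (L - 1)) (c (3 * L - 1)) *
      swap (c (2 * L - 1)) (c (3 * L - 1))) (c (2 * L - 1)) := by
    apply tri_csz L L (c := c) (fun i j hij hj => cN i j hij (by omega))
    intro i hi1 hi
    rw [cell2 Sp Sq Ss Sq Ss (cS i (by omega)) p1 p2 le_rfl]
    have h1 := cP (L - 1) i (by omega) (by omega)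
    have h2 := cQ i (3 * L - 1) (by omega) (by omega)
    have h3 := cQ i (2 * L - 1) (by omega) (by omega)
    refine ⟨⟨fun _ => ⟨h1, h2⟩, fun _ => ⟨p1, p2.le⟩⟩, ?_, ?_⟩
    · rintro ⟨h4, -⟩
      exact absurd h4 (lt_irrefl _)
    · rintro ⟨h4, -⟩
      exact absurd h4 (not_lt.2 h3)
  have s4 : L ≤ csz (tau f α (dlab f α x) r * swap (c (L - 1)) (c (3 * L - 1)) *
      swap (c (2 * L - 1)) (c (3 * L - 1))) (c (3 * L - 1)) := by
    apply tri_csz (2 * L) L (c := c) (fun i j hij hj => cN i j hij (by omega))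
    intro i hi1 hi
    rw [cell2 Sp Sq Ss Sq Sq (cS i (by omega)) p1 p2 le_rfl]
    have h1 := cP (L - 1) i (by omega) (by omega)
    have h2 := cQ i (3 * L - 1) (by omega) (by omega)
    have h3 := cP (2 * L - 1) i (by omega) (by omega)
    exact ⟨⟨fun _ => ⟨h1, h2⟩, fun _ => ⟨p3, le_rfl⟩⟩, fun _ => ⟨h3, h2⟩,
      fun _ => ⟨p2, le_rfl⟩⟩
  rcases dc_rare hf hTS hx hDc L s1 s2 s3 s4 with h | h | h
  · exact Or.inl h
  · exact Or.inr (Or.inl h)
  · exact Or.inr (Or.inr ⟨hq, hz, c (L - 1), cB _ (by omega), c (3 * L - 1), cB _ (by omega),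
      c (2 * L - 1), cB _ (by omega), hDc, h⟩)

end QU91
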