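import Pool.Agent.H91.QU.Lab
import Pool.Agent.H91.QU.Sgc
import Pool.Agent.H91.QU.Sgv

/-!
[H91 QU TWO]  (MP_bcc40c_pr, Q2, part (U))  One and two surgeries starting from distance labels.

Let `ℓ = dlab f α x`, `α ∈ TS f v`.  lab_lm: `Lm f α ℓ 1 r`; lab_tip: all tips are in one cycle of `tau f α ℓ r`.
PROOFS.
cut0: `cyc = v - 1 + 1` (sg_cyc), connected: sg_con1; sg_lm; sg_flip; `tau' = tau * swap p q` and `(tau).SameCycle p q`: `¬ (tau * swap p q).SameCycle p q` (the two elements are in different cycles after the multiplication: if they were in one cycle, cyc_swap_same / cyc_swap_diff for `tau * swap p q` would give a contradiction; or sc_sw of WQA).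
cut1: `cyc = v + 1 + 1`, sg_lm.
dc_cyc, dc_lm, dc_tau, dc_back: the same for the second surgery, with the labelled map `(Sg f α ℓ p q, ℓ)` (`Dc.v2`, `Dc.t2`), sg_back twice.
dc_rare: if `¬ PT f (Sg f α ℓ p q) []`: sg_dis with `w = v + 2` gives RA1.  If it is PT and `¬ PT f (S2 ..) []`: sg_dis for the second surgery, `w = v + 4`: RA2.
-/

set_option autoImplicit false

namespace QU91

open Equiv HG39 QD39 QL40

variable {D : Type} [Fintype D] [DecidableEq D]

variable {f α : Perm D} {v : ℕ} {x : D} {r : ℕ} {p q p2 q2 : D}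

private theorem two_nsc (π : Perm D) {p q : D} (hpq : p ≠ q) (h : π.SameCycle p q) :
    ¬ (π * swap p q).SameCycle p q := by
  intro h'
  have h1 := cyc_swap_same π p q hpq h
  have h2 := cyc_swap_same (π * swap p q) p q hpq h'
  rw [mul_assoc, swap_mul_self, mul_one] at h2
  omega

theorem cut0 (hf : TF f) (hα : α ∈ TS f v) (hp : Tip f (dlab f α x) r p)
    (hq : Tip f (dlab f α x) r q) (hv : ¬ (f * α).SameCycle p q) :
    Sg f α (dlab f α x) p q ∈ TS f v ∧ Lm f (Sg f α (dlab f α x) p q) (dlab f α x) 2 r ∧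
      (f * Sg f α (dlab f α x) p q).SameCycle p q ∧
      ¬ (tau f (Sg f α (dlab f α x) p q) (dlab f α x) r).SameCycle p q := by
  have hl := lab_lb hf hα.1 x
  have nn : ∀ d, 0 ≤ dlab f α x d := fun d => lab_nn x d
  have hpq : p ≠ q := by
    rintro rfl
    exact hv (Perm.SameCycle.refl _ _)
  have ht := lab_tip hf hα.1 x hp hq
  have h1 := sg_cyc hl nn hp hq hpq
  unfold es at h1
  rw [if_neg hv, if_pos ht] at h1
  have h2 : cyc (f * α) = v := hα.2
  refine ⟨⟨sg_con1 hf hα.1 hl nn hp hq hpq (Or.inl hv), by omega⟩,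
    sg_lm (lab_lm hf hα.1 x r) hp hq hpq, (sg_flip hl nn hp hq hpq).2 hv, ?_⟩
  rw [sg_tau hl nn hp hq hpq]
  exact two_nsc _ hpq ht

theorem cut1 (hf : TF f) (hα : α ∈ TS f v) (hp : Tip f (dlab f α x) r p)
    (hq : Tip f (dlab f α x) r q) (hpq : p ≠ q) (hv : (f * α).SameCycle p q) :
    cyc (f * Sg f α (dlab f α x) p q) = v + 2 ∧
      Lm f (Sg f α (dlab f α x) p q) (dlab f α x) 2 r := by
  have hl := lab_lb hf hα.1 x
  have nn : ∀ d, 0 ≤ dlab f α x d := fun d => lab_nn x d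
  have ht := lab_tip hf hα.1 x hp hq
  have h1 := sg_cyc hl nn hp hq hpq
  unfold es at h1
  rw [if_pos hv, if_pos ht] at h1
  have h2 : cyc (f * α) = v := hα.2
  exact ⟨by omega, sg_lm (lab_lm hf hα.1 x r) hp hq hpq⟩

theorem dc_cyc (hf : TF f) (hα : α ∈ TS f v) (h : Dc f α (dlab f α x) r p q p2 q2) :
    cyc (f * S2 f α (dlab f α x) p q p2 q2) = v + 4 := by
  have hl := lab_lb hf hα.1 x
  have nn : ∀ d, 0 ≤ dlab f α x d := fun d => lab_nn x d
  have h0 := (cut1 hf hα h.tp h.tq h.n1 h.v1).1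
  have h1 := sg_cyc (sg_lb hl nn h.tp h.tq h.n1) nn h.tp2 h.tq2 h.n2
  unfold es at h1
  rw [if_pos h.v2, if_pos h.t2] at h1
  unfold S2
  omega

theorem dc_lm (hf : TF f) (hα : α ∈ TS f v) (h : Dc f α (dlab f α x) r p q p2 q2) :
    Lm f (S2 f α (dlab f α x) p q p2 q2) (dlab f α x) 3 r := by
  exact sg_lm (cut1 hf hα h.tp h.tq h.n1 h.v1).2 h.tp2 h.tq2 h.n2

theorem dc_tau (hf : TF f) (hα : α ∈ TS f v) (h : Dc f α (dlab f α x) r p q p2 q2) :
    tau f (S2 f α (dlab f α x) p q p2 q2) (dlab f α x) r =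
      tau f α (dlab f α x) r * swap p q * swap p2 q2 := by
  have hl := lab_lb hf hα.1 x
  have nn : ∀ d, 0 ≤ dlab f α x d := fun d => lab_nn x d
  unfold S2
  rw [sg_tau (sg_lb hl nn h.tp h.tq h.n1) nn h.tp2 h.tq2 h.n2, sg_tau hl nn h.tp h.tq h.n1]

theorem dc_back (hf : TF f) (hα : α ∈ TS f v) (h : Dc f α (dlab f α x) r p q p2 q2) :
    Sg f (Sg f (S2 f α (dlab f α x) p q p2 q2) (dlab f α x) p2 q2) (dlab f α x) p q = α := by
  have hl := lab_lb hf hα.1 x
  have nn : ∀ d, 0 ≤ dlab f α x d := fun d => lab_nn x d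
  unfold S2
  rw [sg_back (sg_lb hl nn h.tp h.tq h.n1) nn h.tp2 h.tq2 h.n2, sg_back hl nn h.tp h.tq h.n1]

theorem dc_rare (hf : TF f) (hα : α ∈ TS f v) (hx : rep f α x = x)
    (h : Dc f α (dlab f α x) r p q p2 q2) (L : ℕ)
    (s1 : L ≤ csz (tau f α (dlab f α x) r * swap p q) p)
    (s2 : L ≤ csz (tau f α (dlab f α x) r * swap p q) q)
    (s3 : L ≤ csz (tau f α (dlab f α x) r * swap p q * swap p2 q2) p2)
    (s4 : L ≤ csz (tau f α (dlab f α x) r * swap p q * swap p2 q2) q2) :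
    (α, x) ∈ RA1 f v r L ∨ (α, x) ∈ RA2 f v r L ∨
      PT f (S2 f α (dlab f α x) p q p2 q2) [] := by
  have hl := lab_lb hf hα.1 x
  have nn : ∀ d, 0 ≤ dlab f α x d := fun d => lab_nn x d
  have hPv : (α, x) ∈ Pv f v := ⟨hα, hx⟩
  have e1 := sg_tau hl nn h.tp h.tq h.n1
  have e2 := dc_tau hf hα h
  by_cases c1 : PT f (Sg f α (dlab f α x) p q) []
  · by_cases c2 : PT f (S2 f α (dlab f α x) p q p2 q2) []
    · exact Or.inr (Or.inr c2)
    · refine Or.inr (Or.inl ⟨hPv, p, q, p2, q2, h, ?_⟩)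
      refine sg_dis hf c1 (sg_lb hl nn h.tp h.tq h.n1) nn h.tp2 h.tq2 h.n2 c2 (dc_cyc hf hα h)
        ?_ ?_
      · change L ≤ csz (tau f (S2 f α (dlab f α x) p q p2 q2) (dlab f α x) r) p2
        rw [e2]
        exact s3
      · change L ≤ csz (tau f (S2 f α (dlab f α x) p q p2 q2) (dlab f α x) r) q2
        rw [e2]
        exact s4
  · refine Or.inl ⟨hPv, p, q, h.tp, h.tq, h.n1, h.v1, ?_⟩
    refine sg_dis hf hα.1 hl nn h.tp h.tq h.n1 c1 (cut1 hf hα h.tp h.tq h.n1 h.v1).1 ?_ ?_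
    · rw [e1]
      exact s1
    · rw [e1]
      exact s2

end QU91
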