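import Pool.Agent.H91.QU.Sgf
import Pool.Agent.H40.QL.Addp
import Pool.Agent.H39.UI.Vtx

/-!
[H91 QU VBS]  (MP_bcc40c_pr, Q2, part (U))  The number `vb` of the ball after the surgery.

Let `F = lball f ℓ r` (closed under `f`; it depends only on `f, ℓ, r`), `α' = Sg f α ℓ p q = sw α a b k` with `Wp f α ℓ k a b` (wp_exists, sg_eq), `αF = inn α F` (UI39: `α` on the darts `d ∈ F` with `α d ∈ F`, identity elsewhere; inn_apply).
All darts `a i, b i, α (a i), α (b i)` have levels `≤ r` (wp_lev), so they are in `F` and their partners too.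
PROOFS.
lb_mem: if `ℓ d ≤ r` then `d ∈ F`; if `ℓ d ≤ r` or `ℓ (f d) ≤ r` then `d ∈ F` and `α d ∈ F` (`ℓ (f d) = ℓ (α d)`, `ℓ (f (α d)) = ℓ d`).
pr_sg: `α' d ∈ F ↔ α d ∈ F` for all `d ∈ F`: by wp_val `α' d = α d` except for the `4 k` darts, where both are in `F`.
inn_sg: `inn α' F = P * Q * inn α F` with `P = swp a b k`, `Q = swp (α ∘ a) (α ∘ b) k` (wp_rot; darts which are not paired inside `F` are fixed by `P`, `Q`).
vb_inn: `cyc (f * inn α F) = vb f α F + c` where `c` is the number of cycles of `f` outside `F` (cyc_split of Addp with `p d := d ∈ F`: `f * inn α F` is `stp f α F` on `F` and `f` outside `F`; `vb` is a `Quot`, cyc_quot of Addp or UI39.cyc_restr); so `c` is the same for `α` and `α'`, and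
`vb f α' F - vb f α F = cyc (f * inn α' F) - cyc (f * inn α F)`.
Let `ρF = inn α F * f⁻¹` (the inverse of `f * inn α F`, as `inn α F` is an involution), `lev d = min (ℓ d) (r + 1)`.  Then `Wq ρF (Desc f ℓ) lev k a b (α ∘ a) (α ∘ b)`: `inv`: if `f⁻¹ d` is paired inside `F` then `ρF d = α (f⁻¹ d)`, `ℓ (ρF d) = ℓ (f (f⁻¹ d)) = ℓ d`; otherwise `ρF d = f⁻¹ d`, and by lb_mem `ℓ (f⁻¹ d) > r`,
`ℓ d = ℓ (f (f⁻¹ d)) > r`.  Hits: on the levels `≤ r` `ρF = α * f⁻¹` (for `ℓ d ≤ r` the dart `f⁻¹ d` is paired inside `F`), so hit_congr with `Q d := ℓ d ≤ r` in both directions (for `en`).  The other fields as in wp_wq.  So wq_cyc: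
`cyc (P Q ρF) = cyc ρF + es (ρF.SameCycle p q) + es (ρF.SameCycle (α (a (k-1))) (α (b (k-1))))`, and `ρF.SameCycle` is `(α * f⁻¹).SameCycle` on the levels `≤ r` (sc_agree), i.e. `(f * α).SameCycle`; tau_end for the second one.
-/

set_option autoImplicit false

namespace QU91

open Equiv HG39 QD39 QL40 UI39

variable {D : Type} [Fintype D] [DecidableEq D]

variable {f α : Perm D} {ℓ : D → ℤ} {r : ℤ} {p q : D}

theorem lb_mem (hl : Lb f α ℓ) {d : D} (hd : ℓ d ≤ r ∨ ℓ (f d) ≤ r) :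
    d ∈ lball f ℓ r ∧ α d ∈ lball f ℓ r := by
  have h1 := hl.ver d
  have h2 := hl.ver (α d)
  rw [hl.inv] at h2
  unfold lball
  simp only [Finset.mem_filter, Finset.mem_univ, true_and]
  constructor <;> omega

private theorem vbs_pr {k : ℕ} {a b : ℕ → D} (hl : Lb f α ℓ) (hW : Wp f α ℓ k a b)
    (hr : ℓ (a 0) = r) (d : D) :
    sw α a b k d ∈ lball f ℓ r ↔ α d ∈ lball f ℓ r := by
  obtain ⟨v1, v2⟩ := wp_val hl hW
  by_cases hd : ∀ i < k, d ≠ a i ∧ d ≠ b i ∧ d ≠ α (a i) ∧ d ≠ α (b i)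
  · rw [v2 d hd]
  · push Not at hd
    obtain ⟨i, hi, h3⟩ := hd
    obtain ⟨w1, w2, w3, w4⟩ := v1 i hi
    obtain ⟨l1, l2, l3, l4⟩ := wp_lev hl hW i hi
    have m1 := lb_mem (r := r) hl (d := a i) (Or.inl (by omega))
    have m2 := lb_mem (r := r) hl (d := b i) (Or.inl (by omega))
    by_cases c1 : d = a i
    · rw [c1, w1]
      exact ⟨fun _ => m1.2, fun _ => m2.2⟩
    · by_cases c2 : d = b i
      · rw [c2, w2]
        exact ⟨fun _ => m2.2, fun _ => m1.2⟩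
      · by_cases c3 : d = α (a i)
        · rw [c3, w3, hl.inv]
          exact ⟨fun _ => m1.1, fun _ => m2.1⟩
        · have c4 := h3 c1 c2 c3
          rw [c4, w4, hl.inv]
          exact ⟨fun _ => m2.1, fun _ => m1.1⟩

theorem pr_sg (hl : Lb f α ℓ) (nn : ∀ d, 0 ≤ ℓ d) (hp : Tip f ℓ r p) (hq : Tip f ℓ r q)
    (hpq : p ≠ q) {d : D} (hd : d ∈ lball f ℓ r) :
    Sg f α ℓ p q d ∈ lball f ℓ r ↔ α d ∈ lball f ℓ r := by
  obtain ⟨k, a, b, hW, ha, hb⟩ := wp_exists hl nn hp hq hpq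
  subst ha hb
  rw [sg_eq hW]
  exact vbs_pr hl hW hp.2 d

private theorem vbs_inn {β : Perm D} {F : Finset D} (hi : ∀ d, β (β d) = d) (d : D) :
    inn β F (inn β F d) = d := by
  rw [inn_apply hi, inn_apply hi]
  by_cases h : d ∈ F ∧ β d ∈ F
  · rw [if_pos h, if_pos (by rw [hi]; exact ⟨h.2, h.1⟩), hi]
  · rw [if_neg h, if_neg h]

private theorem vbs_cyc {β : Perm D} (hf : TF f) (hl : Lb f β ℓ) :
    3 * cyc (f * inn β (lball f ℓ r)) + (lball f ℓ r).card =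
      3 * vb f β (lball f ℓ r) + Fintype.card D := by
  obtain ⟨L, h1, h2, h3⟩ := pairs_exist hl.inv hl.fpf (lball f ℓ r) [] (by simp [ent])
    (by simp)
  rw [List.nil_append] at h1 h2 h3
  have hg : glue 1 L = inn β (lball f ℓ r) := by
    refine Equiv.ext fun d => ?_
    rw [inn_apply hl.inv]
    by_cases hd : d ∈ ent L
    · obtain ⟨p, hp, h4 | h4⟩ := (mem_ent L d).1 hd
      · rw [h4, (glue_pair 1 L h1 (fun x _ => rfl) p hp).1, (h2 p hp).2.2,
          if_pos ⟨(h2 p hp).1, (h2 p hp).2.1⟩]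
      · have h5 : β p.2 = p.1 := by rw [← (h2 p hp).2.2, hl.inv]
        rw [h4, (glue_pair 1 L h1 (fun x _ => rfl) p hp).2, h5,
          if_pos ⟨(h2 p hp).2.1, (h2 p hp).1⟩]
    · rw [glue_notMem 1 L d hd, if_neg (fun hc => hd (h3 d hc.1 hc.2))]
      rfl
  have hF : ∀ d ∈ lball f ℓ r, f d ∈ lball f ℓ r := by
    intro d hd
    unfold lball at hd ⊢
    simp only [Finset.mem_filter, Finset.mem_univ, true_and] at hd ⊢
    rw [hf.three]
    omega
  rw [← hg]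
  exact vb_cyc hf hl.inv _ hF L h1 h2 h3

private theorem vbs_rho (hl : Lb f α ℓ) {d : D} (hd : ℓ d ≤ r) :
    (inn α (lball f ℓ r) * f⁻¹) d = (α * f⁻¹) d := by
  have h2 : f (f⁻¹ d) = d := Equiv.apply_symm_apply f d
  have h3 := lb_mem (r := r) hl (d := f⁻¹ d) (Or.inr (by rw [h2]; exact hd))
  rw [Perm.mul_apply, inn_apply hl.inv, if_pos h3]
  rfl

private theorem vbs_lev (hl : Lb f α ℓ) (d : D) : ℓ ((α * f⁻¹) d) = ℓ d := by
  have h2 : f (f⁻¹ d) = d := Equiv.apply_symm_apply f d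
  rw [Perm.mul_apply, ← hl.ver, h2]

private theorem vbs_sc (hl : Lb f α ℓ) {d e : D} (hd : ℓ d ≤ r) :
    (inn α (lball f ℓ r) * f⁻¹).SameCycle d e = (f * α).SameCycle d e := by
  refine propext ?_
  have h1 : (inn α (lball f ℓ r) * f⁻¹).SameCycle d e ↔ (α * f⁻¹).SameCycle d e := by
    refine sc_agree (Q := fun d => ℓ d ≤ r) ?_ ?_ hd
    · intro d hd
      rw [vbs_lev hl]
      exact hd
    · intro d hd
      exact vbs_rho hl hd
  rw [h1, rho_inv hl.inv, Perm.sameCycle_inv]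

private theorem vbs_wq {k : ℕ} {a b : ℕ → D} (hl : Lb f α ℓ) (h : Wp f α ℓ k a b)
    (hr : ℓ (a 0) = r) :
    Wq (inn α (lball f ℓ r) * f⁻¹) (Desc f ℓ) (fun d => min (ℓ d) (r + 1)) k a b
      (fun i => α (a i)) (fun i => α (b i)) := by
  have hq1 : ∀ d, ℓ d ≤ r → ¬ Desc f ℓ d → ℓ ((α * f⁻¹) d) ≤ r := by
    intro d hd _
    rw [vbs_lev hl]
    exact hd
  have hq2 : ∀ d, ℓ d ≤ r → ¬ Desc f ℓ d → ℓ ((inn α (lball f ℓ r) * f⁻¹) d) ≤ r := by
    intro d hd _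
    rw [vbs_rho hl hd, vbs_lev hl]
    exact hd
  have hit1 : ∀ y e, ℓ y ≤ r → Hit (α * f⁻¹) (Desc f ℓ) y e →
      Hit (inn α (lball f ℓ r) * f⁻¹) (Desc f ℓ) y e := fun y e hy hit =>
    hit_congr (Q := fun d => ℓ d ≤ r) hq1 (fun d hd _ => vbs_rho hl hd)
      (fun d _ => Iff.rfl) hy hit
  have hit2 : ∀ y e, ℓ y ≤ r → Hit (inn α (lball f ℓ r) * f⁻¹) (Desc f ℓ) y e →
      Hit (α * f⁻¹) (Desc f ℓ) y e := fun y e hy hit =>
    hit_congr (Q := fun d => ℓ d ≤ r) hq2 (fun d hd _ => (vbs_rho hl hd).symm)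
      (fun d _ => Iff.rfl) hy hit
  have hk := h.kp
  refine ⟨h.kp, fun d => ?_, h.da, h.db, fun i hi => swv_not_desc hl (h.da i hi),
    fun i hi => swv_not_desc hl (h.db i hi), fun i hi => ?_, fun i hi => ?_, fun i hi => ?_,
    fun i hi => ?_, h.ne, fun i hi he => h.ne i hi (α.injective he), fun i hi => ?_,
    fun i hi => ?_, fun δ δ' h1 h2 => ?_⟩
  · have h2 : f (f⁻¹ d) = d := Equiv.apply_symm_apply f d
    by_cases hc : f⁻¹ d ∈ lball f ℓ r ∧ α (f⁻¹ d) ∈ lball f ℓ r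
    · have h3 : (inn α (lball f ℓ r) * f⁻¹) d = (α * f⁻¹) d := by
        rw [Perm.mul_apply, inn_apply hl.inv, if_pos hc]
        rfl
      rw [h3, vbs_lev hl]
    · have h3 : (inn α (lball f ℓ r) * f⁻¹) d = f⁻¹ d := by
        rw [Perm.mul_apply, inn_apply hl.inv, if_neg hc]
      have h4 : ¬ (ℓ (f⁻¹ d) ≤ r ∨ ℓ (f (f⁻¹ d)) ≤ r) := fun h5 => hc (lb_mem hl h5)
      rw [h2] at h4
      rw [h3]
      omega
  · have h1 := wp_lev hl h i hi
    omega
  · have h1 := wp_lev hl h i hi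
    omega
  · have h1 := wp_lev hl h i hi
    omega
  · have h1 := wp_lev hl h i hi
    omega
  · have h1 := wp_lev hl h i (by omega)
    exact hit1 _ _ (by omega) (h.na i hi)
  · have h1 := wp_lev hl h i (by omega)
    exact hit1 _ _ (by omega) (h.nb i hi)
  · have h3 := wp_lev hl h (k - 1) (by omega)
    exact h.en δ δ' (hit2 _ _ (by omega) h1) (hit2 _ _ (by omega) h2)

private theorem vbs_rot {k : ℕ} {a b : ℕ → D} (hl : Lb f α ℓ) (h : Wp f α ℓ k a b)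
    (hr : ℓ (a 0) = r) :
    inn (sw α a b k) (lball f ℓ r) =
      swp a b k * swp (fun i => α (a i)) (fun i => α (b i)) k * inn α (lball f ℓ r) := by
  obtain ⟨g1, g2, g3⟩ := swp_val (fun i j hi hj => (wp_dist hl h i j hi hj).1)
    (fun i j hi hj => (wp_dist hl h i j hi hj).2.2.2.2.2.2)
  obtain ⟨q1, q2, q3⟩ := swp_val (a := fun i => α (a i)) (b := fun i => α (b i)) (k := k)
    (fun i j hi hj => (wp_dist hl h i j hi hj).2.2.2.2.2.1)
    (fun i j hi hj hij => ⟨fun he => ((wp_dist hl h i j hi hj).2.2.2.2.2.2 hij).1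
      (α.injective he), fun he => ((wp_dist hl h i j hi hj).2.2.2.2.2.2 hij).2
      (α.injective he)⟩)
  have hl' : Lb f (sw α a b k) ℓ := wp_lb hl h
  refine Equiv.ext fun d => ?_
  have hpr := vbs_pr hl h hr d
  rw [Perm.mul_apply, inn_apply hl'.inv, inn_apply hl.inv]
  by_cases hd : d ∈ lball f ℓ r ∧ α d ∈ lball f ℓ r
  · rw [if_pos ⟨hd.1, hpr.2 hd.2⟩, if_pos hd, ← Perm.mul_apply, ← wp_rot hl h]
  · rw [if_neg (fun hc => hd ⟨hc.1, hpr.1 hc.2⟩), if_neg hd, Perm.mul_apply]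
    have h1 : ∀ i < k, d ≠ a i ∧ d ≠ b i ∧ d ≠ α (a i) ∧ d ≠ α (b i) := by
      intro i hi
      obtain ⟨l1, l2, l3, l4⟩ := wp_lev hl h i hi
      have m1 := lb_mem (r := r) hl (d := a i) (Or.inl (by omega))
      have m2 := lb_mem (r := r) hl (d := b i) (Or.inl (by omega))
      refine ⟨fun hc => hd ?_, fun hc => hd ?_, fun hc => hd ?_, fun hc => hd ?_⟩
      · rw [hc]
        exact m1
      · rw [hc]
        exact m2
      · rw [hc, hl.inv]
        exact ⟨m1.2, m1.1⟩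
      · rw [hc, hl.inv]
        exact ⟨m2.2, m2.1⟩
    rw [q2 d fun i hi => ⟨(h1 i hi).2.2.1, (h1 i hi).2.2.2⟩,
      g2 d fun i hi => ⟨(h1 i hi).1, (h1 i hi).2.1⟩]

theorem vb_sg (hf : TF f) (hl : Lb f α ℓ) (nn : ∀ d, 0 ≤ ℓ d) (hp : Tip f ℓ r p)
    (hq : Tip f ℓ r q) (hpq : p ≠ q) :
    (vb f (Sg f α ℓ p q) (lball f ℓ r) : ℤ) = vb f α (lball f ℓ r) +
      es ((f * α).SameCycle p q) + es ((tau f α ℓ r).SameCycle p q) := by
  classical
  obtain ⟨k, a, b, hW, ha, hb⟩ := wp_exists hl nn hp hq hpq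
  subst ha hb
  have hr := hp.2
  have hk := hW.kp
  have hl' : Lb f (sw α a b k) ℓ := wp_lb hl hW
  have c1 := vbs_cyc (r := r) hf hl
  have c2 := vbs_cyc (r := r) hf hl'
  have hi := vbs_inn (F := lball f ℓ r) hl.inv
  have hi' := vbs_inn (F := lball f ℓ r) hl'.inv
  have h1 := wq_cyc (vbs_wq hl hW hr)
  rw [← mul_assoc, ← vbs_rot hl hW hr, rho_inv hi', rho_inv hi, cyc_inv, cyc_inv,
    ← rho_inv hi, vbs_sc hl hr.le, vbs_sc hl (by
      have h2 := (wp_lev hl hW (k - 1) (by omega)).2.2.1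
      omega)] at h1
  rw [sg_eq hW, tau_end hl nn hW hr]
  generalize es ((f * α).SameCycle (a 0) (b 0)) = x at h1 ⊢
  generalize es ((f * α).SameCycle (α (a (k - 1))) (α (b (k - 1)))) = y at h1 ⊢
  omega

end QU91
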