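import Pool.Agent.H91.QU.Wqb
import Pool.Agent.H40.QL.Bas
import Pool.Agent.H40.QL.Swv

/-!
[H91 QU WPA]  (MP_bcc40c_pr, Q2, part (U))  The surgery along two leftmost paths: values, labels, the rotation.

Compare Pool/Agent/H40/QL/Swv.lean (big_lev, big_dist, sw_val, sw_lb: the same statements for the structure `Big`; the proofs can be copied; swp_val, sw_inv, sw_fpf, sw_back, swv_not_desc can be used directly).
PROOFS.
wp_lev: induction on `i`: `ℓ (α (a i)) = ℓ (f (a i)) = ℓ (a i) - 1` (ver, da); `Fst f α ℓ (α (a i)) (a (i+1))` implies that the labels are equal (QL40.fst_lev).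
wp_dist: descending darts `d` satisfy `ℓ (f d) = ℓ d - 1`; `α d` is not descending (QL40.swv_not_desc); different levels by wp_lev; `a i ≠ b i` is `ne`; `α` injective.
wp_val, wp_lb: as sw_val, sw_lb.
wp_rot: `sw α a b k = P * α * P⁻¹`, `P = swp a b k`; `P⁻¹ = P` (swp_val); check `P * α * P⁻¹ = P * Q * α` with `Q = swp (α ∘ a) (α ∘ b) k`: `α * P * α⁻¹ = Q` by induction on `k` (`α * swap x y * α⁻¹ = swap (α x) (α y)`), so `α * P = Q * α`.
wp_wq: `inv`: `lev = ℓ`, `ℓ ((α * f⁻¹) d) = ℓ (α (f⁻¹ d)) = ℓ (f (f⁻¹ d)) = ℓ d` (ver).  `na`: swv_not_desc.  `ha, hb, en`: `Fst f α ℓ y δ` is `Hit (α * f⁻¹) (Desc f ℓ) y δ` by definition.  `la` etc.: wp_lev.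
wp_symm: `swp b a k = swp a b k` (swap_comm).
-/

set_option autoImplicit false

namespace QU91

open Equiv HG39 QD39 QL40

variable {D : Type} [Fintype D] [DecidableEq D]

theorem fst_hit {f α : Perm D} {ℓ : D → ℤ} {y δ : D} :
    Fst f α ℓ y δ ↔ Hit (α * f⁻¹) (Desc f ℓ) y δ := Iff.rfl

variable {f α : Perm D} {ℓ : D → ℤ} {k : ℕ} {a b : ℕ → D}

theorem wp_lev (hl : Lb f α ℓ) (h : Wp f α ℓ k a b) (i : ℕ) (hi : i < k) :
    ℓ (a i) = ℓ (a 0) - i ∧ ℓ (b i) = ℓ (a 0) - i ∧ ℓ (α (a i)) = ℓ (a 0) - i - 1 ∧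
      ℓ (α (b i)) = ℓ (a 0) - i - 1 := by
  have key : ∀ i < k, ℓ (a i) = ℓ (a 0) - i ∧ ℓ (b i) = ℓ (a 0) - i := by
    intro i
    induction i with
    | zero =>
      intro _
      rw [h.st]
      simp
    | succ i ih =>
      intro hi
      obtain ⟨h1, h2⟩ := ih (by omega)
      have h3 := fst_lev hl (h.na i hi)
      have h4 := fst_lev hl (h.nb i hi)
      have h5 := hl.ver (a i)
      have h6 := hl.ver (b i)
      have h7 : ℓ (f (a i)) = ℓ (a i) - 1 := h.da i (by omega)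
      have h8 : ℓ (f (b i)) = ℓ (b i) - 1 := h.db i (by omega)
      push_cast
      constructor <;> omega
  obtain ⟨h1, h2⟩ := key i hi
  have h5 := hl.ver (a i)
  have h6 := hl.ver (b i)
  have h7 : ℓ (f (a i)) = ℓ (a i) - 1 := h.da i hi
  have h8 : ℓ (f (b i)) = ℓ (b i) - 1 := h.db i hi
  refine ⟨h1, h2, ?_, ?_⟩ <;> omega

theorem wp_dist (hl : Lb f α ℓ) (h : Wp f α ℓ k a b) (i j : ℕ) (hi : i < k) (hj : j < k) :
    a i ≠ b j ∧ a i ≠ α (a j) ∧ a i ≠ α (b j) ∧ b i ≠ α (a j) ∧ b i ≠ α (b j) ∧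
      α (a i) ≠ α (b j) ∧ (i ≠ j → a i ≠ a j ∧ b i ≠ b j) := by
  obtain ⟨i1, i2, -, -⟩ := wp_lev hl h i hi
  obtain ⟨j1, j2, -, -⟩ := wp_lev hl h j hj
  have hab : a i ≠ b j := by
    intro he
    have h1 : ℓ (a i) = ℓ (b j) := by rw [he]
    have hij : i = j := by omega
    subst hij
    exact h.ne i hi he
  have ha := h.da i hi
  have hb := h.db i hi
  have haj := swv_not_desc hl (h.da j hj)
  have hbj := swv_not_desc hl (h.db j hj)
  refine ⟨hab, fun h => haj (h ▸ ha), fun h => hbj (h ▸ ha), fun h => haj (h ▸ hb),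
    fun h => hbj (h ▸ hb), fun h => hab (α.injective h), fun hij => ⟨fun h => ?_, fun h => ?_⟩⟩
  · have h1 : ℓ (a i) = ℓ (a j) := by rw [h]
    omega
  · have h1 : ℓ (b i) = ℓ (b j) := by rw [h]
    omega

theorem wp_val (hl : Lb f α ℓ) (h : Wp f α ℓ k a b) :
    (∀ i < k, sw α a b k (a i) = α (b i) ∧ sw α a b k (b i) = α (a i) ∧
      sw α a b k (α (a i)) = b i ∧ sw α a b k (α (b i)) = a i) ∧
      ∀ d, (∀ i < k, d ≠ a i ∧ d ≠ b i ∧ d ≠ α (a i) ∧ d ≠ α (b i)) →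
        sw α a b k d = α d := by
  obtain ⟨g1, g2, g3⟩ := swp_val (fun i j hi hj => (wp_dist hl h i j hi hj).1)
    (fun i j hi hj => (wp_dist hl h i j hi hj).2.2.2.2.2.2)
  have hinv : ∀ d, (swp a b k)⁻¹ d = swp a b k d := by
    intro d
    rw [Perm.inv_eq_iff_eq, g3]
  have hval : ∀ d, sw α a b k d = swp a b k (α (swp a b k d)) := by
    intro d
    rw [sw, Perm.mul_apply, Perm.mul_apply, hinv]
  have hαa : ∀ i < k, swp a b k (α (a i)) = α (a i) := by
    intro i hi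
    apply g2
    intro j hj
    obtain ⟨e1, e2, e3, e4, e5, e6, e7⟩ := wp_dist hl h j i hj hi
    exact ⟨e2.symm, e4.symm⟩
  have hαb : ∀ i < k, swp a b k (α (b i)) = α (b i) := by
    intro i hi
    apply g2
    intro j hj
    obtain ⟨e1, e2, e3, e4, e5, e6, e7⟩ := wp_dist hl h j i hj hi
    exact ⟨e3.symm, e5.symm⟩
  constructor
  · intro i hi
    rw [hval, hval, hval, hval, (g1 i hi).1, (g1 i hi).2, hαa i hi, hαb i hi, hl.inv, hl.inv,
      (g1 i hi).1, (g1 i hi).2]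
    exact ⟨rfl, rfl, rfl, rfl⟩
  · intro d hd
    rw [hval, g2 d fun i hi => ⟨(hd i hi).1, (hd i hi).2.1⟩]
    apply g2
    intro i hi
    obtain ⟨-, -, e3, e4⟩ := hd i hi
    constructor
    · intro h
      apply e3
      rw [← h, hl.inv]
    · intro h
      apply e4
      rw [← h, hl.inv]

theorem wp_lb (hl : Lb f α ℓ) (h : Wp f α ℓ k a b) : Lb f (sw α a b k) ℓ := by
  obtain ⟨v1, v2⟩ := wp_val hl h
  refine ⟨sw_inv hl.inv a b k, sw_fpf hl.fpf a b k, fun d => ?_, hl.lip⟩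
  by_cases hd : ∀ i < k, d ≠ a i ∧ d ≠ b i ∧ d ≠ α (a i) ∧ d ≠ α (b i)
  · rw [v2 d hd]
    exact hl.ver d
  · push Not at hd
    obtain ⟨i, hi, h3⟩ := hd
    obtain ⟨w1, w2, w3, w4⟩ := v1 i hi
    obtain ⟨l1, l2, l3, l4⟩ := wp_lev hl h i hi
    rw [hl.ver d]
    by_cases e1 : d = a i
    · rw [e1, w1, l3, l4]
    · by_cases e2 : d = b i
      · rw [e2, w2, l3, l4]
      · by_cases e3 : d = α (a i)
        · rw [e3, w3, hl.inv, l1, l2]
        · rw [h3 e1 e2 e3, w4, hl.inv, l1, l2]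

private theorem wpa_conj (α : Perm D) (a b : ℕ → D) (k : ℕ) :
    α * swp a b k = swp (fun i => α (a i)) (fun i => α (b i)) k * α := by
  induction k with
  | zero =>
    show α * 1 = 1 * α
    rw [mul_one, one_mul]
  | succ k ih =>
    show α * (swp a b k * swap (a k) (b k)) =
      swp (fun i => α (a i)) (fun i => α (b i)) k * swap (α (a k)) (α (b k)) * α
    rw [← mul_assoc, ih, mul_assoc, Equiv.mul_swap_eq_swap_mul, mul_assoc]

private theorem wpa_inv (hl : Lb f α ℓ) (h : Wp f α ℓ k a b) : (swp a b k)⁻¹ = swp a b k := by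
  obtain ⟨g1, g2, g3⟩ := swp_val (fun i j hi hj => (wp_dist hl h i j hi hj).1)
    (fun i j hi hj => (wp_dist hl h i j hi hj).2.2.2.2.2.2)
  refine inv_eq_of_mul_eq_one_right ?_
  refine Equiv.ext fun d => ?_
  rw [Perm.mul_apply, g3]
  rfl

theorem wp_rot (hl : Lb f α ℓ) (h : Wp f α ℓ k a b) :
    sw α a b k = swp a b k * swp (fun i => α (a i)) (fun i => α (b i)) k * α := by
  rw [sw, wpa_inv hl h, mul_assoc, wpa_conj, ← mul_assoc]

theorem wp_wq (hl : Lb f α ℓ) (h : Wp f α ℓ k a b) :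
    Wq (α * f⁻¹) (Desc f ℓ) ℓ k a b (fun i => α (a i)) (fun i => α (b i)) := by
  refine ⟨h.kp, fun d => ?_, h.da, h.db, fun i hi => swv_not_desc hl (h.da i hi),
    fun i hi => swv_not_desc hl (h.db i hi), fun i hi => (wp_lev hl h i hi).1,
    fun i hi => (wp_lev hl h i hi).2.1, fun i hi => (wp_lev hl h i hi).2.2.1,
    fun i hi => (wp_lev hl h i hi).2.2.2, h.ne, fun i hi he => h.ne i hi (α.injective he),
    h.na, h.nb, h.en⟩
  have h1 := hl.ver (f⁻¹ d)
  have h2 : f (f⁻¹ d) = d := Equiv.apply_symm_apply f d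
  rw [h2] at h1
  rw [Perm.mul_apply]
  exact h1.symm

theorem wp_symm (h : Wp f α ℓ k a b) : Wp f α ℓ k b a ∧ sw α b a k = sw α a b k := by
  have hs : ∀ m : ℕ, swp b a m = swp a b m := by
    intro m
    induction m with
    | zero => rfl
    | succ m ih => rw [swp, swp, ih, swap_comm]
  refine ⟨⟨h.kp, h.db, h.da, h.nb, h.na, h.st.symm, fun i hi => (h.ne i hi).symm,
    fun δ δ' h1 h2 => (h.en δ' δ h2 h1).symm⟩, ?_⟩
  rw [sw, sw, hs]

end QU91
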