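import Pool.Agent.H91.QU.Wpa

/-!
[H91 QU WPB]  (MP_bcc40c_pr, Q2, part (U))  The surgery along two leftmost paths: vertices, involution, roots.

Let `ρ = α * f⁻¹ = (f * α)⁻¹` (α an involution), `α' = sw α a b k`, `ρ' = α' * f⁻¹ = swp a b k * swp (α ∘ a) (α ∘ b) k * ρ` (wp_rot), and `ρ' = (f * α')⁻¹` (`α'` is an involution, `wp_lb.inv`).  `SameCycle` of a permutation and of its inverse are the same
(`Perm.sameCycle_inv`), so all statements follow from WQB via wp_wq.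
PROOFS.
wp_back: `kp, da, db, ne, st` do not depend on `α`.  `na`: `α' (a i) = α (b i)` (wp_val); wq_back (`ha` for `a, b, b', a'`): `Hit ρ' (Desc f ℓ) (α (b i)) (a (i+1))`.  `nb, en`: the same.
wp_twice: `sw (sw α a b k) a b k = P * (P * α * P⁻¹) * P⁻¹`, `P * P = 1` (swp_val with wp_dist).
wp_cyc: wq_cyc and cyc_inv.
wp_start: wq_start.  wp_top: wq_top, and `(swap p q * ρ)⁻¹ = (f * α) * swap p q`.
wp_kap: wq_fr.
wp_nrt: fr_cyc for `ρ` and `ρ'` with `S = Desc f ℓ`: `cyc ρ' - cyc ρ = cyc (fr ρ' S) - cyc (fr ρ S) + ncy ρ' S - ncy ρ S`; `cyc (fr ρ' S) = cyc (fr ρ S) + es ((fr ρ S).SameCycle (a 0) (b 0))` (wp_kap, cyc_sw) and `fr_same`; wp_cyc; ncy_inv.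
wp_root: let `Root f α' ℓ e` with `ℓ e > R ≥ ℓ (a 0)`: by wp_top the `f * α'`-cycle of `e` is its cycle of `(f * α) * swap (a 0) (b 0)`; the level is larger than `ℓ (a 0)`, and on `{ℓ > ℓ (a 0)}` (invariant) this is `f * α` (sc_agree): so `Root f α ℓ e`, contradiction.
-/

set_option autoImplicit false

namespace QU91

open Equiv HG39 QD39 QL40

variable {D : Type} [Fintype D] [DecidableEq D]

variable {f α : Perm D} {ℓ : D → ℤ} {k : ℕ} {a b : ℕ → D}

private theorem wpb_rho (hl : Lb f α ℓ) (h : Wp f α ℓ k a b) :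
    sw α a b k * f⁻¹ =
      swp a b k * swp (fun i => α (a i)) (fun i => α (b i)) k * (α * f⁻¹) := by
  rw [wp_rot hl h, mul_assoc]

theorem wp_back (hl : Lb f α ℓ) (h : Wp f α ℓ k a b) : Wp f (sw α a b k) ℓ k a b := by
  have hb := wq_back (wp_wq hl h)
  rw [← wpb_rho hl h] at hb
  obtain ⟨v1, -⟩ := wp_val hl h
  have hk := h.kp
  refine ⟨h.kp, h.da, h.db, fun i hi => ?_, fun i hi => ?_, h.st, h.ne, fun δ δ' h1 h2 => ?_⟩
  · rw [(v1 i (by omega)).1]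
    exact hb.ha i hi
  · rw [(v1 i (by omega)).2.1]
    exact hb.hb i hi
  · rw [(v1 (k - 1) (by omega)).1] at h1
    rw [(v1 (k - 1) (by omega)).2.1] at h2
    exact hb.en δ δ' h1 h2

theorem wp_twice (hl : Lb f α ℓ) (h : Wp f α ℓ k a b) : sw (sw α a b k) a b k = α := by
  obtain ⟨g1, g2, g3⟩ := swp_val (fun i j hi hj => (wp_dist hl h i j hi hj).1)
    (fun i j hi hj => (wp_dist hl h i j hi hj).2.2.2.2.2.2)
  have h1 : swp a b k * swp a b k = 1 := by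
    refine Equiv.ext fun d => ?_
    rw [Perm.mul_apply, g3]
    rfl
  have h2 : (swp a b k)⁻¹ = swp a b k := inv_eq_of_mul_eq_one_right h1
  rw [sw, sw, h2]
  calc swp a b k * (swp a b k * α * swp a b k) * swp a b k
      = (swp a b k * swp a b k) * α * (swp a b k * swp a b k) := by simp only [mul_assoc]
    _ = α := by rw [h1, one_mul, mul_one]

theorem wp_cyc (hl : Lb f α ℓ) (h : Wp f α ℓ k a b) :
    (cyc (f * sw α a b k) : ℤ) = cyc (f * α) + es ((f * α).SameCycle (a 0) (b 0)) +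
      es ((f * α).SameCycle (α (a (k - 1))) (α (b (k - 1)))) := by
  have h1 := wq_cyc (wp_wq hl h)
  rw [← wpb_rho hl h, rho_inv (sw_inv hl.inv a b k), cyc_inv, rho_inv hl.inv, cyc_inv,
    Perm.sameCycle_inv, Perm.sameCycle_inv] at h1
  exact h1

theorem wp_start (hl : Lb f α ℓ) (h : Wp f α ℓ k a b) :
    (f * sw α a b k).SameCycle (a 0) (b 0) ↔ ¬ (f * α).SameCycle (a 0) (b 0) := by
  have h1 := wq_start (wp_wq hl h)
  rw [← wpb_rho hl h, rho_inv (sw_inv hl.inv a b k), rho_inv hl.inv,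
    Perm.sameCycle_inv, Perm.sameCycle_inv] at h1
  exact h1

theorem wp_top (hl : Lb f α ℓ) (h : Wp f α ℓ k a b) {d e : D} (hd : ℓ (a 0) ≤ ℓ d) :
    (f * sw α a b k).SameCycle d e ↔ ((f * α) * swap (a 0) (b 0)).SameCycle d e := by
  have h1 := wq_top (wp_wq hl h) (e := e) hd
  have h2 : swap (a 0) (b 0) * (f * α)⁻¹ = ((f * α) * swap (a 0) (b 0))⁻¹ := by
    rw [mul_inv_rev (f * α), swap_inv]
  rw [← wpb_rho hl h, rho_inv (sw_inv hl.inv a b k), rho_inv hl.inv, h2,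
    Perm.sameCycle_inv, Perm.sameCycle_inv] at h1
  exact h1

theorem wp_kap (hl : Lb f α ℓ) (h : Wp f α ℓ k a b) :
    fr (sw α a b k * f⁻¹) (Desc f ℓ) = swap (a 0) (b 0) * fr (α * f⁻¹) (Desc f ℓ) := by
  rw [wpb_rho hl h]
  exact wq_fr (wp_wq hl h)

theorem wp_nrt (hl : Lb f α ℓ) (h : Wp f α ℓ k a b) :
    (nrt f (sw α a b k) ℓ : ℤ) = nrt f α ℓ +
      es ((f * α).SameCycle (α (a (k - 1))) (α (b (k - 1)))) := by
  have hk := h.kp
  have h1 := fr_cyc (sw α a b k * f⁻¹) (Desc f ℓ)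
  have h2 := fr_cyc (α * f⁻¹) (Desc f ℓ)
  have h3 := cyc_sw (fr (α * f⁻¹) (Desc f ℓ)) (h.ne 0 (by omega))
  have h4 := wp_cyc hl h
  have h5 : (fr (α * f⁻¹) (Desc f ℓ)).SameCycle (a 0) (b 0) ↔ (f * α).SameCycle (a 0) (b 0) := by
    rw [fr_same (h.da 0 (by omega)) (h.db 0 (by omega)), rho_inv hl.inv, Perm.sameCycle_inv]
  rw [h5, ← wp_kap hl h] at h3
  rw [rho_inv (sw_inv hl.inv a b k), cyc_inv, ncy_inv] at h1
  rw [rho_inv (sw_inv hl.inv a b k)] at h3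
  rw [rho_inv hl.inv] at h2 h3
  rw [cyc_inv, ncy_inv] at h2
  unfold nrt
  have h1' : (cyc (f * sw α a b k) : ℤ) + (Nat.card {d // ¬ Desc f ℓ d} : ℤ) =
      (cyc (fr (f * sw α a b k)⁻¹ (Desc f ℓ)) : ℤ) + (ncy (f * sw α a b k) (Desc f ℓ) : ℤ) := by
    exact_mod_cast h1
  have h2' : (cyc (f * α) : ℤ) + (Nat.card {d // ¬ Desc f ℓ d} : ℤ) =
      (cyc (fr (f * α)⁻¹ (Desc f ℓ)) : ℤ) + (ncy (f * α) (Desc f ℓ) : ℤ) := by
    exact_mod_cast h2
  linarith

theorem wp_root (hl : Lb f α ℓ) (h : Wp f α ℓ k a b) {R : ℤ} (hR : ℓ (a 0) ≤ R)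
    (hr : ∀ e, Root f α ℓ e → ℓ e ≤ R) (e : D) (he : Root f (sw α a b k) ℓ e) : ℓ e ≤ R := by
  by_contra hcon
  have hRe : R < ℓ e := not_le.1 hcon
  apply hcon
  refine hr e fun d hd => ?_
  refine he d ?_
  rw [wp_top hl h (by omega)]
  have h1 : ((f * α) * swap (a 0) (b 0)).SameCycle e d ↔ (f * α).SameCycle e d := by
    refine sc_agree (Q := fun d => ℓ (a 0) < ℓ d) ?_ ?_ (lt_of_le_of_lt hR hRe)
    · intro z hz
      rw [Perm.mul_apply, hl.ver, hl.inv]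
      exact hz
    · intro z hz
      have hz' : ℓ (a 0) < ℓ z := hz
      have h2 : z ≠ a 0 := by
        intro h3
        rw [h3] at hz'
        exact lt_irrefl _ hz'
      have h3 : z ≠ b 0 := by
        intro h4
        rw [h4, h.st] at hz'
        exact lt_irrefl _ hz'
      rw [Perm.mul_apply (f * α), swap_apply_of_ne_of_ne h2 h3]
  exact h1.2 hd

end QU91
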