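import Pool.Agent.H91.QU.Frb
import Pool.Agent.H91.QU.Frc
import Pool.Agent.H39.HG.ZSwap

/-!
[H91 QU WQA]  (MP_bcc40c_pr, Q2, part (U))  The effect of the transpositions on one level.

PROOFS.
cyc_sw: `swap p q * g = g * swap (g⁻¹ p) (g⁻¹ q)`, `g.SameCycle (g⁻¹ p) (g⁻¹ q) ↔ g.SameCycle p q`, cyc_swap_same, cyc_swap_diff (ZSwap).
sc_sw: apply cyc_sw to `g` and to `swap p q * g` (`swap p q * (swap p q * g) = g`): `es X + es Y = 0`, so exactly one of them is true.
one_mid: `fr`: fr_swap, then fr_mul with `t = swap p' q'` (supported in `S`): `swap p' q' * (swap p' q' * fr g S)`.  `cyc`: let `g1 = swap p q * g`.  The path of `p` to `p'` contains neither `p` again nor `q` (otherwise `p' = q'`), so `Hit g1 S p p'`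
(hit_avoid), so `g1.SameCycle p p'`, likewise `g1.SameCycle q q'`.  So `g1.SameCycle p' q' ↔ g1.SameCycle p q ↔ ¬ g.SameCycle p q` (sc_sw), and cyc_sw twice gives the same number (`p' ≠ q'`, `p ≠ q`).
Hits: let `p = y_0, ..., y_k = p'` be the path (`k ≥ 1` as `¬ S p`), it is also a `g1`-path; under `swap p' q' * g1` all steps are the same except the last one (the points `y_j`, `j < k`, are not in `S`, so different from `p', q'`), which goes to `q'`.
one_end: `fr`: if both `p` and `q` have hits they are equal by `hen`: fr_swap with `swap δ δ = 1`; otherwise fr_swap_none (and swap_comm).  Last claim: if both hit `δ` (in `g`): by symmetry (the claim is symmetric: `e = e'`) let `q` be on the path of `p`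
(the paths to `δ` are `g^(-a) δ` and `g^(-b) δ`, `b < a`).  In `g' = swap p q * g`: `p = y_0, ..., y_(m-1)`, `g y_(m-1) = q`, so `g' y_(m-1) = p`: the `g'`-cycle of `p` consists of `y_0, ..., y_(m-1)`, without points of `S`: no hit of `p`.
If `p` has no hit and `q` hits `δ`: then in `g'` both hit `δ` (see fr_swap_none in FRC: the `g'`-path of `p` runs through the `g`-cycle of `p`, then jumps to `q`; hit_avoid for `q`), so by hit_unique `e = δ = e'`.  Symmetric: `q` has no hit.
If neither has a hit: the union of the two `g`-cycles is closed under `g'` and has no point of `S`: no hits.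
-/

set_option autoImplicit false

namespace QU91

open Equiv HG39 QD39 QL40

variable {D : Type} [Fintype D] [DecidableEq D]

private theorem wqa_pow_succ (g : Perm D) (n : ℕ) (y : D) : (g ^ (n + 1)) y = (g ^ n) (g y) := by
  rw [pow_succ, Perm.mul_apply]

private theorem wqa_add (g : Perm D) (m n : ℕ) (y : D) : (g ^ m) ((g ^ n) y) = (g ^ (m + n)) y := by
  rw [pow_add, Perm.mul_apply]

private theorem wqa_mid {g : Perm D} {S : D → Prop} {y e p : D} {k j : ℕ} (he : S e)
    (hk : (g ^ k) y = e) (hS : ∀ j < k, ¬ S ((g ^ j) y)) (hj : j ≤ k) (hp : (g ^ j) y = p) :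
    Hit g S p e := by
  refine ⟨he, k - j, ?_, fun i hi => ?_⟩
  · rw [← hp, wqa_add, Nat.sub_add_cancel hj]
    exact hk
  · rw [← hp, wqa_add]
    exact hS _ (by omega)

private theorem wqa_inj {g : Perm D} {S : D → Prop} {y e : D} {k i j : ℕ} (he : S e)
    (hk : (g ^ k) y = e) (hS : ∀ j < k, ¬ S ((g ^ j) y)) (hij : i < j) (hj : j ≤ k) :
    (g ^ i) y ≠ (g ^ j) y := by
  intro h
  have h1 : (g ^ (k - j)) ((g ^ i) y) = (g ^ (k - j)) ((g ^ j) y) := by rw [h]
  rw [wqa_add, wqa_add, Nat.sub_add_cancel hj, hk] at h1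
  have h2 := hS (k - j + i) (by omega)
  rw [h1] at h2
  exact h2 he

private theorem wqa_jump {g : Perm D} {S : D → Prop} {p q x : D} (hx : Hit (swap p q * g) S q x)
    (j : ℕ) : ∀ y : D, (∀ i < j + 1, ¬ S ((g ^ i) y)) →
    (∀ i, 1 ≤ i → i < j + 1 → (g ^ i) y ≠ p ∧ (g ^ i) y ≠ q) → (g ^ (j + 1)) y = p →
    Hit (swap p q * g) S y x := by
  induction j with
  | zero =>
    intro y h0 _ hp
    have h1 : ¬ S y := by simpa using h0 0 (Nat.succ_pos 0)
    rw [hit_step h1]
    have h2 : (swap p q * g) y = q := by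
      rw [Perm.mul_apply]
      rw [zero_add, pow_one] at hp
      rw [hp, swap_apply_left]
    rwa [h2]
  | succ j ih =>
    intro y h0 h1 hp
    have h2 : ¬ S y := by simpa using h0 0 (Nat.succ_pos _)
    rw [hit_step h2]
    have h3 := h1 1 le_rfl (by omega)
    rw [pow_one] at h3
    have h4 : (swap p q * g) y = g y := by
      rw [Perm.mul_apply, swap_apply_of_ne_of_ne h3.1 h3.2]
    rw [h4]
    refine ih (g y) (fun i hi => ?_) (fun i hi hi' => ?_) ?_
    · rw [← wqa_pow_succ]
      exact h0 (i + 1) (by omega)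
    · rw [← wqa_pow_succ]
      exact h1 (i + 1) (by omega) (by omega)
    · rw [← wqa_pow_succ]
      exact hp

/-- hits of `p` and `q` with different ends are not changed by the transposition -/
private theorem wqa_keep {g : Perm D} {S : D → Prop} {p q q' : D} (h2 : Hit g S q q')
    (h1 : ¬ Hit g S p q') : Hit (swap p q * g) S q q' := by
  obtain ⟨hq', b, hb, hbS⟩ := h2
  refine hit_avoid hq' hb hbS fun j hj hjb => ⟨fun h => ?_, fun h => ?_⟩
  · exact h1 (wqa_mid hq' hb hbS hjb h)
  · exact wqa_inj hq' hb hbS (show 0 < j by omega) hjb (by rw [pow_zero, Perm.one_apply, h])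

/-- composing with `swap p' q'` redirects the last step -/
private theorem wqa_last {h : Perm D} {S : D → Prop} {p' q' : D} (hq' : S q') (hp' : S p')
    (k : ℕ) : ∀ p : D, ¬ S p → (h ^ k) p = p' → (∀ j < k, ¬ S ((h ^ j) p)) →
    Hit (swap p' q' * h) S p q' := by
  induction k with
  | zero =>
    intro p hp h1 _
    rw [pow_zero, Perm.one_apply] at h1
    exact absurd (h1 ▸ hp') hp
  | succ k ih =>
    intro p hp h1 h2
    rw [hit_step hp]
    rcases Nat.eq_zero_or_pos k with hk | hk
    · subst hk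
      rw [zero_add, pow_one] at h1
      rw [Perm.mul_apply, h1, swap_apply_left]
      exact hit_self hq'
    · have h3 := h2 1 (by omega)
      rw [pow_one] at h3
      have h4 : (swap p' q' * h) p = h p := by
        rw [Perm.mul_apply]
        exact swap_apply_of_ne_of_ne (fun h5 => h3 (h5 ▸ hp')) (fun h5 => h3 (h5 ▸ hq'))
      rw [h4]
      refine ih (h p) h3 ?_ (fun j hj => ?_)
      · rw [← wqa_pow_succ]
        exact h1
      · rw [← wqa_pow_succ]
        exact h2 (j + 1) (by omega)

/-- no hits from an invariant set without points of `S` -/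
private theorem wqa_no {h : Perm D} {S T : D → Prop} (hT : ∀ x, T x → T (h x))
    (hS : ∀ x, T x → ¬ S x) {p : D} (hp : T p) (e : D) : ¬ Hit h S p e := by
  rintro ⟨he, k, hk, _⟩
  have h1 : ∀ k : ℕ, T ((h ^ k) p) := by
    intro k
    induction k with
    | zero => rw [pow_zero, Perm.one_apply]; exact hp
    | succ k ih =>
      rw [pow_succ', Perm.mul_apply]
      exact hT _ ih
  exact hS _ (h1 k) (hk ▸ he)

theorem cyc_sw (g : Perm D) {p q : D} (hpq : p ≠ q) :
    (cyc (swap p q * g) : ℤ) = cyc g + es (g.SameCycle p q) := by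
  have h1 : swap p q * g = g * swap (g⁻¹ p) (g⁻¹ q) := swap_mul_eq_mul_swap g p q
  have h2 : g⁻¹ p ≠ g⁻¹ q := fun h => hpq (g⁻¹.injective h)
  have h3 : g.SameCycle (g⁻¹ p) (g⁻¹ q) ↔ g.SameCycle p q := by
    have a1 : g (g⁻¹ p) = p := g.apply_symm_apply p
    have a2 : g (g⁻¹ q) = q := g.apply_symm_apply q
    have a3 : g.SameCycle (g (g⁻¹ p)) (g (g⁻¹ q)) ↔ g.SameCycle (g⁻¹ p) (g⁻¹ q) := by
      rw [Perm.sameCycle_apply_left, Perm.sameCycle_apply_right]
    rw [a1, a2] at a3
    exact a3.symm
  rw [h1]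
  unfold es
  split_ifs with h
  · have h4 := cyc_swap_same g _ _ h2 (h3.2 h)
    omega
  · have h4 := cyc_swap_diff g _ _ (fun h' => h (h3.1 h'))
    omega

theorem sc_sw (g : Perm D) {p q : D} (hpq : p ≠ q) :
    (swap p q * g).SameCycle p q ↔ ¬ g.SameCycle p q := by
  have e1 := cyc_sw g hpq
  have e2 := cyc_sw (swap p q * g) hpq
  have e3 : swap p q * (swap p q * g) = g := by rw [← mul_assoc, swap_mul_self, one_mul]
  rw [e3] at e2
  have e4 : es (g.SameCycle p q) + es ((swap p q * g).SameCycle p q) = 0 := by linarith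
  unfold es at e4
  by_cases a : g.SameCycle p q
  · by_cases b : (swap p q * g).SameCycle p q
    · rw [if_pos a, if_pos b] at e4
      norm_num at e4
    · exact ⟨fun h => absurd h b, fun h => absurd a h⟩
  · by_cases b : (swap p q * g).SameCycle p q
    · exact ⟨fun _ => a, fun _ => b⟩
    · rw [if_neg a, if_neg b] at e4
      norm_num at e4

theorem one_mid {g : Perm D} {S : D → Prop} {p q p' q' : D} (hp : ¬ S p) (hq : ¬ S q)
    (h1 : Hit g S p p') (h2 : Hit g S q q') (hne : p' ≠ q') :
    fr (swap p' q' * (swap p q * g)) S = fr g S ∧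
    cyc (swap p' q' * (swap p q * g)) = cyc g ∧
    Hit (swap p' q' * (swap p q * g)) S p q' ∧ Hit (swap p' q' * (swap p q * g)) S q p' := by
  have hpq : p ≠ q := by
    rintro rfl
    exact hne (hit_unique h1 h2)
  have K2 : Hit (swap p q * g) S q q' := wqa_keep h2 fun h => hne (hit_unique h1 h)
  have K1 : Hit (swap p q * g) S p p' := by
    rw [swap_comm]
    exact wqa_keep h1 fun h => hne (hit_unique h h2)
  refine ⟨?_, ?_, ?_, ?_⟩
  · rw [fr_mul (swap p q * g) (swap p' q') S fun d hd => swap_apply_of_ne_of_ne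
      (fun h => hd (h ▸ h1.1)) (fun h => hd (h ▸ h2.1)), fr_swap h1 h2, ← mul_assoc,
      swap_mul_self, one_mul]
  · have e1 := cyc_sw g hpq
    have e2 := cyc_sw (swap p q * g) hne
    have e3 : (swap p q * g).SameCycle p' q' ↔ ¬ g.SameCycle p q := by
      rw [← sc_sw g hpq]
      constructor
      · intro h
        exact (hit_same K1).trans (h.trans (hit_same K2).symm)
      · intro h
        exact (hit_same K1).symm.trans (h.trans (hit_same K2))
    unfold es at e1 e2
    by_cases a : g.SameCycle p q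
    · rw [if_pos a] at e1
      rw [if_neg fun h => (e3.1 h) a] at e2
      omega
    · rw [if_neg a] at e1
      rw [if_pos (e3.2 a)] at e2
      omega
  · obtain ⟨hp', k, hk, hkS⟩ := K1
    exact wqa_last h2.1 hp' k p hp hk hkS
  · obtain ⟨hq', k, hk, hkS⟩ := K2
    rw [swap_comm p' q']
    exact wqa_last h1.1 hq' k q hq hk hkS

/-- `q` on the path of `p` -/
private theorem wqa_both {g : Perm D} {S : D → Prop} {p q δ : D} {a b : ℕ} (hδ : S δ)
    (ha : (g ^ a) p = δ) (haS : ∀ j < a, ¬ S ((g ^ j) p)) (hb : (g ^ b) q = δ) (hab : b < a)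
    (e : D) : ¬ Hit (swap p q * g) S p e := by
  have hq : (g ^ (a - b)) p = q := by
    apply (g ^ b).injective
    rw [wqa_add, hb, Nat.add_sub_cancel' hab.le, ha]
  refine wqa_no (T := fun x => ∃ i < a - b, (g ^ i) p = x) ?_ ?_ ⟨0, by omega, rfl⟩ e
  · rintro x ⟨i, hi, rfl⟩
    have h1 : g ((g ^ i) p) = (g ^ (i + 1)) p := by rw [pow_succ', Perm.mul_apply]
    rw [Perm.mul_apply, h1]
    rcases Nat.lt_or_ge (i + 1) (a - b) with h2 | h2
    · have h3 : (g ^ (i + 1)) p ≠ p := fun h =>
        wqa_inj hδ ha haS (show 0 < i + 1 by omega) (by omega)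
          (by rw [pow_zero, Perm.one_apply, h])
      have h4 : (g ^ (i + 1)) p ≠ q := fun h =>
        wqa_inj hδ ha haS h2 (by omega) (h.trans hq.symm)
      rw [swap_apply_of_ne_of_ne h3 h4]
      exact ⟨i + 1, h2, rfl⟩
    · have h3 : i + 1 = a - b := by omega
      rw [h3, hq, swap_apply_right]
      exact ⟨0, by omega, rfl⟩
  · rintro x ⟨i, hi, rfl⟩
    exact haS i (by omega)

/-- `p` without hits, `q` with a hit -/
private theorem wqa_none {g : Perm D} {S : D → Prop} {p q δ : D} (hP : ∀ e, ¬ Hit g S p e)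
    (hQ : Hit g S q δ) : Hit (swap p q * g) S p δ ∧ Hit (swap p q * g) S q δ := by
  have K := wqa_keep hQ (hP δ)
  refine ⟨?_, K⟩
  have hcyc : ∀ m : ℕ, ¬ S ((g ^ m) p) := by
    intro m hm
    obtain ⟨e, h1⟩ := hit_exists (g := g) (S := S) (y := p) (s := (g ^ m) p)
      ⟨m, by rw [zpow_natCast]⟩ hm
    exact hP e h1
  have hpq : ¬ g.SameCycle p q := by
    intro h1
    obtain ⟨e, h3⟩ := hit_exists (h1.trans (hit_same hQ)) hQ.1
    exact hP e h3
  have hex : ∃ m : ℕ, (g ^ (m + 1)) p = p := by
    refine ⟨orderOf g - 1, ?_⟩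
    rw [Nat.sub_add_cancel (orderOf_pos g), pow_orderOf_eq_one, Perm.one_apply]
  classical
  refine wqa_jump K (Nat.find hex) p (fun i _ => hcyc i) (fun i hi hi' => ⟨?_, ?_⟩)
    (Nat.find_spec hex)
  · intro h3
    obtain ⟨i, rfl⟩ : ∃ m, i = m + 1 := ⟨i - 1, by omega⟩
    exact Nat.find_min hex (m := i) (by omega) h3
  · intro h3
    exact hpq ⟨i, by rw [zpow_natCast]; exact h3⟩

theorem one_end {g : Perm D} {S : D → Prop} {p q : D} (hp : ¬ S p) (hq : ¬ S q) (hpq : p ≠ q)
    (hen : ∀ δ δ', Hit g S p δ → Hit g S q δ' → δ = δ') :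
    fr (swap p q * g) S = fr g S ∧
    (∀ δ δ', Hit (swap p q * g) S p δ → Hit (swap p q * g) S q δ' → δ = δ') := by
  by_cases hP : ∃ δ, Hit g S p δ
  · obtain ⟨δ, hP⟩ := hP
    by_cases hQ : ∃ δ, Hit g S q δ
    · obtain ⟨δ', hQ⟩ := hQ
      have hdd := hen δ δ' hP hQ
      subst hdd
      refine ⟨by rw [fr_swap hP hQ, swap_self]; exact one_mul _, fun x y hx hy => ?_⟩
      obtain ⟨hδ, a, ha, haS⟩ := hP
      obtain ⟨_, b, hb, hbS⟩ := hQ
      rcases Nat.lt_trichotomy a b with h | h | h
      · rw [swap_comm] at hy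
        exact absurd hy (wqa_both hδ hb hbS ha h y)
      · subst h
        exact absurd ((g ^ a).injective (ha.trans hb.symm)) hpq
      · exact absurd hx (wqa_both hδ ha haS hb h x)
    · push Not at hQ
      refine ⟨by rw [swap_comm]; exact fr_swap_none hQ, fun x y hx hy => ?_⟩
      obtain ⟨h1, h2⟩ := wqa_none hQ hP
      rw [swap_comm] at h1 h2
      rw [hit_unique hx h2, hit_unique hy h1]
  · push Not at hP
    refine ⟨fr_swap_none hP, fun x y hx hy => ?_⟩
    by_cases hQ : ∃ δ, Hit g S q δ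
    · obtain ⟨δ, hQ⟩ := hQ
      obtain ⟨h1, h2⟩ := wqa_none hP hQ
      rw [hit_unique hx h1, hit_unique hy h2]
    · push Not at hQ
      exfalso
      refine wqa_no (T := fun x => g.SameCycle p x ∨ g.SameCycle q x) ?_ ?_
        (Or.inl (Perm.SameCycle.refl g p)) x hx
      · intro z hz
        have h1 : g.SameCycle p (g z) ∨ g.SameCycle q (g z) := by
          rcases hz with hz | hz
          · exact Or.inl (Perm.sameCycle_apply_right.2 hz)
          · exact Or.inr (Perm.sameCycle_apply_right.2 hz)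
        rw [Perm.mul_apply]
        by_cases e1 : g z = p
        · rw [e1, swap_apply_left]
          exact Or.inr (Perm.SameCycle.refl g q)
        · by_cases e2 : g z = q
          · rw [e2, swap_apply_right]
            exact Or.inl (Perm.SameCycle.refl g p)
          · rw [swap_apply_of_ne_of_ne e1 e2]
            exact h1
      · rintro z (hz | hz) hzS
        · obtain ⟨e, he⟩ := hit_exists hz hzS
          exact hP e he
        · obtain ⟨e, he⟩ := hit_exists hz hzS
          exact hQ e he

end QU91
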