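import Pool.Agent.H91.QU.Wqa

/-!
[H91 QU WQB]  (MP_bcc40c_pr, Q2, part (U))  The effect of the surgery, abstract form.

PROOFS.  Let `L = lev (a 0)`, `X i = swap (a i) (b i)` (it moves only points of level `L - i`), `Y i = swap (a' i) (b' i)` (level `L - i - 1`), `ρ' = swp a b k * swp a' b' k * ρ`.
Transpositions on different levels commute.  So with `G 0 = ρ`, `G 1 = X 0 * ρ`, `G (i+1) = X i * (Y (i-1) * G i)` for `1 ≤ i < k` we have `G j = swp a b j * swp a' b' (j-1) * ρ` for `1 ≤ j ≤ k` and `ρ' = Y (k-1) * G k`.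
Induction on `j` (1 ≤ j ≤ k): `lev (G j d) = lev d`; `G j d = ρ d` if `lev d ≤ L - j`; `fr (G j) S = X 0 * fr ρ S` (fr_mul for `j = 1`, one_mid for the steps); `cyc (G j) = cyc ρ + es (ρ.SameCycle (a 0) (b 0))` (cyc_sw, one_mid).
In the step `i → i+1` use one_mid for `g = G i`, `p = a' (i-1)`, `q = b' (i-1)`, `p' = a i`, `q' = b i`: the hits `Hit ρ S (a' (i-1)) (a i)` are hits of `G i` by hit_congr with `Q d := lev d = L - i` (there `G i = ρ`).
The last step: one_end for `g = G k`, `p = a' (k-1)`, `q = b' (k-1)` (level `L - k`, where `G k = ρ`; hits of `G k` on this level are hits of `ρ` by hit_congr, so `en` gives `hen`; `(G k).SameCycle (a' (k-1)) (b' (k-1)) ↔ ρ.SameCycle ..`: both permutations agree on the level `L - k`, which is invariant).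
wq_loc: values of `ρ'` on the level `L - i`: the other transpositions fix the points of this level.
wq_back: the hits of `ρ'` on level `L - i` (`1 ≤ i < k`): there `ρ' = X i * (Y (i-1) * ρ)` (wq_loc), so one_mid for `g = ρ` and hit_congr give `Hit ρ' S (a' (i-1)) (b i)` and `Hit ρ' S (b' (i-1)) (a i)`; `en`: on the level `L - k` `ρ' = Y (k-1) * ρ`: one_end for `g = ρ` and hit_congr.
wq_start, wq_end: the level is invariant and there `ρ' = X 0 * ρ` (resp. `Y (k-1) * ρ`), sc_sw.
wq_top: the set `{lev ≥ L}` is invariant under both permutations and they agree there.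
sc_agree: general: two permutations which agree on an invariant set have the same cycles there.
-/

set_option autoImplicit false

namespace QU91

open Equiv HG39 QD39 QL40

variable {D : Type} [Fintype D] [DecidableEq D]

theorem sc_agree {g g' : Perm D} {Q : D → Prop} (hQ : ∀ d, Q d → Q (g d))
    (hg : ∀ d, Q d → g' d = g d) {d e : D} (hd : Q d) : g'.SameCycle d e ↔ g.SameCycle d e := by
  have hpow : ∀ n : ℕ, Q ((g ^ n) d) ∧ (g' ^ n) d = (g ^ n) d := by
    intro n
    induction n with
    | zero => exact ⟨by simpa using hd, by simp⟩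
    | succ n ih =>
      obtain ⟨h1, h2⟩ := ih
      refine ⟨?_, ?_⟩
      · rw [pow_succ', Perm.mul_apply]
        exact hQ _ h1
      · rw [pow_succ', Perm.mul_apply, pow_succ', Perm.mul_apply, h2, hg _ h1]
  constructor
  · intro h
    obtain ⟨n, _, hn⟩ := h.exists_pow_eq'
    refine ⟨(n : ℤ), ?_⟩
    rw [zpow_natCast, ← (hpow n).2, hn]
  · intro h
    obtain ⟨n, _, hn⟩ := h.exists_pow_eq'
    refine ⟨(n : ℤ), ?_⟩
    rw [zpow_natCast, (hpow n).2, hn]

omit [Fintype D] in
private theorem wqb_lev {lev : D → ℤ} {p q : D} (h : lev p = lev q) (d : D) :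
    lev (swap p q d) = lev d := by
  by_cases h1 : d = p
  · rw [h1, swap_apply_left, h]
  · by_cases h2 : d = q
    · rw [h2, swap_apply_right, h]
    · rw [swap_apply_of_ne_of_ne h1 h2]

omit [Fintype D] in
private theorem wqb_fix {lev : D → ℤ} {p q : D} {c : ℤ} (hp : lev p = c) (hq : lev q = c) {d : D}
    (h : lev d ≠ c) : swap p q d = d := by
  apply swap_apply_of_ne_of_ne
  · intro h1
    rw [h1] at h
    exact h hp
  · intro h1
    rw [h1] at h
    exact h hq

private theorem wqb_out {lev : D → ℤ} {a b : ℕ → D} {L : ℤ} (m : ℕ)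
    (ha : ∀ i < m, lev (a i) = L - i) (hb : ∀ i < m, lev (b i) = L - i) {d : D}
    (h : ∀ i < m, lev d ≠ L - i) : swp a b m d = d := by
  induction m with
  | zero => rfl
  | succ m ih =>
    change (swp a b m * swap (a m) (b m)) d = d
    rw [Perm.mul_apply, wqb_fix (ha m (by omega)) (hb m (by omega)) (h m (by omega))]
    exact ih (fun i hi => ha i (by omega)) (fun i hi => hb i (by omega))
      fun i hi => h i (by omega)

private theorem wqb_at {lev : D → ℤ} {a b : ℕ → D} {L : ℤ} (m : ℕ)
    (ha : ∀ i < m, lev (a i) = L - i) (hb : ∀ i < m, lev (b i) = L - i) {d : D} {j : ℕ}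
    (hj : j < m) (h : lev d = L - j) : swp a b m d = swap (a j) (b j) d := by
  induction m with
  | zero => omega
  | succ m ih =>
    change (swp a b m * swap (a m) (b m)) d = _
    rw [Perm.mul_apply]
    rcases Nat.lt_or_ge j m with h1 | h1
    · rw [wqb_fix (ha m (by omega)) (hb m (by omega)) (d := d) (by omega)]
      exact ih (fun i hi => ha i (by omega)) (fun i hi => hb i (by omega)) h1
    · have h2 : j = m := by omega
      subst h2
      apply wqb_out (lev := lev) (L := L) j (fun i hi => ha i (by omega)) fun i hi => hb i (by omega)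
      intro i hi
      rw [wqb_lev (lev := lev) (by rw [ha j (by omega), hb j (by omega)]), h]
      omega

variable {ρ : Perm D} {S : D → Prop} {lev : D → ℤ} {k : ℕ} {a b a' b' : ℕ → D}

private theorem wqb_a' (h : Wq ρ S lev k a b a' b') (i : ℕ) (hi : i < k) :
    lev (a' i) = lev (a 0) - 1 - i := by
  rw [h.la' i hi]
  ring

private theorem wqb_b' (h : Wq ρ S lev k a b a' b') (i : ℕ) (hi : i < k) :
    lev (b' i) = lev (a 0) - 1 - i := by
  rw [h.lb' i hi]
  ring

private theorem wqb_mid (h : Wq ρ S lev k a b a' b') {j : ℕ} (h1 : 1 ≤ j) (h2 : j < k) {d : D}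
    (hd : lev d = lev (a 0) - j) : (swp a b k * swp a' b' k * ρ) d =
      (swap (a j) (b j) * (swap (a' (j - 1)) (b' (j - 1)) * ρ)) d := by
  rw [Perm.mul_apply, Perm.mul_apply, Perm.mul_apply, Perm.mul_apply]
  have h3 : lev (ρ d) = lev (a 0) - j := by rw [h.inv, hd]
  rw [wqb_at (lev := lev) (L := lev (a 0) - 1) k (wqb_a' h) (wqb_b' h) (j := j - 1) (by omega)
    (by rw [h3]; push_cast [Nat.cast_sub h1]; ring)]
  apply wqb_at (lev := lev) (L := lev (a 0)) k h.la h.lb h2
  rw [wqb_lev (lev := lev) (by rw [wqb_a' h _ (by omega), wqb_b' h _ (by omega)]), h3]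

private theorem wqb_last (h : Wq ρ S lev k a b a' b') {d : D} (hd : lev d = lev (a 0) - k) :
    (swp a b k * swp a' b' k * ρ) d = (swap (a' (k - 1)) (b' (k - 1)) * ρ) d := by
  have hk := h.kp
  rw [Perm.mul_apply, Perm.mul_apply, Perm.mul_apply]
  have h3 : lev (ρ d) = lev (a 0) - k := by rw [h.inv, hd]
  rw [wqb_at (lev := lev) (L := lev (a 0) - 1) k (wqb_a' h) (wqb_b' h) (j := k - 1) (by omega)
    (by rw [h3]; push_cast [Nat.cast_sub hk]; ring)]
  apply wqb_out (lev := lev) (L := lev (a 0)) k h.la h.lb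
  intro i hi
  rw [wqb_lev (lev := lev) (by rw [wqb_a' h _ (by omega), wqb_b' h _ (by omega)]), h3]
  omega

private theorem wqb_top (h : Wq ρ S lev k a b a' b') {d : D} (hd : lev (a 0) ≤ lev d) :
    (swp a b k * swp a' b' k * ρ) d = (swap (a 0) (b 0) * ρ) d := by
  have hk := h.kp
  rw [Perm.mul_apply, Perm.mul_apply, Perm.mul_apply]
  have h3 : lev (ρ d) = lev d := h.inv d
  rw [wqb_out (lev := lev) (L := lev (a 0) - 1) k (wqb_a' h) (wqb_b' h) (d := ρ d)
    (fun i _ => by omega)]
  rcases hd.lt_or_eq with h4 | h4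
  · rw [wqb_out (lev := lev) (L := lev (a 0)) k h.la h.lb (d := ρ d) (fun i _ => by omega),
      wqb_fix (lev := lev) (c := lev (a 0)) rfl (by rw [h.lb 0 (by omega)]; simp) (by omega)]
  · exact wqb_at (lev := lev) (L := lev (a 0)) k h.la h.lb (j := 0) (by omega)
      (by rw [h3, ← h4]; simp)

omit [Fintype D] in
private theorem wqb_comm {g : Perm D} {p q : D} (hp : g p = p) (hq : g q = q) :
    g * swap p q = swap p q * g := by
  rw [mul_swap_eq_swap_mul, hp, hq]

private theorem wqb_step (h : Wq ρ S lev k a b a' b') {j : ℕ} (h1 : 1 ≤ j) (h2 : j < k) :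
    swp a b (j + 1) * swp a' b' j * ρ = swap (a j) (b j) * (swap (a' (j - 1)) (b' (j - 1)) *
      (swp a b j * swp a' b' (j - 1) * ρ)) := by
  have ha := h.la
  have hb := h.lb
  obtain ⟨i, rfl⟩ : ∃ i, j = i + 1 := ⟨j - 1, by omega⟩
  rw [Nat.add_sub_cancel]
  change (swp a b (i + 1) * swap (a (i + 1)) (b (i + 1))) *
    (swp a' b' i * swap (a' i) (b' i)) * ρ = _
  have e1 : swp a b (i + 1) * swap (a (i + 1)) (b (i + 1)) =
      swap (a (i + 1)) (b (i + 1)) * swp a b (i + 1) := by
    apply wqb_comm
    · apply wqb_out (lev := lev) (L := lev (a 0)) (i + 1) (fun m hm => ha m (by omega))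
        (fun m hm => hb m (by omega))
      intro m hm
      rw [ha (i + 1) (by omega)]
      push_cast
      omega
    · apply wqb_out (lev := lev) (L := lev (a 0)) (i + 1) (fun m hm => ha m (by omega))
        (fun m hm => hb m (by omega))
      intro m hm
      rw [hb (i + 1) (by omega)]
      push_cast
      omega
  have e2 : swp a' b' i * swap (a' i) (b' i) = swap (a' i) (b' i) * swp a' b' i := by
    apply wqb_comm
    · apply wqb_out (lev := lev) (L := lev (a 0) - 1) i (fun m hm => wqb_a' h m (by omega))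
        (fun m hm => wqb_b' h m (by omega))
      intro m hm
      rw [wqb_a' h i (by omega)]
      omega
    · apply wqb_out (lev := lev) (L := lev (a 0) - 1) i (fun m hm => wqb_a' h m (by omega))
        (fun m hm => wqb_b' h m (by omega))
      intro m hm
      rw [wqb_b' h i (by omega)]
      omega
  have e3 : swp a b (i + 1) * swap (a' i) (b' i) = swap (a' i) (b' i) * swp a b (i + 1) := by
    apply wqb_comm
    · apply wqb_out (lev := lev) (L := lev (a 0)) (i + 1) (fun m hm => ha m (by omega))
        (fun m hm => hb m (by omega))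
      intro m hm
      rw [wqb_a' h i (by omega)]
      omega
    · apply wqb_out (lev := lev) (L := lev (a 0)) (i + 1) (fun m hm => ha m (by omega))
        (fun m hm => hb m (by omega))
      intro m hm
      rw [wqb_b' h i (by omega)]
      omega
  rw [e1, e2]
  calc swap (a (i + 1)) (b (i + 1)) * swp a b (i + 1) * (swap (a' i) (b' i) * swp a' b' i) * ρ
      = swap (a (i + 1)) (b (i + 1)) * (swp a b (i + 1) * swap (a' i) (b' i)) * swp a' b' i * ρ := by
        simp only [mul_assoc]
    _ = _ := by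
        rw [e3]
        simp only [mul_assoc]

private theorem wqb_fin (h : Wq ρ S lev k a b a' b') :
    swp a b k * swp a' b' k * ρ = swap (a' (k - 1)) (b' (k - 1)) *
      (swp a b k * swp a' b' (k - 1) * ρ) := by
  have hk := h.kp
  obtain ⟨i, hi⟩ : ∃ i, k = i + 1 := ⟨k - 1, by omega⟩
  have e0 : swp a' b' k = swp a' b' i * swap (a' i) (b' i) := by
    rw [hi]
    rfl
  have e1 : k - 1 = i := by omega
  rw [e1]
  have e2 : swp a' b' i * swap (a' i) (b' i) = swap (a' i) (b' i) * swp a' b' i := by
    apply wqb_comm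
    · apply wqb_out (lev := lev) (L := lev (a 0) - 1) i (fun m hm => wqb_a' h m (by omega))
        (fun m hm => wqb_b' h m (by omega))
      intro m hm
      rw [wqb_a' h i (by omega)]
      omega
    · apply wqb_out (lev := lev) (L := lev (a 0) - 1) i (fun m hm => wqb_a' h m (by omega))
        (fun m hm => wqb_b' h m (by omega))
      intro m hm
      rw [wqb_b' h i (by omega)]
      omega
  have e3 : swp a b k * swap (a' i) (b' i) = swap (a' i) (b' i) * swp a b k := by
    apply wqb_comm
    · apply wqb_out (lev := lev) (L := lev (a 0)) k h.la h.lb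
      intro m hm
      rw [wqb_a' h i (by omega)]
      omega
    · apply wqb_out (lev := lev) (L := lev (a 0)) k h.la h.lb
      intro m hm
      rw [wqb_b' h i (by omega)]
      omega
  rw [e0, e2]
  calc swp a b k * (swap (a' i) (b' i) * swp a' b' i) * ρ
      = (swp a b k * swap (a' i) (b' i)) * swp a' b' i * ρ := by simp only [mul_assoc]
    _ = _ := by
        rw [e3]
        simp only [mul_assoc]

private theorem wqb_ind (h : Wq ρ S lev k a b a' b') (j : ℕ) (hj : j + 1 ≤ k) :
    (∀ d, lev ((swp a b (j + 1) * swp a' b' j * ρ) d) = lev d) ∧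
    (∀ d, lev d ≤ lev (a 0) - (j + 1 : ℕ) → (swp a b (j + 1) * swp a' b' j * ρ) d = ρ d) ∧
    fr (swp a b (j + 1) * swp a' b' j * ρ) S = swap (a 0) (b 0) * fr ρ S ∧
    (cyc (swp a b (j + 1) * swp a' b' j * ρ) : ℤ) = cyc ρ + es (ρ.SameCycle (a 0) (b 0)) := by
  induction j with
  | zero =>
    have h1 : swp a b (0 + 1) * swp a' b' 0 * ρ = swap (a 0) (b 0) * ρ := by
      change (1 * swap (a 0) (b 0)) * 1 * ρ = _
      rw [one_mul, mul_one]
    have hl : lev (b 0) = lev (a 0) := by
      rw [h.lb 0 (by omega)]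
      simp
    rw [h1]
    refine ⟨?_, ?_, ?_, ?_⟩
    · intro d
      rw [Perm.mul_apply, wqb_lev (lev := lev) hl.symm, h.inv]
    · intro d hd
      rw [Perm.mul_apply]
      apply wqb_fix (lev := lev) (c := lev (a 0)) rfl hl
      rw [h.inv]
      push_cast at hd
      omega
    · apply fr_mul
      intro d hd
      apply swap_apply_of_ne_of_ne
      · intro h2
        rw [h2] at hd
        exact hd (h.sa 0 (by omega))
      · intro h2
        rw [h2] at hd
        exact hd (h.sb 0 (by omega))
    · exact cyc_sw ρ (h.ne 0 (by omega))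
  | succ j ih =>
    obtain ⟨i1, i2, i3, i4⟩ := ih (by omega)
    have h1 := wqb_step h (j := j + 1) (by omega) (by omega)
    rw [Nat.add_sub_cancel] at h1
    rw [h1]
    obtain ⟨g, hg⟩ : ∃ g, g = swp a b (j + 1) * swp a' b' j * ρ := ⟨_, rfl⟩
    rw [← hg] at i1 i2 i3 i4 ⊢
    have la1 := h.la (j + 1) (by omega)
    have lb1 := h.lb (j + 1) (by omega)
    have la2 := wqb_a' h j (by omega)
    have lb2 := wqb_b' h j (by omega)
    push_cast at la1 lb1 i2
    have hh : ∀ y e, lev y = lev (a 0) - 1 - j → Hit ρ S y e → Hit g S y e := by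
      intro y e hy hit
      refine hit_congr (Q := fun d => lev d = lev (a 0) - 1 - j) ?_ ?_ ?_ hy hit
      · intro d hd _
        rw [h.inv]
        exact hd
      · intro d hd _
        apply i2
        omega
      · intro d _
        exact Iff.rfl
    obtain ⟨m1, m2, _, _⟩ := one_mid (g := g) (S := S) (h.na j (by omega)) (h.nb j (by omega))
      (hh _ _ la2 (h.ha j (by omega))) (hh _ _ lb2 (h.hb j (by omega))) (h.ne (j + 1) (by omega))
    refine ⟨?_, ?_, ?_, ?_⟩
    · intro d
      rw [Perm.mul_apply, Perm.mul_apply, wqb_lev (lev := lev) (by rw [la1, lb1]), wqb_lev (lev := lev) (by rw [la2, lb2]), i1]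
    · intro d hd
      push_cast at hd
      rw [Perm.mul_apply, Perm.mul_apply, i2 d (by omega)]
      have h3 := h.inv d
      rw [wqb_fix (lev := lev) (c := lev (a 0) - 1 - j) la2 lb2 (by omega)]
      exact wqb_fix (lev := lev) (c := lev (a 0) - (j + 1)) la1 lb1 (by omega)
    · rw [m1, i3]
    · rw [m2, i4]

private theorem wqb_g (h : Wq ρ S lev k a b a' b') : ∃ g,
    swp a b k * swp a' b' k * ρ = swap (a' (k - 1)) (b' (k - 1)) * g ∧
    (∀ d, lev (g d) = lev d) ∧ (∀ d, lev d ≤ lev (a 0) - k → g d = ρ d) ∧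
    fr g S = swap (a 0) (b 0) * fr ρ S ∧
    (cyc g : ℤ) = cyc ρ + es (ρ.SameCycle (a 0) (b 0)) := by
  have hk := h.kp
  have h1 := wqb_ind h (k - 1) (by omega)
  have h2 : k - 1 + 1 = k := by omega
  rw [h2] at h1
  exact ⟨_, wqb_fin h, h1⟩

theorem wq_inv (h : Wq ρ S lev k a b a' b') (d : D) :
    lev ((swp a b k * swp a' b' k * ρ) d) = lev d := by
  obtain ⟨g, h1, h2, _⟩ := wqb_g h
  have hk := h.kp
  rw [h1, Perm.mul_apply, wqb_lev (lev := lev) (by rw [wqb_a' h _ (by omega), wqb_b' h _ (by omega)]), h2]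

theorem wq_fr (h : Wq ρ S lev k a b a' b') :
    fr (swp a b k * swp a' b' k * ρ) S = swap (a 0) (b 0) * fr ρ S := by
  obtain ⟨g, h1, h2, h3, h4, _⟩ := wqb_g h
  have hk := h.kp
  have la2 := h.la' (k - 1) (by omega)
  have lb2 := h.lb' (k - 1) (by omega)
  have hc : ∀ y e, lev y = lev (a 0) - k → Hit g S y e → Hit ρ S y e := by
    intro y e hy hit
    refine hit_congr (Q := fun d => lev d = lev (a 0) - k) ?_ ?_ ?_ hy hit
    · intro d hd _
      rw [h2]
      exact hd
    · intro d hd _
      exact (h3 d (le_of_eq hd)).symm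
    · intro d _
      exact Iff.rfl
  obtain ⟨e1, _⟩ := one_end (g := g) (S := S) (h.na (k - 1) (by omega)) (h.nb (k - 1) (by omega))
    (h.ne' (k - 1) (by omega)) (fun δ δ' hd hd' =>
      h.en δ δ' (hc _ _ (by rw [la2]; push_cast [Nat.cast_sub hk]; ring) hd)
        (hc _ _ (by rw [lb2]; push_cast [Nat.cast_sub hk]; ring) hd'))
  rw [h1, e1, h4]

theorem wq_cyc (h : Wq ρ S lev k a b a' b') :
    (cyc (swp a b k * swp a' b' k * ρ) : ℤ) = cyc ρ + es (ρ.SameCycle (a 0) (b 0)) +
      es (ρ.SameCycle (a' (k - 1)) (b' (k - 1))) := by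
  obtain ⟨g, h1, h2, h3, _, h5⟩ := wqb_g h
  have hk := h.kp
  have la2 := h.la' (k - 1) (by omega)
  have h6 : g.SameCycle (a' (k - 1)) (b' (k - 1)) = ρ.SameCycle (a' (k - 1)) (b' (k - 1)) := by
    apply propext
    refine sc_agree (Q := fun d => lev d = lev (a 0) - k) ?_ ?_ ?_
    · intro d hd
      rw [h.inv]
      exact hd
    · intro d hd
      exact h3 d (le_of_eq hd)
    · rw [la2]
      push_cast [Nat.cast_sub hk]
      ring
  rw [h1, cyc_sw g (h.ne' (k - 1) (by omega)), h5, h6]

theorem wq_back (h : Wq ρ S lev k a b a' b') :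
    Wq (swp a b k * swp a' b' k * ρ) S lev k a b b' a' := by
  have hk := h.kp
  have hinv := wq_inv h
  have hmid : ∀ i, i + 1 < k → Hit (swp a b k * swp a' b' k * ρ) S (a' i) (b (i + 1)) ∧
      Hit (swp a b k * swp a' b' k * ρ) S (b' i) (a (i + 1)) := by
    intro i hi
    obtain ⟨_, _, m3, m4⟩ := one_mid (g := ρ) (S := S) (h.na i (by omega)) (h.nb i (by omega))
      (h.ha i hi) (h.hb i hi) (h.ne (i + 1) hi)
    have hc : ∀ y e, lev y = lev (a 0) - (i + 1 : ℕ) →
        Hit (swap (a (i + 1)) (b (i + 1)) * (swap (a' i) (b' i) * ρ)) S y e →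
        Hit (swp a b k * swp a' b' k * ρ) S y e := by
      intro y e hy hit
      have hlev : ∀ d, lev d = lev (a 0) - (i + 1 : ℕ) → (swp a b k * swp a' b' k * ρ) d =
          (swap (a (i + 1)) (b (i + 1)) * (swap (a' i) (b' i) * ρ)) d := by
        intro d hd
        have h3 := wqb_mid h (j := i + 1) (by omega) hi hd
        rw [Nat.add_sub_cancel] at h3
        exact h3
      refine hit_congr (Q := fun d => lev d = lev (a 0) - (i + 1 : ℕ)) ?_ ?_ ?_ hy hit
      · intro d hd _
        rw [← hlev d hd, hinv]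
        exact hd
      · intro d hd _
        exact hlev d hd
      · intro d _
        exact Iff.rfl
    have la2 := wqb_a' h i (by omega)
    have lb2 := wqb_b' h i (by omega)
    exact ⟨hc _ _ (by rw [la2]; push_cast; ring) m3, hc _ _ (by rw [lb2]; push_cast; ring) m4⟩
  exact
    { kp := hk
      inv := hinv
      sa := h.sa
      sb := h.sb
      na := h.nb
      nb := h.na
      la := h.la
      lb := h.lb
      la' := h.lb'
      lb' := h.la'
      ne := h.ne
      ne' := fun i hi => (h.ne' i hi).symm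
      ha := fun i hi => (hmid i hi).2
      hb := fun i hi => (hmid i hi).1
      en := by
        intro δ δ' hd hd'
        have la2 := h.la' (k - 1) (by omega)
        have lb2 := h.lb' (k - 1) (by omega)
        have hc : ∀ y e, lev y = lev (a 0) - k → Hit (swp a b k * swp a' b' k * ρ) S y e →
            Hit (swap (a' (k - 1)) (b' (k - 1)) * ρ) S y e := by
          intro y e hy hit
          refine hit_congr (Q := fun d => lev d = lev (a 0) - k) ?_ ?_ ?_ hy hit
          · intro d hd _
            rw [hinv]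
            exact hd
          · intro d hd _
            exact (wqb_last h hd).symm
          · intro d _
            exact Iff.rfl
        obtain ⟨_, e2⟩ := one_end (g := ρ) (S := S) (h.na (k - 1) (by omega))
          (h.nb (k - 1) (by omega)) (h.ne' (k - 1) (by omega)) h.en
        exact (e2 δ' δ (hc _ _ (by rw [la2]; push_cast [Nat.cast_sub hk]; ring) hd')
          (hc _ _ (by rw [lb2]; push_cast [Nat.cast_sub hk]; ring) hd)).symm }

theorem wq_start (h : Wq ρ S lev k a b a' b') :
    (swp a b k * swp a' b' k * ρ).SameCycle (a 0) (b 0) ↔ ¬ ρ.SameCycle (a 0) (b 0) := by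
  have hk := h.kp
  rw [← sc_sw ρ (h.ne 0 (by omega))]
  refine sc_agree (Q := fun d => lev d = lev (a 0)) ?_ ?_ rfl
  · intro d hd
    rw [Perm.mul_apply, wqb_lev (lev := lev) (by rw [h.lb 0 (by omega)]; simp), h.inv]
    exact hd
  · intro d hd
    exact wqb_top h (le_of_eq hd.symm)

theorem wq_top (h : Wq ρ S lev k a b a' b') {d e : D} (hd : lev (a 0) ≤ lev d) :
    (swp a b k * swp a' b' k * ρ).SameCycle d e ↔ (swap (a 0) (b 0) * ρ).SameCycle d e := by
  have hk := h.kp
  refine sc_agree (Q := fun d => lev (a 0) ≤ lev d) ?_ ?_ hd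
  · intro d hd
    rw [Perm.mul_apply, wqb_lev (lev := lev) (by rw [h.lb 0 (by omega)]; simp), h.inv]
    exact hd
  · intro d hd
    exact wqb_top h hd

end QU91
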